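import Pool.Agent.H72.Cardy.NZ

/-! Only re-exports `Pool.Agent.H72.Cardy.NZ` (definitions `Gen`, `NZ`). -/
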