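
import Pool.Agent.H75.Exact.StripExact

/-! Cardy's formula in the L-shaped strip: definitions of the percolation side and of the link side. -/

set_option autoImplicit false
open Finset MeasureTheory Filter Topology

namespace Pool.Agent.H72.CardyP

open Pool.Agent.H75.Exact Pool.Agent.H75.Exact.Lk
open Pool.Agent.H65.Perc (PConf planeMeasure)

/-! ## Domain and event -/

/-- vertices of the L-shaped domain: width `2 n + 1` below the diagonal `y = x`, width `2 m + 1`
above it -/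
def InL (m n : ℕ) (u : ℤ × ℤ) : Prop :=
  -1 ≤ u.1 + u.2 ∧ (u.2 ≤ u.1 → u.1 + u.2 ≤ 2 * n) ∧ (u.1 < u.2 → u.1 + u.2 ≤ 2 * m)

/-- open edges of the L-shaped domain -/
def lGraph (m n : ℕ) (ω : PConf) : SimpleGraph (ℤ × ℤ) :=
  SimpleGraph.fromRel (fun u v => InL m n u ∧ InL m n v ∧
    ((v = (u.1 + 1, u.2) ∧ ω (u, true) = true) ∨ (v = (u.1, u.2 + 1) ∧ ω (u, false) = true)))

/-- the right side of the wide part is connected to the right side of the narrow part -/
def LCross (m n : ℕ) (ω : PConf) : Prop :=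
  ∃ u v : ℤ × ℤ, u.1 + u.2 = 2 * n ∧ u.2 ≤ u.1 ∧ v.1 + v.2 = 2 * m ∧ v.1 ≤ v.2 ∧
    (lGraph m n ω).Reachable u v

/-! ## Exploration -/

/-- `eA`, `eB`, `lay` with an integer time -/
def eAZ (t : ℤ) (i : ℕ) : (ℤ × ℤ) × Bool :=
  if i % 2 = 0 then ((((i / 2 - 1 : ℕ) : ℤ) + t, ((i / 2 - 1 : ℕ) : ℤ) - t - 1), false)
  else ((((i / 2 : ℕ) : ℤ) + t - 1, ((i / 2 : ℕ) : ℤ) - t - 1), true)

def eBZ (t : ℤ) (i : ℕ) : (ℤ × ℤ) × Bool :=
  if i % 2 = 0 then ((((i / 2 - 1 : ℕ) : ℤ) + t, ((i / 2 - 1 : ℕ) : ℤ) - t - 1), true)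
  else ((((i / 2 : ℕ) : ℤ) + t, ((i / 2 : ℕ) : ℤ) - t - 2), false)

def layZ (n : ℕ) (t : ℤ) : List (ℕ × ((ℤ × ℤ) × Bool)) :=
  ((List.range (2 * n + 1)).map fun j => (j + 2, eAZ t (j + 2))) ++
  ((List.range (2 * n + 1)).map fun j => (j + 2, eBZ t (j + 2))).reverse

/-- the partition after `T` layers of width `n`, starting at time `t₀` from `c₀` -/
noncomputable def runZ (n : ℕ) (t₀ : ℤ) (c₀ : Setoid (Pt n)) (ω : PConf) : ℕ → Setoid (Pt n)
  | 0 => c₀
  | T + 1 => down ((layZ n (t₀ + T)).foldl (stepE n ω) (up (runZ n t₀ c₀ ω T)))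

/-- points of the wide strip in terms of the narrow one: the source is the wall of the narrow strip,
to which column `m` also belongs -/
def extMap (m : ℕ) {n : ℕ} : Pt n → Option (Pt m)
  | none => some W
  | some none => none
  | some (some k) => if h : (k : ℕ) < m then some (col ⟨k, h⟩) else if (k : ℕ) = m then some W else none

/-- initial partition of the wide strip -/
def ext (m n : ℕ) (c : Setoid (Pt m)) : Setoid (Pt n) where
  r u v := u = v ∨ ∃ u' v', extMap m u = some u' ∧ extMap m v = some v' ∧ c u' v'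
  iseqv := by
    refine ⟨fun u => Or.inl rfl, ?_, ?_⟩
    · rintro u v (h | ⟨u', v', h1, h2, h3⟩)
      · exact Or.inl h.symm
      · exact Or.inr ⟨v', u', h2, h1, c.symm h3⟩
    · rintro u v w (rfl | ⟨u', v', h1, h2, h3⟩) (rfl | ⟨v'', w', g1, g2, g3⟩)
      · exact Or.inl rfl
      · exact Or.inr ⟨v'', w', g1, g2, g3⟩
      · exact Or.inr ⟨u', v', h1, h2, h3⟩
      · have : v' = v'' := by rw [h2] at g1; exact Option.some.inj g1
        subst this
        exact Or.inr ⟨u', w', h1, g2, c.trans h3 g3⟩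

/-- pairs (covector, partition) of one-defect link states; `σ` = spin of the defect -/
inductive RepP (a : ℂ) (σ : Bool) : ℕ → Cov → Setoid ℕ → Prop
  | base : RepP a σ 0 (fun s => if s 1 = σ then 1 else 0) ⊥
  | cup {n : ℕ} {B : Cov} {c : Setoid ℕ} (j : ℕ) (h1 : 1 ≤ j) (h2 : j ≤ 2 * n + 2)
      (h : RepP a σ n B c) : RepP a σ (n + 1) (Lk.cup a j B) (cupP j c)

/-- the partitions of `Pt n` which come from link states -/
def NC (n : ℕ) (c : Setoid (Pt n)) : Prop := ∃ B c', RepP 1 true n B c' ∧ c = c'.comap io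

/-- pairing on the sector with `j` down sites -/
noncomputable def GG (n j : ℕ) (Ψ : Finset ℕ → ℂ) (B : Cov) : ℂ :=
  ∑ D ∈ (Icc 1 (2 * n + 1)).powersetCard j, Ψ D * B (ind D)

/-- three defects with spins down, up, up -/
inductive Rep3d (a : ℂ) : ℕ → Cov → Setoid ℕ → Prop
  | base : Rep3d a 1 (fun s => if s 1 = true ∧ s 2 = false ∧ s 3 = false then 1 else 0) (C0N 1)
  | cup {n : ℕ} {B : Cov} {c : Setoid ℕ} (j : ℕ) (h1 : 1 ≤ j) (h2 : j ≤ 2 * n + 2)
      (h : Rep3d a n B c) : Rep3d a (n + 1) (Lk.cup a j B) (cupP j c)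

/-- the bottom link state `B'` (defect down) on the sites `1..2m+1`, up at `2m+2`, arcs on
`(2m+3,2m+4), …, (2n-1,2n)`, up at `2n+1` -/
noncomputable def compB (a : ℂ) (m n : ℕ) (B' : Cov) : Cov := fun s =>
  B' s * (if s (2 * m + 2) = false then 1 else 0) *
    (∏ k ∈ Ico (m + 1) n, if s (2 * k + 2) = !(s (2 * k + 1)) then wt a (s (2 * k + 1)) else 0) *
    (if s (2 * n + 1) = false then 1 else 0)

/-- extension of the partition: `0` joins the class of `m + 1` (the wall of the narrow strip = column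
`m` of the wide strip), all points `> m + 1` are singletons -/
def extN (m : ℕ) (c : Setoid ℕ) : Setoid ℕ := joinN 0 (m + 1) c

end Pool.Agent.H72.CardyP
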