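import Pool.Agent.H72.Cardy.PDefs

/-!
The stationary functional of the transfer matrix on the partitions of link states
(Doeblin condition); job CAR-P3.
-/

set_option autoImplicit false
open Finset MeasureTheory Filter Topology

namespace Pool.Agent.H72.CardyP

open Pool.Agent.H75.Exact Pool.Agent.H75.Exact.Lk

/-! ### The source is isolated -/

theorem RepP.zero {a : ℂ} {σ : Bool} {n : ℕ} {B : Cov} {c : Setoid ℕ} (h : RepP a σ n B c) :
    ∀ v, c 0 v → v = 0 := by
  induction h with
  | base =>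
    intro v hv
    exact hv.symm
  | @cup n B c j h1 h2 h ih =>
    intro v hv
    obtain ⟨p, rfl | rfl⟩ := Nat.even_or_odd' j
    · rw [cupP_even, comap_apply, mrg_le (Nat.zero_le p)] at hv
      have h3 := ih _ hv
      unfold mrg at h3
      split_ifs at h3 <;> omega
    · rw [cupP_odd, isoN_apply] at hv
      rcases hv with hv | ⟨-, -, hv⟩
      · exact hv.symm
      · rw [comap_apply, mrg_le (Nat.zero_le _)] at hv
        have h3 := ih _ hv
        unfold mrg at h3
        split_ifs at h3 <;> omega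

theorem NC_isol {n : ℕ} {c : Setoid (Pt n)} (h : NC n c) : Isol c := by
  obtain ⟨B, c', h1, rfl⟩ := h
  rw [isol_iff]
  intro u hu
  have h2 : c' (io (S : Pt n)) (io u) := hu
  have h3 : io u = 0 := h1.zero _ h2
  exact io_inj n h3

/-! ### Isolating everything -/

theorem sel_isol' {n : ℕ} (l : List ℕ) : ∀ c : Setoid (Pt n), Isol c → Isol (sel l c) := by
  induction l with
  | nil => exact fun c hc => hc
  | cons i l ih =>
    intro c hc
    unfold sel
    rw [List.foldl_cons]
    by_cases hi : i % 2 = 1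
    · rw [if_pos hi]
      exact ih _ (ee_isol i c hc)
    · rw [if_neg hi]
      exact ih _ hc

theorem down_sel_bot (n : ℕ) (c : Setoid (Pt n)) (hc : Isol c) :
    down (sel (layer n) (up c)) = ⊥ := by
  have hk : ∀ k : Fin n, ∀ u, (sel (layer n) (up c)) u (col k.succ) → u = col k.succ := by
    intro k
    refine sel_isol (layer n) k.succ (up c) (Or.inl ?_)
    unfold layer
    rw [List.mem_append]
    left
    rw [List.mem_map]
    refine ⟨2 * (k : ℕ) + 1, ?_, ?_⟩
    · rw [List.mem_range]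
      have := k.2
      omega
    · simp
      ring
  have hS := down_up_isol (sel_isol' (layer n) (up c) (up_isol hc))
  rw [isol_iff] at hS
  set d := down (sel (layer n) (up c)) with hd
  have hcol : ∀ (k : Fin n) (u : Pt n), d u (col k) → u = col k := by
    intro k u hu
    have h1 : (sel (layer n) (up c)) (emb u) (emb (col k)) := hu
    have h2 := hk k (emb u) h1
    exact emb_inj h2
  apply Setoid.ext
  intro u v
  constructor
  · intro huv
    show u = v
    rcases u with _ | _ | k
    · exact (hS v huv).symm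
    · rcases v with _ | _ | l
      · exact hS _ (d.symm huv)
      · rfl
      · exact hcol l _ huv
    · exact (hcol k v (d.symm huv)).symm
  · intro huv
    have : u = v := huv
    subst this
    exact d.refl u

/-! ### Averages -/

section Avg

variable {n : ℕ}

/-- apply the operators of the list -/
def app (l : List ℕ) (c : Setoid (Pt n)) : Setoid (Pt n) := l.foldl (fun d i => ee n i d) c

theorem foldr_cons' (H : Setoid (Pt n) → ℝ) (i : ℕ) (l : List ℕ) (c : Setoid (Pt n)) :
    (i :: l).foldr (fun i g => R (ee n i) g) H c =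
      ((l.foldr (fun i g => R (ee n i) g) H) c +
        (l.foldr (fun i g => R (ee n i) g) H) (ee n i c)) / 2 := rfl

theorem foldr_sub_le (H : Setoid (Pt n) → ℝ) (v D : ℝ) (l : List ℕ) :
    ∀ c, (∀ l' : List ℕ, |H (app l' c) - v| ≤ D) →
      |l.foldr (fun i g => R (ee n i) g) H c - v| ≤ D := by
  induction l with
  | nil => exact fun c hc => hc []
  | cons i l ih =>
    intro c hc
    rw [foldr_cons']
    have h1 := ih c hc
    have h2 := ih (ee n i c) fun l' => hc (i :: l')
    rw [abs_le] at h1 h2 ⊢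
    constructor <;> linarith [h1.1, h1.2, h2.1, h2.2]

theorem osc_le (H : Setoid (Pt n) → ℝ) (D : ℝ) (l : List ℕ) :
    ∀ c c', (∀ l' l'' : List ℕ, H (app l' c) - H (app l'' c') ≤ D) →
      l.foldr (fun i g => R (ee n i) g) H c - l.foldr (fun i g => R (ee n i) g) H c' ≤ D := by
  induction l with
  | nil => exact fun c c' hc => hc [] []
  | cons i l ih =>
    intro c c' hc
    rw [foldr_cons', foldr_cons']
    have h1 := ih c c' hc
    have h2 := ih (ee n i c) (ee n i c') fun l' l'' => hc (i :: l') (i :: l'')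
    linarith

theorem osc_step (H : Setoid (Pt n) → ℝ) (D : ℝ) (l : List ℕ) :
    ∀ c c', (∀ l' l'' : List ℕ, H (app l' c) - H (app l'' c') ≤ D) →
      H (sel l c) - H (sel l c') ≤ 0 →
      l.foldr (fun i g => R (ee n i) g) H c - l.foldr (fun i g => R (ee n i) g) H c' ≤
        (1 - (1 / 2) ^ l.length) * D := by
  induction l with
  | nil =>
    intro c c' _ h
    simpa [sel] using h
  | cons i l ih =>
    intro c c' hc hs
    rw [foldr_cons', foldr_cons', List.length_cons, pow_succ]
    unfold sel at hs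
    rw [List.foldl_cons, List.foldl_cons] at hs
    have hc2 : ∀ l' l'' : List ℕ, H (app l' (ee n i c)) - H (app l'' (ee n i c')) ≤ D :=
      fun l' l'' => hc (i :: l') (i :: l'')
    have g1 := osc_le H D l c c' hc
    have g2 := osc_le H D l (ee n i c) (ee n i c') hc2
    by_cases hi : i % 2 = 1
    · rw [if_pos hi, if_pos hi] at hs
      have h2 := ih (ee n i c) (ee n i c') hc2 hs
      nlinarith
    · rw [if_neg hi, if_neg hi] at hs
      have h2 := ih c c' hc hs
      nlinarith

end Avg

/-! ### Linearity of the transfer matrix -/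

theorem TT_add (n : ℕ) (g g' : Setoid (Pt n) → ℝ) : TT n (g + g') = TT n g + TT n g' := by
  funext c
  rw [Pi.add_apply, TT_eq, TT_eq, TT_eq, ← mul_add]
  congr 1
  rw [← Pi.add_apply, ← map_add]
  rfl

theorem TT_smul (n : ℕ) (r : ℝ) (g : Setoid (Pt n) → ℝ) : TT n (r • g) = r • TT n g := by
  funext c
  rw [Pi.smul_apply, TT_eq, TT_eq, smul_eq_mul, mul_left_comm]
  congr 1
  have h := map_smul (PR (EL (n + 1)) 2 (2 * n + 1) * QR (EL (n + 1)) 2 (2 * n + 1)) r
    (fun d => g (down d))
  exact congrFun h (up c)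

/-- the transfer matrix as a linear map -/
noncomputable def TL (n : ℕ) : Module.End ℝ (Setoid (Pt n) → ℝ) where
  toFun := TT n
  map_add' := TT_add n
  map_smul' := TT_smul n

theorem TL_pow (n M : ℕ) (g : Setoid (Pt n) → ℝ) : (TL n ^ M) g = (TT n)^[M] g := by
  rw [Module.End.pow_apply]
  rfl

theorem TT_one (n : ℕ) : TT n (fun _ => (1 : ℝ)) = fun _ => 1 := by
  funext c
  unfold TT
  exact foldr_const (fun _ => True) (fun _ _ _ => trivial) _ 1 (fun _ _ => rfl) _ _ trivial

/-! ### The stationary functional -/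

section Stat

variable {m : ℕ}

/-- oscillation on the partitions of link states -/
def Osc (g : Setoid (Pt m) → ℝ) (D : ℝ) : Prop := ∀ c c', NC m c → NC m c' → g c - g c' ≤ D

theorem Osc.abs {g : Setoid (Pt m) → ℝ} {D : ℝ} (h : Osc g D) {c c' : Setoid (Pt m)}
    (hc : NC m c) (hc' : NC m c') : |g c - g c'| ≤ D := by
  rw [abs_le]
  have h1 := h c c' hc hc'
  have h2 := h c' c hc' hc
  constructor <;> linarith

theorem length_layer (n : ℕ) : (layer n).length = 4 * n + 2 := by
  unfold layer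
  simp
  ring

variable (hTT : ∀ l : List ℕ, ∀ c, NC m c →
  NC m (down (l.foldl (fun d i => ee (m + 1) i d) (up c))))

include hTT

theorem Osc.step {g : Setoid (Pt m) → ℝ} {D : ℝ} (h : Osc g D) :
    Osc (TT m g) ((1 - (1 / 2) ^ (4 * m + 2)) * D) := by
  intro c c' hc hc'
  have h1 := osc_step (fun d => g (down d)) D (layer m) (up c) (up c')
    (fun l' l'' => h _ _ (hTT l' c hc) (hTT l'' c' hc')) (by
      show g (down (sel (layer m) (up c))) - g (down (sel (layer m) (up c'))) ≤ 0
      rw [down_sel_bot m c (NC_isol hc), down_sel_bot m c' (NC_isol hc')]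
      simp)
  rw [length_layer] at h1
  exact h1

theorem Osc.iter {g : Setoid (Pt m) → ℝ} {D : ℝ} (h : Osc g D) (M : ℕ) :
    Osc ((TT m)^[M] g) ((1 - (1 / 2) ^ (4 * m + 2)) ^ M * D) := by
  induction M with
  | zero => simpa using h
  | succ M ih =>
    rw [Function.iterate_succ_apply', pow_succ, mul_comm _ (1 - _), mul_assoc]
    exact ih.step hTT

theorem TT_sub_le {g : Setoid (Pt m) → ℝ} {D : ℝ} (h : Osc g D) {c : Setoid (Pt m)}
    (hc : NC m c) : |TT m g c - g c| ≤ D :=
  foldr_sub_le (fun d => g (down d)) (g c) D (layer m) (up c)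
    fun l' => h.abs (hTT l' c hc) hc

theorem TT_congr {g g' : Setoid (Pt m) → ℝ} (h : ∀ c, NC m c → g c = g' c)
    (c : Setoid (Pt m)) (hc : NC m c) : TT m g c = TT m g' c := by
  have h1 : TT m (g - g') c = 0 := by
    have h2 := foldr_sub_le (fun d => (g - g') (down d)) 0 0 (layer m) (up c) (fun l' => by
      show |(g - g') (down (app l' (up c))) - 0| ≤ 0
      have h3 : g (down (app l' (up c))) = g' (down (app l' (up c))) := h _ (hTT l' c hc)
      rw [Pi.sub_apply, h3]
      simp)
    rw [sub_zero] at h2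
    exact abs_nonpos_iff.mp h2
  have h3 : TT m g = TT m (g - g') + TT m g' := by
    rw [← TT_add, sub_add_cancel]
  rw [h3, Pi.add_apply, h1, zero_add]

omit hTT in
theorem exists_osc (g : Setoid (Pt m) → ℝ) : ∃ D, 0 ≤ D ∧ Osc g D := by
  obtain ⟨C, hC⟩ := (Set.finite_range (fun c => |g c|)).bddAbove
  have hC' : ∀ c, |g c| ≤ C := fun c => hC ⟨c, rfl⟩
  have h0 : 0 ≤ C := (abs_nonneg _).trans (hC' ⊤)
  refine ⟨2 * C, by positivity, fun c c' _ _ => ?_⟩
  have h1 := abs_le.mp (hC' c)
  have h2 := abs_le.mp (hC' c')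
  linarith [h1.2, h2.1]

theorem exists_lim (hbot : NC m ⊥) (g : Setoid (Pt m) → ℝ) :
    ∃ x : ℝ, Tendsto (fun M : ℕ => ((TT m)^[M] g) ⊥) atTop (𝓝 x) := by
  obtain ⟨D, hD0, hD⟩ := exists_osc g
  have hr : (1 - (1 / 2 : ℝ) ^ (4 * m + 2)) < 1 := by
    have : (0 : ℝ) < (1 / 2) ^ (4 * m + 2) := by positivity
    linarith
  apply cauchySeq_tendsto_of_complete
  refine cauchySeq_of_le_geometric (1 - (1 / 2 : ℝ) ^ (4 * m + 2)) D hr fun M => ?_
  rw [dist_comm, Real.dist_eq, Function.iterate_succ_apply', mul_comm D]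
  exact TT_sub_le hTT (hD.iter hTT M) hbot

theorem tendsto_NC (hbot : NC m ⊥) (g : Setoid (Pt m) → ℝ) {x : ℝ}
    (hx : Tendsto (fun M : ℕ => ((TT m)^[M] g) ⊥) atTop (𝓝 x)) (c : Setoid (Pt m))
    (hc : NC m c) : Tendsto (fun M : ℕ => ((TT m)^[M] g) c) atTop (𝓝 x) := by
  obtain ⟨D, hD0, hD⟩ := exists_osc g
  have hr : (1 - (1 / 2 : ℝ) ^ (4 * m + 2)) < 1 := by
    have : (0 : ℝ) < (1 / 2) ^ (4 * m + 2) := by positivity
    linarith
  have hr0 : 0 ≤ (1 - (1 / 2 : ℝ) ^ (4 * m + 2)) := by
    have : (1 / 2 : ℝ) ^ (4 * m + 2) ≤ 1 := pow_le_one₀ (by norm_num) (by norm_num)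
    linarith
  have h1 : Tendsto (fun M : ℕ => (1 - (1 / 2 : ℝ) ^ (4 * m + 2)) ^ M * D) atTop (𝓝 0) := by
    have := (tendsto_pow_atTop_nhds_zero_of_lt_one hr0 hr).mul_const D
    rwa [zero_mul] at this
  have h2 : Tendsto (fun M : ℕ => ((TT m)^[M] g) c - ((TT m)^[M] g) ⊥) atTop (𝓝 0) :=
    squeeze_zero_norm (fun M => by
      rw [Real.norm_eq_abs]
      exact (hD.iter hTT M).abs hc hbot) h1
  have h3 := h2.add hx
  rw [zero_add] at h3
  refine h3.congr fun M => ?_
  ring

end Stat

theorem exists_stat (m : ℕ)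
    (hbot : NC m ⊥) (hee : ∀ i c, NC m c → NC m (ee m i c))
    (hTT : ∀ l : List ℕ, ∀ c, NC m c → NC m (down (l.foldl (fun d i => ee (m + 1) i d) (up c)))) :
    ∃ L : (Setoid (Pt m) → ℝ) →ₗ[ℝ] ℝ,
      (∀ g, Tendsto (fun M : ℕ => ((TT m)^[M] g) ⊥) atTop (𝓝 (L g))) ∧
      L (fun _ => 1) = 1 ∧
      (∀ g, L (fun c => ∑ i ∈ Icc 1 (2 * m), g (ee m i c)) = 2 * m * L g) ∧
      (∀ g g', (∀ c, NC m c → g c = g' c) → L g = L g') := by
  choose x hx using fun g => exists_lim hTT hbot g
  have hadd : ∀ g g', x (g + g') = x g + x g' := by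
    intro g g'
    refine tendsto_nhds_unique (hx (g + g')) (((hx g).add (hx g')).congr fun M => ?_)
    rw [← TL_pow, ← TL_pow, ← TL_pow, map_add, Pi.add_apply]
  have hsmul : ∀ (r : ℝ) g, x (r • g) = r • x g := by
    intro r g
    refine tendsto_nhds_unique (hx (r • g)) (((hx g).const_smul r).congr fun M => ?_)
    rw [← TL_pow, ← TL_pow, map_smul, Pi.smul_apply]
  refine ⟨{ toFun := x, map_add' := hadd, map_smul' := hsmul }, hx, ?_, ?_, ?_⟩
  · refine tendsto_nhds_unique (hx _) (tendsto_const_nhds.congr fun M => ?_)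
    have : (TT m)^[M] (fun _ => (1 : ℝ)) = fun _ => 1 := by
      induction M with
      | zero => rfl
      | succ M ih => rw [Function.iterate_succ_apply', ih, TT_one]
    rw [this]
  · intro g
    have hcomm : ∀ M : ℕ, (TT m)^[M] (fun c => ∑ i ∈ Icc 1 (2 * m), g (ee m i c)) =
        fun c => ∑ i ∈ Icc 1 (2 * m), ((TT m)^[M] g) (ee m i c) := by
      intro M
      induction M with
      | zero => rfl
      | succ M ih =>
        rw [Function.iterate_succ_apply', ih, Function.iterate_succ_apply']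
        funext c
        rw [TT_comm]
    have h1 : Tendsto (fun M : ℕ => ∑ i ∈ Icc 1 (2 * m), ((TT m)^[M] g) (ee m i ⊥)) atTop
        (𝓝 (∑ i ∈ Icc 1 (2 * m), x g)) :=
      tendsto_finsetSum _ fun i _ => tendsto_NC hTT hbot g (hx g) _ (hee i ⊥ hbot)
    have h2 := hx (fun c => ∑ i ∈ Icc 1 (2 * m), g (ee m i c))
    have h3 := tendsto_nhds_unique h2 (h1.congr fun M => by rw [hcomm])
    show x (fun c => ∑ i ∈ Icc 1 (2 * m), g (ee m i c)) = 2 * m * x g
    rw [h3, sum_const, Nat.card_Icc, nsmul_eq_mul]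
    push_cast
    simp
  · intro g g' h
    have h1 : ∀ M : ℕ, ∀ c, NC m c → ((TT m)^[M] g) c = ((TT m)^[M] g') c := by
      intro M
      induction M with
      | zero => exact h
      | succ M ih =>
        rw [Function.iterate_succ_apply', Function.iterate_succ_apply']
        exact TT_congr hTT ih
    exact tendsto_nhds_unique (hx g) ((hx g').congr fun M => (h1 M ⊥ hbot).symm)

end Pool.Agent.H72.CardyP
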