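import Pool.Agent.H72.Cardy.PDefs

/-! Three defects with spins down, up, up (job LINK-3, helper7). -/

set_option autoImplicit false
open Finset

namespace Pool.Agent.H72.CardyP

open Pool.Agent.H75.Exact Pool.Agent.H75.Exact.Lk

/-- base state of `Rep3d` -/
noncomputable def base3d : Cov := fun s => if s 1 = true ∧ s 2 = false ∧ s 3 = false then 1 else 0

lemma Rep3d.alive {a : ℂ} {n : ℕ} {B : Cov} {c : Setoid ℕ} (h : Rep3d a n B c) :
    ∃ p, 1 ≤ p ∧ p ≤ n ∧ c 0 p := by
  induction h with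
  | base => exact ⟨1, le_rfl, le_rfl, Or.inr ⟨by omega, le_rfl⟩⟩
  | @cup n B c j hj1 hj2 hB ih =>
    obtain ⟨p, h1, h2, h3⟩ := ih
    by_cases hp : p < (j + 1) / 2
    · refine ⟨p, h1, by omega, ?_⟩
      apply cupP_zero_of j n p hj1 hj2 c (by omega)
      rw [mrg_le (by omega)]
      exact h3
    · refine ⟨p + 1, by omega, by omega, ?_⟩
      apply cupP_zero_of j n (p + 1) hj1 hj2 c (by omega)
      rw [mrg_gt (by omega)]
      exact h3

lemma base3d_one (a : ℂ) : EE a 1 base3d = a⁻¹ • cup a 1 base1 := by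
  funext s
  simp only [EE, base3d, put, cup, base1, skip, Pi.smul_apply, smul_eq_mul]
  norm_num
  by_cases h : s 2 = !s 1
  · simp only [if_pos h]
    split_ifs <;> ring
  · simp only [if_neg h]

lemma base3d_two (a : ℂ) : EE a 2 base3d = 0 := by
  funext s
  simp [EE, base3d, put]

lemma Rep3d.step (a : ℂ) (ha0 : a ≠ 0) (ha : a⁻¹ * a⁻¹ + a * a = 1) {n : ℕ} {B : Cov}
    {c : Setoid ℕ} (h : Rep3d a n B c) : ∀ i, 1 ≤ i → i ≤ 2 * n →
      Rep3d a n (EE a i B) (eeP i c) ∨ (EE a i B = 0 ∧ Won n (eeP i c)) ∨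
      ∃ B', Rep1 a n B' ∧ EE a i B = a⁻¹ • B' ∧ Lost n (eeP i c) := by
  induction h with
  | base =>
    intro i h1 h2
    have : i = 1 ∨ i = 2 := by omega
    rcases this with rfl | rfl
    · right; right
      refine ⟨Lk.cup a 1 base1, Rep1.cup 1 (by omega) (by omega) Rep1.base, base3d_one a, ?_⟩
      intro p hp1 hp2
      rw [show (1 : ℕ) = 2 * 0 + 1 from rfl, eeP_odd, isoN_apply, C0N_apply]
      omega
    · right; left
      refine ⟨base3d_two a, ?_⟩
      unfold Won
      rw [show (2 : ℕ) = 2 * 1 from rfl, eeP_even, joinN_apply]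
      exact Or.inr (Or.inl ⟨Or.inr ⟨by omega, le_rfl⟩, Or.inl rfl⟩)
  | @cup n B c j hj1 hj2 hB ih =>
    intro i h1 h2
    have far : ∀ i', 1 ≤ i' → i' ≤ 2 * n →
        EE a i (Lk.cup a j B) = Lk.cup a j (EE a i' B) → eeP i (cupP j c) = cupP j (eeP i' c) →
        Rep3d a (n + 1) (EE a i (Lk.cup a j B)) (eeP i (cupP j c)) ∨
          (EE a i (Lk.cup a j B) = 0 ∧ Won (n + 1) (eeP i (cupP j c))) ∨
          ∃ B', Rep1 a (n + 1) B' ∧ EE a i (Lk.cup a j B) = a⁻¹ • B' ∧
            Lost (n + 1) (eeP i (cupP j c)) := by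
      intro i' hi1 hi2 e1 e2
      rw [e1, e2]
      rcases ih i' hi1 hi2 with h | ⟨h, h'⟩ | ⟨B', hB', h, h'⟩
      · exact Or.inl (Rep3d.cup j hj1 hj2 h)
      · right; left
        rw [h, cup_zero]
        exact ⟨rfl, h'.cup j hj1 hj2⟩
      · right; right
        refine ⟨Lk.cup a j B', Rep1.cup j hj1 hj2 hB', ?_, h'.cup j hj1 hj2⟩
        rw [h, cup_smul]
    rcases five i j with h | h | h | h | ⟨i', h, h'⟩
    · exact far i h1 (by omega) (EE_cup_lt a i j h B) (eeP_cupP_lt i j h1 h c)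
    · subst h
      left
      rw [EE_cup_pred a ha0, eeP_cupP_pred _ h1]
      exact Rep3d.cup i h1 (by omega) hB
    · subst h
      left
      rw [EE_cup_self a ha, eeP_cupP_self _ h1]
      exact Rep3d.cup i h1 (by omega) hB
    · subst h
      left
      rw [EE_cup_succ a ha0, eeP_cupP_succ _ hj1]
      exact Rep3d.cup (j + 1) (by omega) (by omega) hB
    · subst h
      exact far i' (by omega) (by omega) (EE_cup_gt a i' j h' B) (eeP_cupP_gt i' j hj1 h' c)

lemma Rep3d.fin (a : ℂ) (n : ℕ) : {x : Cov × Setoid ℕ | Rep3d a n x.1 x.2}.Finite := by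
  induction n with
  | zero =>
    apply Set.finite_empty.subset
    rintro ⟨B, c⟩ hB
    cases hB
  | succ n ih =>
    apply ((Set.finite_singleton (base3d, C0N 1)).union
      ((Finset.Icc 1 (2 * n + 2)).finite_toSet.biUnion
      (fun j _ => ih.image (fun x => (Lk.cup a j x.1, cupP j x.2))))).subset
    rintro ⟨B, c⟩ hB
    change Rep3d a (n + 1) B c at hB
    cases hB with
    | base => exact Or.inl rfl
    | @cup _ B' c' j h1 h2 h =>
      right
      simp only [Set.mem_iUnion]
      exact ⟨j, by simp [h1, h2], (B', c'), h, rfl⟩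

/-- pairing with one-defect states -/
lemma G_rep1 (q a : ℂ) (h1 : a⁻¹ * a⁻¹ = -q) (h2 : a * a = -q⁻¹) (ha0 : a ≠ 0)
    (hl : a⁻¹ * a⁻¹ + a * a = 1) (n : ℕ) (Ψ : Finset ℕ → ℂ) (hΨ : HEig q n Ψ) (B : Cov)
    (hB : Rep1 a n B) : G n Ψ B = fA a n Ψ := by
  set V := fA a n Ψ with hV
  have hharm := harmonic q a h1 h2 ha0 n Ψ hΨ
  have := maxprin {B : Cov | Rep1 a n B} (Rep1.fin a n) (2 * n) (EE a)
    (fun B => G n Ψ B - V) ?_ ?_ (w1 n) ?_ ?_ B hB
  · exact sub_eq_zero.1 this
  · intro B _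
    rw [Finset.sum_sub_distrib, hharm B, Finset.sum_const, Nat.card_Icc, nsmul_eq_mul]
    push_cast
    ring
  · intro B hB i hi
    rw [Finset.mem_Icc] at hi
    exact Or.inl (Rep1.step a ha0 hl hB i hi.1 hi.2)
  · intro i hi
    rw [Finset.mem_Icc]
    have := w1_mem n i hi
    omega
  · intro B hB _
    rw [Rep1.foldl_w1 a ha0 hl n B hB, ← L1_eq, G_L1, hV, sub_self]

theorem rep3d_pair (q a : ℂ) (hq : q ^ 2 + q + 1 = 0) (ha : a ^ 2 = -q ^ 2) (n : ℕ) (hn : 1 ≤ n)
    (Ψ : Finset ℕ → ℂ) (hΨ : HEig q n Ψ) (h : Setoid (Pt n) → ℝ) (hh : Harm n h)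
    (B : Cov) (c : Setoid ℕ) (hB : Rep3d a n B c) :
    GG n n Ψ B = a⁻¹ * (1 - h (c.comap io)) * fA a n Ψ := by
  obtain ⟨N, rfl⟩ : ∃ N, n = N + 1 := ⟨n - 1, by omega⟩
  have hq0 : q ≠ 0 := by
    rintro rfl
    norm_num at hq
  have ha0 : a ≠ 0 := by
    rintro rfl
    apply hq0
    have : q ^ 2 = 0 := by linear_combination ha
    exact pow_eq_zero_iff (two_ne_zero) |>.1 this
  have hq3 : q ^ 3 = 1 := by linear_combination (q - 1) * hq
  have hqi : q⁻¹ = q ^ 2 := by
    field_simp
    linear_combination -hq3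
  have h2 : a * a = -q⁻¹ := by rw [hqi]; linear_combination ha
  have h1 : a⁻¹ * a⁻¹ = -q := by
    rw [← mul_inv, h2, inv_neg, inv_inv]
  have hl : a⁻¹ * a⁻¹ + a * a = 1 := by
    rw [h1, h2, hqi]; linear_combination -hq
  have hharm := harmonic q a h1 h2 ha0 (N + 1) Ψ hΨ
  have H1 := G_rep1 q a h1 h2 ha0 hl (N + 1) Ψ hΨ
  set V := fA a (N + 1) Ψ with hV
  have hGG : GG (N + 1) (N + 1) Ψ B = G (N + 1) Ψ B := by
    unfold GG G
    exact Finset.sum_congr rfl fun D _ => mul_comm _ _
  rw [hGG]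
  have H3 := maxprin {x : Cov × Setoid ℕ | Rep3d a (N + 1) x.1 x.2} (Rep3d.fin a (N + 1))
    (2 * (N + 1)) (fun i x => (EE a i x.1, eeP i x.2))
    (fun x => G (N + 1) Ψ x.1 - a⁻¹ * (1 - h (x.2.comap io)) * V) ?_ ?_
    ((List.range (N + 1)).map (fun k => 2 * k + 1)) ?_ ?_
    (B, c) hB
  · exact sub_eq_zero.1 H3
  · rintro ⟨B, c⟩ _
    simp only []
    rw [Finset.sum_sub_distrib, hharm B, ← Finset.sum_mul, ← Finset.mul_sum,
      Finset.sum_sub_distrib, Finset.sum_const, Nat.card_Icc, nsmul_eq_mul, ← Complex.ofReal_sum]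
    have : ∑ i ∈ Icc 1 (2 * (N + 1)), h ((eeP i c).comap io) =
        2 * ((N + 1 : ℕ) : ℝ) * h (c.comap io) := by
      rw [← hh.2.2]
      refine Finset.sum_congr rfl fun i hi => ?_
      rw [Finset.mem_Icc] at hi
      rw [ee_comap (N + 1) i hi.1 hi.2]
    rw [this]
    push_cast
    ring
  · rintro ⟨B, c⟩ hx i hi
    rw [Finset.mem_Icc] at hi
    rcases Rep3d.step a ha0 hl hx i hi.1 hi.2 with g | ⟨g, g'⟩ | ⟨B', hB', g, g'⟩
    · exact Or.inl g
    · right
      simp only [] at g g' ⊢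
      rw [g, G_zero, hh.1 _ g']
      simp
    · right
      simp only [] at g g' ⊢
      rw [g, G_smul, H1 B' hB', hh.2.1 _ ?_ ?_]
      · simp
      · exact g' (N + 1 + 1) (by omega) le_rfl
      · intro k
        exact g' (k + 1) (by omega) (by have := k.2; omega)
  · intro i hi
    rw [List.mem_map] at hi
    obtain ⟨k, hk, rfl⟩ := hi
    rw [List.mem_range] at hk
    rw [Finset.mem_Icc]
    omega
  · rintro x _ hx
    exfalso
    obtain ⟨p, hp1, hp2, hp3⟩ := Rep3d.alive hx
    exact foldl_odd a (N + 1) x p hp1 hp2 hp3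

/-! ### composition -/

/-- weight of the arc at `2k+1, 2k+2` -/
noncomputable def arcW (a : ℂ) (s : ℕ → Bool) (k : ℕ) : ℂ :=
  if s (2 * k + 2) = !(s (2 * k + 1)) then wt a (s (2 * k + 1)) else 0

lemma compB_apply (a : ℂ) (m n : ℕ) (B : Cov) (s : ℕ → Bool) :
    compB a m n B s = B s * (if s (2 * m + 2) = false then 1 else 0) *
      (∏ k ∈ Ico (m + 1) n, arcW a s k) * (if s (2 * n + 1) = false then 1 else 0) := rfl

lemma arcW_skip (a : ℂ) (j k : ℕ) (hj : j ≤ 2 * k + 1) (s : ℕ → Bool) :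
    arcW a (skip j s) k = arcW a s (k + 1) := by
  unfold arcW
  have e1 : skip j s (2 * k + 2) = s (2 * (k + 1) + 2) := by
    simp only [skip]; rw [if_neg (by omega)]; congr 1
  have e2 : skip j s (2 * k + 1) = s (2 * (k + 1) + 1) := by
    simp only [skip]; rw [if_neg (by omega)]; congr 1
  rw [e1, e2]

lemma compB_base (a : ℂ) (n : ℕ) :
    compB a 0 (n + 1 + 1) (fun s => if s 1 = true then 1 else 0) =
      Lk.cup a 3 (compB a 0 (n + 1) (fun s => if s 1 = true then 1 else 0)) := by
  funext s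
  have e : Lk.cup a 3 (compB a 0 (n + 1) (fun s => if s 1 = true then 1 else 0)) s =
    if s (3 + 1) = !(s 3) then wt a (s 3) *
      compB a 0 (n + 1) (fun s => if s 1 = true then 1 else 0) (skip 3 s) else 0 := rfl
  rw [e, compB_apply, compB_apply]
  have h1 : skip 3 s 1 = s 1 := rfl
  have h2 : skip 3 s (2 * 0 + 2) = s (2 * 0 + 2) := rfl
  have h9 : skip 3 s (2 * (n + 1) + 1) = s (2 * (n + 1 + 1) + 1) := by
    simp only [skip]; rw [if_neg (by omega)]; congr 1
  have h3 : ∀ k ∈ Ico (0 + 1) (n + 1), arcW a (skip 3 s) k = arcW a s (k + 1) := by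
    intro k hk
    rw [Finset.mem_Ico] at hk
    exact arcW_skip a 3 k (by omega) s
  simp only [h1, h2, h9]
  rw [Finset.prod_congr rfl h3, Finset.prod_Ico_add' (arcW a s) (0 + 1) (n + 1) 1,
    Finset.prod_eq_prod_Ico_succ_bot (by omega : 0 + 1 < n + 1 + 1) (arcW a s)]
  have e4 : arcW a s (0 + 1) = if s (3 + 1) = !(s 3) then wt a (s 3) else 0 := rfl
  rw [e4]
  by_cases h : s (3 + 1) = !(s 3)
  · rw [if_pos h, if_pos h]
    ring
  · rw [if_neg h, if_neg h]
    ring

lemma compB_cup (a : ℂ) (m n j : ℕ) (hmn : m < n) (hj : j ≤ 2 * m + 2) (B : Cov) :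
    compB a (m + 1) (n + 1) (Lk.cup a j B) = Lk.cup a j (compB a m n B) := by
  funext s
  have e : Lk.cup a j (compB a m n B) s =
    if s (j + 1) = !(s j) then wt a (s j) * compB a m n B (skip j s) else 0 := rfl
  have e' : Lk.cup a j B s =
    if s (j + 1) = !(s j) then wt a (s j) * B (skip j s) else 0 := rfl
  rw [e, compB_apply, compB_apply, e']
  have h2 : skip j s (2 * m + 2) = s (2 * (m + 1) + 2) := by
    simp only [skip]; rw [if_neg (by omega)]; congr 1
  have h9 : skip j s (2 * n + 1) = s (2 * (n + 1) + 1) := by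
    simp only [skip]; rw [if_neg (by omega)]; congr 1
  have h3 : ∀ k ∈ Ico (m + 1) n, arcW a (skip j s) k = arcW a s (k + 1) := by
    intro k hk
    rw [Finset.mem_Ico] at hk
    exact arcW_skip a j k (by omega) s
  rw [h2, h9, Finset.prod_congr rfl h3, Finset.prod_Ico_add' (arcW a s) (m + 1) n 1]
  by_cases h : s (j + 1) = !(s j)
  · rw [if_pos h, if_pos h]
    ring
  · rw [if_neg h, if_neg h]
    ring

lemma extN_cup (m j : ℕ) (h1 : 1 ≤ j) (h2 : j ≤ 2 * m + 2) (c : Setoid ℕ) :
    extN (m + 1) (cupP j c) = cupP j (extN m c) := by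
  unfold extN
  obtain ⟨p, rfl | rfl⟩ := Nat.even_or_odd' j
  · rw [cupP_even, cupP_even, joinN_comap, mrg_le (Nat.zero_le _), mrg_gt (by omega),
      Nat.add_sub_cancel]
  · rw [cupP_odd, cupP_odd, isoN_joinN _ _ _ _ (by omega) (by omega), joinN_comap,
      mrg_le (Nat.zero_le _), mrg_gt (by omega), Nat.add_sub_cancel]

lemma extN_base : extN 0 ⊥ = C0N 1 := by
  apply Setoid.ext
  intro u v
  unfold extN
  rw [joinN_apply, C0N_apply]
  have hb : ∀ x y : ℕ, (⊥ : Setoid ℕ) x y ↔ x = y := fun x y => Iff.rfl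
  rw [hb, hb, hb, hb, hb]
  omega

lemma compB_one (a : ℂ) : compB a 0 1 (fun s => if s 1 = true then 1 else 0) = base3d := by
  funext s
  rw [compB_apply]
  simp only [base3d, zero_add, mul_zero, mul_one, Finset.Ico_self, Finset.prod_empty]
  by_cases h1 : s 1 = true
  · by_cases h2 : s 2 = false
    · by_cases h3 : s (2 + 1) = false
      · simp [h1, h2, h3]
      · simp [h1, h2, h3]
    · simp [h1, h2]
  · simp [h1]

theorem compB_rep (a : ℂ) (m n : ℕ) (hmn : m < n) (B' : Cov) (c' : Setoid ℕ)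
    (h : RepP a true m B' c') : Rep3d a n (compB a m n B') (extN m c') := by
  induction h generalizing n with
  | base =>
    obtain ⟨n, rfl⟩ : ∃ n', n = n' + 1 := ⟨n - 1, by omega⟩
    rw [extN_base]
    clear hmn
    induction n with
    | zero =>
      rw [compB_one]
      exact Rep3d.base
    | succ n ih =>
      rw [compB_base, C0N_one]
      exact Rep3d.cup 3 (by omega) (by omega) ih
  | @cup m B c j h1 h2 h ih =>
    obtain ⟨n, rfl⟩ : ∃ n', n = n' + 1 := ⟨n - 1, by omega⟩
    rw [compB_cup a m n j (by omega) h2, extN_cup m j h1 h2]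
    exact Rep3d.cup j h1 (by omega) (ih n (by omega))

lemma RepP.suppL {a : ℂ} {σ : Bool} {n : ℕ} {B : Cov} {c : Setoid ℕ} (h : RepP a σ n B c) :
    ∀ u v : ℕ, u ≠ v → c u v → 1 ≤ u ∧ u ≤ n + 1 ∧ 1 ≤ v ∧ v ≤ n + 1 := by
  induction h with
  | base =>
    intro u v huv hc
    exact absurd hc huv
  | @cup n B c j h1 h2 h ih =>
    intro u v huv hc
    obtain ⟨p, rfl | rfl⟩ := Nat.even_or_odd' j
    · rw [cupP_even, comap_apply] at hc
      by_cases he : mrg p u = mrg p v
      · unfold mrg at he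
        split_ifs at he <;> omega
      · have := ih _ _ he hc
        unfold mrg at this
        split_ifs at this <;> omega
    · rw [cupP_odd, isoN_apply, comap_apply] at hc
      rcases hc with hc | ⟨g1, g2, hc⟩
      · exact absurd hc huv
      by_cases he : mrg (p + 1) u = mrg (p + 1) v
      · unfold mrg at he
        split_ifs at he <;> omega
      · have := ih _ _ he hc
        unfold mrg at this
        split_ifs at this <;> omega

theorem extN_comap (a : ℂ) (m n : ℕ) (hmn : m < n) (B' : Cov) (c' : Setoid ℕ)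
    (h : RepP a true m B' c') : (extN m c').comap (io (n := n)) = ext m n (c'.comap io) := by
  have hs := RepP.suppL h
  -- value of `extMap`
  have key : ∀ u : Pt n, (io u = 0 ∧ extMap m u = some W) ∨
      (∃ w : Pt m, extMap m u = some w ∧ io w = io u ∧ 1 ≤ io u ∧ io u ≤ m + 1) ∨
      (extMap m u = none ∧ m + 1 < io u) := by
    rintro (_ | _ | k)
    · exact Or.inl ⟨rfl, rfl⟩
    · exact Or.inr (Or.inr ⟨rfl, by simp only [io]; omega⟩)
    · by_cases h1 : (k : ℕ) < m
      · right; left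
        refine ⟨col ⟨k, h1⟩, ?_, rfl, ?_, ?_⟩
        · simp only [extMap]; rw [dif_pos h1]
        · simp only [io]; omega
        · simp only [io]; omega
      · by_cases h2 : (k : ℕ) = m
        · right; left
          refine ⟨W, ?_, ?_, ?_, ?_⟩
          · simp only [extMap]; rw [dif_neg h1, if_pos h2]
          · simp only [io, W]; omega
          · simp only [io]; omega
          · simp only [io]; omega
        · right; right
          refine ⟨?_, ?_⟩
          · simp only [extMap]; rw [dif_neg h1, if_neg h2]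
          · simp only [io]; omega
  have hW : io (W : Pt m) = m + 1 := rfl
  have no0 : ∀ x, c' 0 x → x = 0 := by
    intro x hx
    by_contra hne
    have := hs 0 x (Ne.symm hne) hx
    omega
  have no1 : ∀ x y, m + 1 < x → c' x y → y = x := by
    intro x y hx hxy
    by_contra hne
    have := hs x y (Ne.symm hne) hxy
    omega
  apply Setoid.ext
  intro u v
  have g1 : (extN m c').comap (io (n := n)) u v ↔ (c' (io u) (io v) ∨
    (c' (io u) 0 ∧ c' (io v) (m + 1)) ∨ (c' (io u) (m + 1) ∧ c' (io v) 0)) := Iff.rfl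
  have g2 : ext m n (c'.comap io) u v ↔ (u = v ∨ ∃ u' v', extMap m u = some u' ∧
    extMap m v = some v' ∧ c' (io u') (io v')) := Iff.rfl
  rw [g1, g2]
  constructor
  · rintro (h | ⟨h, h'⟩ | ⟨h, h'⟩)
    · rcases key u with ⟨k1, k2⟩ | ⟨w, k1, k2, k3, k4⟩ | ⟨k1, k2⟩
      · left
        apply io_inj n
        rw [k1] at h ⊢
        exact (no0 _ h).symm
      · rcases key v with ⟨l1, l2⟩ | ⟨w', l1, l2, l3, l4⟩ | ⟨l1, l2⟩
        · left
          apply io_inj n
          rw [l1] at h ⊢
          exact no0 _ (c'.symm h)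
        · right
          exact ⟨w, w', k1, l1, by rw [k2, l2]; exact h⟩
        · left
          apply io_inj n
          exact no1 _ _ l2 (c'.symm h)
      · left
        apply io_inj n
        exact (no1 _ _ k2 h).symm
    · have hu : io u = 0 := no0 _ (c'.symm h)
      rcases key u with ⟨k1, k2⟩ | ⟨w, k1, k2, k3, k4⟩ | ⟨k1, k2⟩
      · rcases key v with ⟨l1, l2⟩ | ⟨w', l1, l2, l3, l4⟩ | ⟨l1, l2⟩
        · rw [l1] at h'
          have := no0 _ h'
          omega
        · right
          exact ⟨W, w', k2, l1, by rw [hW, l2]; exact c'.symm h'⟩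
        · have := no1 _ _ l2 h'
          omega
      · omega
      · omega
    · have hv : io v = 0 := no0 _ (c'.symm h')
      rcases key v with ⟨k1, k2⟩ | ⟨w, k1, k2, k3, k4⟩ | ⟨k1, k2⟩
      · rcases key u with ⟨l1, l2⟩ | ⟨w', l1, l2, l3, l4⟩ | ⟨l1, l2⟩
        · rw [l1] at h
          have := no0 _ h
          omega
        · right
          exact ⟨w', W, l1, k2, by rw [hW, l2]; exact h⟩
        · have := no1 _ _ l2 h
          omega
      · omega
      · omega
  · rintro (h | ⟨u', v', h1, h2, h3⟩)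
    · rw [h]; exact Or.inl (c'.refl _)
    · rcases key u with ⟨k1, k2⟩ | ⟨w, k1, k2, k3, k4⟩ | ⟨k1, k2⟩
      · rw [k2] at h1
        have hu' : W = u' := Option.some.inj h1
        subst hu'
        rcases key v with ⟨l1, l2⟩ | ⟨w', l1, l2, l3, l4⟩ | ⟨l1, l2⟩
        · left
          rw [k1, l1]
        · rw [l1] at h2
          have hv' : w' = v' := Option.some.inj h2
          subst hv'
          right; left
          rw [k1]
          refine ⟨c'.refl _, ?_⟩
          rw [← l2]
          exact c'.symm h3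
        · rw [l1] at h2
          exact absurd h2 (by simp)
      · rw [k1] at h1
        have hu' : w = u' := Option.some.inj h1
        subst hu'
        rcases key v with ⟨l1, l2⟩ | ⟨w', l1, l2, l3, l4⟩ | ⟨l1, l2⟩
        · rw [l2] at h2
          have hv' : W = v' := Option.some.inj h2
          subst hv'
          right; right
          rw [l1]
          refine ⟨?_, c'.refl _⟩
          rw [← k2]
          exact h3
        · rw [l1] at h2
          have hv' : w' = v' := Option.some.inj h2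
          subst hv'
          left
          rw [← k2, ← l2]
          exact h3
        · rw [l1] at h2
          exact absurd h2 (by simp)
      · rw [k1] at h1
        exact absurd h1 (by simp)

end Pool.Agent.H72.CardyP
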