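import Pool.Agent.H72.Cardy.AsmE
import Pool.Agent.H72.Cardy.Link3

set_option autoImplicit false
open Finset

/-! Assembly, part F: composition of link states, the percolation value of `Nodd`. -/

namespace Pool.Agent.H72.CardyP

open Pool.Agent.H75.Exact Pool.Agent.H75.Exact.Lk
open Pool.Agent.H72.Cardy (sumC cap capR A Sol Nodd)

/-- the covector of a link state depends on the first `2n+1` sites only -/
lemma RepP.loc {a : ℂ} {σ : Bool} {n : ℕ} {B : Cov} {c : Setoid ℕ} (h : RepP a σ n B c) :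
    ∀ s s' : ℕ → Bool, (∀ i, 1 ≤ i → i ≤ 2 * n + 1 → s i = s' i) → B s = B s' := by
  induction h with
  | base =>
    intro s s' hs
    simp only [hs 1 le_rfl (by omega)]
  | @cup n B c j h1 h2 h ih =>
    intro s s' hs
    unfold Lk.cup
    rw [hs j (by omega) (by omega), hs (j + 1) (by omega) (by omega)]
    rw [ih (skip j s) (skip j s') ?_]
    intro i hi hi'
    unfold skip
    split_ifs
    · exact hs i hi (by omega)
    · exact hs (i + 2) (by omega) (by omega)

lemma RepP.loc_fn {a : ℂ} {σ : Bool} {n : ℕ} {B : Cov} {c : Setoid ℕ} (h : RepP a σ n B c)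
    (s t : List Bool) (hs : s.length = 2 * n + 1) : B (fn (s ++ t)) = B (fn s) := by
  apply h.loc
  intro i hi hi'
  rw [fn_pos _ _ hi, fn_pos _ _ hi, getD_app_left _ _ _ (by omega)]

lemma arcsL_prod (a : ℂ) (r : ℕ) (u : List Bool) (hu : u.length = 2 * r) :
    arcsL a u = ∏ k ∈ range r, A a (u.getD (2 * k) false) (u.getD (2 * k + 1) false) := by
  induction r generalizing u with
  | zero =>
    have : u = [] := List.length_eq_zero_iff.1 (by omega)
    subst this
    rfl
  | succ r ih =>
    match u, hu with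
    | c :: d :: u, hu =>
      rw [arcsL, ih u (by simp only [List.length_cons] at hu; omega), prod_range_succ', mul_comm]
      rfl

lemma compB_fn (a : ℂ) (m r : ℕ) (B : Cov) (c' : Setoid ℕ) (hB : RepP a true m B c')
    (s u : List Bool) (c d : Bool) (hs : s.length = 2 * m + 1) (hu : u.length = 2 * r) :
    compB a m (m + 1 + r) B (fn (s ++ ([c] ++ (u ++ [d])))) =
      B (fn s) * (if c = false then 1 else 0) * arcsL a u * (if d = false then 1 else 0) := by
  unfold compB
  have e1 : fn (s ++ ([c] ++ (u ++ [d]))) (2 * m + 2) = c := by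
    rw [fn_succ, getD_app_right _ _ _ (by omega), hs]
    simp
  have e2 : fn (s ++ ([c] ++ (u ++ [d]))) (2 * (m + 1 + r) + 1) = d := by
    rw [fn_succ, getD_app_right _ _ _ (by omega), hs, getD_app_right _ _ _ (by simp; omega),
      getD_app_right _ _ _ (by simp; omega)]
    have : 2 * (m + 1 + r) - (2 * m + 1) - [c].length - u.length = 0 := by
      simp only [List.length_cons, List.length_nil]; omega
    rw [this]
    rfl
  have e3 : ∀ l, l < 2 * r → fn (s ++ ([c] ++ (u ++ [d]))) (2 * m + 3 + l) = u.getD l false := by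
    intro l hl
    rw [show 2 * m + 3 + l = (2 * m + 2 + l) + 1 by ring, fn_succ,
      getD_app_right _ _ _ (by omega), hs, getD_app_right _ _ _ (by simp; omega),
      getD_app_left _ _ _ (by simp; omega)]
    congr 1
    simp only [List.length_cons, List.length_nil]
    omega
  rw [e1, e2, hB.loc_fn s _ hs, arcsL_prod a r u hu]
  congr 2
  rw [show Ico (m + 1) (m + 1 + r) = Ico (0 + (m + 1)) (r + (m + 1)) by congr 1 <;> ring,
    ← prod_Ico_add' (fun k => if fn (s ++ ([c] ++ (u ++ [d]))) (2 * k + 2) =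
      !(fn (s ++ ([c] ++ (u ++ [d]))) (2 * k + 1)) then
        wt a (fn (s ++ ([c] ++ (u ++ [d]))) (2 * k + 1)) else 0) 0 r (m + 1), range_eq_Ico]
  refine prod_congr rfl fun k hk => ?_
  rw [mem_Ico] at hk
  rw [A_eq, show 2 * (k + (m + 1)) + 2 = 2 * m + 3 + (2 * k + 1) by ring,
    show 2 * (k + (m + 1)) + 1 = 2 * m + 3 + 2 * k by ring, e3 _ (by omega), e3 _ (by omega)]

lemma PL_compB (a : ℂ) (m r : ℕ) (B : Cov) (c' : Setoid ℕ) (hB : RepP a true m B c')
    (V : List Bool → ℂ) :
    PL (2 * (m + 1 + r) + 1) V (compB a m (m + 1 + r) B) =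
      sumC (2 * m + 1) fun s => B (fn s) * capR a r V (s ++ [false]) [false] := by
  unfold PL
  rw [show 2 * (m + 1 + r) + 1 = (2 * m + 1) + (1 + (2 * r + 1)) by ring, sumC_add]
  apply sumC_congr
  intro s hs
  rw [sumC_add, sumC_one, capR_eq, ← sumC_mul]
  simp only [sumC_add (2 * r) 1, sumC_one]
  rw [← sumC_addf]
  apply sumC_congr
  intro u hu
  have h1 : ∀ d, s ++ ([true] ++ (u ++ [d])) = s ++ ([true] ++ (u ++ [d])) := fun _ => rfl
  rw [compB_fn a m r B c' hB s u false false hs hu, compB_fn a m r B c' hB s u false true hs hu,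
    compB_fn a m r B c' hB s u true false hs hu, compB_fn a m r B c' hB s u true true hs hu]
  simp only [List.append_assoc, if_true, Bool.true_eq_false, if_false]
  ring

variable {q a : ℂ} {Φ : List ℂ → List Bool → ℂ}

/-- the pairing with a fixed link state of the narrow strip -/
lemma pair_compB (hq : q ^ 2 + q + 1 = 0) (ha : a ^ 2 = - q ^ 2) (hΦ : Sol q a Φ) (m r : ℕ)
    (h : Setoid (Pt (m + 1 + r)) → ℝ) (hh : Harm (m + 1 + r) h) (B : Cov) (c' : Setoid ℕ)
    (hB : RepP a true m B c') :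
    a * (sumC (2 * m + 1) fun s => B (fn s) * capR a r (V1 Φ (m + 1 + r)) (s ++ [false]) [false]) =
      (1 - h (ext m (m + 1 + r) (c'.comap io))) * cl a Φ (m + 1 + r) := by
  obtain ⟨ha0, _, h1, h2, h3⟩ := a_facts hq ha
  rw [← PL_compB a m r B c' hB, ← GG_eq (m + 1 + r) (m + 1 + r) _ _
    (fun x hx hc => by rw [V1_supp hΦ _ x hx hc, zero_mul])]
  rw [rep3d_pair q a hq ha (m + 1 + r) (by omega) _ ?_ h hh _ _
    (compB_rep a m (m + 1 + r) (by omega) B c' hB), extN_comap a m (m + 1 + r) (by omega) B c' hB,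
    fA_cl hq ha hΦ]
  · field_simp
  · intro D hD hc
    have := heig_sec hq ha hΦ (m + 1 + r) false D hD (by simpa using hc)
    simpa using this

/-- the percolation value of `Nodd` -/
theorem Nodd_value (hq : q ^ 2 + q + 1 = 0) (ha : a ^ 2 = - q ^ 2) (hΦ : Sol q a Φ) (m r : ℕ)
    (h : Setoid (Pt (m + 1 + r)) → ℝ) (hh : Harm (m + 1 + r) h)
    (L : (Setoid (Pt m) → ℝ) →ₗ[ℝ] ℝ) (h1 : L (fun _ => 1) = 1)
    (h2 : ∀ g, L (fun c => ∑ i ∈ Icc 1 (2 * m), g (ee m i c)) = 2 * m * L g)
    (h3 : ∀ g g', (∀ c, NC m c → g c = g' c) → L g = L g') :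
    Nodd a Φ (List.replicate (2 * m + 1) 1) 1 (List.replicate r 1) 1 =
      (1 - (L (fun c => h (ext m (m + 1 + r) c)) : ℂ)) * cl a Φ m * cl a Φ (m + 1 + r) := by
  have hL := cplx_stat L h1 h2 h3
  unfold Nodd
  rw [List.length_replicate, List.length_replicate, prs_replicate, List.reverse_replicate]
  have e0 : List.replicate (2 * m + 1) (1 : ℂ) ++ 1 :: (List.replicate (2 * r) 1 ++ [1]) =
      List.replicate (2 * (m + 1 + r) + 1) 1 := by
    rw [← List.replicate_succ', ← List.replicate_succ, ← List.replicate_add]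
    congr 1
    ring
  rw [e0]
  have e1 : (sumC (2 * m + 1) fun s => Φ (List.replicate (2 * m + 1) 1) ((s.map not).reverse) *
      capR a r (Φ (List.replicate (2 * (m + 1 + r) + 1) 1)) (s ++ [false]) [false]) =
      cl a Φ m * sumC (2 * m + 1) fun s => vL a (cplx L) s *
        capR a r (V1 Φ (m + 1 + r)) (s ++ [false]) [false] := by
    rw [← sumC_mul]
    apply sumC_congr
    intro s hs
    have := V_eq_vL hq ha hΦ hL s hs
    have e2 : Φ (List.replicate (2 * m + 1) 1) ((s.map not).reverse) = V1 Φ m (flipL s) := rfl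
    rw [e2, this]
    unfold V1
    ring
  rw [e1]
  have e3 : (sumC (2 * m + 1) fun s => vL a (cplx L) s *
        capR a r (V1 Φ (m + 1 + r)) (s ++ [false]) [false]) =
      cplx L fun c => sumC (2 * m + 1) fun s => Bof a m c (fn s) *
        capR a r (V1 Φ (m + 1 + r)) (s ++ [false]) [false] := by
    rw [lin_sumC]
    apply sumC_congr
    intro s _
    unfold vL
    rw [mul_comm, ← lin_mul]
    congr 1
    funext c
    ring
  rw [e3, mul_left_comm, ← lin_mul]
  have e4 : (cplx L fun c => a * sumC (2 * m + 1) fun s => Bof a m c (fn s) *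
        capR a r (V1 Φ (m + 1 + r)) (s ++ [false]) [false]) =
      cplx L fun c => cl a Φ (m + 1 + r) * ((1 - h (ext m (m + 1 + r) c) : ℝ) : ℂ) := by
    apply hL.nc
    intro c hc
    obtain ⟨B, c', hB, rfl⟩ := (NC_iff a true m c).1 hc
    rw [Bof_eq hB]
    have := pair_compB hq ha hΦ m r h hh B c' hB
    rw [this]
    push_cast
    ring
  rw [e4, lin_mul, cplx_real]
  have e5 : L (fun c => 1 - h (ext m (m + 1 + r) c)) = 1 - L fun c => h (ext m (m + 1 + r) c) := by
    have : (fun c => 1 - h (ext m (m + 1 + r) c)) =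
        (fun _ => (1 : ℝ)) - fun c => h (ext m (m + 1 + r) c) := rfl
    rw [this, map_sub, h1]
  rw [e5]
  push_cast
  ring

end Pool.Agent.H72.CardyP
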