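import Mathlib

set_option autoImplicit false
open Filter Topology

namespace Pool.Agent.H72.CardyC

/-- the L-shaped strip: width `1` below the real axis, width `r` above it -/
def LDom (r : ℝ) : Set ℂ := {z | 0 < z.re ∧ z.re < 1 ∧ (0 ≤ z.im → z.re < r)}

/-- the upper half-plane -/
def HP : Set ℂ := {w | 0 < w.im}

namespace Conf

open Complex

noncomputable def uu (r : ℝ) (w : ℂ) : ℂ := (w + (r : ℂ) ^ 2) / (w + 1)

noncomputable def tt (r : ℝ) (w : ℂ) : ℂ := (uu r w) ^ (((2 : ℕ) : ℂ)⁻¹)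

noncomputable def aa (r : ℝ) (t : ℂ) : ℂ := (t - r) / (t + r)

noncomputable def bb (t : ℂ) : ℂ := (1 + t) / (1 - t)

noncomputable def FF (r : ℝ) (t : ℂ) : ℂ :=
  -(I / Real.pi) * ((r : ℂ) * log (aa r t) + log (bb t))

noncomputable def ff (r : ℝ) (w : ℂ) : ℂ := FF r (tt r w)

theorem FF_re (r : ℝ) (t : ℂ) : (FF r t).re = (r * (aa r t).arg + (bb t).arg) / Real.pi := by
  have h : FF r t = ((((r * (aa r t).arg + (bb t).arg) / Real.pi : ℝ)) : ℂ) +
      ((-(r * Real.log ‖aa r t‖ + Real.log ‖bb t‖) / Real.pi : ℝ) : ℂ) * I := by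
    have hpi : (Real.pi : ℂ) ≠ 0 := by exact_mod_cast Real.pi_ne_zero
    rw [FF, Complex.log, Complex.log]
    push_cast
    field_simp
    ring_nf
    rw [I_sq]
    ring
  rw [h]; simp

theorem FF_im (r : ℝ) (t : ℂ) :
    (FF r t).im = -(r * Real.log ‖aa r t‖ + Real.log ‖bb t‖) / Real.pi := by
  have h : FF r t = ((((r * (aa r t).arg + (bb t).arg) / Real.pi : ℝ)) : ℂ) +
      ((-(r * Real.log ‖aa r t‖ + Real.log ‖bb t‖) / Real.pi : ℝ) : ℂ) * I := by
    have hpi : (Real.pi : ℂ) ≠ 0 := by exact_mod_cast Real.pi_ne_zero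
    rw [FF, Complex.log, Complex.log]
    push_cast
    field_simp
    ring_nf
    rw [I_sq]
    ring
  rw [h]; simp

theorem log_cont {z : ℂ} (hz : z ≠ 0) :
    ContinuousWithinAt log {z : ℂ | 0 ≤ z.im} z := by
  by_cases h : z ∈ slitPlane
  · exact (continuousAt_clog h).continuousWithinAt
  · rw [mem_slitPlane_iff] at h
    push Not at h
    have h2 : z.re < 0 := lt_of_le_of_ne h.1 (fun h0 => hz (Complex.ext h0 (by simpa using h.2)))
    exact continuousWithinAt_log_of_re_neg_of_im_zero h2 h.2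

/-! ### the square root -/

theorem uu_eq {r : ℝ} {w : ℂ} (hw : w + 1 ≠ 0) :
    uu r w = 1 - ((1 - r ^ 2 : ℝ) : ℂ) / (w + 1) := by
  rw [uu]; push_cast; field_simp; ring

theorem uu_im {r : ℝ} {w : ℂ} (hw : w + 1 ≠ 0) :
    (uu r w).im = (1 - r ^ 2) * w.im / normSq (w + 1) := by
  rw [uu_eq hw, sub_im, one_im, div_im, ofReal_re, ofReal_im]
  simp only [add_im, one_im, add_re, one_re]
  ring

theorem tt_sq (r : ℝ) (w : ℂ) : tt r w ^ 2 = uu r w := by
  rw [tt]; exact cpow_nat_inv_pow _ two_ne_zero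

theorem sqrt_quad {u : ℂ} (hu : 0 ≤ u.im) :
    0 ≤ (u ^ (((2 : ℕ) : ℂ)⁻¹)).re ∧ 0 ≤ (u ^ (((2 : ℕ) : ℂ)⁻¹)).im := by
  by_cases h : u = 0
  · subst h
    rw [zero_cpow (by norm_num)]; simp
  · rw [cpow_def_of_ne_zero h]
    have e : log u * ((2 : ℕ) : ℂ)⁻¹ = ((Real.log ‖u‖ / 2 : ℝ) : ℂ) + ((u.arg / 2 : ℝ) : ℂ) * I := by
      rw [Complex.log]; push_cast; ring
    rw [e, exp_add, ← ofReal_exp, re_ofReal_mul, im_ofReal_mul, exp_ofReal_mul_I_re,
      exp_ofReal_mul_I_im]
    have ha : 0 ≤ u.arg := arg_nonneg_iff.2 hu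
    have hb : u.arg ≤ Real.pi := arg_le_pi u
    have := Real.pi_pos
    refine ⟨mul_nonneg (Real.exp_pos _).le (Real.cos_nonneg_of_mem_Icc ⟨by linarith, by linarith⟩),
      mul_nonneg (Real.exp_pos _).le (Real.sin_nonneg_of_mem_Icc ⟨by linarith, by linarith⟩)⟩

theorem ne_neg_one {w : ℂ} (hw : 0 < w.im) : w + 1 ≠ 0 := by
  intro h
  have := congrArg Complex.im h
  simp at this
  linarith

theorem uu_im_nonneg {r : ℝ} (h0 : 0 < r) (h1 : r < 1) {w : ℂ} (hw : 0 ≤ w.im) (hw1 : w ≠ -1) :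
    0 ≤ (uu r w).im := by
  have : w + 1 ≠ 0 := fun h => hw1 (eq_neg_of_add_eq_zero_left h)
  rw [uu_im this]
  have : 0 ≤ 1 - r ^ 2 := by nlinarith
  exact div_nonneg (mul_nonneg this hw) (normSq_nonneg _)

theorem uu_im_pos {r : ℝ} (h0 : 0 < r) (h1 : r < 1) {w : ℂ} (hw : 0 < w.im) :
    0 < (uu r w).im := by
  have h := ne_neg_one hw
  rw [uu_im h]
  have : 0 < 1 - r ^ 2 := by nlinarith
  exact div_pos (mul_pos this hw) (normSq_pos.2 h)

theorem tt_nonneg {r : ℝ} (h0 : 0 < r) (h1 : r < 1) {w : ℂ} (hw : 0 ≤ w.im) (hw1 : w ≠ -1) :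
    0 ≤ (tt r w).re ∧ 0 ≤ (tt r w).im := sqrt_quad (uu_im_nonneg h0 h1 hw hw1)

theorem tt_pos {r : ℝ} (h0 : 0 < r) (h1 : r < 1) {w : ℂ} (hw : 0 < w.im) :
    0 < (tt r w).re ∧ 0 < (tt r w).im := by
  have h := tt_nonneg h0 h1 hw.le (fun h => by rw [h] at hw; simp at hw)
  have h2 := uu_im_pos h0 h1 hw
  rw [← tt_sq, sq, mul_im] at h2
  have h3 : 0 < (tt r w).re * (tt r w).im := by linarith
  constructor
  · rcases h.1.lt_or_eq with h4 | h4
    · exact h4
    · rw [← h4] at h3; simp at h3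
  · rcases h.2.lt_or_eq with h4 | h4
    · exact h4
    · rw [← h4] at h3; simp at h3

theorem sqrt_cont (u : ℂ) :
    ContinuousWithinAt (fun u : ℂ => u ^ (((2 : ℕ) : ℂ)⁻¹)) {z : ℂ | 0 ≤ z.im} u := by
  by_cases h : 0 ≤ u.re ∨ u.im ≠ 0
  · refine (continuousAt_cpow_const_of_re_pos h ?_).continuousWithinAt
    norm_num
  · push Not at h
    have hne : u ≠ 0 := fun h' => by rw [h'] at h; simp at h
    have h1 : ContinuousWithinAt (fun u : ℂ => exp (log u * ((2 : ℕ) : ℂ)⁻¹)) {z : ℂ | 0 ≤ z.im} u :=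
      Complex.continuous_exp.continuousAt.comp_continuousWithinAt
        ((log_cont hne).mul continuousWithinAt_const)
    refine h1.congr_of_eventuallyEq ?_ (by rw [cpow_def_of_ne_zero hne])
    filter_upwards [mem_nhdsWithin_of_mem_nhds (isOpen_ne.mem_nhds hne)] with x hx
    rw [cpow_def_of_ne_zero hx]

theorem tt_cont {r : ℝ} (h0 : 0 < r) (h1 : r < 1) {w : ℂ} (hw1 : w ≠ -1) :
    ContinuousWithinAt (tt r) ({z : ℂ | 0 ≤ z.im}) w := by
  have hw' : w + 1 ≠ 0 := fun h => hw1 (eq_neg_of_add_eq_zero_left h)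
  have hcu : ContinuousAt (uu r) w := by
    unfold uu
    exact ((continuousAt_id.add continuousAt_const).div (continuousAt_id.add continuousAt_const) hw')
  have hm : Tendsto (uu r) (𝓝[{z : ℂ | 0 ≤ z.im}] w) (𝓝[{z : ℂ | 0 ≤ z.im}] (uu r w)) := by
    refine tendsto_nhdsWithin_iff.2 ⟨hcu.continuousWithinAt, ?_⟩
    filter_upwards [self_mem_nhdsWithin, mem_nhdsWithin_of_mem_nhds (isOpen_ne.mem_nhds hw1)]
      with x hx hx1
    exact uu_im_nonneg h0 h1 hx hx1
  exact (sqrt_cont _).tendsto.comp hm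

/-! ### the function `FF` on the closed quadrant -/

theorem aa_im {r : ℝ} (t : ℂ) : (aa r t).im = 2 * r * t.im / normSq (t + r) := by
  rw [aa, div_im]
  simp
  ring

theorem bb_im (t : ℂ) : (bb t).im = 2 * t.im / normSq (1 - t) := by
  rw [bb, div_im]
  simp
  ring

theorem FF_cont {r : ℝ} (h0 : 0 < r) {t : ℂ} (hre : 0 ≤ t.re)
    (hr : t ≠ r) (h1 : t ≠ 1) :
    ContinuousWithinAt (FF r) {z : ℂ | 0 ≤ z.im} t := by
  have hp : t + r ≠ 0 := by
    intro h
    have := congrArg Complex.re h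
    simp at this; linarith
  have hp1 : 1 + t ≠ 0 := by
    intro h
    have := congrArg Complex.re h
    simp at this; linarith
  have hm1 : 1 - t ≠ 0 := fun h => h1 (sub_eq_zero.1 h).symm
  have hmr : t - r ≠ 0 := sub_ne_zero.2 hr
  have hca : ContinuousAt (aa r) t := by
    unfold aa
    exact (continuousAt_id.sub continuousAt_const).div (continuousAt_id.add continuousAt_const) hp
  have hcb : ContinuousAt bb t := by
    unfold bb
    exact (continuousAt_const.add continuousAt_id).div (continuousAt_const.sub continuousAt_id) hm1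
  have ha : Tendsto (aa r) (𝓝[{z : ℂ | 0 ≤ z.im}] t) (𝓝[{z : ℂ | 0 ≤ z.im}] (aa r t)) := by
    refine tendsto_nhdsWithin_iff.2 ⟨hca.continuousWithinAt, ?_⟩
    filter_upwards [self_mem_nhdsWithin] with x hx
    show 0 ≤ (aa r x).im
    rw [aa_im]
    exact div_nonneg (mul_nonneg (by linarith) hx) (normSq_nonneg _)
  have hb : Tendsto bb (𝓝[{z : ℂ | 0 ≤ z.im}] t) (𝓝[{z : ℂ | 0 ≤ z.im}] (bb t)) := by
    refine tendsto_nhdsWithin_iff.2 ⟨hcb.continuousWithinAt, ?_⟩
    filter_upwards [self_mem_nhdsWithin] with x hx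
    show 0 ≤ (bb x).im
    rw [bb_im]
    exact div_nonneg (mul_nonneg (by linarith) hx) (normSq_nonneg _)
  have ha0 : aa r t ≠ 0 := div_ne_zero hmr hp
  have hb0 : bb t ≠ 0 := div_ne_zero hp1 hm1
  have h1' : ContinuousWithinAt (fun t => log (aa r t)) {z : ℂ | 0 ≤ z.im} t :=
    (log_cont ha0).tendsto.comp ha
  have h2' : ContinuousWithinAt (fun t => log (bb t)) {z : ℂ | 0 ≤ z.im} t :=
    (log_cont hb0).tendsto.comp hb
  exact continuousWithinAt_const.mul ((continuousWithinAt_const.mul h1').add h2')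

theorem tt_ne {r : ℝ} (h0 : 0 < r) (h1 : r < 1) {w : ℂ} (hw1 : w ≠ -1) (hw0 : w ≠ 0) :
    tt r w ≠ r ∧ tt r w ≠ 1 := by
  have hw' : w + 1 ≠ 0 := fun h => hw1 (eq_neg_of_add_eq_zero_left h)
  have hne : (1 : ℂ) - (r : ℂ) ^ 2 ≠ 0 := by
    have : (1 : ℝ) - r ^ 2 ≠ 0 := by nlinarith
    exact_mod_cast this
  constructor
  · intro h
    have h2 := tt_sq r w
    rw [h, uu, eq_div_iff hw'] at h2
    have : w * (1 - (r : ℂ) ^ 2) = 0 := by linear_combination -h2
    rcases mul_eq_zero.1 this with h3 | h3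
    · exact hw0 h3
    · exact hne h3
  · intro h
    have h2 := tt_sq r w
    rw [h, uu, eq_div_iff hw'] at h2
    exact hne (by linear_combination h2)

theorem ff_cont {r : ℝ} (h0 : 0 < r) (h1 : r < 1) {w : ℂ} (hw : 0 ≤ w.im) (hw1 : w ≠ -1)
    (hw0 : w ≠ 0) : ContinuousWithinAt (ff r) ({z : ℂ | 0 ≤ z.im}) w := by
  obtain ⟨ha, -⟩ := tt_nonneg h0 h1 hw hw1
  obtain ⟨hc, hd⟩ := tt_ne h0 h1 hw1 hw0
  have hm : Tendsto (tt r) (𝓝[{z : ℂ | 0 ≤ z.im}] w) (𝓝[{z : ℂ | 0 ≤ z.im}] (tt r w)) := by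
    refine tendsto_nhdsWithin_iff.2 ⟨tt_cont h0 h1 hw1, ?_⟩
    filter_upwards [self_mem_nhdsWithin, mem_nhdsWithin_of_mem_nhds (isOpen_ne.mem_nhds hw1)]
      with x hx hx1
    exact (tt_nonneg h0 h1 hx hx1).2
  exact (FF_cont h0 ha hc hd).tendsto.comp hm

/-! ### derivative and injectivity -/

theorem w_eq {r : ℝ} (h0 : 0 < r) (h1 : r < 1) {w : ℂ} (hw : 0 < w.im) :
    1 - tt r w ^ 2 ≠ 0 ∧ tt r w ^ 2 - (r : ℂ) ^ 2 ≠ 0 ∧
      w = (tt r w ^ 2 - (r : ℂ) ^ 2) / (1 - tt r w ^ 2) ∧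
      w + 1 = (1 - (r : ℂ) ^ 2) / (1 - tt r w ^ 2) := by
  have hw' := ne_neg_one hw
  have hw0 : w ≠ 0 := fun h => by rw [h] at hw; simp at hw
  have hne : (1 : ℂ) - (r : ℂ) ^ 2 ≠ 0 := by
    have : (1 : ℝ) - r ^ 2 ≠ 0 := by nlinarith
    exact_mod_cast this
  rw [tt_sq]
  have e1 : 1 - uu r w = (1 - (r : ℂ) ^ 2) / (w + 1) := by rw [uu]; field_simp; ring
  have e2 : uu r w - (r : ℂ) ^ 2 = w * (1 - (r : ℂ) ^ 2) / (w + 1) := by rw [uu]; field_simp; ring
  rw [e1, e2]
  refine ⟨div_ne_zero hne hw', div_ne_zero (mul_ne_zero hw0 hne) hw', ?_, ?_⟩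
  · field_simp
  · field_simp

theorem hasDerivAt_ff {r : ℝ} (h0 : 0 < r) (h1 : r < 1) {w : ℂ} (hw : 0 < w.im) :
    HasDerivAt (ff r) (-(I / Real.pi) * (tt r w / w)) w := by
  have hw' := ne_neg_one hw
  have hw0 : w ≠ 0 := fun h => by rw [h] at hw; simp at hw
  obtain ⟨hre, him⟩ := tt_pos h0 h1 hw
  obtain ⟨hA, hB, hC, hD⟩ := w_eq h0 h1 hw
  have hne : (1 : ℂ) - (r : ℂ) ^ 2 ≠ 0 := by
    have : (1 : ℝ) - r ^ 2 ≠ 0 := by nlinarith
    exact_mod_cast this
  have hu : HasDerivAt (uu r) ((1 - (r : ℂ) ^ 2) / (w + 1) ^ 2) w := by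
    have := ((hasDerivAt_id w).add_const ((r : ℂ) ^ 2)).div ((hasDerivAt_id w).add_const 1) hw'
    refine this.congr_deriv ?_
    simp only [id]
    field_simp
    ring
  have hus : uu r w ∈ slitPlane := by
    rw [mem_slitPlane_iff]; exact Or.inr (uu_im_pos h0 h1 hw).ne'
  have hu0 : uu r w ≠ 0 := slitPlane_ne_zero hus
  have htd : HasDerivAt (tt r) (tt r w * ((1 - (r : ℂ) ^ 2) / (w + 1) ^ 2) / (2 * uu r w)) w := by
    have := hu.cpow_const (c := (((2 : ℕ) : ℂ)⁻¹)) hus
    refine this.congr_deriv ?_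
    rw [cpow_sub _ _ hu0, cpow_one]
    change _ * (tt r w / _) * _ = _
    push_cast
    field_simp
  set t := tt r w with ht
  have ht0 : t ≠ 0 := fun h => by rw [h] at hre; simp at hre
  have hp : t + r ≠ 0 := by
    intro h
    have := congrArg Complex.re h
    simp at this; linarith
  have hp1 : 1 + t ≠ 0 := by
    intro h
    have := congrArg Complex.re h
    simp at this; linarith
  have hm1 : 1 - t ≠ 0 := by
    intro h
    have := congrArg Complex.im h
    simp at this; linarith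
  have hmr : t - r ≠ 0 := by
    intro h
    have := congrArg Complex.im h
    simp at this; linarith
  have hda : HasDerivAt (aa r) (2 * r / (t + r) ^ 2) t := by
    have := ((hasDerivAt_id t).sub_const (r : ℂ)).div ((hasDerivAt_id t).add_const (r : ℂ)) hp
    refine this.congr_deriv ?_
    simp only [id]
    field_simp
    ring
  have hdb : HasDerivAt bb (2 / (1 - t) ^ 2) t := by
    have := ((hasDerivAt_id t).const_add (1 : ℂ)).div ((hasDerivAt_id t).const_sub (1 : ℂ)) hm1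
    refine this.congr_deriv ?_
    simp only [id]
    field_simp
    ring
  have hsa : aa r t ∈ slitPlane := by
    rw [mem_slitPlane_iff]; right
    rw [aa_im]
    exact (div_pos (mul_pos (by linarith) him) (normSq_pos.2 hp)).ne'
  have hsb : bb t ∈ slitPlane := by
    rw [mem_slitPlane_iff]; right
    rw [bb_im]
    exact (div_pos (mul_pos (by linarith) him) (normSq_pos.2 hm1)).ne'
  have hF : HasDerivAt (FF r) (-(I / Real.pi) * ((r : ℂ) * ((2 * r / (t + r) ^ 2) / aa r t) +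
      (2 / (1 - t) ^ 2) / bb t)) t :=
    (((hda.clog hsa).const_mul (r : ℂ)).add (hdb.clog hsb)).const_mul _
  have := hF.comp w htd
  refine this.congr_deriv ?_
  rw [mul_assoc]
  congr 1
  have e1 : (2 * (r : ℂ) / (t + r) ^ 2) / aa r t = 2 * r / (t ^ 2 - (r : ℂ) ^ 2) := by
    rw [aa]; 
    have : t ^ 2 - (r : ℂ) ^ 2 = (t - r) * (t + r) := by ring
    rw [this]; field_simp
  have e2 : (2 / (1 - t) ^ 2) / bb t = 2 / (1 - t ^ 2) := by
    rw [bb]
    have : 1 - t ^ 2 = (1 - t) * (1 + t) := by ring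
    rw [this]; field_simp
  rw [e1, e2, ← tt_sq, ← ht, hD]
  conv_rhs => rw [hC]
  field_simp
  ring

theorem im_tw {r : ℝ} (h0 : 0 < r) (h1 : r < 1) {w : ℂ} (hw : 0 < w.im) :
    (tt r w / w).im < 0 := by
  obtain ⟨hre, him⟩ := tt_pos h0 h1 hw
  obtain ⟨hA, hB, hC, hD⟩ := w_eq h0 h1 hw
  have e : tt r w / w = tt r w * (1 - tt r w ^ 2) / (tt r w ^ 2 - (r : ℂ) ^ 2) := by
    have hw0 : w ≠ 0 := fun h => by rw [h] at hw; simp at hw
    have hE : w * (1 - tt r w ^ 2) = tt r w ^ 2 - (r : ℂ) ^ 2 := by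
      rw [eq_div_iff hA] at hC; exact hC
    rw [div_eq_div_iff hw0 hB]
    linear_combination -tt r w * hE
  rw [e]
  set t := tt r w
  set x := t.re
  set y := t.im
  have ht : t = x + y * I := (re_add_im t).symm
  rw [div_im]
  have hq : 0 < normSq (t ^ 2 - (r : ℂ) ^ 2) := normSq_pos.2 hB
  rw [← sub_div]
  apply div_neg_of_neg_of_pos _ hq
  have e1 : (t * (1 - t ^ 2)).im = y - (3 * x ^ 2 * y - y ^ 3) := by
    rw [ht]; simp [pow_succ]; ring
  have e2 : (t * (1 - t ^ 2)).re = x - (x ^ 3 - 3 * x * y ^ 2) := by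
    rw [ht]; simp [pow_succ]; ring
  have e3 : (t ^ 2 - (r : ℂ) ^ 2).re = x ^ 2 - y ^ 2 - r ^ 2 := by
    rw [ht]; simp [pow_succ]
  have e4 : (t ^ 2 - (r : ℂ) ^ 2).im = 2 * x * y := by
    rw [ht]; simp [pow_succ]; ring
  rw [e1, e2, e3, e4]
  have key : 0 < x ^ 2 + y ^ 2 + r ^ 2 + (x ^ 2 + y ^ 2) ^ 2 - 3 * r ^ 2 * x ^ 2 + r ^ 2 * y ^ 2 := by
    have h2 : 0 < x ^ 2 * ((1 - r) * (1 + 3 * r)) := by
      apply mul_pos (pow_pos hre 2) (mul_pos (by linarith) (by linarith))
    nlinarith [sq_nonneg (x ^ 2 - r), sq_nonneg (x * y), sq_nonneg (y ^ 2), sq_nonneg y,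
      sq_nonneg (r * y)]
  nlinarith [mul_pos him key]

theorem re_deriv_neg {r : ℝ} (h0 : 0 < r) (h1 : r < 1) {w : ℂ} (hw : 0 < w.im) :
    (-(I / Real.pi) * (tt r w / w)).re < 0 := by
  have h := im_tw h0 h1 hw
  have e : (-(I / Real.pi) * (tt r w / w)) = ((1 / Real.pi : ℝ) : ℂ) * (-(I * (tt r w / w))) := by
    push_cast; ring
  rw [e, re_ofReal_mul]
  have : (-(I * (tt r w / w))).re = (tt r w / w).im := by simp
  rw [this]
  exact mul_neg_of_pos_of_neg (by positivity) h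

theorem ff_inj {r : ℝ} (h0 : 0 < r) (h1 : r < 1) : Set.InjOn (ff r) HP := by
  intro a ha b hb hab
  by_contra hne
  have hba : b - a ≠ 0 := sub_ne_zero.2 (Ne.symm hne)
  have hin : ∀ s : ℝ, s ∈ Set.Icc (0 : ℝ) 1 → 0 < (a + s * (b - a)).im := by
    intro s hs
    have ha' : 0 < a.im := ha
    have hb' : 0 < b.im := hb
    have : (a + s * (b - a)).im = (1 - s) * a.im + s * b.im := by simp; ring
    rw [this]
    rcases hs.1.lt_or_eq with h | h
    · have := mul_pos h hb'
      have := mul_nonneg (sub_nonneg.2 hs.2) ha'.le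
      linarith
    · rw [← h]; simpa using ha'
  have hd : ∀ s ∈ Set.Icc (0 : ℝ) 1, HasDerivAt (fun s : ℝ => (ff r (a + s * (b - a)) / (b - a)).re)
      ((-(I / Real.pi) * (tt r (a + s * (b - a)) / (a + s * (b - a)))).re) s := by
    intro s hs
    have h2 := hasDerivAt_ff h0 h1 (hin s hs)
    have h3 : HasDerivAt (fun s : ℝ => a + (s : ℂ) * (b - a)) (b - a) s := by
      have := (((Complex.ofRealCLM.hasDerivAt (x := s)).mul_const (b - a))).const_add a
      simpa using this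
    have h4 := (h2.comp s h3).div_const (b - a)
    have h5 := (Complex.reCLM.hasFDerivAt).comp_hasDerivAt s h4
    refine h5.congr_deriv ?_
    simp only [reCLM_apply]
    congr 1
    field_simp
  obtain ⟨s, hs, hs2⟩ := exists_hasDerivAt_eq_zero (zero_lt_one' ℝ)
    (fun x hx => (hd x hx).continuousAt.continuousWithinAt)
    (by simp [hab]) (fun x hx => hd x (Set.Ioo_subset_Icc_self hx))
  exact absurd hs2 (re_deriv_neg h0 h1 (hin s (Set.Ioo_subset_Icc_self hs))).ne

/-! ### bounds -/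

theorem arg_aa {r : ℝ} (h0 : 0 < r) {t : ℂ} (him : 0 < t.im) : 0 < (aa r t).arg ∧ (aa r t).arg < Real.pi := by
  have hp : t + r ≠ 0 := by
    intro h
    have := congrArg Complex.im h
    simp at this; linarith
  have h : 0 < (aa r t).im := by
    rw [aa_im]; exact div_pos (mul_pos (by linarith) him) (normSq_pos.2 hp)
  exact ⟨lt_of_le_of_ne (arg_nonneg_iff.2 h.le) (fun h' => by
      rw [eq_comm, arg_eq_zero_iff] at h'; exact h.ne' h'.2),
    lt_of_le_of_ne (arg_le_pi _) (fun h' => by rw [arg_eq_pi_iff] at h'; exact h.ne' h'.2)⟩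

theorem arg_bb {t : ℂ} (him : 0 < t.im) : 0 < (bb t).arg ∧ (bb t).arg < Real.pi := by
  have hp : 1 - t ≠ 0 := by
    intro h
    have := congrArg Complex.im h
    simp at this; linarith
  have h : 0 < (bb t).im := by
    rw [bb_im]; exact div_pos (mul_pos (by linarith) him) (normSq_pos.2 hp)
  exact ⟨lt_of_le_of_ne (arg_nonneg_iff.2 h.le) (fun h' => by
      rw [eq_comm, arg_eq_zero_iff] at h'; exact h.ne' h'.2),
    lt_of_le_of_ne (arg_le_pi _) (fun h' => by rw [arg_eq_pi_iff] at h'; exact h.ne' h'.2)⟩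

theorem re_ff {r : ℝ} (h0 : 0 < r) (h1 : r < 1) {w : ℂ} (hw : 0 < w.im) :
    0 < (ff r w).re ∧ (ff r w).re < 1 + r := by
  obtain ⟨hre, him⟩ := tt_pos h0 h1 hw
  obtain ⟨a1, a2⟩ := arg_aa h0 him
  obtain ⟨b1, b2⟩ := arg_bb him
  have hpi := Real.pi_pos
  rw [ff, FF_re]
  constructor
  · positivity
  · rw [div_lt_iff₀ hpi]; nlinarith

/-- the boundary of the L-shaped strip -/
def BB (r : ℝ) : Set ℂ := {z | z.re = 0 ∨ (z.re = 1 ∧ z.im ≤ 0) ∨
  (z.im = 0 ∧ r ≤ z.re ∧ z.re ≤ 1) ∨ (z.re = r ∧ 0 ≤ z.im)}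

theorem atan_mono {r : ℝ} (h0 : 0 < r) (h1 : r < 1) :
    Monotone (fun s : ℝ => Real.arctan s - r * Real.arctan (s / r)) := by
  have hd : ∀ s : ℝ, HasDerivAt (fun s : ℝ => Real.arctan s - r * Real.arctan (s / r))
      (1 / (1 + s ^ 2) - 1 / (1 + (s / r) ^ 2)) s := by
    intro s
    have h1 := (Real.hasDerivAt_arctan s)
    have h2 := ((Real.hasDerivAt_arctan (s / r)).comp s ((hasDerivAt_id s).div_const r)).const_mul r
    refine (h1.sub h2).congr_deriv ?_
    field_simp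
  apply monotone_of_deriv_nonneg (fun s => (hd s).differentiableAt)
  intro s
  rw [(hd s).deriv, sub_nonneg]
  apply one_div_le_one_div_of_le (by positivity)
  have : s ^ 2 ≤ (s / r) ^ 2 := by
    rw [div_pow, le_div_iff₀ (by positivity)]
    have h3 : 0 ≤ 1 - r ^ 2 := by nlinarith
    nlinarith [mul_nonneg (sq_nonneg s) h3]
  linarith

theorem log_mono {r : ℝ} (h0 : 0 < r) (h1 : r < 1) {t : ℝ} (ht : 0 ≤ t) (htr : t < r) :
    r * Real.log ((r - t) / (r + t)) + Real.log ((1 + t) / (1 - t)) ≤ 0 := by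
  have hd : ∀ s ∈ Set.Ico 0 r, HasDerivAt (fun s : ℝ => r * (Real.log (r - s) - Real.log (r + s)) +
      (Real.log (1 + s) - Real.log (1 - s)))
      (r * (-1 / (r - s) - 1 / (r + s)) + (1 / (1 + s) - (-1) / (1 - s))) s := by
    intro s hs
    have e1 : HasDerivAt (fun s : ℝ => r - s) (-1) s := (hasDerivAt_id s).const_sub r
    have e2 : HasDerivAt (fun s : ℝ => r + s) 1 s := (hasDerivAt_id s).const_add r
    have e3 : HasDerivAt (fun s : ℝ => 1 + s) 1 s := (hasDerivAt_id s).const_add 1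
    have e4 : HasDerivAt (fun s : ℝ => 1 - s) (-1) s := (hasDerivAt_id s).const_sub 1
    have := hs.1; have := hs.2
    exact (((e1.log (by linarith)).sub (e2.log (by linarith))).const_mul r).add
      ((e3.log (by linarith)).sub (e4.log (by linarith)))
  have hm : AntitoneOn (fun s : ℝ => r * (Real.log (r - s) - Real.log (r + s)) +
      (Real.log (1 + s) - Real.log (1 - s))) (Set.Ico 0 r) := by
    apply antitoneOn_of_deriv_nonpos (convex_Ico 0 r)
    · exact fun s hs => (hd s hs).continuousAt.continuousWithinAt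
    · intro s hs
      rw [interior_Ico] at hs
      exact (hd s (Set.Ioo_subset_Ico_self hs)).differentiableAt.differentiableWithinAt
    · intro s hs
      rw [interior_Ico] at hs
      rw [(hd s (Set.Ioo_subset_Ico_self hs)).deriv]
      have h3 := hs.1
      have h4 := hs.2
      have e : r * (-1 / (r - s) - 1 / (r + s)) + (1 / (1 + s) - (-1) / (1 - s)) =
          -(2 * s ^ 2 * (1 - r ^ 2)) / ((r - s) * (r + s) * ((1 + s) * (1 - s))) := by
        have : r - s ≠ 0 := by linarith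
        have : r + s ≠ 0 := by linarith
        have : 1 + s ≠ 0 := by linarith
        have : 1 - s ≠ 0 := by linarith
        field_simp
        ring
      rw [e]
      apply div_nonpos_of_nonpos_of_nonneg
      · have : 0 ≤ 1 - r ^ 2 := by nlinarith
        nlinarith [mul_nonneg (sq_nonneg s) this]
      · have : 0 ≤ r - s := by linarith
        have : 0 ≤ 1 - s := by linarith
        positivity
  have := hm (Set.left_mem_Ico.2 h0) ⟨ht, htr⟩ ht
  simp at this
  rw [Real.log_div (by linarith) (by linarith), Real.log_div (by linarith) (by linarith)]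
  linarith

theorem FF_real {r : ℝ} (h0 : 0 < r) (h1 : r < 1) {t : ℝ} (ht : 0 ≤ t) (htr : t ≠ r) (ht1 : t ≠ 1) :
    FF r t ∈ BB r := by
  have ea : aa r (t : ℂ) = (((t - r) / (t + r) : ℝ) : ℂ) := by rw [aa]; push_cast; ring
  have eb : bb (t : ℂ) = (((1 + t) / (1 - t) : ℝ) : ℂ) := by rw [bb]; push_cast; ring
  have hpi := Real.pi_pos
  have hre := FF_re r (t : ℂ)
  have him := FF_im r (t : ℂ)
  rw [ea, eb] at hre him
  rw [norm_real, norm_real, Real.norm_eq_abs, Real.norm_eq_abs] at him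
  rcases lt_or_gt_of_ne htr with h | h
  · -- t < r
    right; right; right
    have a1 : (t - r) / (t + r) < 0 := div_neg_of_neg_of_pos (by linarith) (by linarith)
    have b1 : 0 ≤ (1 + t) / (1 - t) := div_nonneg (by linarith) (by linarith)
    rw [arg_ofReal_of_neg a1, arg_ofReal_of_nonneg b1] at hre
    refine ⟨by rw [hre]; field_simp; ring, ?_⟩
    rw [him]
    apply div_nonneg _ hpi.le
    rw [abs_of_neg a1, abs_of_nonneg b1]
    have := log_mono h0 h1 ht h
    have e : -((t - r) / (t + r)) = (r - t) / (r + t) := by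
      rw [← neg_div]; congr 1 <;> ring
    rw [e]; linarith
  · have a1 : 0 ≤ (t - r) / (t + r) := div_nonneg (by linarith) (by linarith)
    have a1' : 0 < (t - r) / (t + r) := div_pos (by linarith) (by linarith)
    rcases lt_or_gt_of_ne ht1 with h2 | h2
    · left
      have b1 : 0 ≤ (1 + t) / (1 - t) := div_nonneg (by linarith) (by linarith)
      rw [arg_ofReal_of_nonneg a1, arg_ofReal_of_nonneg b1] at hre
      rw [hre]; simp
    · right; left
      have b1 : (1 + t) / (1 - t) < 0 := div_neg_of_pos_of_neg (by linarith) (by linarith)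
      rw [arg_ofReal_of_nonneg a1, arg_ofReal_of_neg b1] at hre
      refine ⟨by rw [hre]; field_simp; ring, ?_⟩
      rw [him, abs_of_neg b1, abs_of_nonneg a1]
      apply div_nonpos_of_nonpos_of_nonneg _ hpi.le
      have e1 : Real.log ((t - r) / (t + r)) = - Real.log ((t + r) / (t - r)) := by
        rw [← Real.log_inv, inv_div]
      have h3 : 1 - t ≠ 0 := by intro h; linarith
      have h4 : t - 1 ≠ 0 := by intro h; linarith
      have e2 : -((1 + t) / (1 - t)) = (t + 1) / (t - 1) := by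
        rw [← neg_sub t 1, div_neg, neg_neg, add_comm]
      rw [e1, e2]
      have hX : 0 ≤ Real.log ((t + r) / (t - r)) := by
        apply Real.log_nonneg
        rw [le_div_iff₀ (by linarith)]; linarith
      have hXY : Real.log ((t + r) / (t - r)) ≤ Real.log ((t + 1) / (t - 1)) := by
        apply Real.log_le_log (div_pos (by linarith) (by linarith))
        rw [div_le_div_iff₀ (by linarith) (by linarith)]
        nlinarith
      nlinarith

theorem exp_arctan (s : ℝ) : exp ((Real.arctan s : ℝ) * I) = (1 + s * I) / (√(1 + s ^ 2) : ℝ) := by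
  have hp : 0 < √(1 + s ^ 2) := Real.sqrt_pos.2 (by positivity)
  have hne : ((√(1 + s ^ 2) : ℝ) : ℂ) ≠ 0 := by exact_mod_cast hp.ne'
  rw [exp_mul_I, ← ofReal_cos, ← ofReal_sin, Real.cos_arctan, Real.sin_arctan]
  push_cast
  field_simp

theorem FF_imag {r : ℝ} (h0 : 0 < r) (h1 : r < 1) {s : ℝ} (hs : 0 < s) :
    FF r (s * I) ∈ BB r := by
  have hpi := Real.pi_pos
  set α := Real.arctan s with hα
  set β := Real.arctan (s / r) with hβ
  have hα0 : 0 < α := Real.arctan_pos.2 hs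
  have hβ0 : 0 < β := Real.arctan_pos.2 (by positivity)
  have hα1 : α < Real.pi / 2 := Real.arctan_lt_pi_div_two _
  have hβ1 : β < Real.pi / 2 := Real.arctan_lt_pi_div_two _
  have n1 : (1 : ℂ) - s * I ≠ 0 := by
    intro h
    have := congrArg Complex.re h
    simp at this
  have n2 : (s * I : ℂ) + r ≠ 0 := by
    intro h
    have := congrArg Complex.re h
    simp at this; linarith
  have n2' : (1 : ℂ) + (s / r : ℝ) * I ≠ 0 := by
    intro h
    have := congrArg Complex.re h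
    simp at this
  have nr : (r : ℂ) ≠ 0 := by exact_mod_cast h0.ne'
  have eb : bb (s * I) = exp ((2 * α : ℝ) * I) := by
    have e1 : ((2 * α : ℝ) : ℂ) * I = (α : ℝ) * I - ((Real.arctan (-s) : ℝ) * I) := by
      rw [Real.arctan_neg, ← hα]; push_cast; ring
    rw [e1, exp_sub, exp_arctan, exp_arctan, bb]
    have hne : ((√(1 + s ^ 2) : ℝ) : ℂ) ≠ 0 := by
      have : 0 < √(1 + s ^ 2) := Real.sqrt_pos.2 (by positivity)
      exact_mod_cast this.ne'
    have e2 : (1 + (-s) ^ 2 : ℝ) = 1 + s ^ 2 := by ring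
    have e3 : (1 + ((-s : ℝ) : ℂ) * I) = 1 - s * I := by push_cast; ring
    rw [e2, e3, div_div_div_cancel_right₀ hne]
  have ea : aa r (s * I) = exp ((Real.pi - 2 * β : ℝ) * I) := by
    have e1 : ((Real.pi - 2 * β : ℝ) : ℂ) * I =
        Real.pi * I + ((Real.arctan (-(s / r)) : ℝ) * I) - (β : ℝ) * I := by
      rw [Real.arctan_neg, ← hβ]; push_cast; ring
    rw [e1, exp_sub, exp_add, exp_pi_mul_I, exp_arctan, exp_arctan, aa]
    have hne : ((√(1 + (s / r) ^ 2) : ℝ) : ℂ) ≠ 0 := by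
      have : 0 < √(1 + (s / r) ^ 2) := Real.sqrt_pos.2 (by positivity)
      exact_mod_cast this.ne'
    have e2 : (1 + (-(s / r)) ^ 2 : ℝ) = 1 + (s / r) ^ 2 := by ring
    have e3 : (1 + ((-(s / r) : ℝ) : ℂ) * I) = 1 - (s / r : ℝ) * I := by push_cast; ring
    rw [e2, e3, mul_div_assoc', div_div_div_cancel_right₀ hne, div_eq_div_iff n2 n2']
    push_cast
    field_simp
    ring
  have la : (aa r (s * I)).arg = Real.pi - 2 * β := by
    have := Complex.log_exp (x := ((Real.pi - 2 * β : ℝ) : ℂ) * I) (by simp; linarith)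
      (by simp; linarith)
    rw [← log_im, ea, this]; simp
  have lb : (bb (s * I)).arg = 2 * α := by
    have := Complex.log_exp (x := ((2 * α : ℝ) : ℂ) * I) (by simp; linarith)
      (by simp; linarith)
    rw [← log_im, eb, this]; simp
  have na : ‖aa r (s * I)‖ = 1 := by rw [ea, norm_exp_ofReal_mul_I]
  have nb : ‖bb (s * I)‖ = 1 := by rw [eb, norm_exp_ofReal_mul_I]
  right; right; left
  rw [FF_re, FF_im, la, lb, na, nb]
  have hm := atan_mono h0 h1
  have hm0 := hm hs.le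
  simp only [Real.arctan_zero, zero_div, mul_zero, sub_zero] at hm0
  have hl : Tendsto (fun s : ℝ => Real.arctan s - r * Real.arctan (s / r)) atTop
      (𝓝 (Real.pi / 2 - r * (Real.pi / 2))) := by
    have t1 : Tendsto Real.arctan atTop (𝓝 (Real.pi / 2)) :=
      tendsto_nhds_of_tendsto_nhdsWithin Real.tendsto_arctan_atTop
    refine t1.sub (Tendsto.const_mul r (t1.comp ?_))
    exact tendsto_id.atTop_div_const h0
  have hm1 := hm.ge_of_tendsto hl s
  refine ⟨by simp, ?_, ?_⟩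
  · rw [le_div_iff₀ hpi]; nlinarith
  · rw [div_le_iff₀ hpi]; nlinarith

theorem ff_real {r : ℝ} (h0 : 0 < r) (h1 : r < 1) {w : ℂ} (hw : w.im = 0) (hw1 : w ≠ -1)
    (hw0 : w ≠ 0) : ff r w ∈ BB r := by
  obtain ⟨ha, hb⟩ := tt_nonneg h0 h1 hw.ge hw1
  obtain ⟨hc, hd⟩ := tt_ne h0 h1 hw1 hw0
  have hs := tt_sq r w
  have hu : (uu r w).im = 0 := by
    rw [uu_im (fun h => hw1 (eq_neg_of_add_eq_zero_left h)), hw]; simp
  rw [← hs, sq, mul_im] at hu
  have h2 : (tt r w).re * (tt r w).im = 0 := by linarith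
  rw [ff]
  rcases mul_eq_zero.1 h2 with h3 | h3
  · -- imaginary
    have e : tt r w = (tt r w).im * I := by
      apply Complex.ext <;> simp [h3]
    rcases hb.lt_or_eq with h4 | h4
    · rw [e]; exact FF_imag h0 h1 h4
    · have e0 : tt r w = ((0 : ℝ) : ℂ) := by
        rw [e, ← h4]; simp
      rw [e0]
      exact FF_real h0 h1 le_rfl h0.ne (by norm_num)
  · have e : tt r w = (((tt r w).re : ℝ) : ℂ) := by
      apply Complex.ext <;> simp [h3]
    rw [e] at hc hd ⊢
    refine FF_real h0 h1 (by simpa using ha) ?_ ?_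
    · intro h; apply hc; rw [h]
    · intro h; apply hd; rw [h]; simp

/-! ### limits at the corners -/

theorem mono_HP (w : ℂ) : 𝓝[HP] w ≤ 𝓝[{z : ℂ | 0 ≤ z.im}] w :=
  nhdsWithin_mono _ (fun z (h : 0 < z.im) => (le_of_lt h : 0 ≤ z.im))

theorem tt_inv_tendsto {r : ℝ} (h0 : 0 < r) (h1 : r < 1) :
    Tendsto (fun w => (tt r w)⁻¹) (𝓝[HP] (-1 : ℂ)) (𝓝 0) := by
  have e : ∀ w, ((tt r w)⁻¹) ^ 2 = (w + 1) / (w + (r : ℂ) ^ 2) := by
    intro w; rw [inv_pow, tt_sq, uu, inv_div]
  have hne : (-1 : ℂ) + (r : ℂ) ^ 2 ≠ 0 := by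
    have : (-1 : ℝ) + r ^ 2 ≠ 0 := by nlinarith
    exact_mod_cast this
  have h2 : Tendsto (fun w : ℂ => (w + 1) / (w + (r : ℂ) ^ 2)) (𝓝[HP] (-1 : ℂ)) (𝓝 0) := by
    have h3 : ContinuousAt (fun w : ℂ => (w + 1) / (w + (r : ℂ) ^ 2)) (-1) :=
      (continuousAt_id.add continuousAt_const).div (continuousAt_id.add continuousAt_const) hne
    have h4 := h3.tendsto
    simp only [neg_add_cancel, zero_div] at h4
    exact h4.mono_left nhdsWithin_le_nhds
  have h5 : Tendsto (fun w => ‖(tt r w)⁻¹‖ ^ 2) (𝓝[HP] (-1 : ℂ)) (𝓝 0) := by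
    have := h2.norm
    simp only [norm_zero] at this
    refine this.congr (fun w => ?_)
    rw [← e, norm_pow]
  have h6 : Tendsto (fun w => ‖(tt r w)⁻¹‖) (𝓝[HP] (-1 : ℂ)) (𝓝 0) := by
    have := (Real.continuous_sqrt.tendsto 0).comp h5
    simp only [Real.sqrt_zero] at this
    refine this.congr (fun w => ?_)
    simp [Real.sqrt_sq]
  exact tendsto_zero_iff_norm_tendsto_zero.2 h6

theorem tendsto_neg_one {r : ℝ} (h0 : 0 < r) (h1 : r < 1) :
    Tendsto (ff r) (𝓝[HP] (-1 : ℂ)) (𝓝 1) := by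
  have hs := tt_inv_tendsto h0 h1
  have hev : ∀ᶠ w in 𝓝[HP] (-1 : ℂ), w ∈ HP := self_mem_nhdsWithin
  have ha : Tendsto (fun w => aa r (tt r w)) (𝓝[HP] (-1 : ℂ)) (𝓝 1) := by
    have h3 : ContinuousAt (fun s : ℂ => (1 - r * s) / (1 + r * s)) 0 :=
      (continuousAt_const.sub (continuousAt_const.mul continuousAt_id)).div
        (continuousAt_const.add (continuousAt_const.mul continuousAt_id)) (by simp)
    have h4 := h3.tendsto.comp hs
    simp only [mul_zero, sub_zero, add_zero, div_one] at h4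
    refine h4.congr' ?_
    filter_upwards [hev] with w hw
    have ht : tt r w ≠ 0 := fun h => by
      have := (tt_pos h0 h1 hw).1
      rw [h] at this; simp at this
    simp only [Function.comp, aa]
    have e1 : (1 : ℂ) - r * (tt r w)⁻¹ = (tt r w - r) / tt r w := by field_simp
    have e2 : (1 : ℂ) + r * (tt r w)⁻¹ = (tt r w + r) / tt r w := by field_simp
    rw [e1, e2, div_div_div_cancel_right₀ ht]
  have hb : Tendsto (fun w => bb (tt r w)) (𝓝[HP] (-1 : ℂ)) (𝓝[{z : ℂ | 0 ≤ z.im}] (-1)) := by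
    refine tendsto_nhdsWithin_iff.2 ⟨?_, ?_⟩
    · have h3 : ContinuousAt (fun s : ℂ => (s + 1) / (s - 1)) 0 :=
        (continuousAt_id.add continuousAt_const).div
          (continuousAt_id.sub continuousAt_const) (by simp)
      have h4 := h3.tendsto.comp hs
      simp only [zero_add, zero_sub, div_neg, div_one] at h4
      refine h4.congr' ?_
      filter_upwards [hev] with w hw
      have ht : tt r w ≠ 0 := fun h => by
        have := (tt_pos h0 h1 hw).1
        rw [h] at this; simp at this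
      simp only [Function.comp, bb]
      have e1 : (tt r w)⁻¹ + 1 = (1 + tt r w) / tt r w := by field_simp
      have e2 : (tt r w)⁻¹ - 1 = (1 - tt r w) / tt r w := by field_simp
      rw [e1, e2, div_div_div_cancel_right₀ ht]
    · filter_upwards [hev] with w hw
      show 0 ≤ (bb (tt r w)).im
      rw [bb_im]
      exact div_nonneg (mul_nonneg (by linarith) (tt_pos h0 h1 hw).2.le) (normSq_nonneg _)
  have hla : Tendsto (fun w => log (aa r (tt r w))) (𝓝[HP] (-1 : ℂ)) (𝓝 0) := by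
    have := (continuousAt_clog (x := 1) (by simp)).tendsto.comp ha
    rw [log_one] at this
    exact this
  have hlb : Tendsto (fun w => log (bb (tt r w))) (𝓝[HP] (-1 : ℂ)) (𝓝 (Real.pi * I)) := by
    have := (log_cont (z := -1) (by norm_num)).tendsto.comp hb
    rw [log_neg_one] at this
    exact this
  have h := ((tendsto_const_nhds (x := (r : ℂ))).mul hla).add hlb
  have h2 := (tendsto_const_nhds (x := -(I / (Real.pi : ℂ)))).mul h
  have hpi : (Real.pi : ℂ) ≠ 0 := by exact_mod_cast Real.pi_ne_zero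
  have e : -(I / (Real.pi : ℂ)) * ((r : ℂ) * 0 + Real.pi * I) = 1 := by
    field_simp
    rw [mul_zero, zero_add]
    ring_nf
    rw [I_sq]; ring
  rw [e] at h2
  exact h2

theorem tendsto_neg_sq {r : ℝ} (h0 : 0 < r) (h1 : r < 1) :
    Tendsto (ff r) (𝓝[HP] (-(r : ℂ) ^ 2)) (𝓝 (r : ℂ)) := by
  have hr2 : r ^ 2 < 1 := by nlinarith
  have hw1 : (-(r : ℂ) ^ 2) ≠ -1 := by
    intro h
    have h2 : (-(r ^ 2) : ℝ) = -1 := by exact_mod_cast h
    linarith
  have hw0 : (-(r : ℂ) ^ 2) ≠ 0 := by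
    intro h
    have h2 : (-(r ^ 2) : ℝ) = 0 := by exact_mod_cast h
    nlinarith
  have him : (-(r : ℂ) ^ 2).im = 0 := by
    have : (-(r : ℂ) ^ 2) = ((-(r ^ 2) : ℝ) : ℂ) := by push_cast; ring
    rw [this, ofReal_im]
  have h := (ff_cont h0 h1 him.ge hw1 hw0).tendsto.mono_left (mono_HP _)
  have e : ff r (-(r : ℂ) ^ 2) = r := by
    have ht : tt r (-(r : ℂ) ^ 2) = 0 := by
      have := tt_sq r (-(r : ℂ) ^ 2)
      rw [uu, neg_add_cancel, zero_div] at this
      exact pow_eq_zero_iff two_ne_zero |>.1 this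
    have nr : (r : ℂ) ≠ 0 := by exact_mod_cast h0.ne'
    have hpi : (Real.pi : ℂ) ≠ 0 := by exact_mod_cast Real.pi_ne_zero
    rw [ff, ht, FF, aa, bb]
    have e1 : ((0 : ℂ) - r) / (0 + r) = -1 := by rw [zero_sub, zero_add, neg_div, div_self nr]
    rw [e1, log_neg_one]
    simp
    field_simp
    rw [I_sq]; ring
  rw [e] at h
  exact h

theorem tendsto_zero {r : ℝ} (h0 : 0 < r) (h1 : r < 1) :
    Tendsto (fun w => (ff r w).im) (𝓝[HP] (0 : ℂ)) atTop := by
  have hpi := Real.pi_pos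
  have ht : Tendsto (tt r) (𝓝[HP] (0 : ℂ)) (𝓝 (r : ℂ)) := by
    have h := (tt_cont h0 h1 (w := 0) (by norm_num)).tendsto.mono_left (mono_HP _)
    have e : tt r 0 = r := by
      have h2 := tt_sq r 0
      rw [uu, zero_add, zero_add, div_one] at h2
      have h3 : (tt r 0 - r) * (tt r 0 + r) = 0 := by linear_combination h2
      rcases mul_eq_zero.1 h3 with h4 | h4
      · exact sub_eq_zero.1 h4
      · exfalso
        have h5 := (tt_nonneg h0 h1 (w := 0) (by simp) (by norm_num)).1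
        have := congrArg Complex.re h4
        simp at this; linarith
    rwa [e] at h
  have hp : (r : ℂ) + r ≠ 0 := by
    have : r + r ≠ 0 := by linarith
    exact_mod_cast this
  have hm : (1 : ℂ) - r ≠ 0 := by
    have : 1 - r ≠ 0 := by linarith
    exact_mod_cast this
  have hp1 : (1 : ℂ) + r ≠ 0 := by
    have : 1 + r ≠ 0 := by linarith
    exact_mod_cast this
  have hca : ContinuousAt (aa r) r := by
    unfold aa
    exact (continuousAt_id.sub continuousAt_const).div (continuousAt_id.add continuousAt_const) hp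
  have hcb : ContinuousAt bb r := by
    unfold bb
    exact (continuousAt_const.add continuousAt_id).div (continuousAt_const.sub continuousAt_id) hm
  have ha : Tendsto (fun w => ‖aa r (tt r w)‖) (𝓝[HP] (0 : ℂ)) (𝓝[>] 0) := by
    refine tendsto_nhdsWithin_iff.2 ⟨?_, ?_⟩
    · have := (hca.tendsto.comp ht).norm
      simpa [aa] using this
    · filter_upwards [self_mem_nhdsWithin] with w hw
      have h5 := (tt_pos h0 h1 hw).2
      have h6 : 0 < (aa r (tt r w)).im := by
        rw [aa_im]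
        refine div_pos (mul_pos (by linarith) h5) (normSq_pos.2 ?_)
        intro h
        have := congrArg Complex.im h
        simp at this; linarith
      exact norm_pos_iff.2 (fun h => by rw [h] at h6; simp at h6)
  have hla : Tendsto (fun w => Real.log ‖aa r (tt r w)‖) (𝓝[HP] (0 : ℂ)) atBot :=
    Real.tendsto_log_nhdsGT_zero.comp ha
  have hb : Tendsto (fun w => Real.log ‖bb (tt r w)‖) (𝓝[HP] (0 : ℂ)) (𝓝 (Real.log ‖bb r‖)) := by
    have := (hcb.tendsto.comp ht).norm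
    refine (Real.continuousAt_log ?_).tendsto.comp this
    rw [bb]
    exact norm_ne_zero_iff.2 (div_ne_zero hp1 hm)
  have h2 := (hla.const_mul_atBot h0).atBot_add hb
  have h3 := (tendsto_neg_atBot_atTop.comp h2).atTop_div_const hpi
  refine h3.congr (fun w => ?_)
  rw [ff, FF_im]; rfl

theorem tendsto_infty {r : ℝ} (h0 : 0 < r) (h1 : r < 1) :
    Tendsto (fun w => (ff r w).im) (cocompact ℂ ⊓ 𝓟 HP) atBot := by
  have hpi := Real.pi_pos
  have hu : Tendsto (uu r) (cocompact ℂ ⊓ 𝓟 HP) (𝓝 1) := by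
    have h2 : Tendsto (fun w : ℂ => (w + 1)⁻¹) (cocompact ℂ) (𝓝 0) := by
      have h3 : Tendsto (fun w : ℂ => w + 1) (cocompact ℂ) (cocompact ℂ) :=
        (Homeomorph.addRight (1 : ℂ)).isClosedEmbedding.tendsto_cocompact
      rw [← Metric.cobounded_eq_cocompact] at h3 ⊢
      exact tendsto_inv₀_cobounded.comp h3
    have h4 : Tendsto (fun w : ℂ => 1 - ((1 - r ^ 2 : ℝ) : ℂ) * (w + 1)⁻¹) (cocompact ℂ) (𝓝 1) := by
      have := (tendsto_const_nhds (x := (1 : ℂ))).sub
        ((tendsto_const_nhds (x := ((1 - r ^ 2 : ℝ) : ℂ))).mul h2)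
      simpa using this
    have h5 := h4.mono_left (inf_le_left (b := 𝓟 HP))
    refine h5.congr' ?_
    filter_upwards [mem_inf_of_right (mem_principal_self HP)] with w hw
    rw [uu_eq (ne_neg_one hw), div_eq_mul_inv]
  have ht : Tendsto (tt r) (cocompact ℂ ⊓ 𝓟 HP) (𝓝 1) := by
    have h := (continuousAt_cpow_const_of_re_pos (z := 1) (w := (((2 : ℕ) : ℂ)⁻¹)) (Or.inl (by simp))
      (by norm_num)).tendsto.comp hu
    rw [one_cpow] at h
    exact h
  have hm : (1 : ℂ) - r ≠ 0 := by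
    have : 1 - r ≠ 0 := by linarith
    exact_mod_cast this
  have hp1 : (1 : ℂ) + r ≠ 0 := by
    have : 1 + r ≠ 0 := by linarith
    exact_mod_cast this
  have hca : ContinuousAt (aa r) 1 := by
    unfold aa
    exact (continuousAt_id.sub continuousAt_const).div (continuousAt_id.add continuousAt_const) hp1
  have ha : Tendsto (fun w => Real.log ‖aa r (tt r w)‖) (cocompact ℂ ⊓ 𝓟 HP)
      (𝓝 (Real.log ‖aa r 1‖)) := by
    have := (hca.tendsto.comp ht).norm
    refine (Real.continuousAt_log ?_).tendsto.comp this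
    rw [aa]
    exact norm_ne_zero_iff.2 (div_ne_zero hm hp1)
  have hn : Tendsto (fun w => ‖1 - tt r w‖) (cocompact ℂ ⊓ 𝓟 HP) (𝓝[>] 0) := by
    refine tendsto_nhdsWithin_iff.2 ⟨?_, ?_⟩
    · have := ((tendsto_const_nhds (x := (1 : ℂ))).sub ht).norm
      simpa using this
    · filter_upwards [mem_inf_of_right (mem_principal_self HP)] with w hw
      refine norm_pos_iff.2 (fun h => ?_)
      have h5 := (tt_pos h0 h1 hw).2
      have := congrArg Complex.im h
      simp at this; linarith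
  have hn2 : Tendsto (fun w => Real.log ‖1 + tt r w‖) (cocompact ℂ ⊓ 𝓟 HP) (𝓝 (Real.log 2)) := by
    have := ((tendsto_const_nhds (x := (1 : ℂ))).add ht).norm
    have e : ‖(1 : ℂ) + 1‖ = 2 := by norm_num
    rw [e] at this
    exact (Real.continuousAt_log two_ne_zero).tendsto.comp this
  have hb : Tendsto (fun w => Real.log ‖bb (tt r w)‖) (cocompact ℂ ⊓ 𝓟 HP) atTop := by
    have h2 := (tendsto_neg_atBot_atTop.comp (Real.tendsto_log_nhdsGT_zero.comp hn)).atTop_add hn2
    refine h2.congr' ?_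
    filter_upwards [mem_inf_of_right (mem_principal_self HP)] with w hw
    obtain ⟨h5, h6⟩ := tt_pos h0 h1 hw
    have n1 : 1 + tt r w ≠ 0 := by
      intro h
      have := congrArg Complex.im h
      simp at this; linarith
    have n2 : 1 - tt r w ≠ 0 := by
      intro h
      have := congrArg Complex.im h
      simp at this; linarith
    simp only [Function.comp, bb]
    rw [norm_div, Real.log_div (norm_ne_zero_iff.2 n1) (norm_ne_zero_iff.2 n2)]
    ring
  have h2 := (tendsto_const_nhds (x := r)).mul ha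
  have h3 := h2.add_atTop hb
  have h4 := tendsto_neg_atTop_atBot.comp h3
  have h5 := h4.atBot_div_const hpi
  refine h5.congr (fun w => ?_)
  rw [ff, FF_im]; rfl

/-! ### the image -/

theorem isOpen_HP : IsOpen HP := isOpen_lt continuous_const continuous_im

theorem convex_HP : Convex ℝ HP := by
  intro a ha b hb s t hs ht hst
  have ha' : 0 < a.im := ha
  have hb' : 0 < b.im := hb
  show 0 < (s • a + t • b).im
  simp only [add_im, real_smul, im_ofReal_mul]
  rcases hs.lt_or_eq with h | h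
  · have := mul_pos h ha'
    have := mul_nonneg ht hb'.le
    linarith
  · rw [← h] at hst ⊢
    have : t = 1 := by linarith
    rw [this]; simpa using hb'

theorem isOpen_image {r : ℝ} (h0 : 0 < r) (h1 : r < 1) : IsOpen (ff r '' HP) := by
  have hd : DifferentiableOn ℂ (ff r) HP := fun w hw =>
    (hasDerivAt_ff h0 h1 hw).differentiableAt.differentiableWithinAt
  have ha : AnalyticOnNhd ℂ (ff r) HP := hd.analyticOnNhd isOpen_HP
  rcases ha.is_constant_or_isOpen convex_HP.isPreconnected with h | h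
  · exfalso
    obtain ⟨c, hc⟩ := h
    have i1 : I ∈ HP := by show 0 < I.im; simp
    have i2 : 2 * I ∈ HP := by show 0 < (2 * I).im; simp
    have := ff_inj h0 h1 i1 i2 (by rw [hc _ i1, hc _ i2])
    have h3 := congrArg Complex.im this
    simp at h3
  · exact h HP subset_rfl isOpen_HP

/-- limit points of the image which are not in the image lie in `BB r` -/
theorem closure_image {r : ℝ} (h0 : 0 < r) (h1 : r < 1) {z : ℂ} (hz : z ∈ closure (ff r '' HP)) :
    z ∈ ff r '' HP ∨ z ∈ BB r := by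
  obtain ⟨x, hx, hxz⟩ := mem_closure_iff_seq_limit.1 hz
  choose y hy hyx using hx
  by_cases hb : ∃ R : ℝ, ∃ᶠ n in atTop, y n ∈ Metric.closedBall (0 : ℂ) R
  · obtain ⟨R, hR⟩ := hb
    obtain ⟨w, -, φ, hφ, hw⟩ := (isCompact_closedBall (0 : ℂ) R).tendsto_subseq' hR
    have hyx' : Tendsto (fun n => ff r (y (φ n))) atTop (𝓝 z) := by
      refine (hxz.comp hφ.tendsto_atTop).congr (fun n => ?_)
      simp [hyx]
    have hwim : 0 ≤ w.im := by
      have h2 : Tendsto (fun n => (y (φ n)).im) atTop (𝓝 w.im) :=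
        (continuous_im.tendsto w).comp hw
      exact ge_of_tendsto' h2 (fun n => le_of_lt (hy (φ n)))
    have hwH : Tendsto (fun n => y (φ n)) atTop (𝓝[HP] w) :=
      tendsto_nhdsWithin_iff.2 ⟨hw, Eventually.of_forall (fun n => hy (φ n))⟩
    by_cases e1 : w = -1
    · rw [e1] at hwH
      have h3 := tendsto_nhds_unique ((tendsto_neg_one h0 h1).comp hwH) hyx'
      right; rw [← h3]; right; left; simp
    by_cases e0 : w = 0
    · exfalso
      rw [e0] at hwH
      have h3 := (tendsto_zero h0 h1).comp hwH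
      have h4 : Tendsto (fun n => (ff r (y (φ n))).im) atTop (𝓝 z.im) :=
        (continuous_im.tendsto z).comp hyx'
      exact not_tendsto_nhds_of_tendsto_atTop h3 _ h4
    have h5 := ((ff_cont h0 h1 hwim e1 e0).tendsto.mono_left (mono_HP _)).comp hwH
    have h6 := tendsto_nhds_unique h5 hyx'
    rcases hwim.lt_or_eq with h7 | h7
    · left; exact ⟨w, h7, h6⟩
    · right; rw [← h6]; exact ff_real h0 h1 h7.symm e1 e0
  · exfalso
    have h2 : Tendsto y atTop (cocompact ℂ ⊓ 𝓟 HP) := by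
      rw [tendsto_inf, tendsto_principal]
      refine ⟨?_, Eventually.of_forall hy⟩
      rw [← Metric.cobounded_eq_cocompact,
        (Metric.hasBasis_cobounded_compl_closedBall (0 : ℂ)).tendsto_right_iff]
      intro R _
      exact not_frequently.1 (fun h => hb ⟨R, h⟩)
    have h3 := (tendsto_infty h0 h1).comp h2
    have h4 : Tendsto (fun n => (ff r (y n)).im) atTop (𝓝 z.im) := by
      refine ((continuous_im.tendsto z).comp hxz).congr (fun n => ?_)
      simp [hyx]
    exact not_tendsto_nhds_of_tendsto_atBot h3 _ h4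

def RR (r : ℝ) : Set ℂ := {z | 1 < z.re} ∪ {z | 0 < z.im ∧ r < z.re}

theorem convex_re (a : ℝ) : Convex ℝ {z : ℂ | a < z.re} :=
  (convex_Ioi a).affine_preimage Complex.reLm.toAffineMap

theorem preconn_RR (r : ℝ) : IsPreconnected (RR r) := by
  have c1 : Convex ℝ {z : ℂ | 1 < z.re} := convex_re 1
  have c2 : Convex ℝ {z : ℂ | 0 < z.im ∧ r < z.re} := convex_HP.inter (convex_re r)
  refine IsPreconnected.union ((2 + |r| : ℝ) + I : ℂ) ?_ ?_ c1.isPreconnected c2.isPreconnected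
  · show 1 < ((2 + |r| : ℝ) + I : ℂ).re
    simp; have := abs_nonneg r; linarith
  · constructor
    · simp
    · simp; have := le_abs_self r; linarith

theorem LDom_eq {r : ℝ} (h1 : r < 1) : LDom r =
    ({z : ℂ | 0 < z.re} ∩ {z : ℂ | z.re < 1} ∩ {z : ℂ | z.im < 0}) ∪
      ({z : ℂ | 0 < z.re} ∩ {z : ℂ | z.re < r}) := by
  ext z
  simp only [LDom, Set.mem_ofPred_eq, Set.mem_union, Set.mem_inter_iff]
  constructor
  · rintro ⟨a, b, c⟩
    by_cases h : 0 ≤ z.im
    · exact Or.inr ⟨a, c h⟩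
    · exact Or.inl ⟨⟨a, b⟩, not_le.1 h⟩
  · rintro (⟨⟨a, b⟩, c⟩ | ⟨a, b⟩)
    · exact ⟨a, b, fun h => absurd h (not_le.2 c)⟩
    · exact ⟨a, b.trans h1, fun _ => b⟩

theorem preconn_LDom {r : ℝ} (h0 : 0 < r) (h1 : r < 1) : IsPreconnected (LDom r) := by
  rw [LDom_eq h1]
  have c1 : Convex ℝ {z : ℂ | 0 < z.re} := convex_re 0
  have c2 : ∀ a : ℝ, Convex ℝ {z : ℂ | z.re < a} := fun a =>
    (convex_Iio a).affine_preimage Complex.reLm.toAffineMap
  have c3 : Convex ℝ {z : ℂ | z.im < 0} :=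
    (convex_Iio 0).affine_preimage Complex.imLm.toAffineMap
  refine IsPreconnected.union ((r / 2 : ℝ) - I : ℂ) ?_ ?_ ((c1.inter (c2 1)).inter c3).isPreconnected
    (c1.inter (c2 r)).isPreconnected
  · simp only [Set.mem_inter_iff, Set.mem_ofPred_eq]
    simp; constructor <;> linarith
  · simp only [Set.mem_inter_iff, Set.mem_ofPred_eq]
    simp; linarith

theorem cover {r : ℝ} (h1 : r < 1) (z : ℂ) : z ∈ LDom r ∨ z ∈ BB r ∨ z.re < 0 ∨ z ∈ RR r := by
  simp only [LDom, BB, RR, Set.mem_ofPred_eq, Set.mem_union]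
  rcases lt_trichotomy z.re 0 with h | h | h
  · exact Or.inr (Or.inr (Or.inl h))
  · exact Or.inr (Or.inl (Or.inl h))
  rcases lt_trichotomy z.re 1 with h2 | h2 | h2
  · rcases lt_trichotomy z.im 0 with h3 | h3 | h3
    · exact Or.inl ⟨h, h2, fun h4 => absurd h4 (not_le.2 h3)⟩
    · rcases lt_or_ge z.re r with h5 | h5
      · exact Or.inl ⟨h, h2, fun _ => h5⟩
      · exact Or.inr (Or.inl (Or.inr (Or.inr (Or.inl ⟨h3, h5, h2.le⟩))))
    · rcases lt_trichotomy z.re r with h5 | h5 | h5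
      · exact Or.inl ⟨h, h2, fun _ => h5⟩
      · exact Or.inr (Or.inl (Or.inr (Or.inr (Or.inr ⟨h5, h3.le⟩))))
      · exact Or.inr (Or.inr (Or.inr (Or.inr ⟨h3, h5⟩)))
  · rcases le_or_gt z.im 0 with h3 | h3
    · exact Or.inr (Or.inl (Or.inr (Or.inl ⟨h2, h3⟩)))
    · rcases lt_trichotomy z.re r with h5 | h5 | h5
      · exfalso; linarith
      · exact Or.inr (Or.inl (Or.inr (Or.inr (Or.inr ⟨h5, h3.le⟩))))
      · exact Or.inr (Or.inr (Or.inr (Or.inr ⟨h3, h5⟩)))
  · exact Or.inr (Or.inr (Or.inr (Or.inl h2)))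

theorem disj_RR {r : ℝ} (h1 : r < 1) (h0 : 0 < r) {z : ℂ} (hz : z ∈ RR r) : z ∉ BB r := by
  rcases hz with hz | ⟨hz1, hz2⟩
  · have hz : 1 < z.re := hz
    rintro (h | ⟨h, -⟩ | ⟨-, -, h⟩ | ⟨h, -⟩) <;> linarith
  · rintro (h | ⟨h, h'⟩ | ⟨h, -, -⟩ | ⟨h, -⟩)
    · linarith
    · linarith
    · linarith
    · linarith

theorem disj_LDom {r : ℝ} {z : ℂ} (hz : z ∈ LDom r) : z ∉ BB r := by
  obtain ⟨a, b, c⟩ := hz
  rintro (h | ⟨h, -⟩ | ⟨h, h2, -⟩ | ⟨h, h2⟩)
  · linarith
  · linarith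
  · have := c h.ge; linarith
  · have := c h2; linarith

theorem image_eq {r : ℝ} (h0 : 0 < r) (h1 : r < 1) : ff r '' HP = LDom r := by
  have hopen := isOpen_image h0 h1
  have hRR : ∀ z ∈ ff r '' HP, z ∉ RR r := by
    intro z hz hzR
    have hsub : RR r ⊆ ff r '' HP := by
      apply (preconn_RR r).subset_of_closure_inter_subset hopen ⟨z, hzR, hz⟩
      rintro y ⟨hy1, hy2⟩
      rcases closure_image h0 h1 hy1 with h | h
      · exact h
      · exact absurd h (disj_RR h1 h0 hy2)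
    have h3 : ((2 : ℝ) : ℂ) ∈ ff r '' HP := hsub (Or.inl (by show 1 < ((2 : ℝ) : ℂ).re; simp))
    obtain ⟨w, hw, hw2⟩ := h3
    have := (re_ff h0 h1 hw).2
    rw [hw2, ofReal_re] at this
    linarith
  have hneg : ∀ z ∈ ff r '' HP, ¬ z.re < 0 := by
    rintro z ⟨w, hw, rfl⟩
    exact not_lt.2 (re_ff h0 h1 hw).1.le
  have hBB : ∀ z ∈ ff r '' HP, z ∉ BB r := by
    intro z hz hzB
    obtain ⟨ε, hε, hball⟩ := Metric.isOpen_iff.1 hopen z hz
    rcases hzB with h | h
    · obtain ⟨w, hw, hw2⟩ := hz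
      have := (re_ff h0 h1 hw).1
      rw [hw2] at this; linarith
    · have hmem : z + ((ε / 4 : ℝ) : ℂ) * (1 + I) ∈ Metric.ball z ε := by
        rw [Metric.mem_ball, dist_eq_norm, add_sub_cancel_left, norm_mul, norm_real, Real.norm_eq_abs,
          abs_of_pos (by positivity)]
        have : ‖(1 : ℂ) + I‖ ≤ 2 := (norm_add_le _ _).trans (by simp; norm_num)
        nlinarith
      apply hRR _ (hball hmem)
      have e1 : (z + ((ε / 4 : ℝ) : ℂ) * (1 + I)).re = z.re + ε / 4 := by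
        rw [add_re, re_ofReal_mul]; simp
      have e2 : (z + ((ε / 4 : ℝ) : ℂ) * (1 + I)).im = z.im + ε / 4 := by
        rw [add_im, im_ofReal_mul]; simp
      rcases h with ⟨h, h'⟩ | ⟨h, h', -⟩ | ⟨h, h'⟩
      · left
        show 1 < (z + ((ε / 4 : ℝ) : ℂ) * (1 + I)).re
        rw [e1]; linarith
      · right; exact ⟨by rw [e2]; linarith, by rw [e1]; linarith⟩
      · right; exact ⟨by rw [e2]; linarith, by rw [e1]; linarith⟩
  have hsub : ff r '' HP ⊆ LDom r := by
    intro z hz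
    rcases cover h1 z with h | h | h | h
    · exact h
    · exact absurd h (hBB z hz)
    · exact absurd h (hneg z hz)
    · exact absurd h (hRR z hz)
  apply Set.Subset.antisymm hsub
  have i1 : I ∈ HP := by show 0 < I.im; simp
  apply (preconn_LDom h0 h1).subset_of_closure_inter_subset hopen
    ⟨ff r I, hsub ⟨I, i1, rfl⟩, ⟨I, i1, rfl⟩⟩
  rintro y ⟨hy1, hy2⟩
  rcases closure_image h0 h1 hy1 with h | h
  · exact h
  · exact absurd h (disj_LDom hy2)

end Conf

open Conf in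
theorem exists_conf (r : ℝ) (h0 : 0 < r) (h1 : r < 1) :
    ∃ f : ℂ → ℂ, DifferentiableOn ℂ f HP ∧ Set.BijOn f HP (LDom r) ∧
      Tendsto (fun w => (f w).im) (cocompact ℂ ⊓ 𝓟 HP) atBot ∧
      Tendsto f (𝓝[HP] (-1 : ℂ)) (𝓝 1) ∧
      Tendsto f (𝓝[HP] (-(r : ℂ) ^ 2)) (𝓝 (r : ℂ)) ∧
      Tendsto (fun w => (f w).im) (𝓝[HP] (0 : ℂ)) atTop := by
  refine ⟨ff r, fun w hw => (hasDerivAt_ff h0 h1 hw).differentiableAt.differentiableWithinAt,
    ⟨?_, ff_inj h0 h1, ?_⟩, tendsto_infty h0 h1, tendsto_neg_one h0 h1, tendsto_neg_sq h0 h1,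
    tendsto_zero h0 h1⟩
  · rw [← image_eq h0 h1]; exact Set.mapsTo_image _ _
  · rw [← image_eq h0 h1]; exact Set.surjOn_image _ _

end Pool.Agent.H72.CardyC
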