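import Pool.Agent.H72.Cardy.PreSol

/-! Cardy L-strip, JOB CAR-B2 (helper58): fusion from the exchange relations and the extreme
component. -/

set_option autoImplicit false

namespace Pool.Agent.H72.Cardy

variable {q a : ℂ} {Φ : List ℂ → List Bool → ℂ}

namespace FuseAux

lemma q_ne (hq : q ^ 2 + q + 1 = 0) : q ≠ 0 := by
  rintro rfl; norm_num at hq

lemma a_ne (hq : q ^ 2 + q + 1 = 0) (ha : a ^ 2 = - q ^ 2) : a ≠ 0 := by
  rintro rfl
  have : q ^ 2 = 0 := by linear_combination ha
  exact q_ne hq (by simpa using this)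

lemma q_cube (hq : q ^ 2 + q + 1 = 0) : q ^ 3 = 1 := by
  linear_combination (q - 1) * hq

lemma q_inv (hq : q ^ 2 + q + 1 = 0) : q⁻¹ = q ^ 2 := by
  have h := q_ne hq
  field_simp
  linear_combination -(q_cube hq)

lemma a_inv (hq : q ^ 2 + q + 1 = 0) (ha : a ^ 2 = - q ^ 2) : a⁻¹ = - (a * q) := by
  have h := a_ne hq ha
  field_simp
  linear_combination -(q_cube hq) + q * ha

/-- bubble-sort induction on lists of Booleans -/
lemma sort_ind (P : List Bool → Prop)
    (step : ∀ s t, P (s ++ false :: true :: t) → P (s ++ true :: false :: t)) :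
    (∀ (k : ℕ) (t p : List Bool), P (p ++ (List.replicate k false ++ true :: t)) →
      P (p ++ (true :: (List.replicate k false ++ t)))) ∧
    ∀ (s p : List Bool),
      P (p ++ (List.replicate (s.count false) false ++ List.replicate (s.count true) true)) →
      P (p ++ s) := by
  have h1 : ∀ (k : ℕ) (t p : List Bool), P (p ++ (List.replicate k false ++ true :: t)) →
      P (p ++ (true :: (List.replicate k false ++ t))) := by
    intro k
    induction k with
    | zero => intro t p h; simpa using h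
    | succ k ih =>
      intro t p h
      have h2 := ih t (p ++ [false]) (by simpa [List.replicate_succ] using h)
      have h3 := step p (List.replicate k false ++ t) (by simpa using h2)
      simpa [List.replicate_succ] using h3
  refine ⟨h1, ?_⟩
  intro s
  induction s with
  | nil => intro p h; simpa using h
  | cons c s ih =>
    intro p h
    cases c with
    | false =>
      have := ih (p ++ [false]) (by simpa [List.replicate_succ] using h)
      simpa using this
    | true =>
      have h2 := h1 (s.count false) (List.replicate (s.count true) true) p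
        (by simpa [List.replicate_succ] using h)
      have := ih (p ++ [true]) (by simpa using h2)
      simpa using this

/-- split a list at a given length -/
lemma split_len {α : Type*} (l : List α) (n m : ℕ) (h : l.length = n + (m + 2)) :
    ∃ l₁ x y l₂, l = l₁ ++ x :: y :: l₂ ∧ l₁.length = n ∧ l₂.length = m := by
  induction n generalizing l with
  | zero =>
    match l, h with
    | x :: y :: l₂, h => exact ⟨[], x, y, l₂, rfl, rfl, by simpa using h⟩
    | [_], h => simp at h
    | [], h => simp at h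
  | succ n ih =>
    match l, h with
    | z :: l', h =>
      obtain ⟨l₁, x, y, l₂, rfl, h1, h2⟩ := ih l' (by simp at h; omega)
      exact ⟨z :: l₁, x, y, l₂, rfl, by simp [h1], h2⟩
    | [], h => simp at h

lemma split_len' {α : Type*} (l : List α) (n m : ℕ) (h : l.length = n + m) :
    ∃ l₁ l₂, l = l₁ ++ l₂ ∧ l₁.length = n ∧ l₂.length = m :=
  ⟨l.take n, l.drop n, (List.take_append_drop n l).symm, by simp [h], by simp [h]⟩

/-- generic parameters relative to `x` -/
def G (x : ℂ) (l : List ℂ) : Prop :=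
  NZ l ∧ (l.Pairwise fun u v => u ^ 3 ≠ v ^ 3) ∧ ∀ u ∈ l, u ^ 3 ≠ x ^ 3

lemma G_perm {x : ℂ} {l l' : List ℂ} (hp : l.Perm l') (h : G x l) : G x l' := by
  refine ⟨fun u hu => h.1 u (hp.mem_iff.2 hu), ?_, fun u hu => h.2.2 u (hp.mem_iff.2 hu)⟩
  exact (hp.pairwise_iff (fun {a b} hab => hab.symm)).1 h.2.1

/-- uniqueness: a solution of the exchange relations with vanishing extreme component is zero -/
lemma uniq (x₀ : ℂ) (ha0 : a ≠ 0) (W : List ℂ → List Bool → ℂ)
    (hex : ∀ l₁ x y l₂ s c d t, List.length s = List.length l₁ → List.length t = List.length l₂ →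
      G x₀ (l₁ ++ x :: y :: l₂) →
      (q * y - q⁻¹ * x) * W (l₁ ++ y :: x :: l₂) (s ++ c :: d :: t) =
      (q * x - q⁻¹ * y) * W (l₁ ++ x :: y :: l₂) (s ++ c :: d :: t) +
      (x - y) * (A a c d * cap a (W (l₁ ++ x :: y :: l₂)) s t))
    (htop : ∀ l k j, l.length = k + j → G x₀ l →
      W l (List.replicate k false ++ List.replicate j true) = 0) :
    ∀ s l, G x₀ l → l.length = s.length → W l s = 0 := by
  have key := sort_ind (fun s => ∀ l, G x₀ l → l.length = s.length → W l s = 0) ?_
  · intro s l hl hls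
    have := key.2 s [] ?_ l hl (by simpa using hls)
    · simpa using this
    · intro l hl hls
      have := htop l (s.count false) (s.count true) (by simpa using hls) hl
      simpa using this
  · intro s t h l hl hls
    obtain ⟨l₁, x, y, l₂, rfl, h1, h2⟩ := split_len l s.length t.length
      (by rw [hls]; simp)
    have hp : (l₁ ++ x :: y :: l₂).Perm (l₁ ++ y :: x :: l₂) :=
      List.Perm.append_left _ (List.Perm.swap _ _ _)
    have e := hex l₁ x y l₂ s false true t h1.symm h2.symm hl
    have e1 := h (l₁ ++ y :: x :: l₂) (G_perm hp hl) (by simp [h1, h2])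
    have e2 := h (l₁ ++ x :: y :: l₂) hl (by simp [h1, h2])
    rw [e1, e2, cap, e2] at e
    simp only [A, mul_zero, add_zero, zero_add] at e
    have hxy : x ≠ y := by
      have := hl.2.1
      rw [List.pairwise_append] at this
      have h3 := this.2.1
      rw [List.pairwise_cons] at h3
      have h4 := h3.1 y (by simp)
      rintro rfl; exact h4 rfl
    have e3 : (x - y) * W (l₁ ++ x :: y :: l₂) (s ++ true :: false :: t) = 0 := by
      rw [← mul_assoc a, mul_inv_cancel₀ ha0, one_mul] at e
      exact e.symm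
    exact (mul_eq_zero.1 e3).resolve_left (sub_ne_zero.2 hxy)

/-- the remaining vector after the pair `x, q x` is removed -/
noncomputable def Y (q a : ℂ) (Φ : List ℂ → List Bool → ℂ) (x : ℂ) (l₁ l₂ : List ℂ)
    (s t : List Bool) : ℂ :=
  cap a (Φ (l₁ ++ x :: (q * x) :: l₂)) s t

lemma fuse0 (hq : q ^ 2 + q + 1 = 0) (h : PreSol q a Φ)
    (l₁ : List ℂ) (x : ℂ) (l₂ : List ℂ) (s : List Bool) (c d : Bool) (t : List Bool)
    (hs : s.length = l₁.length) (ht : t.length = l₂.length) (hx : x ≠ 0) (h0 : NZ (l₁ ++ l₂)) :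
    Φ (l₁ ++ x :: (q * x) :: l₂) (s ++ c :: d :: t) = A a c d * Y q a Φ x l₁ l₂ s t := by
  have hq0 := q_ne hq
  have hnz : ∀ z ∈ l₁ ++ x :: (q * x) :: l₂, z ≠ 0 := by
    intro z hz
    simp only [List.mem_append, List.mem_cons] at hz
    rcases hz with hz | rfl | rfl | hz
    · exact h0 z (by simp [hz])
    · exact hx
    · exact mul_ne_zero hq0 hx
    · exact h0 z (by simp [hz])
  have e := h.exch l₁ x (q * x) l₂ s c d t hs ht hnz
  have hcoef : q * (q * x) - q⁻¹ * x = 0 := by
    rw [q_inv hq]; ring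
  have hcoef2 : q * x - q⁻¹ * (q * x) = -(x - q * x) := by
    rw [← mul_assoc, inv_mul_cancel₀ hq0]; ring
  rw [hcoef, hcoef2, zero_mul] at e
  have hne : x - q * x ≠ 0 := by
    have : x - q * x = (1 - q) * x := by ring
    rw [this]
    refine mul_ne_zero ?_ hx
    intro h1
    have hq1 : q = 1 := by linear_combination -h1
    rw [hq1] at hq; norm_num at hq
  have e2 : (x - q * x) * (Φ (l₁ ++ x :: (q * x) :: l₂) (s ++ c :: d :: t) -
      A a c d * Y q a Φ x l₁ l₂ s t) = 0 := by
    rw [Y]; linear_combination e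
  exact sub_eq_zero.1 ((mul_eq_zero.1 e2).resolve_left hne)

/-- pull-through: the pair can be moved to the left -/
lemma pull (hq : q ^ 2 + q + 1 = 0) (ha : a ^ 2 = - q ^ 2) (h : PreSol q a Φ)
    (l₁ : List ℂ) (u x : ℂ) (l₂ : List ℂ) (s : List Bool) (e : Bool) (t : List Bool)
    (hs : s.length = l₁.length) (ht : t.length = l₂.length) (hx : x ≠ 0)
    (h0 : NZ (l₁ ++ u :: l₂)) (hu : u ^ 3 ≠ x ^ 3) :
    Y q a Φ x l₁ (u :: l₂) s (e :: t) = Y q a Φ x (l₁ ++ [u]) l₂ (s ++ [e]) t := by
  have hq0 := q_ne hq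
  have ha0 := a_ne hq ha
  have hu0 : u ≠ 0 := h0 u (by simp)
  have hqx : q * x ≠ 0 := mul_ne_zero hq0 hx
  have hqi := q_inv hq
  have hq3 := q_cube hq
  have hai := a_inv hq ha
  -- the vector with `u` on the left
  have hV : ∀ c d e' : Bool, Φ (l₁ ++ u :: x :: (q * x) :: l₂) (s ++ c :: d :: e' :: t) =
      A a d e' * Y q a Φ x (l₁ ++ [u]) l₂ (s ++ [c]) t := by
    intro c d e'
    have := fuse0 hq h (l₁ ++ [u]) x l₂ (s ++ [c]) d e' t (by simp [hs]) ht hx
      (by intro z hz; exact h0 z (by simpa using hz))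
    simpa using this
  -- the vector with `u` on the right
  have hV2 : ∀ c d e' : Bool, Φ (l₁ ++ x :: (q * x) :: u :: l₂) (s ++ c :: d :: e' :: t) =
      A a c d * Y q a Φ x l₁ (u :: l₂) s (e' :: t) := by
    intro c d e'
    exact fuse0 hq h l₁ x (u :: l₂) s c d (e' :: t) hs (by simp [ht]) hx h0
  have hmem : ∀ z, z ∈ l₁ ∨ z ∈ l₂ → z ≠ 0 := by
    intro z hz
    exact h0 z (by simp only [List.mem_append, List.mem_cons]; tauto)
  -- first exchange
  have h1 : ∀ c d e' : Bool, (q * x - q⁻¹ * u) *
      Φ (l₁ ++ x :: u :: (q * x) :: l₂) (s ++ c :: d :: e' :: t) =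
      (q * u - q⁻¹ * x) * (A a d e' * Y q a Φ x (l₁ ++ [u]) l₂ (s ++ [c]) t) +
      (u - x) * (A a c d * Y q a Φ x (l₁ ++ [u]) l₂ (s ++ [e']) t) := by
    intro c d e'
    have := h.exch l₁ u x ((q * x) :: l₂) s c d (e' :: t) hs (by simp [ht]) (by
      intro z hz
      simp only [List.mem_append, List.mem_cons] at hz
      rcases hz with hz | rfl | rfl | rfl | hz
      · exact hmem z (Or.inl hz)
      · exact hu0
      · exact hx
      · exact hqx
      · exact hmem z (Or.inr hz))
    rw [this, cap, hV, hV, hV]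
    cases e' <;> simp only [A] <;> field_simp <;> ring
  -- second exchange
  have h2 : ∀ c d e' : Bool, (q * (q * x) - q⁻¹ * u) *
      (A a c d * Y q a Φ x l₁ (u :: l₂) s (e' :: t)) =
      (q * u - q⁻¹ * (q * x)) * Φ (l₁ ++ x :: u :: (q * x) :: l₂) (s ++ c :: d :: e' :: t) +
      (u - q * x) * (A a d e' *
        (a⁻¹ * Φ (l₁ ++ x :: u :: (q * x) :: l₂) (s ++ c :: true :: false :: t) +
          a * Φ (l₁ ++ x :: u :: (q * x) :: l₂) (s ++ c :: false :: true :: t))) := by
    intro c d e'
    have := h.exch (l₁ ++ [x]) u (q * x) l₂ (s ++ [c]) d e' t (by simp [hs]) (by simp [ht]) (by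
      intro z hz
      simp only [List.mem_append, List.mem_cons] at hz
      rcases hz with (hz | rfl | hz) | rfl | rfl | hz
      · exact hmem z (Or.inl hz)
      · exact hx
      · simp at hz
      · exact hu0
      · exact hqx
      · exact hmem z (Or.inr hz))
    simp only [List.append_assoc, List.cons_append, List.nil_append, cap] at this
    rw [hV2] at this
    exact this
  have e1 := h1 false true e
  have e2 := h1 false true false
  have e3 := h1 false false true
  have e4 := h2 false true e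
  generalize A a true e = B at e1 e4
  simp only [A, zero_mul, mul_zero, add_zero] at e1 e2 e3 e4
  set p := Y q a Φ x l₁ (u :: l₂) s (e :: t)
  set yf := Y q a Φ x (l₁ ++ [u]) l₂ (s ++ [false]) t
  set ye := Y q a Φ x (l₁ ++ [u]) l₂ (s ++ [e]) t
  set F := Φ (l₁ ++ x :: u :: (q * x) :: l₂) (s ++ false :: true :: e :: t)
  set F2 := Φ (l₁ ++ x :: u :: (q * x) :: l₂) (s ++ false :: true :: false :: t)
  set F3 := Φ (l₁ ++ x :: u :: (q * x) :: l₂) (s ++ false :: false :: true :: t)
  rw [hqi] at e1 e2 e3 e4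
  rw [hai] at e2 e4
  have hne1 : u - x ≠ 0 := by
    intro h1; exact hu (by rw [sub_eq_zero.1 h1])
  have hne2 : q * u - x ≠ 0 := by
    intro h1
    apply hu
    have : x = q * u := (sub_eq_zero.1 h1).symm
    rw [this, mul_pow, hq3, one_mul]
  have key : (u - x) * (q * u - x) * a * (p - ye) = 0 := by
    linear_combination (q * x - q ^ 2 * u) * e4 + (q * u - q ^ 3 * x) * e1 +
      (u - q * x) * B * (-(a * q)) * e2 + (u - q * x) * B * a * e3 +
      B * yf * ((u - q * x) * ((q * u - q ^ 2 * x) * (q ^ 2 + 1) - q * (u - x))) * ha +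
      (-(q - 1) * a * p * (u - x) * (q * u - x) - a * ye * (u - x) * x * (q - 1) -
        B * yf * q ^ 2 * (u - q * x) ^ 2 * (q - 1)) * hq
  have := mul_eq_zero.1 key
  rcases this with h3 | h3
  · exact absurd h3 (mul_ne_zero (mul_ne_zero hne1 hne2) ha0)
  · exact sub_eq_zero.1 h3

/-- the pair can be moved to the front -/
lemma pull_front (hq : q ^ 2 + q + 1 = 0) (ha : a ^ 2 = - q ^ 2) (h : PreSol q a Φ)
    (x : ℂ) (hx : x ≠ 0) : ∀ (n : ℕ) (l₁ l₂ : List ℂ) (s t : List Bool), l₁.length = n →
    s.length = n → t.length = l₂.length → NZ (l₁ ++ l₂) → (∀ u ∈ l₁ ++ l₂, u ^ 3 ≠ x ^ 3) →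
    Y q a Φ x l₁ l₂ s t = Y q a Φ x [] (l₁ ++ l₂) [] (s ++ t) := by
  intro n
  induction n with
  | zero =>
    intro l₁ l₂ s t h1 h2 _ _ _
    obtain rfl := List.length_eq_zero_iff.1 h1
    obtain rfl := List.length_eq_zero_iff.1 h2
    rfl
  | succ n ih =>
    intro l₁ l₂ s t h1 h2 h3 h4 h5
    rcases List.eq_nil_or_concat l₁ with rfl | ⟨l₁', u, rfl⟩
    · simp at h1
    rcases List.eq_nil_or_concat s with rfl | ⟨s', e, rfl⟩
    · simp at h2
    simp only [List.concat_eq_append, List.length_append, List.length_singleton] at h1 h2 h4 h5 ⊢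
    have h4' : NZ (l₁' ++ u :: l₂) := by simpa using h4
    rw [← pull hq ha h l₁' u x l₂ s' e t (by omega) h3 hx h4' (h5 u (by simp)),
      ih l₁' (u :: l₂) s' (e :: t) (by omega) (by omega) (by simp [h3]) h4'
        (by simpa using h5)]
    simp

lemma prod_perm (f : ℂ → ℂ) {l l' : List ℂ} (hp : l.Perm l') : (l.map f).prod = (l'.map f).prod :=
  (hp.map f).prod_eq

lemma pp_concat (f : ℂ → ℂ → ℂ) (l : List ℂ) (x : ℂ) :
    pp f (l ++ [x]) = pp f l * (l.map fun u => f u x).prod := by
  induction l with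
  | nil => simp [pp]
  | cons y l ih =>
    simp only [List.cons_append, pp, List.map_append, List.map_cons, List.map_nil,
      List.prod_append, List.prod_cons, List.prod_nil, ih]
    ring

/-- the vector which remains after the pair is removed, as a function of the remaining parameters -/
noncomputable def Z (q a : ℂ) (Φ : List ℂ → List Bool → ℂ) (x : ℂ) (l : List ℂ)
    (s : List Bool) : ℂ := Y q a Φ x [] l [] s

lemma Z_exch (hq : q ^ 2 + q + 1 = 0) (h : PreSol q a Φ) (x₀ : ℂ) (hx₀ : x₀ ≠ 0)
    (l₁ : List ℂ) (x y : ℂ) (l₂ : List ℂ) (s : List Bool) (c d : Bool) (t : List Bool)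
    (hs : List.length s = List.length l₁) (ht : List.length t = List.length l₂)
    (h0 : NZ (l₁ ++ x :: y :: l₂)) :
    (q * y - q⁻¹ * x) * Z q a Φ x₀ (l₁ ++ y :: x :: l₂) (s ++ c :: d :: t) =
      (q * x - q⁻¹ * y) * Z q a Φ x₀ (l₁ ++ x :: y :: l₂) (s ++ c :: d :: t) +
      (x - y) * (A a c d * cap a (Z q a Φ x₀ (l₁ ++ x :: y :: l₂)) s t) := by
  have e : ∀ b b' : Bool, _ := fun b b' =>
    h.exch (x₀ :: (q * x₀) :: l₁) x y l₂ (b :: b' :: s) c d t (by simp [hs]) ht (by
      intro z hz
      simp only [List.mem_append, List.mem_cons] at hz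
      rcases hz with (rfl | rfl | hz) | rfl | rfl | hz
      · exact hx₀
      · exact mul_ne_zero (q_ne hq) hx₀
      · exact h0 z (by simp [hz])
      · exact h0 _ (by simp)
      · exact h0 _ (by simp)
      · exact h0 z (by simp [hz]))
  have e1 := e true false
  have e2 := e false true
  simp only [Z, Y, cap, List.nil_append, List.cons_append] at e1 e2 ⊢
  linear_combination a⁻¹ * e1 + a * e2

lemma Z_supp (h : PreSol q a Φ) (x₀ : ℂ) (l : List ℂ) (s : List Bool)
    (hz : Z q a Φ x₀ l s ≠ 0) : l.length = 2 * s.count true + 1 := by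
  simp only [Z, Y, cap, List.nil_append] at hz
  by_cases h1 : Φ (x₀ :: (q * x₀) :: l) (true :: false :: s) = 0
  · by_cases h2 : Φ (x₀ :: (q * x₀) :: l) (false :: true :: s) = 0
    · rw [h1, h2] at hz; simp at hz
    · have := (h.supp _ _ h2).2
      simp at this; omega
  · have := (h.supp _ _ h1).2
    simp at this; omega

/-- the factor of the fusion relation -/
noncomputable def Pf (q x : ℂ) (l : List ℂ) : ℂ := (l.map fun y => X' y - X' (q⁻¹ * x)).prod

lemma Z_eq (hq : q ^ 2 + q + 1 = 0) (ha : a ^ 2 = - q ^ 2) (h : PreSol q a Φ) (x : ℂ)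
    (hx : x ≠ 0) (s : List Bool) (l : List ℂ) (hG : G x l) (hl : l.length = s.length) :
    Z q a Φ x l s = Pf q x l * Φ l s := by
  have hq0 := q_ne hq
  have ha0 := a_ne hq ha
  have hu := uniq (q := q) (a := a) x ha0 (fun l s => Z q a Φ x l s - Pf q x l * Φ l s) ?_ ?_ s l hG
    hl
  · exact sub_eq_zero.1 hu
  · intro l₁ u v l₂ s c d t hs ht hg
    have e1 := Z_exch hq h x hx l₁ u v l₂ s c d t hs ht hg.1
    have e2 := h.exch l₁ u v l₂ s c d t hs ht hg.1
    have hp : (l₁ ++ v :: u :: l₂).Perm (l₁ ++ u :: v :: l₂) :=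
      List.Perm.append_left _ (List.Perm.swap _ _ _)
    have e3 : Pf q x (l₁ ++ v :: u :: l₂) = Pf q x (l₁ ++ u :: v :: l₂) := prod_perm _ hp
    simp only [cap] at e1 e2 ⊢
    rw [e3]
    linear_combination e1 - Pf q x (l₁ ++ u :: v :: l₂) * e2
  · intro l k j hlk hg
    show Z q a Φ x l _ - Pf q x l * Φ l _ = 0
    by_cases hkj : k = j + 1
    · subst hkj
      obtain ⟨l₁, l₂, rfl, h1, h2⟩ := split_len' l (j + 1) j hlk
      have hfront := pull_front hq ha h x hx (j + 1) l₁ l₂ (List.replicate (j + 1) false)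
        (List.replicate j true) h1 (by simp) (by simp [h2]) hg.1 hg.2.2
      have hfu := fuse0 hq h l₁ x l₂ (List.replicate (j + 1) false) false true
        (List.replicate j true) (by simp [h1]) (by simp [h2]) hx hg.1
      have ht1 := h.top l₁ l₂ (by omega) hg.1
      have ht2 := h.top (l₁ ++ [x]) ((q * x) :: l₂) (by simp [h1, h2]) (by
        intro z hz
        simp only [List.mem_append, List.mem_cons, List.not_mem_nil, or_false] at hz
        rcases hz with (hz | rfl) | rfl | hz
        · exact hg.1 z (by simp [hz])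
        · exact hx
        · exact mul_ne_zero hq0 hx
        · exact hg.1 z (by simp [hz]))
      rw [h1, h2] at ht1
      have hA : List.replicate (l₁ ++ [x]).length false ++
          List.replicate ((q * x) :: l₂).length true =
          List.replicate (j + 1) false ++ false :: true :: List.replicate j true := by
        rw [List.length_append, List.length_singleton, List.length_cons, h1, h2,
          List.replicate_succ' (n := j + 1), List.replicate_succ (n := j) (a := true)]
        simp
      rw [hA] at ht2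
      have hB : l₁ ++ [x] ++ (q * x) :: l₂ = l₁ ++ x :: (q * x) :: l₂ := by simp
      rw [hB, hfu, hfront, pp_concat] at ht2
      simp only [A, pp, List.length_cons, h2] at ht2
      have hfac : Pf q x (l₁ ++ l₂) = (l₁.map fun u => X' u - X' (q⁻¹ * x)).prod *
          (l₂.map fun y => X' y - X' (q * (q * x))).prod := by
        rw [Pf, List.map_append, List.prod_append]
        have : q⁻¹ * x = q * (q * x) := by rw [q_inv hq]; ring
        rw [this]
      rw [ht1, hfac]
      show Y q a Φ x [] (l₁ ++ l₂) [] _ - _ = 0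
      have : a * (Y q a Φ x [] (l₁ ++ l₂) []
          (List.replicate (j + 1) false ++ List.replicate j true) -
          (l₁.map fun u => X' u - X' (q⁻¹ * x)).prod *
          (l₂.map fun y => X' y - X' (q * (q * x))).prod *
          (a ^ j * pp (fun x y => X' x - X' (q⁻¹ * y)) l₁ *
            pp (fun x y => X' y - X' (q * x)) l₂)) = 0 := by
        rw [mul_sub, ht2]; ring
      exact (mul_eq_zero.1 this).resolve_left ha0
    · have h1 : Z q a Φ x l (List.replicate k false ++ List.replicate j true) = 0 := by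
        by_contra hne
        have := Z_supp h x l _ hne
        simp [List.count_append, List.count_replicate] at this
        omega
      have h2 : Φ l (List.replicate k false ++ List.replicate j true) = 0 := by
        by_contra hne
        have := (h.supp l _ hne).2
        simp [List.count_append, List.count_replicate] at this
        omega
      rw [h1, h2]; ring

end FuseAux

open FuseAux in
/-- fusion for generic parameters -/
theorem fuse_of_PreSol (hq : q ^ 2 + q + 1 = 0) (ha : a ^ 2 = - q ^ 2) (h : PreSol q a Φ)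
    (l₁ : List ℂ) (x : ℂ) (l₂ : List ℂ) (s : List Bool) (c d : Bool) (t : List Bool)
    (hs : s.length = l₁.length) (ht : t.length = l₂.length) (hx : x ≠ 0) (h0 : NZ (l₁ ++ l₂))
    (hgen : (l₁ ++ l₂).Pairwise fun u v => u ^ 3 ≠ v ^ 3) (hgen' : ∀ u ∈ l₁ ++ l₂, u ^ 3 ≠ x ^ 3) :
    Φ (l₁ ++ x :: (q * x) :: l₂) (s ++ c :: d :: t) =
      A a c d * ((l₁ ++ l₂).map fun y => X' y - X' (q⁻¹ * x)).prod * Φ (l₁ ++ l₂) (s ++ t) := by
  rw [fuse0 hq h l₁ x l₂ s c d t hs ht hx h0,
    pull_front hq ha h x hx l₁.length l₁ l₂ s t rfl hs ht h0 hgen']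
  have := Z_eq hq ha h x hx (s ++ t) (l₁ ++ l₂) ⟨h0, hgen, hgen'⟩ (by simp [hs, ht])
  rw [Z] at this
  rw [this, Pf, mul_assoc]

theorem one_of_PreSol (h : PreSol q a Φ) (z : ℂ) (hz : z ≠ 0) : Φ [z] [false] = 1 := by
  have := h.top [z] [] rfl (by intro y hy; simp at hy; rw [hy]; exact hz)
  simpa [pp] using this

open FuseAux in
theorem three_of_PreSol (hq : q ^ 2 + q + 1 = 0) (ha : a ^ 2 = - q ^ 2) (h : PreSol q a Φ)
    (x y z : ℂ) (hx : x ≠ 0) (hy : y ≠ 0) (hz : z ≠ 0) (h1 : x ≠ y) (h2 : x ≠ z) (h3 : y ≠ z) :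
    Φ [x, y, z] [true, false, false] = a⁻¹ * (X' z - X' (q * y)) := by
  have hq0 := q_ne hq
  have hai := a_inv hq ha
  have hqi := q_inv hq
  have ha0 := a_ne hq ha
  have hXi : ∀ v : ℂ, X' (q⁻¹ * v) = q ^ 2 * v + q * v⁻¹ := by
    intro v
    rw [X', mul_inv, inv_inv, hqi]
  have hXq : ∀ v : ℂ, X' (q * v) = q * v + q ^ 2 * v⁻¹ := by
    intro v
    rw [X', mul_inv, hqi]
  -- the middle component
  have mid : ∀ u v w : ℂ, u ≠ 0 → v ≠ 0 → w ≠ 0 → v ≠ w →
      Φ [u, v, w] [false, true, false] = a * (X' w - q * X' u + (1 - q) * v) := by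
    intro u v w hu hv hw hvw
    have nz : ∀ r s t : ℂ, r ≠ 0 → s ≠ 0 → t ≠ 0 → NZ ([r, s] ++ [t]) := by
      intro r s t hr hs ht z hz
      simp only [List.cons_append, List.nil_append, List.mem_cons, List.not_mem_nil,
        or_false] at hz
      rcases hz with rfl | rfl | rfl <;> assumption
    have t1 := h.top [u, v] [w] rfl (nz u v w hu hv hw)
    have t2 := h.top [u, w] [v] rfl (nz u w v hu hw hv)
    have e := h.exch [u] v w [] [false] false true [] rfl rfl (by
      intro z hz
      simp only [List.cons_append, List.nil_append, List.mem_cons, List.not_mem_nil,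
        or_false] at hz
      rcases hz with rfl | rfl | rfl <;> assumption)
    simp only [List.cons_append, List.nil_append, cap, A, pp, List.length_cons, List.length_nil,
      List.replicate, List.map_cons, List.map_nil, List.prod_cons, List.prod_nil, mul_one,
      zero_add, pow_one] at t1 t2 e
    rw [t1, t2, mul_add, mul_inv_cancel_left₀ ha0, hXi v, hXi w, hqi] at e
    have hV : v * v⁻¹ = 1 := mul_inv_cancel₀ hv
    have hW : w * w⁻¹ = 1 := mul_inv_cancel₀ hw
    have hX : X' w = w + w⁻¹ := rfl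
    have key : (v - w) * (Φ [u, v, w] [false, true, false] -
        a * (X' w - q * X' u + (1 - q) * v)) = 0 := by
      rw [hX]
      linear_combination -e + a * ((1 - q ^ 2) * hW + (q ^ 2 - q ^ 3) * hV +
        (q - 1) * (-w ^ 2 + q * v * w + v * w⁻¹ + (1 - q) * v ^ 2 - 1) * hq) -
        (v - w) * a * (X' u - q ^ 2 * v - q * v⁻¹) * ha
    exact sub_eq_zero.1 ((mul_eq_zero.1 key).resolve_left (sub_ne_zero.2 hvw))
  have e := h.exch [] x y [z] [] false true [false] rfl rfl (by
    intro z hz
    simp only [List.nil_append, List.mem_cons, List.not_mem_nil, or_false] at hz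
    rcases hz with rfl | rfl | rfl <;> assumption)
  have m1 := mid x y z hx hy hz h3
  have m2 := mid y x z hy hx hz h2
  simp only [List.nil_append, cap, A] at e
  rw [mul_add a, mul_inv_cancel_left₀ ha0, m1, m2, hqi] at e
  have hU : x * x⁻¹ = 1 := mul_inv_cancel₀ hx
  have hV : y * y⁻¹ = 1 := mul_inv_cancel₀ hy
  have hXx : X' x = x + x⁻¹ := rfl
  have hXy : X' y = y + y⁻¹ := rfl
  rw [hXx, hXy] at e
  have key : (x - y) * (Φ [x, y, z] [true, false, false] -
      -(a * q) * (X' z - (q * y + q ^ 2 * y⁻¹))) = 0 := by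
    linear_combination -e + a * ((q ^ 3 - q ^ 2) * hV + (q ^ 2 - q ^ 3) * hU) -
      (x - y) * a * (X' z - q * (x + x⁻¹) + (1 - q) * y) * ha
  rw [hai, hXq]
  exact sub_eq_zero.1 ((mul_eq_zero.1 key).resolve_left (sub_ne_zero.2 h1))

end Pool.Agent.H72.Cardy
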