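import Pool.Agent.H72.Cardy.NZ

/-! Cardy L-strip: the structure `PreSol` (exchange relations and extreme component). -/

set_option autoImplicit false

namespace Pool.Agent.H72.Cardy

/-- product over pairs `i < j` -/
def pp (f : ℂ → ℂ → ℂ) : List ℂ → ℂ
  | [] => 1
  | x :: l => (l.map (f x)).prod * pp f l

/-- exchange and the value of the extreme component `↑…↑↓…↓` -/
structure PreSol (q a : ℂ) (Φ : List ℂ → List Bool → ℂ) : Prop where
  supp : ∀ zs s, Φ zs s ≠ 0 → s.length = zs.length ∧ zs.length = 2 * s.count true + 1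
  exch : ∀ l₁ x y l₂ s c d t, List.length s = List.length l₁ → List.length t = List.length l₂ →
    (∀ z ∈ l₁ ++ x :: y :: l₂, z ≠ 0) →
    (q * y - q⁻¹ * x) * Φ (l₁ ++ y :: x :: l₂) (s ++ c :: d :: t) =
      (q * x - q⁻¹ * y) * Φ (l₁ ++ x :: y :: l₂) (s ++ c :: d :: t) +
      (x - y) * (A a c d * cap a (Φ (l₁ ++ x :: y :: l₂)) s t)
  top : ∀ l₁ l₂ : List ℂ, l₁.length = l₂.length + 1 → NZ (l₁ ++ l₂) →
    Φ (l₁ ++ l₂) (List.replicate l₁.length false ++ List.replicate l₂.length true) =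
      a ^ l₂.length * pp (fun x y => X' x - X' (q⁻¹ * y)) l₁ * pp (fun x y => X' y - X' (q * x)) l₂

/-- polynomiality -/
def PolyData (Φ : List ℂ → List Bool → ℂ) : Prop :=
  ∀ (n : ℕ) (s : List Bool), ∃ P : MvPolynomial (Fin (2 * n + 1)) ℂ,
    (∀ i, P.degreeOf i ≤ 2 * n) ∧ ∀ z : Fin (2 * n + 1) → ℂ, (∀ i, z i ≠ 0) →
      (∏ i, z i) ^ n * Φ (List.ofFn z) s = MvPolynomial.eval z P

end Pool.Agent.H72.Cardy
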