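import Pool.Agent.H72.Cardy.ExSol
import Pool.Agent.H72.Cardy.Fuse
import Pool.Agent.H90.Pre.Final

/-! Cardy L-strip: existence of the solution. -/

set_option autoImplicit false

namespace Pool.Agent.H72.Cardy

theorem exists_Sol (q a : ℂ) (hq : q ^ 2 + q + 1 = 0) (ha : a ^ 2 = - q ^ 2) : ∃ Φ, Sol q a Φ := by
  obtain ⟨Φ, h, he1, he2, hp⟩ := Pool.Agent.H90.Pre.exists_PreSol q a hq ha
  exact ⟨Φ, sol_of_preSol hq h he1 he2 hp
    (fun l₁ x l₂ s c d t hs ht hx h0 hg hg' => fuse_of_PreSol hq ha h l₁ x l₂ s c d t hs ht hx h0 hg hg')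
    (fun z hz => one_of_PreSol h z hz)
    (fun x y z hx hy hz h1 h2 h3 => three_of_PreSol hq ha h x y z hx hy hz h1 h2 h3)⟩

end Pool.Agent.H72.Cardy
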