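import Pool.Agent.H72.Cardy.Value
import Pool.Agent.H72.Cardy.ExistsSol
import Pool.Agent.H68.Slit.BetaLaw

/-! Cardy's formula in the L-shaped strip. -/

set_option autoImplicit false
open Finset MeasureTheory Filter Topology

namespace Pool.Agent.H72.CardyP

open Pool.Agent.H75.Exact
open Pool.Agent.H65.Perc (PConf planeMeasure)

lemma exists_qa : ∃ q a : ℂ, q ^ 2 + q + 1 = 0 ∧ a ^ 2 = - q ^ 2 := by
  obtain ⟨q, hq⟩ := IsAlgClosed.exists_root (Polynomial.X ^ 2 + Polynomial.X + 1 : Polynomial ℂ)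
    (by
      have : (Polynomial.X ^ 2 + Polynomial.X + 1 : Polynomial ℂ).degree = 2 := by compute_degree!
      rw [this]; norm_num)
  refine ⟨q, Complex.I * q, ?_, ?_⟩
  · simpa [Polynomial.IsRoot] using hq
  · rw [mul_pow, Complex.I_sq]; ring

/-- the case of equal widths -/
lemma value_eq (n : ℕ) : (planeMeasure {ω | LCross n n ω}).toReal = 1 := by
  have : {ω | LCross n n ω} = Set.univ := by
    rw [Set.eq_univ_iff_forall]
    intro ω
    exact ⟨((n : ℤ), (n : ℤ)), ((n : ℤ), (n : ℤ)), by simp only []; ring, le_rfl, by simp only []; ring,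
      le_rfl, SimpleGraph.Reachable.refl _⟩
  rw [this, measure_univ]
  rfl

theorem value (m n : ℕ) (h : m ≤ n) :
    (planeMeasure {ω | LCross m n ω}).toReal =
      1 - Pool.Agent.H23.Cardy.S (2 * m + 1) (2 * n + 1) := by
  rcases h.eq_or_lt with rfl | h
  · rw [value_eq]
    simp [Pool.Agent.H23.Cardy.S]
  · obtain ⟨r, rfl⟩ : ∃ r, n = m + 1 + r := ⟨n - m - 1, by omega⟩
    obtain ⟨q, a, hq, ha⟩ := exists_qa
    obtain ⟨Φ, hΦ⟩ := Pool.Agent.H72.Cardy.exists_Sol q a hq ha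
    exact value_of hq ha hΦ m r

lemma ratio_tendsto {m n : ℕ → ℕ} {r : ℝ} (hn : Tendsto n atTop atTop)
    (hr : Tendsto (fun j => (m j : ℝ) / n j) atTop (𝓝 r)) :
    Tendsto (fun j => ((2 * m j + 1 : ℕ) : ℝ) / ((2 * n j + 1 : ℕ) : ℝ)) atTop (𝓝 r) := by
  have hn' : Tendsto (fun j => ((n j : ℕ) : ℝ)) atTop atTop := tendsto_natCast_atTop_atTop.comp hn
  have h1 : Tendsto (fun j => 1 / (2 * (n j : ℝ))) atTop (𝓝 0) := by
    have : Tendsto (fun j => 2 * (n j : ℝ)) atTop atTop :=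
      Tendsto.const_mul_atTop (by norm_num) hn'
    have h2 := this.inv_tendsto_atTop
    refine h2.congr fun j => ?_
    rw [Pi.inv_apply, one_div]
  have h2 : Tendsto (fun j => ((m j : ℝ) / n j + 1 / (2 * (n j : ℝ))) / (1 + 1 / (2 * (n j : ℝ))))
      atTop (𝓝 ((r + 0) / (1 + 0))) := (hr.add h1).div (h1.const_add 1) (by norm_num)
  rw [add_zero, add_zero, div_one] at h2
  refine h2.congr' ?_
  filter_upwards [hn.eventually_ge_atTop 1] with j hj
  have hj' : (n j : ℝ) ≠ 0 := by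
    have : (0 : ℝ) < n j := by exact_mod_cast hj
    exact this.ne'
  push_cast
  field_simp

theorem limit {m n : ℕ → ℕ} {r : ℝ} (hmn : ∀ j, m j ≤ n j) (hn : Tendsto n atTop atTop)
    (hr : Tendsto (fun j => (m j : ℝ) / n j) atTop (𝓝 r)) :
    Tendsto (fun j => (planeMeasure {ω | LCross (m j) (n j) ω}).toReal) atTop
      (𝓝 (Real.Gamma (2 / 3) / Real.Gamma (1 / 3) ^ 2 *
        ∫ s in (0:ℝ)..r ^ 2, s ^ (-(2 / 3) : ℝ) * (1 - s) ^ (-(2 / 3) : ℝ))) := by
  have h01 : 0 ≤ r ∧ r ≤ 1 := by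
    constructor
    · exact ge_of_tendsto' hr fun j => by positivity
    · refine le_of_tendsto' hr fun j => ?_
      have : (m j : ℝ) ≤ n j := by exact_mod_cast hmn j
      exact div_le_one_of_le₀ this (by positivity)
  have h := Pool.Agent.H23.Cardy.tendsto_cardy (k := fun j => 2 * m j + 1) (w := fun j => 2 * n j + 1)
    (fun j => ⟨m j, rfl⟩) (fun j => ⟨n j, rfl⟩) (fun j => by have := hmn j; omega)
    (tendsto_atTop_mono (fun j => (by omega : n j ≤ 2 * n j + 1)) hn) h01.1 h01.2 (ratio_tendsto hn hr)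
  have hv : (fun j => (planeMeasure {ω | LCross (m j) (n j) ω}).toReal) =
      fun j => 1 - Pool.Agent.H23.Cardy.S (2 * m j + 1) (2 * n j + 1) := by
    funext j
    exact value (m j) (n j) (hmn j)
  have hi : ∀ y : ℝ, 0 ≤ y → y ≤ 1 → (∫ s in (0:ℝ)..y, (s * (1 - s)) ^ (-(2/3) : ℝ)) =
      ∫ s in (0:ℝ)..y, s ^ (-(2 / 3) : ℝ) * (1 - s) ^ (-(2 / 3) : ℝ) := by
    intro y h0 h1
    refine intervalIntegral.integral_congr fun s hs => ?_
    rw [Set.uIcc_of_le h0] at hs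
    exact Real.mul_rpow hs.1 (by linarith [hs.2])
  rw [hv]
  have hc : Pool.Agent.H23.Cardy.cardy (r ^ 2) = Real.Gamma (2 / 3) / Real.Gamma (1 / 3) ^ 2 *
        ∫ s in (0:ℝ)..r ^ 2, s ^ (-(2 / 3) : ℝ) * (1 - s) ^ (-(2 / 3) : ℝ) := by
    unfold Pool.Agent.H23.Cardy.cardy
    rw [hi _ (by positivity) (pow_le_one₀ h01.1 h01.2), hi 1 zero_le_one le_rfl,
      Pool.Agent.H68.Slit.integral_dens_one, div_div_eq_mul_div, mul_comm, mul_div_right_comm]
  rw [← hc]
  exact h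

end Pool.Agent.H72.CardyP
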