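import Pool.Agent.H72.Cardy.Defs
import Pool.Agent.H68.Open.DD

set_option autoImplicit false
open Polynomial

/-! Alternants (job CAR-ALT, helper68). -/

namespace Pool.Agent.H72.Cardy

open Pool.Agent.H68.Open

/-- the points as a sequence -/
noncomputable def seq {R : Type*} [Zero R] (xs : List R) (n : ℕ) : R := xs.getD n 0

lemma dd_take (p : ℂ[X]) (xs : List ℂ) (i : ℕ) (hi : i < xs.length) :
    dd p (xs.take (i + 1)) = dv (seq xs) i p := by
  induction i generalizing p xs with
  | zero =>
    rcases xs with _ | ⟨x, l⟩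
    · simp at hi
    · simp [dd, dv, dq, seq]
  | succ i ih =>
    rcases xs with _ | ⟨x, l⟩
    · simp at hi
    · rcases l with _ | ⟨y, l⟩
      · simp at hi
      · have h1 : (x :: y :: l).take (i + 1 + 1) = x :: y :: l.take i := rfl
        rw [h1, dd, dv_succ']
        have h2 := ih (p /ₘ (X - C x)) (y :: l) (by simpa using hi)
        exact h2

lemma Alt_eq (f : ℕ → ℂ[X]) (xs : List ℂ) : Alt f xs = AltN f (seq xs) xs.length := by
  unfold Alt AltN
  congr 1
  ext i j
  simp only [Matrix.of_apply]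
  exact dd_take _ _ _ i.2

lemma Alt_eq_eval (f : ℕ → ℂ[X]) (xs : List ℂ) :
    Alt f xs = MvPolynomial.eval (fun i : Fin xs.length => xs.get i)
      (Pool.Agent.H68.Open.Alt (fun j : Fin xs.length => f j)) := by
  rw [Alt_eq, ← eval_Alt]
  congr 2
  funext i
  simp [seq]

lemma seq_append_left {R : Type*} [Zero R] (l m : List R) {i : ℕ} (hi : i < l.length) :
    seq (l ++ m) i = seq l i := by
  unfold seq
  exact List.getD_append _ _ _ _ hi

lemma seq_append_right {R : Type*} [Zero R] (l m : List R) {i : ℕ} (hi : l.length ≤ i) :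
    seq (l ++ m) i = seq m (i - l.length) := by
  unfold seq
  exact List.getD_append_right _ _ _ _ hi

lemma AltN_perm (f : ℕ → ℂ[X]) (x : ℕ → ℂ) (L : ℕ) (σ : Equiv.Perm (Fin L)) (y : ℕ → ℂ)
    (h : ∀ i : Fin L, y i = x (σ i)) : AltN f y L = AltN f x L := by
  rw [← eval_Alt, ← eval_Alt, ← Pool.Agent.H68.Open.Alt_perm _ σ (fun i : Fin L => x i)]
  congr 2
  funext i
  exact h i

lemma Alt_swap (f : ℕ → ℂ[X]) (l : List ℂ) (x y : ℂ) (m : List ℂ) :
    Alt f (l ++ y :: x :: m) = Alt f (l ++ x :: y :: m) := by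
  rw [Alt_eq, Alt_eq]
  have hlen : (l ++ y :: x :: m).length = l.length + (m.length + 2) := by simp
  have hlen' : (l ++ x :: y :: m).length = l.length + (m.length + 2) := by simp
  rw [hlen, hlen']
  refine AltN_perm f _ _ (Equiv.swap ⟨l.length, by omega⟩ ⟨l.length + 1, by omega⟩) _ ?_
  intro i
  by_cases h1 : i = ⟨l.length, by omega⟩
  · rw [h1, Equiv.swap_apply_left]
    simp only
    rw [seq_append_right _ _ le_rfl, seq_append_right _ _ (Nat.le_succ _)]
    simp [seq]
  by_cases h2 : i = ⟨l.length + 1, by omega⟩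
  · rw [h2, Equiv.swap_apply_right]
    simp only
    rw [seq_append_right _ _ le_rfl, seq_append_right _ _ (Nat.le_succ _)]
    simp [seq]
  rw [Equiv.swap_apply_of_ne_of_ne h1 h2]
  have h3 : (i : ℕ) ≠ l.length := fun h => h1 (Fin.ext h)
  have h4 : (i : ℕ) ≠ l.length + 1 := fun h => h2 (Fin.ext h)
  rcases lt_or_ge (i : ℕ) l.length with h5 | h5
  · rw [seq_append_left _ _ h5, seq_append_left _ _ h5]
  · rw [seq_append_right _ _ h5, seq_append_right _ _ h5]
    obtain ⟨k, hk⟩ : ∃ k, (i : ℕ) - l.length = k + 2 := ⟨(i : ℕ) - l.length - 2, by omega⟩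
    rw [hk]
    simp [seq]

theorem Alt_perm (f : ℕ → ℂ[X]) {xs ys : List ℂ} (h : xs.Perm ys) : Alt f xs = Alt f ys := by
  have key : ∀ l : List ℂ, Alt f (l ++ xs) = Alt f (l ++ ys) := by
    induction h with
    | nil => intro l; rfl
    | cons x _ ih =>
      intro l
      have := ih (l ++ [x])
      simpa using this
    | swap x y m => intro l; exact Alt_swap f l x y m
    | trans _ _ ih1 ih2 => intro l; rw [ih1, ih2]
  exact key []

theorem D_perm (h : ℂ[X]) {xs ys : List ℂ} (hp : xs.Perm ys) : D h xs = D h ys := by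
  unfold D
  rw [Alt_perm _ hp, hp.length_eq]

lemma D_eq (h : ℂ[X]) (xs : List ℂ) :
    D h xs = AltN (fun j => if j + 1 = xs.length then h else pb j) (seq xs) xs.length :=
  Alt_eq _ _

lemma S_eq (xs : List ℂ) : S xs = AltN pb (seq xs) xs.length := Alt_eq _ _

/-! ### `Sx` -/

/-- the points `xs` followed by the variable -/
noncomputable def seqX (xs : List ℂ) (n : ℕ) : ℂ[X] :=
  if n < xs.length then C (seq xs n) else X

lemma dq_congr {R : Type*} [CommRing R] (p : Polynomial R) (x y : ℕ → R) (k : ℕ)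
    (h : ∀ m < k, x m = y m) : dq p x k = dq p y k := by
  induction k with
  | zero => rfl
  | succ k ih => rw [dq, dq, ih (fun m hm => h m (by omega)), h k (by omega)]

lemma quo_eq (p : ℂ[X]) (xs : List ℂ) : quo p xs = dq p (seq xs) xs.length := by
  induction xs generalizing p with
  | nil => rfl
  | cons x l ih =>
    rw [quo, List.foldl_cons, List.length_cons, dq_succ']
    exact ih _

lemma Sx_eq (xs : List ℂ) :
    Sx xs = AltN (fun j => (pb j).map (algebraMap ℂ ℂ[X])) (seqX xs) (xs.length + 1) := by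
  unfold Sx AltN
  congr 1
  ext1 i j
  simp only [Matrix.of_apply]
  split_ifs with h
  · rw [dd_take _ _ _ h]
    have h1 := map_dv (C : ℂ →+* ℂ[X]) (pb j) (seq xs) i
    rw [h1, dv, dv]
    have h2 : dq ((pb j).map (C : ℂ →+* ℂ[X])) (fun n => C (seq xs n)) i =
        dq ((pb j).map (algebraMap ℂ ℂ[X])) (seqX xs) i :=
      dq_congr _ _ _ _ fun m hm => by rw [seqX, if_pos (by omega)]
    rw [h2, seqX, if_pos h]
  · have hi : (i : ℕ) = xs.length := by have := i.2; omega
    rw [hi, quo_eq, dv]
    have h2 : dq ((pb j).map (C : ℂ →+* ℂ[X])) (fun n => C (seq xs n)) xs.length =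
        dq ((pb j).map (algebraMap ℂ ℂ[X])) (seqX xs) xs.length :=
      dq_congr _ _ _ _ fun m hm => by rw [seqX, if_pos (by omega)]
    rw [← h2, ← map_dq, seqX, if_neg (lt_irrefl _)]
    rw [Polynomial.eval_map, Polynomial.eval₂_C_X]

theorem Sx_eval (xs : List ℂ) (x : ℂ) : (Sx xs).eval x = S (xs ++ [x]) := by
  rw [Sx_eq, S_eq]
  have h1 := map_AltN (evalRingHom x) (fun j => (pb j).map (algebraMap ℂ ℂ[X])) (seqX xs)
    (xs.length + 1)
  rw [coe_evalRingHom] at h1
  rw [h1]
  have hlen : (xs ++ [x]).length = xs.length + 1 := by simp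
  rw [hlen]
  refine AltN_congr _ _ _ _ _ ?_ ?_
  · intro j _
    rw [Polynomial.map_map]
    have : (evalRingHom x).comp (algebraMap ℂ ℂ[X]) = RingHom.id ℂ := by
      ext c; simp
    rw [this, Polynomial.map_id]
  · intro j hj
    rw [seqX]
    split_ifs with h
    · rw [seq_append_left _ _ h]; simp
    · have : j = xs.length := by omega
      rw [this, seq_append_right _ _ le_rfl]
      simp [seq]

theorem Sx_perm {xs ys : List ℂ} (hp : xs.Perm ys) : Sx xs = Sx ys := by
  apply Polynomial.funext
  intro x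
  rw [Sx_eval, Sx_eval]
  exact Alt_perm _ (hp.append_right _)

/-! ### fusion -/

lemma pb_zero : pb 0 = 1 := by simp [pb]

lemma pb_one : pb 1 = X := by simp [pb]

lemma pb_add_two (j : ℕ) : pb (j + 2) = T * pb j := by
  have h1 : (j + 2) / 2 = j / 2 + 1 := by omega
  have h2 : (j + 2) % 2 = j % 2 := by omega
  rw [pb, pb, h1, h2, pow_succ]
  ring

lemma T_sub_C {x x' x'' t : ℂ} (h1 : x + x' + x'' = 0)
    (h2 : x * x' + x * x'' + x' * x'' = -3) (h3 : x * x' * x'' = t) :
    T - C t = (X - C x) * ((X - C x') * (X - C x'')) := by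
  have e1 : (C x + C x' + C x'' : ℂ[X]) = 0 := by rw [← C_add, ← C_add, h1, C_0]
  have e2 : (C x * C x' + C x * C x'' + C x' * C x'' : ℂ[X]) = -3 := by
    rw [← C_mul, ← C_mul, ← C_mul, ← C_add, ← C_add, h2, map_neg, map_ofNat]
  have e3 : (C x * C x' * C x'' : ℂ[X]) = C t := by rw [← C_mul, ← C_mul, h3]
  rw [T]
  linear_combination X ^ 2 * e1 - X * e2 + e3

lemma prod_seq (ys : List ℂ) (a : ℂ) :
    ∏ i ∈ Finset.range ys.length, (seq ys i - a) = (ys.map fun y => y - a).prod := by
  induction ys with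
  | nil => simp
  | cons y l ih =>
    rw [List.length_cons, Finset.prod_range_succ', List.map_cons, List.prod_cons, ← ih, mul_comm]
    simp [seq]

theorem Alt_fuse (f g : ℕ → ℂ[X]) (c : ℕ → ℂ) (x x' x'' t : ℂ) (ys : List ℂ)
    (h1 : x + x' + x'' = 0) (h2 : x * x' + x * x'' + x' * x'' = -3) (h3 : x * x' * x'' = t)
    (f0 : f 0 = 1) (f1 : f 1 = X)
    (f2 : ∀ j < ys.length, f (j + 2) = (T - C t) * g j + C (c j) * f j) :
    Alt f (x :: x' :: ys) = (ys.map fun y => y - x'').prod * Alt g ys := by
  rw [Alt_eq, Alt_eq]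
  have hlen : (x :: x' :: ys).length = ys.length + 2 := by simp
  rw [hlen, ← AltN_change f (fun j => c (j - 2)) (seq (x :: x' :: ys)) (ys.length + 2),
    AltN_reduce _ (fun j => (X - C x'') * g j)]
  · have h4 : (fun n => seq (x :: x' :: ys) (n + 2)) = seq ys := by
      funext n
      simp [seq]
    rw [h4, AltN_mul, prod_seq]
  · simp [f0]
  · simp [f1]
  · intro j hj
    rw [if_neg (by omega), f2 j hj, Nat.add_sub_cancel, T_sub_C h1 h2 h3]
    simp only [seq, List.getD_cons_zero, List.getD_cons_succ]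
    ring

theorem D_fuse (h : ℂ[X]) (xs : List ℂ) (x x' x'' t : ℂ) (h1 : x + x' + x'' = 0)
    (h2 : x * x' + x * x'' + x' * x'' = -3) (h3 : x * x' * x'' = t) (hxs : xs ≠ []) :
    D ((T - C t) * h) (xs ++ [x, x']) = (xs.map fun y => y - x'').prod * D h xs := by
  have hlen : 0 < xs.length := List.length_pos_iff.2 hxs
  rw [D_perm _ (List.perm_append_comm (l₁ := xs) (l₂ := [x, x']))]
  have hl : ([x, x'] ++ xs).length = xs.length + 2 := by simp
  unfold D
  rw [hl]
  refine Alt_fuse _ _ (fun j => if j + 1 = xs.length then 0 else t) x x' x'' t xs h1 h2 h3 ?_ ?_ ?_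
  · rw [if_neg (by omega), pb_zero]
  · rw [if_neg (by omega), pb_one]
  · intro j hj
    by_cases hj2 : j + 1 = xs.length
    · rw [if_pos (by omega), if_pos hj2, if_pos hj2]
      simp
    · rw [if_neg (by omega), if_neg hj2, if_neg hj2, if_neg (by omega), pb_add_two]
      ring

theorem S_fuse (xs : List ℂ) (x x' x'' t : ℂ) (h1 : x + x' + x'' = 0)
    (h2 : x * x' + x * x'' + x' * x'' = -3) (h3 : x * x' * x'' = t) :
    S (xs ++ [x, x']) = (xs.map fun y => y - x'').prod * S xs := by
  unfold S
  rw [Alt_perm _ (List.perm_append_comm (l₁ := xs) (l₂ := [x, x']))]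
  refine Alt_fuse _ _ (fun _ => t) x x' x'' t xs h1 h2 h3 pb_zero pb_one ?_
  intro j _
  rw [pb_add_two]
  ring

theorem Sx_fuse (xs : List ℂ) (x x' x'' t : ℂ) (h1 : x + x' + x'' = 0)
    (h2 : x * x' + x * x'' + x' * x'' = -3) (h3 : x * x' * x'' = t) :
    Sx (xs ++ [x, x']) = C (xs.map fun y => y - x'').prod * (X - C x'') * Sx xs := by
  apply Polynomial.funext
  intro y
  rw [Sx_eval, eval_mul, eval_mul, eval_C, eval_sub, eval_X, eval_C, Sx_eval]
  have hp : (xs ++ [x, x'] ++ [y]).Perm ((xs ++ [y]) ++ [x, x']) := by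
    rw [List.append_assoc, List.append_assoc]
    exact (List.perm_append_comm (l₁ := [x, x']) (l₂ := [y])).append_left xs
  have h4 := S_fuse (xs ++ [y]) x x' x'' t h1 h2 h3
  rw [S, Alt_perm _ hp]
  rw [S] at h4
  rw [h4]
  simp

/-! ### degrees -/

lemma natDegree_T_le : T.natDegree ≤ 3 := by
  unfold T
  have : (3 * X : ℂ[X]) = C 3 * X := by rw [map_ofNat]
  rw [this]
  compute_degree

lemma natDegree_pb_le (j : ℕ) : (pb j).natDegree ≤ 3 * (j / 2) + j % 2 := by
  unfold pb
  refine natDegree_mul_le.trans (add_le_add ?_ ?_)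
  · refine natDegree_pow_le.trans ?_
    rw [mul_comm]
    exact Nat.mul_le_mul_right _ natDegree_T_le
  · exact natDegree_X_pow_le _

lemma natDegree_pb_le' {j L : ℕ} (hj : j < L) :
    (pb j).natDegree ≤ (L - 1) / 2 + (L - 1) := by
  have := natDegree_pb_le j
  omega

/-- degree after the substitution of constants for all variables but one -/
lemma natDegree_aeval_le {L : ℕ} (i₀ : Fin L) (P : MvPolynomial (Fin L) ℂ) (x : Fin L → ℂ[X])
    (hx : ∀ i, (x i).natDegree ≤ if i = i₀ then 1 else 0) :
    (MvPolynomial.aeval x P).natDegree ≤ P.degreeOf i₀ := by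
  classical
  rw [MvPolynomial.aeval_def, MvPolynomial.eval₂_eq']
  refine natDegree_sum_le_of_forall_le _ _ fun m hm => ?_
  refine natDegree_mul_le.trans ?_
  have h1 : (algebraMap ℂ ℂ[X] (MvPolynomial.coeff m P)).natDegree = 0 := natDegree_C _
  rw [h1, zero_add]
  refine (natDegree_prod_le _ _).trans ?_
  have h2 : ∀ i ∈ (Finset.univ : Finset (Fin L)), (x i ^ m i).natDegree ≤
      if i = i₀ then m i₀ else 0 := by
    intro i _
    refine natDegree_pow_le.trans ?_
    have := hx i
    split_ifs with h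
    · rw [if_pos h] at this
      rw [h] at this ⊢
      exact (Nat.mul_le_mul_left _ this).trans (by simp)
    · rw [if_neg h] at this
      have h0 : (x i).natDegree = 0 := by omega
      rw [h0]; simp
  refine (Finset.sum_le_sum h2).trans ?_
  rw [Finset.sum_ite_eq' Finset.univ i₀]
  simp only [Finset.mem_univ, if_true]
  rw [MvPolynomial.degreeOf_eq_sup]
  exact Finset.le_sup (f := fun m => m i₀) hm

lemma natDegree_seqX (xs : List ℂ) (i : Fin (xs.length + 1)) :
    (seqX xs i).natDegree ≤ if i = Fin.last xs.length then 1 else 0 := by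
  unfold seqX
  split_ifs with h1 h2 h2
  · simp
  · simp
  · exact natDegree_X_le
  · exfalso
    apply h2
    apply Fin.ext
    have := i.2
    simp only [Fin.val_last]
    omega

theorem Sx_natDegree (xs : List ℂ) : (Sx xs).natDegree ≤ xs.length / 2 := by
  rw [Sx_eq, ← aeval_Alt]
  refine (natDegree_aeval_le (Fin.last xs.length) _ _ (natDegree_seqX xs)).trans ?_
  refine (degreeOf_Alt_le _ (xs.length / 2 + xs.length) ?_ _).trans ?_
  · intro j
    exact natDegree_pb_le' j.2
  · simp

/-- evaluation of the last point -/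
lemma AltN_eval_last (F : ℕ → ℂ[X][X]) (f : ℕ → ℂ[X]) (xs : List ℂ) (x : ℂ)
    (hF : ∀ j < xs.length + 1, (F j).map (evalRingHom x) = f j) :
    (AltN F (seqX xs) (xs.length + 1)).eval x = Alt f (xs ++ [x]) := by
  have h1 := map_AltN (evalRingHom x) F (seqX xs) (xs.length + 1)
  rw [coe_evalRingHom] at h1
  rw [h1, Alt_eq]
  have hlen : (xs ++ [x]).length = xs.length + 1 := by simp
  rw [hlen]
  refine AltN_congr _ _ _ _ _ hF ?_
  intro j hj
  rw [seqX]
  split_ifs with h
  · rw [seq_append_left _ _ h]; simp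
  · have : j = xs.length := by omega
    rw [this, seq_append_right _ _ le_rfl]
    simp [seq]

lemma map_map_eval (p : ℂ[X]) (x : ℂ) :
    (p.map (algebraMap ℂ ℂ[X])).map (evalRingHom x) = p := by
  rw [Polynomial.map_map]
  have : (evalRingHom x).comp (algebraMap ℂ ℂ[X]) = RingHom.id ℂ := by
    ext c; simp
  rw [this, Polynomial.map_id]

/-- degree in a point on which `h` does not depend -/
theorem D_deg (h : ℂ[X]) (xs : List ℂ) (n : ℕ) (hn : xs.length = 2 * n)
    (hd : h.natDegree ≤ 3 * n) :
    ∃ P : ℂ[X], P.natDegree ≤ n ∧ ∀ x, D h (xs ++ [x]) = P.eval x := by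
  obtain ⟨f, hf⟩ : ∃ f : ℕ → ℂ[X], f = fun j => if j + 1 = xs.length + 1 then h else pb j :=
    ⟨_, rfl⟩
  refine ⟨MvPolynomial.aeval (fun i : Fin (xs.length + 1) => seqX xs i)
    (Pool.Agent.H68.Open.Alt (fun j : Fin (xs.length + 1) => f j)), ?_, ?_⟩
  · refine (natDegree_aeval_le (Fin.last xs.length) _ _ (natDegree_seqX xs)).trans ?_
    refine (degreeOf_Alt_le _ (3 * n) ?_ _).trans ?_
    · intro j
      simp only [hf]
      split_ifs with hj
      · exact hd
      · refine (natDegree_pb_le j).trans ?_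
        have := j.2
        omega
    · simp only [Nat.add_sub_cancel]
      omega
  · intro x
    rw [aeval_Alt, AltN_eval_last _ f xs x (fun j _ => map_map_eval _ _), D, hf]
    have hlen : (xs ++ [x]).length = xs.length + 1 := by simp
    rw [hlen]

/-- degree of a determinant with entries of degrees `≤ a_i + b_j` -/
lemma degreeOf_det_le {L : ℕ} {σ : Type*} (i₀ : σ) (M : Matrix (Fin L) (Fin L) (MvPolynomial σ ℂ))
    (a b : Fin L → ℕ) (h : ∀ i j, (M i j).degreeOf i₀ ≤ a i + b j) :
    M.det.degreeOf i₀ ≤ ∑ i, a i + ∑ j, b j := by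
  classical
  rw [Matrix.det_apply]
  refine (MvPolynomial.degreeOf_sum_le i₀ _ _).trans ?_
  rw [Finset.sup_le_iff]
  intro τ _
  have h1 : (Equiv.Perm.sign τ • ∏ k, M (τ k) k).degreeOf i₀ ≤ (∏ k, M (τ k) k).degreeOf i₀ := by
    rcases Int.units_eq_one_or (Equiv.Perm.sign τ) with h | h
    · rw [h, one_smul]
    · rw [h, Units.neg_smul, one_smul, MvPolynomial.degreeOf_neg]
  refine h1.trans ((MvPolynomial.degreeOf_prod_le i₀ _ _).trans ?_)
  refine (Finset.sum_le_sum (fun k _ => h (τ k) k)).trans ?_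
  rw [Finset.sum_add_distrib, Equiv.sum_comp τ a]

/-- degree in a point which is a root of `h` (note: bound `n - 1`) -/
theorem D_deg' (g : ℂ[X]) (xs : List ℂ) (n : ℕ) (hn : xs.length = 2 * n) (hn1 : 1 ≤ n) :
    ∃ P : ℂ[X], P.natDegree ≤ n - 1 ∧ ∀ x, D ((X - C x) * g) (xs ++ [x]) = P.eval x := by
  classical
  -- the generic determinant
  obtain ⟨l0, hl0⟩ : ∃ l : Fin (xs.length + 1), l = Fin.last xs.length := ⟨_, rfl⟩
  obtain ⟨F, hF⟩ : ∃ F : ℕ → Polynomial (MvPolynomial (Fin (xs.length + 1)) ℂ), F = fun j =>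
      if j = xs.length then (X - C (MvPolynomial.X l0)) * g.map MvPolynomial.C
      else (pb j).map MvPolynomial.C := ⟨_, rfl⟩
  obtain ⟨Q, hQ⟩ : ∃ Q, Q = AltN F (ext0 (MvPolynomial.X :
      Fin (xs.length + 1) → MvPolynomial (Fin (xs.length + 1)) ℂ)) (xs.length + 1) := ⟨_, rfl⟩
  have hdet := det_eval_eq F (ext0 (MvPolynomial.X :
      Fin (xs.length + 1) → MvPolynomial (Fin (xs.length + 1)) ℂ)) (xs.length + 1)
  rw [← hQ] at hdet
  simp only [ext0_val] at hdet
  have hQdeg : Q.degreeOf l0 ≤ n - 1 := by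
    by_cases h0 : Q = 0
    · rw [h0]; simp
    have h1 : (Matrix.det (Matrix.of fun i j : Fin (xs.length + 1) =>
        (F j).eval (MvPolynomial.X i))).degreeOf l0 ≤ (3 * n - 2) + 1 := by
      have h2 := degreeOf_det_le l0 (Matrix.of fun i j : Fin (xs.length + 1) =>
        (F j).eval (MvPolynomial.X i)) (fun i => if i = l0 then 3 * n - 2 else 0)
        (fun j => if j = l0 then 1 else 0) ?_
      · simpa using h2
      · intro i j
        simp only [Matrix.of_apply, hF]
        by_cases hj : j = l0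
        · have hj' : (j : ℕ) = xs.length := by rw [hj, hl0]; rfl
          rw [if_pos hj', if_pos hj, eval_mul, eval_sub, eval_X, eval_C]
          by_cases hi : i = l0
          · rw [hi]; simp
          · rw [if_neg hi, zero_add]
            refine (MvPolynomial.degreeOf_mul_le _ _ _).trans ?_
            have e1 : ((g.map (MvPolynomial.C : ℂ →+* MvPolynomial (Fin (xs.length + 1)) ℂ)).eval
                (MvPolynomial.X i)).degreeOf l0 ≤ 0 := by
              have := degreeOf_aeval_le l0 i g
              rw [if_neg hi] at this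
              rw [Polynomial.eval_map]
              exact this
            have e2 : (MvPolynomial.X i - MvPolynomial.X l0 :
                MvPolynomial (Fin (xs.length + 1)) ℂ).degreeOf l0 ≤ 1 := by
              refine (MvPolynomial.degreeOf_sub_le _ _ _).trans ?_
              rw [MvPolynomial.degreeOf_X, MvPolynomial.degreeOf_X]
              split_ifs <;> simp
            omega
        · have hj' : (j : ℕ) ≠ xs.length := by
            intro h
            apply hj
            rw [hl0]
            exact Fin.ext h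
          rw [if_neg hj', if_neg hj, add_zero, Polynomial.eval_map]
          refine (degreeOf_aeval_le l0 i (pb j)).trans ?_
          split_ifs with hi
          · refine (natDegree_pb_le j).trans ?_
            have := j.2
            omega
          · exact le_rfl
    rw [hdet, MvPolynomial.degreeOf_mul_eq Pool.Agent.H68.Izer.vd_ne_zero h0] at h1
    have h3 := le_degreeOf_vd (K := ℂ) l0
    omega
  refine ⟨MvPolynomial.aeval (fun i : Fin (xs.length + 1) => seqX xs i) Q, ?_, ?_⟩
  · refine (natDegree_aeval_le l0 _ _ ?_).trans hQdeg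
    rw [hl0]
    exact natDegree_seqX xs
  · intro x
    have h1 := map_AltN (MvPolynomial.aeval (fun i : Fin (xs.length + 1) => seqX xs i) :
      MvPolynomial (Fin (xs.length + 1)) ℂ →ₐ[ℂ] ℂ[X]).toRingHom F
      (ext0 (MvPolynomial.X : Fin (xs.length + 1) → MvPolynomial (Fin (xs.length + 1)) ℂ))
      (xs.length + 1)
    rw [← hQ] at h1
    have h2 : MvPolynomial.aeval (fun i : Fin (xs.length + 1) => seqX xs i) Q =
        AltN (fun j => (F j).map (MvPolynomial.aeval
          (fun i : Fin (xs.length + 1) => seqX xs i) :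
          MvPolynomial (Fin (xs.length + 1)) ℂ →ₐ[ℂ] ℂ[X]).toRingHom) (seqX xs)
          (xs.length + 1) := by
      refine (show _ = _ from h1).trans (AltN_congr _ _ _ _ _ (fun _ _ => rfl) ?_)
      intro j hj
      rw [ext0, dif_pos hj]
      simp
    rw [h2, AltN_eval_last _ (fun j => if j + 1 = xs.length + 1 then (X - C x) * g else pb j) xs x,
      D]
    · have hlen : (xs ++ [x]).length = xs.length + 1 := by simp
      rw [hlen]
    · intro j hj
      have hC : ∀ p : ℂ[X], ((p.map (MvPolynomial.C :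
          ℂ →+* MvPolynomial (Fin (xs.length + 1)) ℂ)).map (MvPolynomial.aeval
          (fun i : Fin (xs.length + 1) => seqX xs i) :
          MvPolynomial (Fin (xs.length + 1)) ℂ →ₐ[ℂ] ℂ[X]).toRingHom).map (evalRingHom x) = p := by
        intro p
        rw [Polynomial.map_map, Polynomial.map_map]
        have : (((evalRingHom x).comp (MvPolynomial.aeval
            (fun i : Fin (xs.length + 1) => seqX xs i) :
            MvPolynomial (Fin (xs.length + 1)) ℂ →ₐ[ℂ] ℂ[X]).toRingHom).comp MvPolynomial.C) =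
            RingHom.id ℂ := by
          ext c; simp
        rw [this, Polynomial.map_id]
      simp only [hF]
      by_cases hj1 : j = xs.length
      · rw [if_pos hj1, if_pos (by omega)]
        rw [Polynomial.map_mul, Polynomial.map_mul, hC]
        congr 1
        rw [Polynomial.map_sub, Polynomial.map_sub, Polynomial.map_X, Polynomial.map_X,
          Polynomial.map_C, Polynomial.map_C]
        congr 2
        have h5 : seqX xs (l0 : ℕ) = X := by
          rw [hl0, seqX, if_neg (by simp)]
        simp [h5]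
      · rw [if_neg hj1, if_neg (by omega), hC]

/-! ### bivariate degrees -/

/-- all coefficients have degree at most `e` -/
def CoeffDeg (e : ℕ) (B : ℂ[X][X]) : Prop := ∀ j, (B.coeff j).natDegree ≤ e

lemma CoeffDeg.mul {a b : ℕ} {A B : ℂ[X][X]} (hA : CoeffDeg a A) (hB : CoeffDeg b B) :
    CoeffDeg (a + b) (A * B) := by
  intro j
  rw [coeff_mul]
  refine natDegree_sum_le_of_forall_le _ _ fun p _ => ?_
  exact natDegree_mul_le.trans (add_le_add (hA _) (hB _))

lemma CoeffDeg.one : CoeffDeg 0 1 := by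
  intro j
  rw [coeff_one]
  split_ifs <;> simp

lemma CoeffDeg.pow {a : ℕ} {A : ℂ[X][X]} (hA : CoeffDeg a A) (n : ℕ) :
    CoeffDeg (n * a) (A ^ n) := by
  induction n with
  | zero => rw [pow_zero, Nat.zero_mul]; exact CoeffDeg.one
  | succ n ih => rw [pow_succ, Nat.succ_mul]; exact ih.mul hA

lemma CoeffDeg.prod {ι : Type*} (s : Finset ι) (e : ι → ℕ) (A : ι → ℂ[X][X])
    (h : ∀ i ∈ s, CoeffDeg (e i) (A i)) : CoeffDeg (∑ i ∈ s, e i) (∏ i ∈ s, A i) := by
  classical
  induction s using Finset.induction_on with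
  | empty => simpa using CoeffDeg.one
  | insert a s ha ih =>
    rw [Finset.sum_insert ha, Finset.prod_insert ha]
    exact (h a (Finset.mem_insert_self _ _)).mul
      (ih fun i hi => h i (Finset.mem_insert_of_mem hi))

lemma CoeffDeg.sum {ι : Type*} (s : Finset ι) (e : ℕ) (A : ι → ℂ[X][X])
    (h : ∀ i ∈ s, CoeffDeg e (A i)) : CoeffDeg e (∑ i ∈ s, A i) := by
  intro j
  rw [finsetSum_coeff]
  exact natDegree_sum_le_of_forall_le _ _ fun i hi => h i hi j

lemma coeffDeg_aeval {L : ℕ} (i₀ : Fin L) (P : MvPolynomial (Fin L) ℂ) (x : Fin L → ℂ[X][X])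
    (hx : ∀ i, CoeffDeg (if i = i₀ then 1 else 0) (x i)) :
    CoeffDeg (P.degreeOf i₀) (MvPolynomial.aeval x P) := by
  classical
  rw [MvPolynomial.aeval_def, MvPolynomial.eval₂_eq']
  refine CoeffDeg.sum _ _ _ fun m hm => ?_
  have h1 : CoeffDeg 0 (algebraMap ℂ ℂ[X][X] (MvPolynomial.coeff m P)) := by
    intro j
    have : algebraMap ℂ ℂ[X][X] (MvPolynomial.coeff m P) = C (C (MvPolynomial.coeff m P)) := rfl
    rw [this, coeff_C]
    split_ifs <;> simp
  have h2 := CoeffDeg.prod Finset.univ (fun i => m i * if i = i₀ then 1 else 0)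
    (fun i => x i ^ m i) (fun i _ => (hx i).pow (m i))
  have h3 := h1.mul h2
  simp only [mul_ite, mul_one, mul_zero, Finset.sum_ite_eq', Finset.mem_univ, if_true,
    zero_add] at h3
  intro j
  refine (h3 j).trans ?_
  rw [MvPolynomial.degreeOf_eq_sup]
  exact Finset.le_sup (f := fun m => m i₀) hm

/-- the points `xs`, then the inner variable, then the outer variable -/
noncomputable def seqXX (xs : List ℂ) (n : ℕ) : ℂ[X][X] :=
  if n < xs.length then C (C (seq xs n)) else if n = xs.length then C X else X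

/-- degrees in one of the other points -/
theorem Sx_deg2 (xs : List ℂ) : ∃ Q : ℕ → ℂ[X],
    (∀ j, (Q j).natDegree ≤ (xs.length + 1) / 2) ∧ ∀ v j, (Sx (xs ++ [v])).coeff j = (Q j).eval v := by
  obtain ⟨i0, hi0⟩ : ∃ i : Fin (xs.length + 2), i = ⟨xs.length, by omega⟩ := ⟨_, rfl⟩
  obtain ⟨B, hB⟩ : ∃ B : ℂ[X][X], B = MvPolynomial.aeval
      (fun i : Fin (xs.length + 2) => seqXX xs i)
      (Pool.Agent.H68.Open.Alt (fun j : Fin (xs.length + 2) => pb j)) := ⟨_, rfl⟩
  refine ⟨fun j => B.coeff j, ?_, ?_⟩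
  · have h1 := coeffDeg_aeval i0 (Pool.Agent.H68.Open.Alt (fun j : Fin (xs.length + 2) => pb j))
      (fun i : Fin (xs.length + 2) => seqXX xs i) ?_
    · rw [← hB] at h1
      intro j
      refine (h1 j).trans ?_
      refine (degreeOf_Alt_le _ ((xs.length + 1) / 2 + (xs.length + 1)) ?_ _).trans ?_
      · intro j
        exact natDegree_pb_le' j.2
      · simp
    · intro i j
      rcases lt_trichotomy (i : ℕ) xs.length with h1 | h1 | h1
      · rw [seqXX, if_pos h1, coeff_C]
        split_ifs <;> simp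
      · have h2 : i = i0 := by rw [hi0]; exact Fin.ext h1
        rw [seqXX, if_neg (by omega), if_pos h1, coeff_C, if_pos h2]
        split_ifs
        · exact natDegree_X_le
        · simp
      · rw [seqXX, if_neg (by omega), if_neg (by omega), coeff_X]
        split_ifs <;> simp
  · intro v j
    have h1 : B.map (evalRingHom v) = Sx (xs ++ [v]) := by
      rw [hB, aeval_Alt]
      have h2 := map_AltN (mapRingHom (evalRingHom v)) (fun j => (pb j).map (algebraMap ℂ ℂ[X][X]))
        (seqXX xs) (xs.length + 2)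
      rw [coe_mapRingHom] at h2
      rw [h2, Sx_eq]
      have hlen : (xs ++ [v]).length + 1 = xs.length + 2 := by simp
      rw [hlen]
      refine AltN_congr _ _ _ _ _ ?_ ?_
      · intro j _
        rw [Polynomial.map_map]
        congr 1
        ext c : 1
        have : algebraMap ℂ ℂ[X][X] c = C (C c) := rfl
        simp [this]
      · intro j hj
        rw [seqXX, seqX]
        have hlen' : (xs ++ [v]).length = xs.length + 1 := by simp
        rw [hlen']
        rcases lt_trichotomy j xs.length with h1 | h1 | h1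
        · rw [if_pos h1, if_pos (by omega), seq_append_left _ _ h1]; simp
        · rw [if_neg (by omega), if_pos h1, if_pos (by omega), h1, seq_append_right _ _ le_rfl]
          simp [seq]
        · rw [if_neg (by omega), if_neg (by omega), if_neg (by omega)]
          simp
    rw [← h1, coeff_map, coe_evalRingHom]

end Pool.Agent.H72.Cardy
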