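import Pool.Agent.H72.Cardy.Defs

/-! The two common side conditions of the specification (shared by all CAR jobs). -/

set_option autoImplicit false

namespace Pool.Agent.H72.Cardy

/-- generic parameters -/
def Gen (l : List ℂ) : Prop :=
  (∀ x ∈ l, x ≠ 0 ∧ x ^ 6 ≠ 1) ∧ l.Pairwise fun x y => x ^ 3 ≠ y ^ 3 ∧ x ^ 3 * y ^ 3 ≠ 1

/-- all nonzero -/
def NZ (l : List ℂ) : Prop := ∀ x ∈ l, x ≠ 0

end Pool.Agent.H72.Cardy
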