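import Pool.Agent.H72.Cardy.NZ

/-! Job CAR-NREC: recursions, base cases and degrees of `Nodd`, `Neven`. -/

set_option autoImplicit false
open Polynomial

namespace Pool.Agent.H72.Cardy

variable {q a : ℂ} {Φ : List ℂ → List Bool → ℂ}

namespace NRecAux

lemma NZ_append {l₁ l₂ : List ℂ} : NZ (l₁ ++ l₂) ↔ NZ l₁ ∧ NZ l₂ := by
  unfold NZ
  constructor
  · intro h
    exact ⟨fun x hx => h x (List.mem_append.2 (Or.inl hx)),
      fun x hx => h x (List.mem_append.2 (Or.inr hx))⟩
  · rintro ⟨h1, h2⟩ x hx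
    rcases List.mem_append.1 hx with h | h
    · exact h1 x h
    · exact h2 x h

lemma NZ_cons {x : ℂ} {l : List ℂ} : NZ (x :: l) ↔ x ≠ 0 ∧ NZ l := by
  unfold NZ
  simp

lemma NZ_nil : NZ [] := by
  intro x hx
  simp at hx

lemma NZ_singleton {x : ℂ} : NZ [x] ↔ x ≠ 0 := by
  rw [NZ_cons]
  exact ⟨fun h => h.1, fun h => ⟨h, NZ_nil⟩⟩

lemma NZ_prs {b : List ℂ} (h : NZ b) : NZ (prs b) := by
  induction b with
  | nil => exact NZ_nil
  | cons x b ih =>
    rw [NZ_cons] at h
    unfold prs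
    rw [NZ_cons, NZ_cons]
    exact ⟨h.1, inv_ne_zero h.1, ih h.2⟩

lemma prs_append (b c : List ℂ) : prs (b ++ c) = prs b ++ prs c := by
  induction b with
  | nil => rfl
  | cons x b ih => simp [prs, ih]

lemma prs_length (b : List ℂ) : (prs b).length = 2 * b.length := by
  induction b with
  | nil => rfl
  | cons x b ih => simp [prs, ih]; ring

lemma X'_inv (x : ℂ) : X' x⁻¹ = X' x := by
  unfold X'
  rw [inv_inv, add_comm]

lemma prs_map (b : List ℂ) : (prs b).map X' = dbl (b.map X') := by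
  induction b with
  | nil => rfl
  | cons x b ih => simp [prs, dbl, ih, X'_inv]

lemma q_ne (hq : q ^ 2 + q + 1 = 0) : q ≠ 0 := by
  rintro rfl
  simp at hq

lemma a_ne (hq : q ^ 2 + q + 1 = 0) (ha : a ^ 2 = - q ^ 2) : a ≠ 0 := by
  rintro rfl
  have := q_ne hq
  simp at ha
  exact this ha

lemma q_cube (hq : q ^ 2 + q + 1 = 0) : q ^ 3 = 1 := by
  linear_combination (q - 1) * hq

/-! ### sums over configurations -/

lemma sumC_congr (k : ℕ) (f g : List Bool → ℂ) (h : ∀ s : List Bool, s.length = k → f s = g s) :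
    sumC k f = sumC k g := by
  induction k generalizing f g with
  | zero => exact h [] rfl
  | succ k ih =>
    unfold sumC
    rw [ih (fun s => f (false :: s)) (fun s => g (false :: s)) fun s hs => h _ (by simp [hs]),
      ih (fun s => f (true :: s)) (fun s => g (true :: s)) fun s hs => h _ (by simp [hs])]

lemma sumC_mul (k : ℕ) (c : ℂ) (f : List Bool → ℂ) :
    sumC k (fun s => c * f s) = c * sumC k f := by
  induction k generalizing f with
  | zero => rfl
  | succ k ih =>
    unfold sumC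
    rw [ih (fun s => f (false :: s)), ih (fun s => f (true :: s))]
    ring

lemma sumC_zero (k : ℕ) : sumC k (fun _ => 0) = 0 := by
  have := sumC_mul k 0 (fun _ => 0)
  simpa using this

lemma sumC_add (k : ℕ) (f g : List Bool → ℂ) :
    sumC k (fun s => f s + g s) = sumC k f + sumC k g := by
  induction k generalizing f g with
  | zero => rfl
  | succ k ih =>
    unfold sumC
    rw [ih (fun s => f (false :: s)) (fun s => g (false :: s)),
      ih (fun s => f (true :: s)) (fun s => g (true :: s))]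
    ring

lemma sumC_last (k : ℕ) (f : List Bool → ℂ) :
    sumC (k + 1) f = sumC k (fun s => f (s ++ [false])) + sumC k (fun s => f (s ++ [true])) := by
  induction k generalizing f with
  | zero => rfl
  | succ k ih =>
    rw [sumC, ih (fun s => f (false :: s)), ih (fun s => f (true :: s))]
    rw [sumC, sumC]
    simp only [List.cons_append]
    ring

/-! ### arcs -/

lemma capR_congr (r : ℕ) (V V' : List Bool → ℂ) (c : ℂ) (s t s' t' : List Bool)
    (h : ∀ p : List Bool, p.length = 2 * r → V (s ++ (p ++ t)) = c * V' (s' ++ (p ++ t'))) :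
    capR a r V s t = c * capR a r V' s' t' := by
  induction r generalizing s s' with
  | zero =>
    have := h [] rfl
    simpa [capR] using this
  | succ r ih =>
    unfold capR
    rw [ih (s ++ [true, false]) (s' ++ [true, false]), ih (s ++ [false, true])
      (s' ++ [false, true])]
    · ring
    · intro p hp
      have := h (false :: true :: p) (by simp [hp]; ring)
      simpa using this
    · intro p hp
      have := h (true :: false :: p) (by simp [hp]; ring)
      simpa using this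

lemma capR_zero (r : ℕ) (V : List Bool → ℂ) (s t : List Bool)
    (h : ∀ p : List Bool, p.length = 2 * r → V (s ++ (p ++ t)) = 0) :
    capR a r V s t = 0 := by
  have := capR_congr (a := a) r V (fun _ => 0) 0 s t [] [] (fun p hp => by rw [h p hp]; ring)
  rw [this, zero_mul]

lemma capR_last (r : ℕ) (V : List Bool → ℂ) (s t : List Bool) :
    capR a (r + 1) V s t = a⁻¹ * capR a r V s (true :: false :: t) +
      a * capR a r V s (false :: true :: t) := by
  induction r generalizing s with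
  | zero => simp [capR]
  | succ r ih =>
    rw [capR, ih (s ++ [true, false]), ih (s ++ [false, true])]
    conv_rhs => rw [capR, capR]
    ring

end NRecAux

open NRecAux

/-! ### recursions -/

theorem Nodd_i (hq : q ^ 2 + q + 1 = 0) (ha : a ^ 2 = - q ^ 2) (hΦ : Sol q a Φ)
    (z : List ℂ) (x : ℂ) (b : List ℂ) (d : ℂ) (h0 : NZ (z ++ b ++ [x, d])) :
    Nodd a Φ (z ++ [x]) (q * x) b d =
      ((z.map X' ++ (dbl (b.map X') ++ [X' d])).map fun t => t - X' (q⁻¹ * x)).prod *
        Neven a Φ z x b d := by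
  have ha0 := a_ne hq ha
  rw [NZ_append, NZ_append, NZ_cons, NZ_singleton] at h0
  obtain ⟨⟨hz, hb⟩, hx, hd⟩ := h0
  set P := ((z.map X' ++ (dbl (b.map X') ++ [X' d])).map fun t => t - X' (q⁻¹ * x)).prod with hP
  have hP' : ((z ++ (prs b ++ [d])).map fun y => X' y - X' (q⁻¹ * x)).prod = P := by
    rw [hP, ← prs_map]
    simp [List.map_append, Function.comp_def]
  have hfuse : ∀ (s : List Bool) (c : Bool), s.length = z.length →
      capR a b.length (Φ (z ++ [x] ++ (q * x) :: (prs b ++ [d]))) (s ++ [c] ++ [false]) [false] =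
        (A a c false * P) * capR a b.length (Φ (z ++ (prs b ++ [d]))) s [false] := by
    intro s c hs
    apply capR_congr
    intro p hp
    have := hΦ.fuse z x (prs b ++ [d]) s c false (p ++ [false]) hs
      (by simp [prs_length, hp]) hx (NZ_append.2 ⟨hz, NZ_append.2 ⟨NZ_prs hb, NZ_singleton.2 hd⟩⟩)
    rw [hP'] at this
    simpa using this
  unfold Nodd Neven
  rw [List.length_append, List.length_singleton, sumC_last]
  rw [sumC_congr z.length (fun s => Φ (z ++ [x]).reverse (((s ++ [false]).map not).reverse) *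
    capR a b.length (Φ (z ++ [x] ++ (q * x) :: (prs b ++ [d]))) (s ++ [false] ++ [false]) [false])
    (fun _ => 0), sumC_zero, zero_add]
  · rw [sumC_congr z.length (fun s => Φ (z ++ [x]).reverse (((s ++ [true]).map not).reverse) *
      capR a b.length (Φ (z ++ [x] ++ (q * x) :: (prs b ++ [d]))) (s ++ [true] ++ [false]) [false])
      (fun s => (a⁻¹ * P) * (Φ (x :: z.reverse) (false :: (s.map not).reverse) *
        capR a b.length (Φ (z ++ (prs b ++ [d]))) s [false])), sumC_mul]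
    · field_simp
    · intro s hs
      rw [hfuse s true hs]
      simp only [A, List.map_append, List.map_cons, List.map_nil, List.reverse_append,
        List.reverse_cons, List.reverse_nil, List.nil_append, List.cons_append, Bool.not_true]
      ring
  · intro s hs
    rw [hfuse s false hs]
    simp [A]

theorem Nodd_ii (hq : q ^ 2 + q + 1 = 0) (ha : a ^ 2 = - q ^ 2) (hΦ : Sol q a Φ)
    (z : List ℂ) (α : ℂ) (b : List ℂ) (d : ℂ) (h0 : NZ (z ++ b ++ [α, d])) :
    Nodd a Φ z α ((q * α) :: b) d =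
      ((z.map X' ++ (X' (q * α) :: (dbl (b.map X') ++ [X' d]))).map
        fun t => t - X' (q⁻¹ * α)).prod * Nodd a Φ z (q * α)⁻¹ b d := by
  have ha0 := a_ne hq ha
  have hq0 := q_ne hq
  rw [NZ_append, NZ_append, NZ_cons, NZ_singleton] at h0
  obtain ⟨⟨hz, hb⟩, hα, hd⟩ := h0
  set P := ((z.map X' ++ (X' (q * α) :: (dbl (b.map X') ++ [X' d]))).map
        fun t => t - X' (q⁻¹ * α)).prod with hP
  have hP' : ((z ++ (q * α)⁻¹ :: (prs b ++ [d])).map fun y => X' y - X' (q⁻¹ * α)).prod = P := by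
    rw [hP, ← prs_map, ← X'_inv (q * α)]
    simp [List.map_append, Function.comp_def]
  unfold Nodd
  rw [mul_left_comm]
  congr 1
  rw [← sumC_mul]
  apply sumC_congr
  intro s hs
  have h1 : ∀ c e : Bool, capR a b.length (Φ (z ++ α :: (prs ((q * α) :: b) ++ [d])))
      (s ++ [false] ++ [c, e]) [false] = (A a false c * P) * capR a b.length
        (Φ (z ++ (q * α)⁻¹ :: (prs b ++ [d]))) (s ++ [e]) [false] := by
    intro c e
    apply capR_congr
    intro p hp
    have := hΦ.fuse z α ((q * α)⁻¹ :: (prs b ++ [d])) s false c (e :: (p ++ [false])) hs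
      (by simp [prs_length, hp]) hα (NZ_append.2 ⟨hz, NZ_cons.2 ⟨inv_ne_zero (mul_ne_zero hq0 hα),
        NZ_append.2 ⟨NZ_prs hb, NZ_singleton.2 hd⟩⟩⟩)
    rw [hP'] at this
    simpa [prs] using this
  rw [List.length_cons, capR, h1, h1]
  simp only [A]
  field_simp
  ring

theorem Neven_iii (hq : q ^ 2 + q + 1 = 0) (ha : a ^ 2 = - q ^ 2) (hΦ : Sol q a Φ)
    (z : List ℂ) (x : ℂ) (b : List ℂ) (d : ℂ) (h0 : NZ (z ++ b ++ [x, d])) :
    Neven a Φ (z ++ [x]) (q⁻¹ * x) b d =
      ((z.map X').map fun t => t - X' (q * x)).prod * Nodd a Φ z x b d := by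
  have ha0 := a_ne hq ha
  have hq0 := q_ne hq
  rw [NZ_append, NZ_append, NZ_cons, NZ_singleton] at h0
  obtain ⟨⟨hz, hb⟩, hx, hd⟩ := h0
  set P := ((z.map X').map fun t => t - X' (q * x)).prod with hP
  have hP' : ((z.reverse).map fun y => X' y - X' (q⁻¹ * (q⁻¹ * x))).prod = P := by
    have e : q⁻¹ * (q⁻¹ * x) = q * x := by
      have h3 := q_cube hq
      have hqi : q⁻¹ = q ^ 2 := inv_eq_of_mul_eq_one_right (by rw [← h3]; ring)
      rw [hqi]
      linear_combination (q * x) * h3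
    rw [hP, e, List.map_reverse, List.prod_reverse, List.map_map]
    rfl
  have hzr : NZ z.reverse := fun y hy => hz y (List.mem_reverse.1 hy)
  have hfuse : ∀ (s : List Bool) (c : Bool), s.length = z.length →
      Φ ((q⁻¹ * x) :: (z ++ [x]).reverse) (false :: ((s ++ [c]).map not).reverse) =
        (A a false (!c) * P) * Φ z.reverse (s.map not).reverse := by
    intro s c hs
    have := hΦ.fuse [] (q⁻¹ * x) z.reverse [] false (!c) (s.map not).reverse rfl
      (by simp [hs]) (mul_ne_zero (inv_ne_zero hq0) hx) (by rw [List.nil_append]; exact hzr)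
    simp only [List.nil_append] at this
    rw [hP', mul_inv_cancel_left₀ hq0] at this
    simpa using this
  unfold Nodd Neven
  rw [List.length_append, List.length_singleton, sumC_last]
  rw [sumC_congr z.length (fun s => Φ ((q⁻¹ * x) :: (z ++ [x]).reverse)
    (false :: ((s ++ [true]).map not).reverse) *
    capR a b.length (Φ (z ++ [x] ++ (prs b ++ [d]))) (s ++ [true]) [false])
    (fun _ => 0), sumC_zero, add_zero]
  · rw [sumC_congr z.length (fun s => Φ ((q⁻¹ * x) :: (z ++ [x]).reverse)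
      (false :: ((s ++ [false]).map not).reverse) *
      capR a b.length (Φ (z ++ [x] ++ (prs b ++ [d]))) (s ++ [false]) [false])
      (fun s => (a * P) * (Φ z.reverse (s.map not).reverse *
        capR a b.length (Φ (z ++ x :: (prs b ++ [d]))) (s ++ [false]) [false])), sumC_mul]
    · ring
    · intro s hs
      rw [hfuse s false hs]
      simp only [A, Bool.not_false, List.append_assoc, List.cons_append, List.nil_append]
      ring
  · intro s hs
    rw [hfuse s true hs]
    simp [A]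

/-- the last arc -/
lemma capR_fuse_last (hq : q ^ 2 + q + 1 = 0) (ha : a ^ 2 = - q ^ 2) (hΦ : Sol q a Φ)
    (l : List ℂ) (b : List ℂ) (x : ℂ) (s : List Bool) (hl : NZ l) (hb : NZ b) (hx : x ≠ 0)
    (hs : s.length = l.length) :
    capR a (b ++ [x]).length (Φ (l ++ (prs (b ++ [x]) ++ [q * x⁻¹]))) s [false] =
      ((l.map X' ++ (dbl (b.map X') ++ [X' x])).map fun t => t - X' (q⁻¹ * x⁻¹)).prod *
        capR a b.length (Φ (l ++ (prs b ++ [x]))) s [false] := by
  have ha0 := a_ne hq ha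
  set P := ((l.map X' ++ (dbl (b.map X') ++ [X' x])).map fun t => t - X' (q⁻¹ * x⁻¹)).prod with hP
  have hP' : ((l ++ (prs b ++ [x]) ++ []).map fun y => X' y - X' (q⁻¹ * x⁻¹)).prod = P := by
    rw [hP, ← prs_map]
    simp [List.map_append, Function.comp_def]
  have h1 : ∀ c e : Bool, capR a b.length (Φ (l ++ (prs (b ++ [x]) ++ [q * x⁻¹]))) s
      (c :: e :: [false]) = (A a e false * P) * capR a b.length
        (Φ (l ++ (prs b ++ [x]))) s [c] := by
    intro c e
    apply capR_congr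
    intro p hp
    have := hΦ.fuse (l ++ (prs b ++ [x])) x⁻¹ [] (s ++ (p ++ [c])) e false []
      (by simp [prs_length, hp, hs]) rfl (inv_ne_zero hx)
      (by rw [List.append_nil]; exact NZ_append.2 ⟨hl, NZ_append.2 ⟨NZ_prs hb, NZ_singleton.2 hx⟩⟩)
    rw [hP'] at this
    simpa [prs_append, prs] using this
  rw [List.length_append, List.length_singleton, capR_last, h1, h1]
  simp only [A]
  field_simp
  ring

theorem Nodd_v (hq : q ^ 2 + q + 1 = 0) (ha : a ^ 2 = - q ^ 2) (hΦ : Sol q a Φ)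
    (z : List ℂ) (α : ℂ) (b : List ℂ) (x : ℂ) (h0 : NZ (z ++ b ++ [α, x])) :
    Nodd a Φ z α (b ++ [x]) (q * x⁻¹) =
      ((z.map X' ++ (X' α :: (dbl (b.map X') ++ [X' x]))).map
        fun t => t - X' (q⁻¹ * x⁻¹)).prod * Nodd a Φ z α b x := by
  rw [NZ_append, NZ_append, NZ_cons, NZ_singleton] at h0
  obtain ⟨⟨hz, hb⟩, hα, hx⟩ := h0
  unfold Nodd
  rw [mul_left_comm]
  congr 1
  rw [← sumC_mul]
  apply sumC_congr
  intro s hs
  have := capR_fuse_last hq ha hΦ (z ++ [α]) b x (s ++ [false])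
    (NZ_append.2 ⟨hz, NZ_singleton.2 hα⟩) hb hx (by simp [hs])
  simp only [List.append_assoc, List.cons_append, List.nil_append, List.map_append,
    List.map_cons, List.map_nil] at this ⊢
  rw [this]
  ring

theorem Neven_v (hq : q ^ 2 + q + 1 = 0) (ha : a ^ 2 = - q ^ 2) (hΦ : Sol q a Φ)
    (z : List ℂ) (v : ℂ) (b : List ℂ) (x : ℂ) (h0 : NZ (z ++ b ++ [v, x])) :
    Neven a Φ z v (b ++ [x]) (q * x⁻¹) =
      ((z.map X' ++ (dbl (b.map X') ++ [X' x])).map
        fun t => t - X' (q⁻¹ * x⁻¹)).prod * Neven a Φ z v b x := by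
  rw [NZ_append, NZ_append, NZ_cons, NZ_singleton] at h0
  obtain ⟨⟨hz, hb⟩, hv, hx⟩ := h0
  unfold Neven
  rw [← sumC_mul]
  apply sumC_congr
  intro s hs
  have := capR_fuse_last hq ha hΦ z b x s hz hb hx hs
  rw [this]
  ring

theorem Nodd_vi (hq : q ^ 2 + q + 1 = 0) (ha : a ^ 2 = - q ^ 2) (hΦ : Sol q a Φ)
    (z : List ℂ) (α : ℂ) (b : List ℂ) (x d : ℂ) (h0 : NZ (z ++ b ++ [α, x, d]))
    (hx : x⁻¹ = q * x) :
    Nodd a Φ z α (b ++ [x]) d =
      ((z.map X' ++ (X' α :: (dbl (b.map X') ++ [X' d]))).map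
        fun t => t - X' (q⁻¹ * x)).prod * Nodd a Φ z α b d := by
  have ha0 := a_ne hq ha
  have hq0 := q_ne hq
  rw [NZ_append, NZ_append, NZ_cons, NZ_cons, NZ_singleton] at h0
  obtain ⟨⟨hz, hb⟩, hα, hx0, hd⟩ := h0
  set P := ((z.map X' ++ (X' α :: (dbl (b.map X') ++ [X' d]))).map
        fun t => t - X' (q⁻¹ * x)).prod with hP
  have hP' : ((z ++ α :: prs b ++ [d]).map fun y => X' y - X' (q⁻¹ * x)).prod = P := by
    rw [hP, ← prs_map]
    simp [List.map_append, Function.comp_def]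
  unfold Nodd
  rw [mul_left_comm]
  congr 1
  rw [← sumC_mul]
  apply sumC_congr
  intro s hs
  have h1 : ∀ c e : Bool, capR a b.length (Φ (z ++ α :: (prs (b ++ [x]) ++ [d])))
      (s ++ [false]) (c :: e :: [false]) = (A a c e * P) * capR a b.length
        (Φ (z ++ α :: (prs b ++ [d]))) (s ++ [false]) [false] := by
    intro c e
    apply capR_congr
    intro p hp
    have := hΦ.fuse (z ++ α :: prs b) x [d] (s ++ (false :: p)) c e [false]
      (by simp [prs_length, hp, hs]) rfl hx0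
      (NZ_append.2 ⟨NZ_append.2 ⟨hz, NZ_cons.2 ⟨hα, NZ_prs hb⟩⟩, NZ_singleton.2 hd⟩)
    rw [hP'] at this
    simpa [prs_append, prs, hx] using this
  rw [List.length_append, List.length_singleton, capR_last, h1, h1]
  simp only [A]
  have haa : a⁻¹ * a⁻¹ + a * a = 1 := by
    have h3 := q_cube hq
    have h4 : a * a = -q ^ 2 := by rw [← ha]; ring
    have h5 : a⁻¹ * a⁻¹ = -q := by
      rw [← mul_inv, h4]
      have : (-q ^ 2) * (-q) = 1 := by linear_combination h3
      exact inv_eq_of_mul_eq_one_right this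
    rw [h4, h5]
    linear_combination -hq
  linear_combination (P * Φ z.reverse (s.map not).reverse * capR a b.length
        (Φ (z ++ α :: (prs b ++ [d]))) (s ++ [false]) [false]) * haa

theorem Nodd_base (hq : q ^ 2 + q + 1 = 0) (ha : a ^ 2 = - q ^ 2) (hΦ : Sol q a Φ) (z α d : ℂ)
    (h0 : NZ [z, α, d]) : Nodd a Φ [z] α [] d = X' d - X' (q * α) := by
  have ha0 := a_ne hq ha
  rw [NZ_cons, NZ_cons, NZ_singleton] at h0
  obtain ⟨hz, hα, hd⟩ := h0
  have h1 := hΦ.one z hz
  have h3 := hΦ.three z α d hz hα hd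
  have h2 : Φ [z] [true] = 0 := by
    by_contra h
    have := (hΦ.supp _ _ h).2
    simp at this
  unfold Nodd
  simp only [sumC, List.length_singleton, List.length_nil, capR, prs, List.map_cons, List.map_nil,
    List.reverse_cons, List.reverse_nil, List.nil_append, Bool.not_false, Bool.not_true, h1, h2,
    List.cons_append, h3]
  field_simp
  ring

theorem Neven_base (hq : q ^ 2 + q + 1 = 0) (ha : a ^ 2 = - q ^ 2) (hΦ : Sol q a Φ) (v d : ℂ)
    (h0 : NZ [v, d]) :
    Neven a Φ [] v [] d = 1 := by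
  rw [NZ_cons, NZ_singleton] at h0
  unfold Neven
  simp only [sumC, List.length_nil, capR, prs, List.map_nil,
    List.reverse_nil, List.nil_append, hΦ.one v h0.1, hΦ.one d h0.2, one_mul]

/-! ### degrees -/

namespace NRecAux

lemma exists_poly_one {N : ℕ} (P : MvPolynomial (Fin N) ℂ) (i : Fin N) (w : Fin N → ℂ) (D : ℕ)
    (hD : P.degreeOf i ≤ D) :
    ∃ Q : ℂ[X], Q.natDegree ≤ D ∧ ∀ x, MvPolynomial.eval (Function.update w i x) P = Q.eval x := by
  classical
  refine ⟨∑ m ∈ P.support, C (P.coeff m * ∏ k ∈ Finset.univ.erase i, w k ^ m k) * X ^ (m i),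
    ?_, fun x => ?_⟩
  · apply natDegree_sum_le_of_forall_le
    intro m hm
    refine (natDegree_C_mul_X_pow_le _ _).trans ?_
    exact (MvPolynomial.monomial_le_degreeOf i hm).trans hD
  · rw [MvPolynomial.eval_eq', eval_finset_sum]
    refine Finset.sum_congr rfl fun m _ => ?_
    rw [eval_mul, eval_C, eval_pow, eval_X, ← Finset.mul_prod_erase Finset.univ _
      (Finset.mem_univ i), Function.update_self]
    have : ∏ k ∈ Finset.univ.erase i, Function.update w i x k ^ m k =
        ∏ k ∈ Finset.univ.erase i, w k ^ m k := by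
      refine Finset.prod_congr rfl fun k hk => ?_
      rw [Function.update_of_ne (Finset.ne_of_mem_erase hk)]
    rw [this]
    ring

lemma exists_poly_two {N : ℕ} (P : MvPolynomial (Fin N) ℂ) (i j : Fin N) (hij : i ≠ j)
    (w : Fin N → ℂ) (D : ℕ) (hi : P.degreeOf i ≤ D) (hj : P.degreeOf j ≤ D) :
    ∃ Q : ℂ[X], Q.natDegree ≤ 2 * D ∧ ∀ x, x ≠ 0 → x ^ D *
      MvPolynomial.eval (Function.update (Function.update w i x) j x⁻¹) P = Q.eval x := by
  classical
  refine ⟨∑ m ∈ P.support, C (P.coeff m * ∏ k ∈ (Finset.univ.erase i).erase j, w k ^ m k) *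
    X ^ (m i + (D - m j)), ?_, fun x hx => ?_⟩
  · apply natDegree_sum_le_of_forall_le
    intro m hm
    refine (natDegree_C_mul_X_pow_le _ _).trans ?_
    have := (MvPolynomial.monomial_le_degreeOf i hm).trans hi
    omega
  · rw [MvPolynomial.eval_eq', eval_finset_sum, Finset.mul_sum]
    refine Finset.sum_congr rfl fun m hm => ?_
    have hmj := (MvPolynomial.monomial_le_degreeOf j hm).trans hj
    rw [eval_mul, eval_C, eval_pow, eval_X, ← Finset.mul_prod_erase Finset.univ _
      (Finset.mem_univ i), ← Finset.mul_prod_erase (Finset.univ.erase i) _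
      (Finset.mem_erase.2 ⟨hij.symm, Finset.mem_univ j⟩), Function.update_self,
      Function.update_of_ne hij, Function.update_self]
    have h1 : ∏ k ∈ (Finset.univ.erase i).erase j,
        Function.update (Function.update w i x) j x⁻¹ k ^ m k =
        ∏ k ∈ (Finset.univ.erase i).erase j, w k ^ m k := by
      refine Finset.prod_congr rfl fun k hk => ?_
      rw [Function.update_of_ne (Finset.ne_of_mem_erase hk),
        Function.update_of_ne (Finset.ne_of_mem_erase (Finset.mem_of_mem_erase hk))]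
    have h2 : x ^ D * x⁻¹ ^ (m j) = x ^ (D - m j) := by
      rw [inv_pow, ← div_eq_mul_inv, pow_sub₀ _ hx hmj, div_eq_mul_inv]
    rw [h1, pow_add]
    linear_combination (MvPolynomial.coeff m P * x ^ m i *
      ∏ k ∈ (Finset.univ.erase i).erase j, w k ^ m k) * h2

/-- a list as a function -/
lemma ofFn_get (N : ℕ) (l : List ℂ) (h : l.length = N) :
    List.ofFn (fun i : Fin N => l.get (Fin.cast h.symm i)) = l := by
  subst h
  exact List.ofFn_get l

lemma poly_one (hΦ : Sol q a Φ) (n : ℕ) (l₁ l₂ : List ℂ) (s : List Bool) (h1 : NZ l₁)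
    (h2 : NZ l₂) (hl : l₁.length + 1 + l₂.length = 2 * n + 1) :
    ∃ Q : ℂ[X], Q.natDegree ≤ 2 * n ∧ ∀ x, x ≠ 0 → x ^ n * Φ (l₁ ++ x :: l₂) s = Q.eval x := by
  obtain ⟨P, hP1, hP2⟩ := hΦ.poly n s
  have hlen : ∀ x : ℂ, (l₁ ++ x :: l₂).length = 2 * n + 1 := by
    intro x; simp; omega
  set i₀ : Fin (2 * n + 1) := ⟨l₁.length, by omega⟩ with hi₀
  set w : Fin (2 * n + 1) → ℂ := fun i => (l₁ ++ 1 :: l₂).get (Fin.cast (hlen 1).symm i) with hw
  obtain ⟨Q, hQ1, hQ2⟩ := exists_poly_one P i₀ w (2 * n) (hP1 i₀)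
  have hfun : ∀ x : ℂ, (fun i : Fin (2 * n + 1) => (l₁ ++ x :: l₂).get
      (Fin.cast (hlen x).symm i)) = Function.update w i₀ x := by
    intro x
    funext i
    by_cases hi : i = i₀
    · rw [hi, Function.update_self]
      simp [hi₀]
    · rw [Function.update_of_ne hi, hw]
      have hne : (i : ℕ) ≠ l₁.length := fun h => hi (Fin.ext h)
      simp only [List.get_eq_getElem, Fin.val_cast]
      rcases lt_or_gt_of_ne hne with h | h
      · rw [List.getElem_append_left h, List.getElem_append_left h]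
      · rw [List.getElem_append_right (by omega), List.getElem_append_right (by omega)]
        obtain ⟨k, hk⟩ : ∃ k, (i : ℕ) - l₁.length = k + 1 := ⟨(i : ℕ) - l₁.length - 1, by omega⟩
        simp only [hk, List.getElem_cons_succ]
  have hprod : (l₁.prod * l₂.prod) ≠ 0 := by
    apply mul_ne_zero
    · exact List.prod_ne_zero fun h => h1 0 h rfl
    · exact List.prod_ne_zero fun h => h2 0 h rfl
  refine ⟨C ((l₁.prod * l₂.prod) ^ n)⁻¹ * Q, (natDegree_C_mul_le _ _).trans hQ1, fun x hx => ?_⟩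
  have h3 := hP2 (Function.update w i₀ x) (by
    rw [← hfun x]
    intro i
    have hm : (l₁ ++ x :: l₂).get (Fin.cast (hlen x).symm i) ∈ l₁ ++ x :: l₂ := List.get_mem _ _
    exact NZ_append.2 ⟨h1, NZ_cons.2 ⟨hx, h2⟩⟩ _ hm)
  rw [hQ2 x, ← List.prod_ofFn, ← hfun x, ofFn_get _ _ (hlen x), List.prod_append,
    List.prod_cons] at h3
  rw [eval_mul, eval_C, ← h3]
  have h4 : ((l₁.prod * l₂.prod) ^ n) ≠ 0 := pow_ne_zero _ hprod
  have h5 : (l₁.prod * (x * l₂.prod)) ^ n = (l₁.prod * l₂.prod) ^ n * x ^ n := by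
    rw [← mul_pow]
    congr 1
    ring
  rw [h5, mul_assoc, inv_mul_cancel_left₀ h4]

lemma poly_two (hΦ : Sol q a Φ) (n : ℕ) (l₁ l₂ : List ℂ) (s : List Bool) (h1 : NZ l₁)
    (h2 : NZ l₂) (hl : l₁.length + 2 + l₂.length = 2 * n + 1) :
    ∃ Q : ℂ[X], Q.natDegree ≤ 4 * n ∧ ∀ x, x ≠ 0 →
      x ^ (2 * n) * Φ (l₁ ++ x :: x⁻¹ :: l₂) s = Q.eval x := by
  obtain ⟨P, hP1, hP2⟩ := hΦ.poly n s
  have hlen : ∀ x : ℂ, (l₁ ++ x :: x⁻¹ :: l₂).length = 2 * n + 1 := by
    intro x; simp; omega
  set i₀ : Fin (2 * n + 1) := ⟨l₁.length, by omega⟩ with hi₀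
  set j₀ : Fin (2 * n + 1) := ⟨l₁.length + 1, by omega⟩ with hj₀
  have hij : i₀ ≠ j₀ := by
    intro h
    have := congrArg Fin.val h
    simp [hi₀, hj₀] at this
  set w : Fin (2 * n + 1) → ℂ := fun i => (l₁ ++ 1 :: 1⁻¹ :: l₂).get
    (Fin.cast (hlen 1).symm i) with hw
  obtain ⟨Q, hQ1, hQ2⟩ := exists_poly_two P i₀ j₀ hij w (2 * n) (hP1 i₀) (hP1 j₀)
  have hfun : ∀ x : ℂ, (fun i : Fin (2 * n + 1) => (l₁ ++ x :: x⁻¹ :: l₂).get
      (Fin.cast (hlen x).symm i)) = Function.update (Function.update w i₀ x) j₀ x⁻¹ := by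
    intro x
    funext i
    by_cases hj : i = j₀
    · rw [hj, Function.update_self]
      simp only [List.get_eq_getElem, Fin.val_cast, hj₀]
      rw [List.getElem_append_right (by omega)]
      simp
    · rw [Function.update_of_ne hj]
      by_cases hi : i = i₀
      · rw [hi, Function.update_self]
        simp [hi₀]
      · rw [Function.update_of_ne hi, hw]
        have hne : (i : ℕ) ≠ l₁.length := fun h => hi (Fin.ext h)
        have hne' : (i : ℕ) ≠ l₁.length + 1 := fun h => hj (Fin.ext h)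
        simp only [List.get_eq_getElem, Fin.val_cast]
        rcases lt_or_gt_of_ne hne with h | h
        · rw [List.getElem_append_left h, List.getElem_append_left h]
        · rw [List.getElem_append_right (by omega), List.getElem_append_right (by omega)]
          obtain ⟨k, hk⟩ : ∃ k, (i : ℕ) - l₁.length = k + 1 + 1 :=
            ⟨(i : ℕ) - l₁.length - 2, by omega⟩
          simp only [hk, List.getElem_cons_succ]
  have hprod : (l₁.prod * l₂.prod) ≠ 0 := by
    apply mul_ne_zero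
    · exact List.prod_ne_zero fun h => h1 0 h rfl
    · exact List.prod_ne_zero fun h => h2 0 h rfl
  refine ⟨C ((l₁.prod * l₂.prod) ^ n)⁻¹ * Q, (natDegree_C_mul_le _ _).trans (by omega),
    fun x hx => ?_⟩
  have h3 := hP2 (Function.update (Function.update w i₀ x) j₀ x⁻¹) (by
    rw [← hfun x]
    intro i
    have hm : (l₁ ++ x :: x⁻¹ :: l₂).get (Fin.cast (hlen x).symm i) ∈ l₁ ++ x :: x⁻¹ :: l₂ :=
      List.get_mem _ _
    exact NZ_append.2 ⟨h1, NZ_cons.2 ⟨hx, NZ_cons.2 ⟨inv_ne_zero hx, h2⟩⟩⟩ _ hm)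
  have h5 := hQ2 x hx
  rw [← h3, ← List.prod_ofFn, ← hfun x, ofFn_get _ _ (hlen x), List.prod_append, List.prod_cons,
    List.prod_cons, mul_inv_cancel_left₀ hx] at h5
  rw [eval_mul, eval_C, ← h5]
  have h4 : ((l₁.prod * l₂.prod) ^ n) ≠ 0 := pow_ne_zero _ hprod
  rw [mul_left_comm, inv_mul_cancel_left₀ h4]

/-- linear combinations of functions with the degree property -/
def Deg (D e : ℕ) (f : ℂ → ℂ) : Prop :=
  ∃ P : ℂ[X], P.natDegree ≤ D ∧ ∀ x, x ≠ 0 → x ^ e * f x = P.eval x

lemma Deg.add {D e : ℕ} {f g : ℂ → ℂ} (hf : Deg D e f) (hg : Deg D e g) :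
    Deg D e fun x => f x + g x := by
  obtain ⟨P, h1, h2⟩ := hf
  obtain ⟨Q, h3, h4⟩ := hg
  refine ⟨P + Q, natDegree_add_le_of_degree_le h1 h3, fun x hx => ?_⟩
  rw [eval_add, ← h2 x hx, ← h4 x hx]
  ring

lemma Deg.mul {D e : ℕ} {f : ℂ → ℂ} (hf : Deg D e f) (c : ℂ) : Deg D e fun x => c * f x := by
  obtain ⟨P, h1, h2⟩ := hf
  refine ⟨C c * P, (natDegree_C_mul_le _ _).trans h1, fun x hx => ?_⟩
  rw [eval_mul, eval_C, ← h2 x hx]
  ring

lemma Deg.sumC {D e : ℕ} (k : ℕ) (f : ℂ → List Bool → ℂ) (hf : ∀ s, Deg D e fun x => f x s) :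
    Deg D e fun x => Pool.Agent.H72.Cardy.sumC k (f x) := by
  induction k generalizing f with
  | zero => exact hf []
  | succ k ih =>
    exact (ih (fun x s => f x (false :: s)) fun s => hf _).add
      (ih (fun x s => f x (true :: s)) fun s => hf _)

lemma Deg.capR {D e : ℕ} (r : ℕ) (V : ℂ → List Bool → ℂ) (s t : List Bool)
    (hf : ∀ s, Deg D e fun x => V x s) :
    Deg D e fun x => Pool.Agent.H72.Cardy.capR a r (V x) s t := by
  induction r generalizing s with
  | zero => exact hf _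
  | succ r ih => exact ((ih _).mul _).add ((ih _).mul _)

end NRecAux

theorem Nodd_degα (hq : q ^ 2 + q + 1 = 0) (ha : a ^ 2 = - q ^ 2) (hΦ : Sol q a Φ) (n : ℕ)
    (z b : List ℂ) (d : ℂ) (h0 : NZ (z ++ b ++ [d])) (hn : z.length + 2 * b.length + 1 = 2 * n) :
    ∃ P : ℂ[X], P.natDegree ≤ 2 * n ∧ ∀ α, α ≠ 0 → α ^ n * Nodd a Φ z α b d = P.eval α := by
  rw [NZ_append, NZ_append, NZ_singleton] at h0
  obtain ⟨⟨hz, hb⟩, hd⟩ := h0
  have h : Deg (2 * n) n fun α => Nodd a Φ z α b d := by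
    unfold Nodd
    refine Deg.mul ?_ a
    refine Deg.sumC z.length (fun α s => Φ z.reverse (s.map not).reverse *
      capR a b.length (Φ (z ++ α :: (prs b ++ [d]))) (s ++ [false]) [false]) fun s => ?_
    refine Deg.mul ?_ _
    refine Deg.capR b.length (fun α => Φ (z ++ α :: (prs b ++ [d]))) _ _ fun s => ?_
    exact poly_one hΦ n z (prs b ++ [d]) s hz (NZ_append.2 ⟨NZ_prs hb, NZ_singleton.2 hd⟩)
      (by simp [prs_length]; omega)
  exact h

theorem Nodd_degd (hq : q ^ 2 + q + 1 = 0) (ha : a ^ 2 = - q ^ 2) (hΦ : Sol q a Φ) (n : ℕ)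
    (z b : List ℂ) (α : ℂ) (h0 : NZ (z ++ b ++ [α])) (hn : z.length + 2 * b.length + 1 = 2 * n) :
    ∃ P : ℂ[X], P.natDegree ≤ 2 * n ∧ ∀ d, d ≠ 0 → d ^ n * Nodd a Φ z α b d = P.eval d := by
  rw [NZ_append, NZ_append, NZ_singleton] at h0
  obtain ⟨⟨hz, hb⟩, hα⟩ := h0
  have h : Deg (2 * n) n fun d => Nodd a Φ z α b d := by
    unfold Nodd
    refine Deg.mul ?_ a
    refine Deg.sumC z.length (fun d s => Φ z.reverse (s.map not).reverse *
      capR a b.length (Φ (z ++ α :: (prs b ++ [d]))) (s ++ [false]) [false]) fun s => ?_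
    refine Deg.mul ?_ _
    refine Deg.capR b.length (fun d => Φ (z ++ α :: (prs b ++ [d]))) _ _ fun s => ?_
    have := poly_one hΦ n (z ++ α :: prs b) [] s (NZ_append.2 ⟨hz, NZ_cons.2 ⟨hα, NZ_prs hb⟩⟩)
      NZ_nil (by simp [prs_length]; omega)
    simpa [Deg] using this
  exact h

/-- one single pair, in its variable -/
theorem Nodd_degb (hq : q ^ 2 + q + 1 = 0) (ha : a ^ 2 = - q ^ 2) (hΦ : Sol q a Φ) (n : ℕ)
    (z : List ℂ) (α d : ℂ) (h0 : NZ (z ++ [α, d])) (hn : z.length + 3 = 2 * n) :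
    ∃ P : ℂ[X], P.natDegree ≤ 4 * n ∧
      ∀ x, x ≠ 0 → x ^ (2 * n) * Nodd a Φ z α [x] d = P.eval x := by
  rw [NZ_append, NZ_cons, NZ_singleton] at h0
  obtain ⟨hz, hα, hd⟩ := h0
  have h : Deg (4 * n) (2 * n) fun x => Nodd a Φ z α [x] d := by
    unfold Nodd
    refine Deg.mul ?_ a
    refine Deg.sumC z.length (fun x s => Φ z.reverse (s.map not).reverse *
      capR a 1 (Φ (z ++ α :: (prs [x] ++ [d]))) (s ++ [false]) [false]) fun s => ?_
    refine Deg.mul ?_ _
    refine Deg.capR 1 (fun x => Φ (z ++ α :: (prs [x] ++ [d]))) _ _ fun s => ?_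
    have := poly_two hΦ n (z ++ [α]) [d] s (NZ_append.2 ⟨hz, NZ_singleton.2 hα⟩)
      (NZ_singleton.2 hd) (by simp; omega)
    simpa [Deg, prs] using this
  exact h

theorem Neven_degv (hq : q ^ 2 + q + 1 = 0) (ha : a ^ 2 = - q ^ 2) (hΦ : Sol q a Φ) (m : ℕ)
    (z b : List ℂ) (d : ℂ) (h0 : NZ (z ++ b ++ [d])) (hm : z.length = 2 * m) :
    ∃ P : ℂ[X], P.natDegree ≤ 2 * m ∧ ∀ v, v ≠ 0 → v ^ m * Neven a Φ z v b d = P.eval v := by
  rw [NZ_append, NZ_append, NZ_singleton] at h0
  obtain ⟨⟨hz, hb⟩, hd⟩ := h0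
  have h : Deg (2 * m) m fun v => Neven a Φ z v b d := by
    unfold Neven
    refine Deg.sumC z.length (fun v s => Φ (v :: z.reverse) (false :: (s.map not).reverse) *
      capR a b.length (Φ (z ++ (prs b ++ [d]))) s [false]) fun s => ?_
    have h1 : Deg (2 * m) m fun v => Φ (v :: z.reverse) (false :: (s.map not).reverse) := by
      have := poly_one hΦ m [] z.reverse (false :: (s.map not).reverse) NZ_nil
        (fun y hy => hz y (List.mem_reverse.1 hy)) (by simp; omega)
      simpa [Deg] using this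
    have h2 := h1.mul (capR a b.length (Φ (z ++ (prs b ++ [d]))) s [false])
    obtain ⟨P, h3, h4⟩ := h2
    refine ⟨P, h3, fun v hv => ?_⟩
    rw [← h4 v hv]
    ring
  exact h

theorem Neven_degd (hq : q ^ 2 + q + 1 = 0) (ha : a ^ 2 = - q ^ 2) (hΦ : Sol q a Φ) (n : ℕ)
    (z b : List ℂ) (v : ℂ) (h0 : NZ (z ++ b ++ [v])) (hn : z.length + 2 * b.length = 2 * n) :
    ∃ P : ℂ[X], P.natDegree ≤ 2 * n ∧ ∀ d, d ≠ 0 → d ^ n * Neven a Φ z v b d = P.eval d := by
  rw [NZ_append, NZ_append, NZ_singleton] at h0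
  obtain ⟨⟨hz, hb⟩, hv⟩ := h0
  have h : Deg (2 * n) n fun d => Neven a Φ z v b d := by
    unfold Neven
    refine Deg.sumC z.length (fun d s => Φ (v :: z.reverse) (false :: (s.map not).reverse) *
      capR a b.length (Φ (z ++ (prs b ++ [d]))) s [false]) fun s => ?_
    refine Deg.mul ?_ _
    refine Deg.capR b.length (fun d => Φ (z ++ (prs b ++ [d]))) _ _ fun s => ?_
    have := poly_one hΦ n (z ++ prs b) [] s (NZ_append.2 ⟨hz, NZ_prs hb⟩)
      NZ_nil (by simp [prs_length]; omega)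
    simpa [Deg] using this
  exact h

end Pool.Agent.H72.Cardy
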