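import Mathlib

set_option autoImplicit false
open Polynomial

/-! Cardy's formula in the L-shaped strip: algebraic definitions (spin basis).

`q` is a primitive cube root of unity, `a ^ 2 = - q ^ 2`. A spin configuration is a list of Booleans
(`true` = down), the parameters are a list of complex numbers of the same length. -/

namespace Pool.Agent.H72.Cardy

/-- weight of an arc whose left spin is `c` and whose right spin is `d` -/
noncomputable def A (a : ℂ) : Bool → Bool → ℂ
  | true, false => a⁻¹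
  | false, true => a
  | _, _ => 0

/-- closing the two sites after `s` by an arc -/
noncomputable def cap (a : ℂ) (V : List Bool → ℂ) (s t : List Bool) : ℂ :=
  a⁻¹ * V (s ++ true :: false :: t) + a * V (s ++ false :: true :: t)

/-- `r` adjacent arcs after `s` -/
noncomputable def capR (a : ℂ) : ℕ → (List Bool → ℂ) → List Bool → List Bool → ℂ
  | 0, V, s, t => V (s ++ t)
  | r + 1, V, s, t =>
    a⁻¹ * capR a r V (s ++ [true, false]) t + a * capR a r V (s ++ [false, true]) t

/-- the sum over all configurations of length `k` -/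
def sumC : ℕ → (List Bool → ℂ) → ℂ
  | 0, f => f []
  | k + 1, f => sumC k (fun s => f (false :: s)) + sumC k (fun s => f (true :: s))

/-- `z + 1/z` -/
noncomputable def X' (z : ℂ) : ℂ := z + z⁻¹

/-- the list `b₁, b₁⁻¹, b₂, b₂⁻¹, …` -/
noncomputable def prs : List ℂ → List ℂ
  | [] => []
  | b :: bs => b :: b⁻¹ :: prs bs

/-- the list `x₁, x₁, x₂, x₂, …` -/
def dbl : List ℂ → List ℂ
  | [] => []
  | x :: xs => x :: x :: dbl xs

/-- The (polynomial) inhomogeneous ground state of the half-infinite strip with an odd number of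
strands in the spin basis. -/
structure Sol (q a : ℂ) (Φ : List ℂ → List Bool → ℂ) : Prop where
  one : ∀ z, z ≠ 0 → Φ [z] [false] = 1
  three : ∀ x y z, x ≠ 0 → y ≠ 0 → z ≠ 0 →
    Φ [x, y, z] [true, false, false] = a⁻¹ * (X' z - X' (q * y))
  supp : ∀ zs s, Φ zs s ≠ 0 → s.length = zs.length ∧ zs.length = 2 * s.count true + 1
  exch : ∀ l₁ x y l₂ s c d t, List.length s = List.length l₁ → List.length t = List.length l₂ →
    (∀ z ∈ l₁ ++ x :: y :: l₂, z ≠ 0) →
    (q * y - q⁻¹ * x) * Φ (l₁ ++ y :: x :: l₂) (s ++ c :: d :: t) =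
      (q * x - q⁻¹ * y) * Φ (l₁ ++ x :: y :: l₂) (s ++ c :: d :: t) +
      (x - y) * (A a c d * cap a (Φ (l₁ ++ x :: y :: l₂)) s t)
  even_first : ∀ x l s, x ≠ 0 → (∀ z ∈ l, z ≠ 0) → Φ (x⁻¹ :: l) s = Φ (x :: l) s
  even_last : ∀ l x s, x ≠ 0 → (∀ z ∈ l, z ≠ 0) → Φ (l ++ [x⁻¹]) s = Φ (l ++ [x]) s
  fuse : ∀ l₁ x l₂ s c d t, List.length s = List.length l₁ → List.length t = List.length l₂ →
    x ≠ 0 → (∀ z ∈ l₁ ++ l₂, z ≠ 0) →
    Φ (l₁ ++ x :: (q * x) :: l₂) (s ++ c :: d :: t) =
      A a c d * ((l₁ ++ l₂).map fun y => X' y - X' (q⁻¹ * x)).prod * Φ (l₁ ++ l₂) (s ++ t)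
  poly : ∀ (n : ℕ) (s : List Bool), ∃ P : MvPolynomial (Fin (2 * n + 1)) ℂ,
    (∀ i, P.degreeOf i ≤ 2 * n) ∧ ∀ z : Fin (2 * n + 1) → ℂ, (∀ i, z i ≠ 0) →
      (∏ i, z i) ^ n * Φ (List.ofFn z) s = MvPolynomial.eval z P

/-- numerator of the probability that the path visits the step; odd number of glued lines `z` -/
noncomputable def Nodd (a : ℂ) (Φ : List ℂ → List Bool → ℂ) (z : List ℂ) (α : ℂ) (b : List ℂ)
    (d : ℂ) : ℂ :=
  a * sumC z.length fun s => Φ z.reverse ((s.map not).reverse) *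
    capR a b.length (Φ (z ++ α :: (prs b ++ [d]))) (s ++ [false]) [false]

/-- the same with an even number of glued lines and one extra bottom line `v` -/
noncomputable def Neven (a : ℂ) (Φ : List ℂ → List Bool → ℂ) (z : List ℂ) (v : ℂ) (b : List ℂ)
    (d : ℂ) : ℂ :=
  sumC z.length fun s => Φ (v :: z.reverse) (false :: (s.map not).reverse) *
    capR a b.length (Φ (z ++ (prs b ++ [d]))) s [false]

/-! ### The right-hand side -/

/-- divided differences -/
noncomputable def dd : ℂ[X] → List ℂ → ℂ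
  | _, [] => 0
  | p, [x] => p.eval x
  | p, x :: y :: l => dd (p /ₘ (X - C x)) (y :: l)

/-- alternant divided by the Vandermonde determinant -/
noncomputable def Alt (f : ℕ → ℂ[X]) (xs : List ℂ) : ℂ :=
  (Matrix.of fun i j : Fin xs.length => dd (f j) (xs.take (i + 1))).det

/-- `X^3 - 3 X` -/
noncomputable def T : ℂ[X] := X ^ 3 - 3 * X

/-- `1, X, T, T X, T^2, …` -/
noncomputable def pb (j : ℕ) : ℂ[X] := T ^ (j / 2) * X ^ (j % 2)

/-- the sum rule -/
noncomputable def S (xs : List ℂ) : ℂ := Alt pb xs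

/-- the last basis function replaced by `h` -/
noncomputable def D (h : ℂ[X]) (xs : List ℂ) : ℂ :=
  Alt (fun j => if j + 1 = xs.length then h else pb j) xs

/-- `∏ (T - T(x))` -/
noncomputable def prodT (xs : List ℂ) : ℂ[X] := (xs.map fun x => T - C (T.eval x)).prod

/-- `∏ (X - x)` -/
noncomputable def prodX (xs : List ℂ) : ℂ[X] := (xs.map fun x => X - C x).prod

/-- iterated quotients; `dd p (xs ++ [x]) = (quo p xs).eval x` -/
noncomputable def quo (p : ℂ[X]) (xs : List ℂ) : ℂ[X] := xs.foldl (fun r x => r /ₘ (X - C x)) p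

/-- `x ↦ S (xs ++ [x])` as a polynomial (its degree is at most `xs.length / 2`) -/
noncomputable def Sx (xs : List ℂ) : ℂ[X] :=
  (Matrix.of fun i j : Fin (xs.length + 1) =>
    if (i : ℕ) < xs.length then C (dd (pb j) (xs.take (i + 1))) else quo (pb j) xs).det

/-- right-hand side, odd case; all arguments are in the variables `x = z + 1/z`, except `α` -/
noncomputable def Rodd (q : ℂ) (z : List ℂ) (α : ℂ) (b : List ℂ) (d : ℂ) : ℂ :=
  D ((X - C (X' α)) * (X - C (X' (q * α))) * prodT (b.map X') * prodX (z.map X') * Sx (z.map X'))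
    (z.map X' ++ (X' α :: (dbl (b.map X') ++ [X' d])))

/-- right-hand side, even case -/
noncomputable def Reven (z : List ℂ) (v : ℂ) (b : List ℂ) (d : ℂ) : ℂ :=
  D (prodT (b.map X') * prodX (z.map X') * Sx (z.map X' ++ [X' v]))
    (z.map X' ++ (dbl (b.map X') ++ [X' d]))

end Pool.Agent.H72.Cardy
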