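import Mathlib
import Pool.Agent.H72.Cardy.Defs
import Pool.Agent.H72.Cardy.NZ

/-!
# Symmetries of the left-hand side of the Cardy identity in the L-shaped strip
-/

set_option autoImplicit false

namespace Pool.Agent.H72.Cardy

variable {q a : ℂ} {Φ : List ℂ → List Bool → ℂ}

namespace NSymAux

/-! ### finite sums over spin configurations -/

theorem sumC_congr {k : ℕ} {f g : List Bool → ℂ} (h : ∀ s, s.length = k → f s = g s) :
    sumC k f = sumC k g := by
  induction k generalizing f g with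
  | zero => exact h [] rfl
  | succ k ih =>
    rw [sumC, sumC]
    congr 1
    · exact ih (fun s hs => h _ (by simp [hs]))
    · exact ih (fun s hs => h _ (by simp [hs]))

theorem sumC_lin (k : ℕ) (c₁ c₂ : ℂ) (f g : List Bool → ℂ) :
    sumC k (fun s => c₁ * f s + c₂ * g s) = c₁ * sumC k f + c₂ * sumC k g := by
  induction k generalizing f g with
  | zero => rfl
  | succ k ih =>
    rw [sumC, sumC, sumC, ih, ih]; ring

theorem sumC_mul (k : ℕ) (c : ℂ) (f : List Bool → ℂ) :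
    sumC k (fun s => c * f s) = c * sumC k f := by
  induction k generalizing f with
  | zero => rfl
  | succ k ih => rw [sumC, sumC, ih, ih]; ring

theorem sumC_append (m n : ℕ) (f : List Bool → ℂ) :
    sumC (m + n) f = sumC m (fun s => sumC n (fun t => f (s ++ t))) := by
  induction m generalizing f with
  | zero => rw [Nat.zero_add]; rfl
  | succ m ih =>
    rw [show m + 1 + n = (m + n) + 1 by ring, sumC, sumC, ih, ih]
    rfl

theorem sumC_mid (m n : ℕ) (f : List Bool → ℂ) :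
    sumC (m + (n + 2)) f = sumC m (fun s => sumC n (fun t =>
      f (s ++ false :: false :: t) + f (s ++ true :: false :: t)
        + (f (s ++ false :: true :: t) + f (s ++ true :: true :: t)))) := by
  rw [sumC_append]
  apply sumC_congr
  intro s _
  rw [sumC, sumC, sumC]
  have := sumC_lin n 1 1 (fun t => f (s ++ false :: false :: t))
    (fun t => f (s ++ false :: true :: t))
  have h2 := sumC_lin n 1 1 (fun t => f (s ++ true :: false :: t))
    (fun t => f (s ++ true :: true :: t))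
  simp only [one_mul] at this h2
  rw [← this, ← h2]
  have h3 := sumC_lin n 1 1 (fun t => f (s ++ false :: false :: t) + f (s ++ false :: true :: t))
    (fun t => f (s ++ true :: false :: t) + f (s ++ true :: true :: t))
  simp only [one_mul] at h3
  rw [← h3]
  apply sumC_congr
  intro t _
  ring

/-! ### arcs -/

theorem A_not (c d : Bool) : A a (!d) (!c) = A a c d := by
  cases c <;> cases d <;> rfl

theorem capR_congr {r : ℕ} {F G : List Bool → ℂ} {s t : List Bool}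
    (h : ∀ w, w.length = s.length + 2 * r + t.length → F w = G w) :
    capR a r F s t = capR a r G s t := by
  induction r generalizing s with
  | zero => exact h _ (by simp)
  | succ r ih =>
    rw [capR, capR]
    congr 2
    · exact ih (fun w hw => h w (by rw [hw]; simp; ring))
    · exact ih (fun w hw => h w (by rw [hw]; simp; ring))

theorem capR_lin (r : ℕ) (c₁ c₂ : ℂ) (F G : List Bool → ℂ) (s t : List Bool) :
    capR a r (fun w => c₁ * F w + c₂ * G w) s t = c₁ * capR a r F s t + c₂ * capR a r G s t := by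
  induction r generalizing s with
  | zero => rfl
  | succ r ih => rw [capR, capR, capR, ih, ih]; ring

theorem capR_mul (r : ℕ) (c : ℂ) (F : List Bool → ℂ) (s t : List Bool) :
    capR a r (fun w => c * F w) s t = c * capR a r F s t := by
  induction r generalizing s with
  | zero => rfl
  | succ r ih => rw [capR, capR, ih, ih]; ring

theorem capR_prefix (r : ℕ) (F : List Bool → ℂ) (p s t : List Bool) :
    capR a r F (p ++ s) t = capR a r (fun w => F (p ++ w)) s t := by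
  induction r generalizing s with
  | zero => simp [capR]
  | succ r ih => rw [capR, capR, List.append_assoc, List.append_assoc, ih, ih]

theorem capR_add (r₁ r₂ : ℕ) (F : List Bool → ℂ) (s t : List Bool) :
    capR a (r₁ + r₂) F s t = capR a r₁ (fun s' => capR a r₂ F s' t) s [] := by
  induction r₁ generalizing s with
  | zero => simp [capR]
  | succ r₁ ih => rw [show r₁ + 1 + r₂ = (r₁ + r₂) + 1 by ring, capR, capR, ih, ih]

theorem capR_one_add (r : ℕ) (F : List Bool → ℂ) (s t : List Bool) :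
    capR a (r + 1) F s t = capR a r (fun u => cap a F s u) [] t := by
  have h1 := capR_prefix (a := a) r F (s ++ [true, false]) [] t
  have h2 := capR_prefix (a := a) r F (s ++ [false, true]) [] t
  rw [List.append_nil] at h1 h2
  rw [capR, h1, h2, ← capR_lin]
  apply capR_congr
  intro w _
  simp [cap]

theorem capR_split (r₁ r₂ : ℕ) (F : List Bool → ℂ) (s t : List Bool) :
    capR a (r₁ + (r₂ + 1)) F s t =
      capR a r₁ (fun s' => capR a r₂ (fun u => cap a F s' u) [] t) s [] := by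
  rw [capR_add]
  apply capR_congr
  intro w _
  rw [capR_one_add]

/-- the configuration seen from below -/
def rv (s : List Bool) : List Bool := (s.map not).reverse

theorem rv_length (s : List Bool) : (rv s).length = s.length := by simp [rv]

theorem rv_mid (s t : List Bool) (c d : Bool) :
    rv (s ++ c :: d :: t) = rv t ++ (!d) :: (!c) :: rv s := by
  simp [rv]

/-- both the upper and the lower vector satisfy an exchange relation: the contraction is
invariant -/
theorem contract_swap {m n : ℕ} {be al ga : ℂ} (hbe : be ≠ 0) {W W' V V' : List Bool → ℂ}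
    (hV : ∀ s t c d, List.length s = m → List.length t = n →
      be * V' (s ++ c :: d :: t) = al * V (s ++ c :: d :: t) + ga * (A a c d * cap a V s t))
    (hW : ∀ s t c d, List.length s = n → List.length t = m →
      be * W (s ++ c :: d :: t) = al * W' (s ++ c :: d :: t) + ga * (A a c d * cap a W' s t)) :
    sumC (m + (n + 2)) (fun s => W' (rv s) * V' s) =
      sumC (m + (n + 2)) (fun s => W (rv s) * V s) := by
  apply mul_left_cancel₀ hbe
  rw [← sumC_mul, ← sumC_mul, sumC_mid, sumC_mid]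
  apply sumC_congr
  intro s hs
  apply sumC_congr
  intro t ht
  have e1 := hV s t false false hs ht
  have e2 := hV s t true false hs ht
  have e3 := hV s t false true hs ht
  have e4 := hV s t true true hs ht
  have hs' : (rv s).length = m := by rw [rv_length, hs]
  have ht' : (rv t).length = n := by rw [rv_length, ht]
  have f1 := hW (rv t) (rv s) (!false) (!false) ht' hs'
  have f2 := hW (rv t) (rv s) (!false) (!true) ht' hs'
  have f3 := hW (rv t) (rv s) (!true) (!false) ht' hs'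
  have f4 := hW (rv t) (rv s) (!true) (!true) ht' hs'
  simp only [rv_mid]
  simp only [A, cap, Bool.not_true, Bool.not_false] at e1 e2 e3 e4 f1 f2 f3 f4 ⊢
  linear_combination W' (rv t ++ true :: true :: rv s) * e1 +
    W' (rv t ++ true :: false :: rv s) * e2 + W' (rv t ++ false :: true :: rv s) * e3 +
    W' (rv t ++ false :: false :: rv s) * e4 - V (s ++ false :: false :: t) * f1 -
    V (s ++ true :: false :: t) * f2 - V (s ++ false :: true :: t) * f3 -
    V (s ++ true :: true :: t) * f4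

/-- the exchange relation passes through adjacent arcs on the right -/
theorem capR_exch {r : ℕ} {U U' : List Bool → ℂ} {be al ga : ℂ} {s t₀ e : List Bool} {c d : Bool}
    (h : ∀ w, List.length w = 2 * r + e.length →
      be * U' (s ++ c :: d :: (t₀ ++ w)) = al * U (s ++ c :: d :: (t₀ ++ w)) +
        ga * (A a c d * cap a U s (t₀ ++ w))) :
    be * capR a r U' (s ++ c :: d :: t₀) e = al * capR a r U (s ++ c :: d :: t₀) e +
      ga * (A a c d * (a⁻¹ * capR a r U (s ++ true :: false :: t₀) e +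
        a * capR a r U (s ++ false :: true :: t₀) e)) := by
  have p : ∀ (G : List Bool → ℂ) (u : List Bool),
      capR a r G u e = capR a r (fun w => G (u ++ w)) [] e := by
    intro G u
    have := capR_prefix (a := a) r G u [] e
    rwa [List.append_nil] at this
  rw [p U', p U, p U, p U, ← capR_lin, ← capR_mul, ← capR_mul, ← capR_mul]
  have h2 := capR_lin (a := a) r 1 1
    (fun w => al * U ((s ++ c :: d :: t₀) ++ w))
    (fun w => ga * (A a c d * (a⁻¹ * U ((s ++ true :: false :: t₀) ++ w) +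
        a * U ((s ++ false :: true :: t₀) ++ w)))) [] e
  simp only [one_mul] at h2
  have h3 := capR_mul (a := a) r ga (fun w => A a c d * (a⁻¹ * U ((s ++ true :: false :: t₀) ++ w) +
        a * U ((s ++ false :: true :: t₀) ++ w))) [] e
  rw [← h3, ← h2]
  apply capR_congr
  intro w hw
  have := h w (by simpa using hw)
  simpa [cap, List.append_assoc] using this

end NSymAux

namespace NSymAux

theorem prs_length (b : List ℂ) : (prs b).length = 2 * b.length := by
  induction b with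
  | nil => rfl
  | cons x b ih => simp only [prs, List.length_cons, ih]; ring

theorem prs_append (b c : List ℂ) : prs (b ++ c) = prs b ++ prs c := by
  induction b with
  | nil => rfl
  | cons x b ih => simp only [prs, List.cons_append, ih]

theorem prs_ne_zero {b : List ℂ} (h : ∀ t ∈ b, t ≠ 0) : ∀ t ∈ prs b, t ≠ 0 := by
  induction b with
  | nil => intro t ht; simp [prs] at ht
  | cons x b ih =>
    intro t ht
    simp only [prs, List.mem_cons] at ht
    rcases ht with rfl | rfl | ht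
    · exact h _ (by simp)
    · exact inv_ne_zero (h _ (by simp))
    · exact ih (fun u hu => h u (by simp [hu])) t ht

end NSymAux

open NSymAux

namespace NSymAux

theorem be_ne_zero (hq : q ^ 2 + q + 1 = 0) {x y : ℂ} (hxy : x ^ 3 ≠ y ^ 3) :
    q * y - q⁻¹ * x ≠ 0 := by
  intro h
  apply hxy
  have hq3 : q ^ 3 = 1 := by linear_combination (q - 1) * hq
  have hq0 : q ≠ 0 := by
    rintro rfl; norm_num at hq
  have h1 : x = q ^ 2 * y := by
    field_simp at h
    linear_combination -h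
  rw [h1]
  linear_combination (q ^ 3 + 1) * y ^ 3 * hq3

theorem top_exch (hΦ : Sol q a Φ) {r : ℕ} {l₁ l₂ : List ℂ} {x y : ℂ}
    (hl : ∀ z ∈ l₁ ++ x :: y :: l₂, z ≠ 0) {s t₀ e : List Bool} {c d : Bool}
    (hs : s.length = l₁.length) (ht : t₀.length + 2 * r + e.length = l₂.length) :
    (q * y - q⁻¹ * x) * capR a r (Φ (l₁ ++ y :: x :: l₂)) (s ++ c :: d :: t₀) e =
      (q * x - q⁻¹ * y) * capR a r (Φ (l₁ ++ x :: y :: l₂)) (s ++ c :: d :: t₀) e +
      (x - y) * (A a c d * (a⁻¹ * capR a r (Φ (l₁ ++ x :: y :: l₂)) (s ++ true :: false :: t₀) e +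
        a * capR a r (Φ (l₁ ++ x :: y :: l₂)) (s ++ false :: true :: t₀) e)) :=
  capR_exch (fun w hw => hΦ.exch l₁ x y l₂ s c d (t₀ ++ w) hs
    (by rw [List.length_append, hw, ← ht]; ring) hl)

/-- the swap of two glued lines, for any completion of the upper strip -/
theorem glue_swap (hq : q ^ 2 + q + 1 = 0) (hΦ : Sol q a Φ) {l₁ l₂ R P : List ℂ} {x y : ℂ}
    {r : ℕ} {u e v : List Bool} (hxy : x ^ 3 ≠ y ^ 3)
    (hR : ∀ z ∈ l₁ ++ x :: y :: (l₂ ++ R), z ≠ 0) (hP : ∀ z ∈ P, z ≠ 0)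
    (hu : u.length + 2 * r + e.length = R.length) (hv : v.length = P.length) :
    sumC (l₁.length + (l₂.length + 2)) (fun s =>
      Φ (P ++ (l₁ ++ y :: x :: l₂).reverse) (v ++ rv s) *
        capR a r (Φ (l₁ ++ y :: x :: (l₂ ++ R))) (s ++ u) e) =
    sumC (l₁.length + (l₂.length + 2)) (fun s =>
      Φ (P ++ (l₁ ++ x :: y :: l₂).reverse) (v ++ rv s) *
        capR a r (Φ (l₁ ++ x :: y :: (l₂ ++ R))) (s ++ u) e) := by
  refine contract_swap (a := a) (be_ne_zero hq hxy) (al := q * x - q⁻¹ * y) (ga := x - y)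
    (W := fun s => Φ (P ++ (l₁ ++ x :: y :: l₂).reverse) (v ++ s))
    (W' := fun s => Φ (P ++ (l₁ ++ y :: x :: l₂).reverse) (v ++ s))
    (V := fun s => capR a r (Φ (l₁ ++ x :: y :: (l₂ ++ R))) (s ++ u) e)
    (V' := fun s => capR a r (Φ (l₁ ++ y :: x :: (l₂ ++ R))) (s ++ u) e) ?_ ?_
  · intro s t c d' hs ht
    have := top_exch hΦ (r := r) (l₁ := l₁) (l₂ := l₂ ++ R) (x := x) (y := y) hR
      (s := s) (t₀ := t ++ u) (e := e) (c := c) (d := d') hs
      (by rw [List.length_append, List.length_append, ht, ← hu]; ring)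
    simpa [cap, List.append_assoc] using this
  · intro s t c d' hs ht
    have h := hΦ.exch (P ++ l₂.reverse) x y l₁.reverse (v ++ s) c d' t (by simp [hs, hv])
      (by simp [ht]) (by
      intro z hz
      simp only [List.mem_append, List.mem_cons, List.mem_reverse] at hz
      rcases hz with (hz | hz) | hz | hz | hz
      · exact hP z hz
      · exact hR z (by simp [hz])
      · exact hR z (by simp [hz])
      · exact hR z (by simp [hz])
      · exact hR z (by simp [hz]))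
    simp only [cap, List.append_assoc, List.reverse_append, List.reverse_cons, List.nil_append,
      List.cons_append] at h ⊢
    exact h

end NSymAux

theorem Nodd_swap (hq : q ^ 2 + q + 1 = 0) (ha : a ^ 2 = - q ^ 2) (hΦ : Sol q a Φ)
    (l₁ : List ℂ) (x y : ℂ) (l₂ : List ℂ) (α : ℂ) (b : List ℂ) (d : ℂ)
    (h0 : NZ (l₁ ++ x :: y :: l₂ ++ b ++ [α, d])) (hxy : x ^ 3 ≠ y ^ 3) :
    Nodd a Φ (l₁ ++ y :: x :: l₂) α b d = Nodd a Φ (l₁ ++ x :: y :: l₂) α b d := by
  unfold Nodd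
  congr 1
  have hlen : (l₁ ++ y :: x :: l₂).length = l₁.length + (l₂.length + 2) := by simp
  have hlen' : (l₁ ++ x :: y :: l₂).length = l₁.length + (l₂.length + 2) := by simp
  rw [hlen, hlen']
  have hb0 : ∀ t ∈ prs b, t ≠ 0 := prs_ne_zero (fun t ht => h0 t (by simp [ht]))
  have := glue_swap hq hΦ (l₁ := l₁) (l₂ := l₂) (R := α :: (prs b ++ [d])) (P := []) (x := x)
    (y := y) (r := b.length) (u := [false]) (e := [false]) (v := []) hxy (by
      intro z hz
      simp only [List.mem_append, List.mem_cons, List.not_mem_nil, or_false] at hz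
      rcases hz with hz | hz | hz | hz | hz | hz | hz
      · exact h0 z (by simp [hz])
      · exact h0 z (by simp [hz])
      · exact h0 z (by simp [hz])
      · exact h0 z (by simp [hz])
      · exact h0 z (by simp [hz])
      · exact hb0 z hz
      · exact h0 z (by simp [hz])) (by simp) (by simp [prs_length]; ring) rfl
  simpa [rv, List.append_assoc] using this

theorem Nodd_even (hq : q ^ 2 + q + 1 = 0) (ha : a ^ 2 = - q ^ 2) (hΦ : Sol q a Φ)
    (x : ℂ) (l : List ℂ) (α : ℂ) (b : List ℂ) (d : ℂ)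
    (h0 : NZ (x :: l ++ b ++ [α, d])) :
    Nodd a Φ (x⁻¹ :: l) α b d = Nodd a Φ (x :: l) α b d := by
  have hx : x ≠ 0 := h0 x (by simp)
  have hl : ∀ z ∈ l, z ≠ 0 := fun z hz => h0 z (by simp [hz])
  have hb0 : ∀ t ∈ prs b, t ≠ 0 := prs_ne_zero (fun t ht => h0 t (by simp [ht]))
  have h1 : Φ (x⁻¹ :: l).reverse = Φ (x :: l).reverse := by
    funext s
    rw [List.reverse_cons, List.reverse_cons]
    exact hΦ.even_last _ _ _ hx (fun z hz => hl z (List.mem_reverse.1 hz))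
  have h2 : Φ (x⁻¹ :: l ++ α :: (prs b ++ [d])) = Φ (x :: l ++ α :: (prs b ++ [d])) := by
    funext s
    rw [List.cons_append, List.cons_append]
    refine hΦ.even_first _ _ _ hx (fun z hz => ?_)
    simp only [List.mem_append, List.mem_cons, List.not_mem_nil, or_false] at hz
    rcases hz with hz | hz | hz | hz
    · exact hl z hz
    · exact h0 z (by simp [hz])
    · exact hb0 z hz
    · exact h0 z (by simp [hz])
  unfold Nodd
  rw [h1, h2]
  rfl

theorem Nodd_deven (hq : q ^ 2 + q + 1 = 0) (ha : a ^ 2 = - q ^ 2) (hΦ : Sol q a Φ)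
    (z : List ℂ) (α : ℂ) (b : List ℂ) (d : ℂ) (h0 : NZ (z ++ b ++ [α, d])) :
    Nodd a Φ z α b d⁻¹ = Nodd a Φ z α b d := by
  have hb0 : ∀ t ∈ prs b, t ≠ 0 := prs_ne_zero (fun t ht => h0 t (by simp [ht]))
  have h2 : Φ (z ++ α :: (prs b ++ [d⁻¹])) = Φ (z ++ α :: (prs b ++ [d])) := by
    funext s
    rw [← List.cons_append, ← List.cons_append, ← List.append_assoc, ← List.append_assoc]
    refine hΦ.even_last _ _ _ (h0 d (by simp)) (fun w hw => ?_)
    simp only [List.mem_append, List.mem_cons] at hw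
    rcases hw with hw | hw | hw
    · exact h0 w (by simp [hw])
    · exact h0 w (by simp [hw])
    · exact hb0 w hw
  unfold Nodd
  rw [h2]

theorem Neven_even (hq : q ^ 2 + q + 1 = 0) (ha : a ^ 2 = - q ^ 2) (hΦ : Sol q a Φ)
    (x : ℂ) (l : List ℂ) (v : ℂ) (b : List ℂ) (d : ℂ)
    (h0 : NZ (x :: l ++ b ++ [v, d])) :
    Neven a Φ (x⁻¹ :: l) v b d = Neven a Φ (x :: l) v b d := by
  have hx : x ≠ 0 := h0 x (by simp)
  have hl : ∀ z ∈ l, z ≠ 0 := fun z hz => h0 z (by simp [hz])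
  have hb0 : ∀ t ∈ prs b, t ≠ 0 := prs_ne_zero (fun t ht => h0 t (by simp [ht]))
  have h1 : Φ (v :: (x⁻¹ :: l).reverse) = Φ (v :: (x :: l).reverse) := by
    funext s
    rw [List.reverse_cons, List.reverse_cons, ← List.cons_append, ← List.cons_append]
    refine hΦ.even_last _ _ _ hx (fun z hz => ?_)
    rw [List.mem_cons, List.mem_reverse] at hz
    rcases hz with hz | hz
    · exact h0 z (by simp [hz])
    · exact hl z hz
  have h2 : Φ (x⁻¹ :: l ++ (prs b ++ [d])) = Φ (x :: l ++ (prs b ++ [d])) := by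
    funext s
    rw [List.cons_append, List.cons_append]
    refine hΦ.even_first _ _ _ hx (fun z hz => ?_)
    simp only [List.mem_append, List.mem_cons, List.not_mem_nil, or_false] at hz
    rcases hz with hz | hz | hz
    · exact hl z hz
    · exact hb0 z hz
    · exact h0 z (by simp [hz])
  unfold Neven
  rw [h1, h2]
  rfl

theorem Neven_veven (hq : q ^ 2 + q + 1 = 0) (ha : a ^ 2 = - q ^ 2) (hΦ : Sol q a Φ)
    (z : List ℂ) (v : ℂ) (b : List ℂ) (d : ℂ) (h0 : NZ (z ++ b ++ [v, d])) :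
    Neven a Φ z v⁻¹ b d = Neven a Φ z v b d := by
  have h1 : Φ (v⁻¹ :: z.reverse) = Φ (v :: z.reverse) := by
    funext s
    exact hΦ.even_first _ _ _ (h0 v (by simp)) (fun w hw => h0 w (by
      simp [List.mem_reverse.1 hw]))
  unfold Neven
  rw [h1]

theorem Neven_deven (hq : q ^ 2 + q + 1 = 0) (ha : a ^ 2 = - q ^ 2) (hΦ : Sol q a Φ)
    (z : List ℂ) (v : ℂ) (b : List ℂ) (d : ℂ) (h0 : NZ (z ++ b ++ [v, d])) :
    Neven a Φ z v b d⁻¹ = Neven a Φ z v b d := by
  have hb0 : ∀ t ∈ prs b, t ≠ 0 := prs_ne_zero (fun t ht => h0 t (by simp [ht]))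
  have h2 : Φ (z ++ (prs b ++ [d⁻¹])) = Φ (z ++ (prs b ++ [d])) := by
    funext s
    rw [← List.append_assoc, ← List.append_assoc]
    refine hΦ.even_last _ _ _ (h0 d (by simp)) (fun w hw => ?_)
    simp only [List.mem_append] at hw
    rcases hw with hw | hw
    · exact h0 w (by simp [hw])
    · exact hb0 w hw
  unfold Neven
  rw [h2]

theorem Neven_swap (hq : q ^ 2 + q + 1 = 0) (ha : a ^ 2 = - q ^ 2) (hΦ : Sol q a Φ)
    (l₁ : List ℂ) (x y : ℂ) (l₂ : List ℂ) (v : ℂ) (b : List ℂ) (d : ℂ)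
    (h0 : NZ (l₁ ++ x :: y :: l₂ ++ b ++ [v, d])) (hxy : x ^ 3 ≠ y ^ 3) :
    Neven a Φ (l₁ ++ y :: x :: l₂) v b d = Neven a Φ (l₁ ++ x :: y :: l₂) v b d := by
  unfold Neven
  have hlen : (l₁ ++ y :: x :: l₂).length = l₁.length + (l₂.length + 2) := by simp
  have hlen' : (l₁ ++ x :: y :: l₂).length = l₁.length + (l₂.length + 2) := by simp
  rw [hlen, hlen']
  have hb0 : ∀ t ∈ prs b, t ≠ 0 := prs_ne_zero (fun t ht => h0 t (by simp [ht]))
  have := glue_swap hq hΦ (l₁ := l₁) (l₂ := l₂) (R := prs b ++ [d]) (P := [v]) (x := x)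
    (y := y) (r := b.length) (u := []) (e := [false]) (v := [false]) hxy (by
      intro z hz
      simp only [List.mem_append, List.mem_cons, List.not_mem_nil, or_false] at hz
      rcases hz with hz | hz | hz | hz | hz | hz
      · exact h0 z (by simp [hz])
      · exact h0 z (by simp [hz])
      · exact h0 z (by simp [hz])
      · exact h0 z (by simp [hz])
      · exact hb0 z hz
      · exact h0 z (by simp [hz])) (by
      intro z hz
      rw [List.mem_singleton] at hz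
      exact h0 z (by simp [hz])) (by simp [prs_length]) rfl
  simpa [rv, List.append_assoc] using this

/-! ### the pairs on the right wall -/

namespace NSymAux

theorem q_inv (hq : q ^ 2 + q + 1 = 0) : q⁻¹ = -1 - q := by
  have hq0 : q ≠ 0 := by
    rintro rfl; norm_num at hq
  field_simp
  linear_combination hq

theorem a_ne_zero (hq : q ^ 2 + q + 1 = 0) (ha : a ^ 2 = - q ^ 2) : a ≠ 0 := by
  rintro rfl
  have hq0 : q ≠ 0 := by
    rintro rfl; norm_num at hq
  apply hq0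
  have : q ^ 2 = 0 := by linear_combination ha
  exact pow_eq_zero_iff (two_ne_zero) |>.1 this

theorem a_sum (hq : q ^ 2 + q + 1 = 0) (ha : a ^ 2 = - q ^ 2) : a⁻¹ * a⁻¹ + a * a = 1 := by
  have ha0 := a_ne_zero hq ha
  field_simp
  have h4 : a ^ 4 = q ^ 4 := by linear_combination (a ^ 2 - q ^ 2) * ha
  linear_combination h4 - ha + (q ^ 2 - q + 1) * hq

/-- the cap of the exchanged vector -/
theorem cap_exch (hq : q ^ 2 + q + 1 = 0) (ha : a ^ 2 = - q ^ 2) (hΦ : Sol q a Φ)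
    {l₁ l₂ : List ℂ} {x y : ℂ} (hl : ∀ z ∈ l₁ ++ x :: y :: l₂, z ≠ 0) {s t : List Bool}
    (hs : s.length = l₁.length) (ht : t.length = l₂.length) :
    (q * y - q⁻¹ * x) * cap a (Φ (l₁ ++ y :: x :: l₂)) s t =
      (q * y - q⁻¹ * x) * cap a (Φ (l₁ ++ x :: y :: l₂)) s t := by
  have h1 := hΦ.exch l₁ x y l₂ s true false t hs ht hl
  have h2 := hΦ.exch l₁ x y l₂ s false true t hs ht hl
  have hs2 := a_sum hq ha
  have hqi := q_inv hq
  simp only [A] at h1 h2
  set V := cap a (Φ (l₁ ++ x :: y :: l₂)) s t with hV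
  have e : cap a (Φ (l₁ ++ y :: x :: l₂)) s t =
    a⁻¹ * Φ (l₁ ++ y :: x :: l₂) (s ++ true :: false :: t)
      + a * Φ (l₁ ++ y :: x :: l₂) (s ++ false :: true :: t) := rfl
  have e' : V = a⁻¹ * Φ (l₁ ++ x :: y :: l₂) (s ++ true :: false :: t)
      + a * Φ (l₁ ++ x :: y :: l₂) (s ++ false :: true :: t) := rfl
  rw [e]
  have key : (q * y - q⁻¹ * x) * (a⁻¹ * Φ (l₁ ++ y :: x :: l₂) (s ++ true :: false :: t)
      + a * Φ (l₁ ++ y :: x :: l₂) (s ++ false :: true :: t)) =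
      (q * x - q⁻¹ * y) * V + (x - y) * V := by
    linear_combination a⁻¹ * h1 + a * h2 - (q * x - q⁻¹ * y) * e' + (x - y) * V * hs2
  rw [key, hqi]
  ring

theorem cap_swap (hq : q ^ 2 + q + 1 = 0) (ha : a ^ 2 = - q ^ 2) (hΦ : Sol q a Φ)
    {l₁ l₂ : List ℂ} {x y : ℂ} (hl : ∀ z ∈ l₁ ++ x :: y :: l₂, z ≠ 0) {s t : List Bool}
    (hs : s.length = l₁.length) (ht : t.length = l₂.length) :
    cap a (Φ (l₁ ++ y :: x :: l₂)) s t = cap a (Φ (l₁ ++ x :: y :: l₂)) s t := by
  by_cases h : q * y - q⁻¹ * x = 0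
  · have h' : q * x - q⁻¹ * y ≠ 0 := by
      intro h2
      have hqi := q_inv hq
      rw [hqi] at h h2
      have hx : x ≠ 0 := hl x (by simp)
      have h3 : (1 + 2 * q) * (x + y) = 0 := by linear_combination h + h2
      rcases mul_eq_zero.1 h3 with h4 | h4
      · have h5 : (3 : ℂ) = 0 := by linear_combination 4 * hq - (1 + 2 * q) * h4
        norm_num at h5
      · apply hx
        linear_combination h - q * h4
    have := cap_exch hq ha hΦ (l₁ := l₁) (l₂ := l₂) (x := y) (y := x) (fun z hz => hl z (by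
      simp only [List.mem_append, List.mem_cons] at hz ⊢; tauto)) hs ht
    exact (mul_left_cancel₀ h' this).symm
  · exact mul_left_cancel₀ h (cap_exch hq ha hΦ hl hs ht)

/-- generic adjacent pairs inside the arcs -/
theorem capR_swap (hq : q ^ 2 + q + 1 = 0) (ha : a ^ 2 = - q ^ 2) (hΦ : Sol q a Φ)
    {L R : List ℂ} {x y : ℂ} {r₁ r₂ : ℕ} {s e : List Bool}
    (hl : ∀ z ∈ L ++ x :: y :: R, z ≠ 0) (hs : s.length + 2 * r₁ = L.length)
    (ht : 2 * r₂ + e.length = R.length) :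
    capR a (r₁ + (r₂ + 1)) (Φ (L ++ y :: x :: R)) s e =
      capR a (r₁ + (r₂ + 1)) (Φ (L ++ x :: y :: R)) s e := by
  rw [capR_split, capR_split]
  apply capR_congr
  intro s' hs'
  apply capR_congr
  intro u hu
  refine cap_swap hq ha hΦ hl ?_ ?_
  · rw [hs', ← hs]; simp
  · rw [hu, ← ht]; simp

/-- two adjacent arcs -/
noncomputable def K4 (a : ℂ) (V : List Bool → ℂ) (s t : List Bool) : ℂ :=
  a⁻¹ * cap a V (s ++ [true, false]) t + a * cap a V (s ++ [false, true]) t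

/-- two nested arcs -/
noncomputable def N4 (a : ℂ) (V : List Bool → ℂ) (s t : List Bool) : ℂ :=
  a⁻¹ * cap a V (s ++ [true]) (false :: t) + a * cap a V (s ++ [false]) (true :: t)

theorem K4_eq (V : List Bool → ℂ) (s t : List Bool) :
    K4 a V s t = a⁻¹ * cap a V s (true :: false :: t) + a * cap a V s (false :: true :: t) := by
  simp only [K4, cap, List.append_assoc, List.cons_append, List.nil_append]
  ring

theorem capR_K4 (r : ℕ) (F : List Bool → ℂ) (s t : List Bool) :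
    capR a (r + 2) F s t = capR a r (fun u => K4 a F s u) [] t := by
  rw [show r + 2 = 1 + (r + 1) by ring, capR_split]
  simp only [capR, List.append_nil]
  rw [← capR_lin]
  rfl

theorem capR_split2 (r₁ r₂ : ℕ) (F : List Bool → ℂ) (s t : List Bool) :
    capR a (r₁ + (r₂ + 2)) F s t =
      capR a r₁ (fun s' => capR a r₂ (fun u => K4 a F s' u) [] t) s [] := by
  rw [capR_add]
  apply capR_congr
  intro w _
  rw [capR_K4]

/-- `K E₂ = K'` -/
theorem K4_exch (hΦ : Sol q a Φ) {L R : List ℂ} {w x y z : ℂ}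
    (hl : ∀ t ∈ L ++ w :: x :: y :: z :: R, t ≠ 0) (ha0 : a ≠ 0) {s t : List Bool}
    (hs : s.length = L.length) (ht : t.length = R.length) :
    (q * y - q⁻¹ * x) * K4 a (Φ (L ++ w :: y :: x :: z :: R)) s t =
      (q * x - q⁻¹ * y) * K4 a (Φ (L ++ w :: x :: y :: z :: R)) s t +
      (x - y) * N4 a (Φ (L ++ w :: x :: y :: z :: R)) s t := by
  have hl' : ∀ t ∈ (L ++ [w]) ++ x :: y :: (z :: R), t ≠ 0 := by
    simpa using hl
  have h : ∀ c c₁ c₂ c₃ : Bool, _ := fun c c₁ c₂ c₃ =>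
    hΦ.exch (L ++ [w]) x y (z :: R) (s ++ [c]) c₁ c₂ (c₃ :: t) (by simp [hs]) (by simp [ht]) hl'
  have h1 := h true false true false
  have h2 := h true false false true
  have h3 := h false true true false
  have h4 := h false true false true
  simp only [K4, N4, cap, A, List.append_assoc, List.cons_append, List.nil_append] at h1 h2 h3 h4 ⊢
  have hai : a * a⁻¹ = 1 := mul_inv_cancel₀ ha0
  linear_combination a⁻¹ * a⁻¹ * h1 + h2 * (a⁻¹ * a) + (a * a⁻¹) * h3 + a * a * h4 +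
    (x - y) * (a⁻¹ * (a⁻¹ * Φ (L ++ w :: x :: y :: z :: R) (s ++ true :: true :: false :: false :: t)
      + a * Φ (L ++ w :: x :: y :: z :: R) (s ++ true :: false :: true :: false :: t)) +
      a * (a⁻¹ * Φ (L ++ w :: x :: y :: z :: R) (s ++ false :: true :: false :: true :: t)
      + a * Φ (L ++ w :: x :: y :: z :: R) (s ++ false :: false :: true :: true :: t))) * hai

/-- `K' E₁ = K` -/
theorem N4_exch_left (hΦ : Sol q a Φ) {L R : List ℂ} {w x y z : ℂ}
    (hl : ∀ t ∈ L ++ w :: x :: y :: z :: R, t ≠ 0) (ha0 : a ≠ 0) {s t : List Bool}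
    (hs : s.length = L.length) (ht : t.length = R.length) :
    (q * x - q⁻¹ * w) * N4 a (Φ (L ++ x :: w :: y :: z :: R)) s t =
      (q * w - q⁻¹ * x) * N4 a (Φ (L ++ w :: x :: y :: z :: R)) s t +
      (w - x) * K4 a (Φ (L ++ w :: x :: y :: z :: R)) s t := by
  have h : ∀ c c₁ c₂ c₃ : Bool, _ := fun c c₁ c₂ c₃ =>
    hΦ.exch L w x (y :: z :: R) s c c₁ (c₂ :: c₃ :: t) (by simp [hs]) (by simp [ht]) hl
  have h1 := h true true false false
  have h2 := h true false true false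
  have h3 := h false true false true
  have h4 := h false false true true
  simp only [K4, N4, cap, A, List.append_assoc, List.cons_append, List.nil_append] at h1 h2 h3 h4 ⊢
  have hai : a * a⁻¹ = 1 := mul_inv_cancel₀ ha0
  linear_combination a⁻¹ * a⁻¹ * h1 + h2 * (a⁻¹ * a) + (a * a⁻¹) * h3 + a * a * h4 +
    (w - x) * (a⁻¹ * (a⁻¹ * Φ (L ++ w :: x :: y :: z :: R) (s ++ true :: false :: true :: false :: t)
      + a * Φ (L ++ w :: x :: y :: z :: R) (s ++ false :: true :: true :: false :: t)) +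
      a * (a⁻¹ * Φ (L ++ w :: x :: y :: z :: R) (s ++ true :: false :: false :: true :: t)
      + a * Φ (L ++ w :: x :: y :: z :: R) (s ++ false :: true :: false :: true :: t))) * hai

/-- `K' E₃ = K` -/
theorem N4_exch_right (hΦ : Sol q a Φ) {L R : List ℂ} {w x y z : ℂ}
    (hl : ∀ t ∈ L ++ w :: x :: y :: z :: R, t ≠ 0) (ha0 : a ≠ 0) {s t : List Bool}
    (hs : s.length = L.length) (ht : t.length = R.length) :
    (q * z - q⁻¹ * y) * N4 a (Φ (L ++ w :: x :: z :: y :: R)) s t =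
      (q * y - q⁻¹ * z) * N4 a (Φ (L ++ w :: x :: y :: z :: R)) s t +
      (y - z) * K4 a (Φ (L ++ w :: x :: y :: z :: R)) s t := by
  have hl' : ∀ t ∈ (L ++ [w, x]) ++ y :: z :: R, t ≠ 0 := by
    simpa using hl
  have h : ∀ c c₁ c₂ c₃ : Bool, _ := fun c c₁ c₂ c₃ =>
    hΦ.exch (L ++ [w, x]) y z R (s ++ [c, c₁]) c₂ c₃ t (by simp [hs]) (by simp [ht]) hl'
  have h1 := h true true false false
  have h2 := h true false true false
  have h3 := h false true false true
  have h4 := h false false true true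
  simp only [K4, N4, cap, A, List.append_assoc, List.cons_append, List.nil_append] at h1 h2 h3 h4 ⊢
  have hai : a * a⁻¹ = 1 := mul_inv_cancel₀ ha0
  linear_combination a⁻¹ * a⁻¹ * h1 + h2 * (a⁻¹ * a) + (a * a⁻¹) * h3 + a * a * h4 +
    (y - z) * (a⁻¹ * (a⁻¹ * Φ (L ++ w :: x :: y :: z :: R) (s ++ true :: false :: true :: false :: t)
      + a * Φ (L ++ w :: x :: y :: z :: R) (s ++ true :: false :: false :: true :: t)) +
      a * (a⁻¹ * Φ (L ++ w :: x :: y :: z :: R) (s ++ false :: true :: true :: false :: t)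
      + a * Φ (L ++ w :: x :: y :: z :: R) (s ++ false :: true :: false :: true :: t))) * hai

theorem K4_swap_left (hq : q ^ 2 + q + 1 = 0) (ha : a ^ 2 = - q ^ 2) (hΦ : Sol q a Φ)
    {L R : List ℂ} {w x y z : ℂ} (hl : ∀ t ∈ L ++ w :: x :: y :: z :: R, t ≠ 0)
    {s t : List Bool} (hs : s.length = L.length) (ht : t.length = R.length) :
    K4 a (Φ (L ++ x :: w :: y :: z :: R)) s t = K4 a (Φ (L ++ w :: x :: y :: z :: R)) s t := by
  rw [K4_eq, K4_eq, cap_swap hq ha hΦ hl hs (by simp [ht]), cap_swap hq ha hΦ hl hs (by simp [ht])]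

theorem K4_swap_right (hq : q ^ 2 + q + 1 = 0) (ha : a ^ 2 = - q ^ 2) (hΦ : Sol q a Φ)
    {L R : List ℂ} {w x y z : ℂ} (hl : ∀ t ∈ L ++ w :: x :: y :: z :: R, t ≠ 0)
    {s t : List Bool} (hs : s.length = L.length) (ht : t.length = R.length) :
    K4 a (Φ (L ++ w :: x :: z :: y :: R)) s t = K4 a (Φ (L ++ w :: x :: y :: z :: R)) s t := by
  have hl' : ∀ t ∈ (L ++ [w, x]) ++ y :: z :: R, t ≠ 0 := by
    simpa using hl
  have h := fun (u : List Bool) (hu : u.length = (L ++ [w, x]).length) =>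
    cap_swap hq ha hΦ hl' hu ht
  simp only [List.append_assoc, List.cons_append, List.nil_append] at h
  unfold K4
  rw [h _ (by simp [hs]), h _ (by simp [hs])]

theorem N4_swap (hq : q ^ 2 + q + 1 = 0) (ha : a ^ 2 = - q ^ 2) (hΦ : Sol q a Φ)
    {L R : List ℂ} {w x y z : ℂ} (hl : ∀ t ∈ L ++ w :: x :: y :: z :: R, t ≠ 0)
    {s t : List Bool} (hs : s.length = L.length) (ht : t.length = R.length) :
    N4 a (Φ (L ++ w :: y :: x :: z :: R)) s t = N4 a (Φ (L ++ w :: x :: y :: z :: R)) s t := by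
  have hl' : ∀ t ∈ (L ++ [w]) ++ x :: y :: (z :: R), t ≠ 0 := by
    simpa using hl
  have h := fun (u v : List Bool) (hu : u.length = (L ++ [w]).length)
    (hv : v.length = (z :: R).length) => cap_swap hq ha hΦ hl' hu hv
  simp only [List.append_assoc, List.cons_append, List.nil_append] at h
  unfold N4
  rw [h _ _ (by simp [hs]) (by simp [ht]), h _ _ (by simp [hs]) (by simp [ht])]

theorem bswap_id {q x y X Y : ℂ} (hq : q ^ 2 + q + 1 = 0) (hx : x * X = 1) (hy : y * Y = 1)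
    {a1 b1 g1 a2 b2 g2 a3 b3 g3 a4 b4 g4 : ℂ}
    (hb1 : b1 = q * y + (1 + q) * X) (ha1 : a1 = q * X + (1 + q) * y) (hg1 : g1 = X - y)
    (hb2 : b2 = q * y + (1 + q) * x) (ha2 : a2 = q * x + (1 + q) * y) (hg2 : g2 = x - y)
    (hb3 : b3 = q * Y + (1 + q) * X) (ha3 : a3 = q * X + (1 + q) * Y) (hg3 : g3 = X - Y)
    (hb4 : b4 = q * Y + (1 + q) * x) (ha4 : a4 = q * x + (1 + q) * Y) (hg4 : g4 = x - Y) :
    (a4 * b2 * b3 + g4 * g3 * b2 + g4 * a3 * g2) * a1 = b1 * b2 * b3 * b4 ∧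
    (a4 * b2 * b3 + g4 * g3 * b2 + g4 * a3 * g2) * g1 + g4 * a3 * a2 * b1 = 0 := by
  subst hb1 ha1 hg1 hb2 ha2 hg2 hb3 ha3 hg3 hb4 ha4 hg4
  constructor
  · grind
  · grind

theorem inv_cube_ne {x y : ℂ} (hx : x ≠ 0) (h : x ^ 3 * y ^ 3 ≠ 1) : x⁻¹ ^ 3 ≠ y ^ 3 := by
  intro h'
  apply h
  rw [← h', inv_pow]
  exact mul_inv_cancel₀ (pow_ne_zero 3 hx)

theorem K4_bswap (hq : q ^ 2 + q + 1 = 0) (ha : a ^ 2 = - q ^ 2) (hΦ : Sol q a Φ)
    {L R : List ℂ} {x y : ℂ} (hl : ∀ t ∈ L ++ x :: y :: R, t ≠ 0)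
    (h1 : x ^ 3 ≠ y ^ 3) (h2 : x ^ 3 * y ^ 3 ≠ 1)
    {s t : List Bool} (hs : s.length = L.length) (ht : t.length = R.length) :
    K4 a (Φ (L ++ y :: y⁻¹ :: x :: x⁻¹ :: R)) s t =
      K4 a (Φ (L ++ x :: x⁻¹ :: y :: y⁻¹ :: R)) s t := by
  have hx : x ≠ 0 := hl x (by simp)
  have hy : y ≠ 0 := hl y (by simp)
  have hX : x⁻¹ ≠ 0 := inv_ne_zero hx
  have hY : y⁻¹ ≠ 0 := inv_ne_zero hy
  have ha0 := a_ne_zero hq ha
  have hmem : ∀ p₁ p₂ p₃ p₄ : ℂ, p₁ ≠ 0 → p₂ ≠ 0 → p₃ ≠ 0 → p₄ ≠ 0 →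
      ∀ t ∈ L ++ p₁ :: p₂ :: p₃ :: p₄ :: R, t ≠ 0 := by
    intro p₁ p₂ p₃ p₄ g1 g2 g3 g4 t ht
    simp only [List.mem_append, List.mem_cons] at ht
    rcases ht with ht | ht | ht | ht | ht | ht
    · exact hl t (by simp [ht])
    · rw [ht]; exact g1
    · rw [ht]; exact g2
    · rw [ht]; exact g3
    · rw [ht]; exact g4
    · exact hl t (by simp [ht])
  have e1 := K4_exch hΦ (hmem x x⁻¹ y y⁻¹ hx hX hy hY) ha0 hs ht
  have n1 := N4_swap hq ha hΦ (hmem x x⁻¹ y y⁻¹ hx hX hy hY) hs ht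
  have k2 := K4_swap_left hq ha hΦ (hmem x y x⁻¹ y⁻¹ hx hy hX hY) hs ht
  have e2 := N4_exch_left hΦ (hmem x y x⁻¹ y⁻¹ hx hy hX hY) ha0 hs ht
  have k3 := K4_swap_right hq ha hΦ (hmem y x x⁻¹ y⁻¹ hy hx hX hY) hs ht
  have e3 := N4_exch_right hΦ (hmem y x x⁻¹ y⁻¹ hy hx hX hY) ha0 hs ht
  have e4 := K4_exch hΦ (hmem y x y⁻¹ x⁻¹ hy hx hY hX) ha0 hs ht
  rw [n1] at e2
  rw [k2] at e3 k3
  rw [k3] at e4
  have b1 := be_ne_zero hq (inv_cube_ne hx h2)
  have b2 := be_ne_zero hq h1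
  have b3 : q * y⁻¹ - q⁻¹ * x⁻¹ ≠ 0 := be_ne_zero hq (by
    rw [inv_pow, inv_pow]; exact fun h => h1 (inv_injective h))
  have b4 : q * y⁻¹ - q⁻¹ * x ≠ 0 := be_ne_zero hq (fun h => by
    refine inv_cube_ne hy (fun h' => h2 ?_) h.symm
    rw [mul_comm]; exact h')
  set k0 := K4 a (Φ (L ++ x :: x⁻¹ :: y :: y⁻¹ :: R)) s t
  set k1 := K4 a (Φ (L ++ x :: y :: x⁻¹ :: y⁻¹ :: R)) s t
  set k4 := K4 a (Φ (L ++ y :: y⁻¹ :: x :: x⁻¹ :: R)) s t
  set m0 := N4 a (Φ (L ++ x :: x⁻¹ :: y :: y⁻¹ :: R)) s t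
  set m2 := N4 a (Φ (L ++ y :: x :: x⁻¹ :: y⁻¹ :: R)) s t
  set m3 := N4 a (Φ (L ++ y :: x :: y⁻¹ :: x⁻¹ :: R)) s t
  have hqi := q_inv hq
  obtain ⟨i1, i2⟩ := bswap_id (q := q) (x := x) (y := y) (X := x⁻¹) (Y := y⁻¹) hq
    (mul_inv_cancel₀ hx) (mul_inv_cancel₀ hy)
    (b1 := q * y - q⁻¹ * x⁻¹) (a1 := q * x⁻¹ - q⁻¹ * y) (g1 := x⁻¹ - y)
    (b2 := q * y - q⁻¹ * x) (a2 := q * x - q⁻¹ * y) (g2 := x - y)
    (b3 := q * y⁻¹ - q⁻¹ * x⁻¹) (a3 := q * x⁻¹ - q⁻¹ * y⁻¹) (g3 := x⁻¹ - y⁻¹)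
    (b4 := q * y⁻¹ - q⁻¹ * x) (a4 := q * x - q⁻¹ * y⁻¹) (g4 := x - y⁻¹)
    (by rw [hqi]; ring) (by rw [hqi]; ring) rfl (by rw [hqi]; ring) (by rw [hqi]; ring) rfl
    (by rw [hqi]; ring) (by rw [hqi]; ring) rfl (by rw [hqi]; ring) (by rw [hqi]; ring) rfl
  have hb : (q * y - q⁻¹ * x⁻¹) * (q * y - q⁻¹ * x) * (q * y⁻¹ - q⁻¹ * x⁻¹) *
      (q * y⁻¹ - q⁻¹ * x) ≠ 0 := mul_ne_zero (mul_ne_zero (mul_ne_zero b1 b2) b3) b4
  apply mul_left_cancel₀ hb
  generalize q * y - q⁻¹ * x⁻¹ = B1 at *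
  generalize q * y - q⁻¹ * x = B2 at *
  generalize q * y⁻¹ - q⁻¹ * x⁻¹ = B3 at *
  generalize q * y⁻¹ - q⁻¹ * x = B4 at *
  generalize q * x⁻¹ - q⁻¹ * y = A1 at *
  generalize q * x - q⁻¹ * y = A2 at *
  generalize q * x⁻¹ - q⁻¹ * y⁻¹ = A3 at *
  generalize q * x - q⁻¹ * y⁻¹ = A4 at *
  generalize x⁻¹ - y = G1 at *
  generalize x - y = G2 at *
  generalize x⁻¹ - y⁻¹ = G3 at *
  generalize x - y⁻¹ = G4 at *
  linear_combination B1 * B2 * B3 * e4 + G4 * B1 * B2 * e3 + G4 * A3 * B1 * e2 +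
    (A4 * B2 * B3 + G4 * G3 * B2 + G4 * A3 * G2) * e1 + k0 * i1 + m0 * i2

/-- two adjacent pairs inside the arcs -/
theorem capR_bswap (hq : q ^ 2 + q + 1 = 0) (ha : a ^ 2 = - q ^ 2) (hΦ : Sol q a Φ)
    {L R : List ℂ} {x y : ℂ} {r₁ r₂ : ℕ} {s e : List Bool}
    (hl : ∀ z ∈ L ++ x :: y :: R, z ≠ 0) (h1 : x ^ 3 ≠ y ^ 3) (h2 : x ^ 3 * y ^ 3 ≠ 1)
    (hs : s.length + 2 * r₁ = L.length) (ht : 2 * r₂ + e.length = R.length) :
    capR a (r₁ + (r₂ + 2)) (Φ (L ++ y :: y⁻¹ :: x :: x⁻¹ :: R)) s e =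
      capR a (r₁ + (r₂ + 2)) (Φ (L ++ x :: x⁻¹ :: y :: y⁻¹ :: R)) s e := by
  rw [capR_split2, capR_split2]
  apply capR_congr
  intro s' hs'
  apply capR_congr
  intro u hu
  refine K4_bswap hq ha hΦ hl h1 h2 ?_ ?_
  · rw [hs', ← hs]; simp
  · rw [hu, ← ht]; simp

end NSymAux

theorem Nodd_binv (hq : q ^ 2 + q + 1 = 0) (ha : a ^ 2 = - q ^ 2) (hΦ : Sol q a Φ)
    (z : List ℂ) (α : ℂ) (b₁ : List ℂ) (x : ℂ) (b₂ : List ℂ) (d : ℂ)
    (h0 : NZ (z ++ b₁ ++ x :: b₂ ++ [α, d])) :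
    Nodd a Φ z α (b₁ ++ x⁻¹ :: b₂) d = Nodd a Φ z α (b₁ ++ x :: b₂) d := by
  unfold Nodd
  congr 1
  apply sumC_congr
  intro s hs
  congr 1
  have e1 : z ++ α :: (prs (b₁ ++ x⁻¹ :: b₂) ++ [d]) =
      (z ++ α :: prs b₁) ++ x⁻¹ :: x :: (prs b₂ ++ [d]) := by
    simp [prs_append, prs]
  have e2 : z ++ α :: (prs (b₁ ++ x :: b₂) ++ [d]) =
      (z ++ α :: prs b₁) ++ x :: x⁻¹ :: (prs b₂ ++ [d]) := by
    simp [prs_append, prs]
  have e3 : (b₁ ++ x⁻¹ :: b₂).length = b₁.length + (b₂.length + 1) := by simp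
  have e4 : (b₁ ++ x :: b₂).length = b₁.length + (b₂.length + 1) := by simp
  rw [e1, e2, e3, e4]
  refine capR_swap hq ha hΦ ?_ ?_ ?_
  · have hb1 : ∀ t ∈ prs b₁, t ≠ 0 := prs_ne_zero (fun t ht => h0 t (by simp [ht]))
    have hb2 : ∀ t ∈ prs b₂, t ≠ 0 := prs_ne_zero (fun t ht => h0 t (by simp [ht]))
    intro t ht
    simp only [List.mem_append, List.mem_cons, List.not_mem_nil, or_false] at ht
    rcases ht with (ht | ht | ht) | ht | ht | ht | ht
    · exact h0 t (by simp [ht])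
    · exact h0 t (by simp [ht])
    · exact hb1 t ht
    · exact h0 t (by simp [ht])
    · rw [ht]; exact inv_ne_zero (h0 x (by simp))
    · exact hb2 t ht
    · exact h0 t (by simp [ht])
  · simp [prs_length, hs]; ring
  · simp [prs_length]

theorem Nodd_bswap (hq : q ^ 2 + q + 1 = 0) (ha : a ^ 2 = - q ^ 2) (hΦ : Sol q a Φ)
    (z : List ℂ) (α : ℂ) (b₁ : List ℂ) (x y : ℂ) (b₂ : List ℂ) (d : ℂ)
    (h0 : NZ (z ++ b₁ ++ x :: y :: b₂ ++ [α, d])) (h1 : x ^ 3 ≠ y ^ 3)
    (h2 : x ^ 3 * y ^ 3 ≠ 1) :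
    Nodd a Φ z α (b₁ ++ y :: x :: b₂) d = Nodd a Φ z α (b₁ ++ x :: y :: b₂) d := by
  unfold Nodd
  congr 1
  apply sumC_congr
  intro s hs
  congr 1
  have e1 : z ++ α :: (prs (b₁ ++ y :: x :: b₂) ++ [d]) =
      (z ++ α :: prs b₁) ++ y :: y⁻¹ :: x :: x⁻¹ :: (prs b₂ ++ [d]) := by
    simp [prs_append, prs]
  have e2 : z ++ α :: (prs (b₁ ++ x :: y :: b₂) ++ [d]) =
      (z ++ α :: prs b₁) ++ x :: x⁻¹ :: y :: y⁻¹ :: (prs b₂ ++ [d]) := by
    simp [prs_append, prs]
  have e3 : (b₁ ++ y :: x :: b₂).length = b₁.length + (b₂.length + 2) := by simp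
  have e4 : (b₁ ++ x :: y :: b₂).length = b₁.length + (b₂.length + 2) := by simp
  rw [e1, e2, e3, e4]
  refine capR_bswap hq ha hΦ ?_ h1 h2 ?_ ?_
  · have hb1 : ∀ t ∈ prs b₁, t ≠ 0 := prs_ne_zero (fun t ht => h0 t (by simp [ht]))
    have hb2 : ∀ t ∈ prs b₂, t ≠ 0 := prs_ne_zero (fun t ht => h0 t (by simp [ht]))
    intro t ht
    simp only [List.mem_append, List.mem_cons, List.not_mem_nil, or_false] at ht
    rcases ht with (ht | ht | ht) | ht | ht | ht | ht
    · exact h0 t (by simp [ht])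
    · exact h0 t (by simp [ht])
    · exact hb1 t ht
    · exact h0 t (by simp [ht])
    · exact h0 t (by simp [ht])
    · exact hb2 t ht
    · exact h0 t (by simp [ht])
  · simp [prs_length, hs]; ring
  · simp [prs_length]

theorem Neven_binv (hq : q ^ 2 + q + 1 = 0) (ha : a ^ 2 = - q ^ 2) (hΦ : Sol q a Φ)
    (z : List ℂ) (v : ℂ) (b₁ : List ℂ) (x : ℂ) (b₂ : List ℂ) (d : ℂ)
    (h0 : NZ (z ++ b₁ ++ x :: b₂ ++ [v, d])) :
    Neven a Φ z v (b₁ ++ x⁻¹ :: b₂) d = Neven a Φ z v (b₁ ++ x :: b₂) d := by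
  unfold Neven
  apply sumC_congr
  intro s hs
  congr 1
  have e1 : z ++ (prs (b₁ ++ x⁻¹ :: b₂) ++ [d]) =
      (z ++ prs b₁) ++ x⁻¹ :: x :: (prs b₂ ++ [d]) := by
    simp [prs_append, prs]
  have e2 : z ++ (prs (b₁ ++ x :: b₂) ++ [d]) =
      (z ++ prs b₁) ++ x :: x⁻¹ :: (prs b₂ ++ [d]) := by
    simp [prs_append, prs]
  have e3 : (b₁ ++ x⁻¹ :: b₂).length = b₁.length + (b₂.length + 1) := by simp
  have e4 : (b₁ ++ x :: b₂).length = b₁.length + (b₂.length + 1) := by simp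
  rw [e1, e2, e3, e4]
  refine capR_swap hq ha hΦ ?_ ?_ ?_
  · have hb1 : ∀ t ∈ prs b₁, t ≠ 0 := prs_ne_zero (fun t ht => h0 t (by simp [ht]))
    have hb2 : ∀ t ∈ prs b₂, t ≠ 0 := prs_ne_zero (fun t ht => h0 t (by simp [ht]))
    intro t ht
    simp only [List.mem_append, List.mem_cons, List.not_mem_nil, or_false] at ht
    rcases ht with (ht | ht) | ht | ht | ht | ht
    · exact h0 t (by simp [ht])
    · exact hb1 t ht
    · exact h0 t (by simp [ht])
    · rw [ht]; exact inv_ne_zero (h0 x (by simp))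
    · exact hb2 t ht
    · exact h0 t (by simp [ht])
  · simp [prs_length, hs]
  · simp [prs_length]

theorem Neven_bswap (hq : q ^ 2 + q + 1 = 0) (ha : a ^ 2 = - q ^ 2) (hΦ : Sol q a Φ)
    (z : List ℂ) (v : ℂ) (b₁ : List ℂ) (x y : ℂ) (b₂ : List ℂ) (d : ℂ)
    (h0 : NZ (z ++ b₁ ++ x :: y :: b₂ ++ [v, d])) (h1 : x ^ 3 ≠ y ^ 3)
    (h2 : x ^ 3 * y ^ 3 ≠ 1) :
    Neven a Φ z v (b₁ ++ y :: x :: b₂) d = Neven a Φ z v (b₁ ++ x :: y :: b₂) d := by
  unfold Neven
  apply sumC_congr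
  intro s hs
  congr 1
  have e1 : z ++ (prs (b₁ ++ y :: x :: b₂) ++ [d]) =
      (z ++ prs b₁) ++ y :: y⁻¹ :: x :: x⁻¹ :: (prs b₂ ++ [d]) := by
    simp [prs_append, prs]
  have e2 : z ++ (prs (b₁ ++ x :: y :: b₂) ++ [d]) =
      (z ++ prs b₁) ++ x :: x⁻¹ :: y :: y⁻¹ :: (prs b₂ ++ [d]) := by
    simp [prs_append, prs]
  have e3 : (b₁ ++ y :: x :: b₂).length = b₁.length + (b₂.length + 2) := by simp
  have e4 : (b₁ ++ x :: y :: b₂).length = b₁.length + (b₂.length + 2) := by simp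
  rw [e1, e2, e3, e4]
  refine capR_bswap hq ha hΦ ?_ h1 h2 ?_ ?_
  · have hb1 : ∀ t ∈ prs b₁, t ≠ 0 := prs_ne_zero (fun t ht => h0 t (by simp [ht]))
    have hb2 : ∀ t ∈ prs b₂, t ≠ 0 := prs_ne_zero (fun t ht => h0 t (by simp [ht]))
    intro t ht
    simp only [List.mem_append, List.mem_cons, List.not_mem_nil, or_false] at ht
    rcases ht with (ht | ht) | ht | ht | ht | ht
    · exact h0 t (by simp [ht])
    · exact hb1 t ht
    · exact h0 t (by simp [ht])
    · exact h0 t (by simp [ht])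
    · exact hb2 t ht
    · exact h0 t (by simp [ht])
  · simp [prs_length, hs]
  · simp [prs_length]

end Pool.Agent.H72.Cardy
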