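import Pool.Agent.H72.Cardy.AsmF
import Pool.Agent.H72.Cardy.NSym
import Pool.Agent.H72.Cardy.NRec
import Pool.Agent.H5.LStrip.RSide
import Pool.Agent.H1.LStrip.Cont

set_option autoImplicit false
open Polynomial

/-! Assembly, part G: `Nodd`, `Neven` at the homogeneous point. -/

namespace Pool.Agent.H72.Cardy

variable {q a : ℂ} {Φ : List ℂ → List Bool → ℂ}

theorem nside (hq : q ^ 2 + q + 1 = 0) (ha : a ^ 2 = - q ^ 2) (hΦ : Sol q a Φ) :
    Pool.Agent.H1.LStrip.NSide q (Nodd a Φ) (Neven a Φ) where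
  odd_swap := fun l₁ x y l₂ α b d h0 h => Nodd_swap hq ha hΦ l₁ x y l₂ α b d h0 h
  odd_even := fun x l α b d h0 => Nodd_even hq ha hΦ x l α b d h0
  odd_binv := fun z α b₁ x b₂ d h0 => Nodd_binv hq ha hΦ z α b₁ x b₂ d h0
  odd_bswap := fun z α b₁ x y b₂ d h0 h1 h2 => Nodd_bswap hq ha hΦ z α b₁ x y b₂ d h0 h1 h2
  odd_deven := fun z α b d h0 => Nodd_deven hq ha hΦ z α b d h0
  even_swap := fun l₁ x y l₂ v b d h0 h => Neven_swap hq ha hΦ l₁ x y l₂ v b d h0 h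
  even_even := fun x l v b d h0 => Neven_even hq ha hΦ x l v b d h0
  even_veven := fun z v b d h0 => Neven_veven hq ha hΦ z v b d h0
  even_binv := fun z v b₁ x b₂ d h0 => Neven_binv hq ha hΦ z v b₁ x b₂ d h0
  even_bswap := fun z v b₁ x y b₂ d h0 h1 h2 => Neven_bswap hq ha hΦ z v b₁ x y b₂ d h0 h1 h2
  even_deven := fun z v b d h0 => Neven_deven hq ha hΦ z v b d h0
  odd_i := fun z x b d h0 => Nodd_i hq ha hΦ z x b d h0
  odd_ii := fun z α b d h0 => Nodd_ii hq ha hΦ z α b d h0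
  even_iii := fun z x b d h0 => Neven_iii hq ha hΦ z x b d h0
  odd_v := fun z α b x h0 => Nodd_v hq ha hΦ z α b x h0
  even_v := fun z v b x h0 => Neven_v hq ha hΦ z v b x h0
  odd_vi := fun z α b x d h0 hx => Nodd_vi hq ha hΦ z α b x d h0 hx
  odd_base := fun z α d h0 => Nodd_base hq ha hΦ z α d h0
  even_base := fun v d h0 => Neven_base hq ha hΦ v d h0
  odd_degα := fun n z b d h0 hn => Nodd_degα hq ha hΦ n z b d h0 hn
  odd_degd := fun n z b α h0 hn => Nodd_degd hq ha hΦ n z b α h0 hn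
  odd_degb := fun z α d h0 => Nodd_degb hq ha hΦ 2 [z] α d h0 rfl
  even_degv := fun m z b d h0 hm => Neven_degv hq ha hΦ m z b d h0 hm
  even_degd := fun n z b v h0 hn => Neven_degd hq ha hΦ n z b v h0 hn

theorem Nodd_eq (hq : q ^ 2 + q + 1 = 0) (ha : a ^ 2 = - q ^ 2) (hΦ : Sol q a Φ)
    (z : List ℂ) (α : ℂ) (b : List ℂ) (d : ℂ) (hz : Odd z.length) (hg : Gen (z ++ b ++ [d]))
    (hα : α ≠ 0) : Nodd a Φ z α b d = Rodd q z α b d :=
  Pool.Agent.H1.LStrip.odd_eq hq (nside hq ha hΦ) (Pool.Agent.H5.LStrip.rside hq) z α b d hz hg hα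

theorem Neven_eq (hq : q ^ 2 + q + 1 = 0) (ha : a ^ 2 = - q ^ 2) (hΦ : Sol q a Φ)
    (z : List ℂ) (v : ℂ) (b : List ℂ) (d : ℂ) (hz : Even z.length) (hg : Gen (z ++ b ++ [d]))
    (hv : v ≠ 0) : Neven a Φ z v b d = Reven z v b d :=
  Pool.Agent.H1.LStrip.even_eq hq (nside hq ha hΦ) (Pool.Agent.H5.LStrip.rside hq) z v b d hz hg hv

theorem Nodd_one (hq : q ^ 2 + q + 1 = 0) (ha : a ^ 2 = - q ^ 2) (hΦ : Sol q a Φ) (m r : ℕ) :
    Nodd a Φ (List.replicate (2 * m + 1) 1) 1 (List.replicate r 1) 1 =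
      D ((X - C 2) * (X + 1) * (T - C 2) ^ r * (X - C 2) ^ (2 * m + 1) *
        Sx (List.replicate (2 * m + 1) 2)) (List.replicate (2 * m + 2 * r + 3) 2) :=
  Nodd_one_of hq hΦ (fun z α b d hz hg hα => Nodd_eq hq ha hΦ z α b d hz hg hα)
    m r

theorem Neven_one (hq : q ^ 2 + q + 1 = 0) (ha : a ^ 2 = - q ^ 2) (hΦ : Sol q a Φ) (n : ℕ) :
    Neven a Φ [] 1 (List.replicate n 1) 1 = S (List.replicate (2 * n + 1) 2) :=
  Neven_one_of hΦ (fun v b d hg hv => by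
    rw [Neven_eq hq ha hΦ [] v b d (by simp) hg hv]
    exact Pool.Agent.H5.LStrip.Reven_nil v b d) n

end Pool.Agent.H72.Cardy
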