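import Pool.Agent.H72.Cardy.Defs
import Pool.Agent.H72.Cardy.PDefs

set_option autoImplicit false
open Finset

/-! Assembly, part A: spin configurations as lists and as finite sets. -/

namespace Pool.Agent.H72.CardyP

open Pool.Agent.H75.Exact Pool.Agent.H75.Exact.Lk
open Pool.Agent.H72.Cardy (sumC cap capR A)

/-- the configuration with down sites `D` as a list -/
def lst (N : ℕ) (D : Finset ℕ) : List Bool := (List.range N).map fun i => decide (i + 1 ∈ D)

/-- a list as a configuration on the sites `1, 2, …` -/
def fn (x : List Bool) : ℕ → Bool := fun i => if i = 0 then false else x.getD (i - 1) false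

@[simp] lemma lst_length (N : ℕ) (D : Finset ℕ) : (lst N D).length = N := by simp [lst]

lemma lst_get (N : ℕ) (D : Finset ℕ) (i : ℕ) (hi : i < (lst N D).length) :
    (lst N D)[i] = decide (i + 1 ∈ D) := by
  simp [lst]

lemma lst_getD (N : ℕ) (D : Finset ℕ) (i : ℕ) (hi : i < N) :
    (lst N D).getD i false = decide (i + 1 ∈ D) := by
  rw [List.getD_eq_getElem _ _ (by simpa using hi), lst_get]

lemma fn_lst (N : ℕ) (D : Finset ℕ) (hD : D ⊆ Icc 1 N) : fn (lst N D) = ind D := by
  funext l
  unfold fn ind
  split_ifs with h
  · subst h
    have : (0 : ℕ) ∉ D := fun h0 => by have := hD h0; simp at this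
    simp [this]
  · rcases Nat.lt_or_ge (l - 1) N with h1 | h1
    · rw [lst_getD N D _ h1, show l - 1 + 1 = l by omega]
    · rw [List.getD_eq_default _ _ (by simpa using h1)]
      have : l ∉ D := fun h0 => by
        have := hD h0
        rw [mem_Icc] at this
        omega
      simp [this]

/-- the set of down sites of a list -/
def stl (x : List Bool) : Finset ℕ := (Icc 1 x.length).filter fun i => x.getD (i - 1) false = true

lemma stl_sub (x : List Bool) : stl x ⊆ Icc 1 x.length := filter_subset _ _

lemma lst_stl (x : List Bool) : lst x.length (stl x) = x := by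
  apply List.ext_getElem
  · simp
  · intro i h1 h2
    rw [lst_get]
    unfold stl
    rw [List.getElem_eq_getD false]
    simp only [mem_filter, mem_Icc, Nat.add_sub_cancel]
    have : i + 1 ≤ x.length := h2
    simp [this]

lemma stl_lst (N : ℕ) (D : Finset ℕ) (hD : D ⊆ Icc 1 N) : stl (lst N D) = D := by
  ext i
  unfold stl
  rw [mem_filter, lst_length, mem_Icc]
  constructor
  · rintro ⟨h1, h2⟩
    rw [lst_getD N D _ (by omega), show i - 1 + 1 = i by omega] at h2
    simpa using h2
  · intro h
    have := hD h
    rw [mem_Icc] at this
    refine ⟨this, ?_⟩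
    rw [lst_getD N D _ (by omega), show i - 1 + 1 = i by omega]
    simpa using h

lemma lst_succ (N : ℕ) (D : Finset ℕ) : lst (N + 1) D =
    decide (1 ∈ D) :: (List.range N).map fun i => decide (i + 2 ∈ D) := by
  unfold lst
  rw [List.range_succ_eq_map, List.map_cons, List.map_map]
  rfl

/-- the sum over lists as a sum over sets -/
lemma sumC_eq (N : ℕ) (f : List Bool → ℂ) :
    sumC N f = ∑ D ∈ (Icc 1 N).powerset, f (lst N D) := by
  have key : ∀ (N o : ℕ) (f : List Bool → ℂ), sumC N f =
      ∑ D ∈ (Icc (o + 1) (o + N)).powerset,
        f ((List.range N).map fun i => decide (i + 1 + o ∈ D)) := by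
    intro N
    induction N with
    | zero => intro o f; simp [sumC]
    | succ N ih =>
      intro o f
      have h1 : Icc (o + 1) (o + (N + 1)) = insert (o + 1) (Icc (o + 1 + 1) (o + 1 + N)) := by
        ext x; simp only [mem_Icc, mem_insert]; omega
      have h2 : o + 1 ∉ Icc (o + 1 + 1) (o + 1 + N) := by simp
      rw [h1, sum_powerset_insert h2, sumC, ih (o + 1), ih (o + 1)]
      have hr : ∀ D : Finset ℕ, ((List.range (N + 1)).map fun i => decide (i + 1 + o ∈ D)) =
          decide (o + 1 ∈ D) :: (List.range N).map fun i => decide (i + 1 + (o + 1) ∈ D) := by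
        intro D
        rw [List.range_succ_eq_map, List.map_cons, List.map_map]
        congr 1
        · simp only [zero_add, Nat.add_comm 1 o]
        · apply List.map_congr_left
          intro i _
          simp only [Function.comp_apply]
          rw [show i.succ + 1 + o = i + 1 + (o + 1) by omega]
      congr 1
      · refine sum_congr rfl fun D hD => ?_
        rw [hr]
        have : o + 1 ∉ D := fun h => h2 (mem_powerset.1 hD h)
        simp [this]
      · refine sum_congr rfl fun D hD => ?_
        rw [hr]
        congr 1
        simp only [mem_insert_self, decide_true, List.cons.injEq, true_and]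
        apply List.map_congr_left
        intro i _
        have : i + 1 + (o + 1) ≠ o + 1 := by omega
        simp [mem_insert, this]
  rw [key N 0 f]
  simp only [zero_add, Nat.add_zero]
  rfl

lemma count_lst (N : ℕ) (D : Finset ℕ) (hD : D ⊆ Icc 1 N) : (lst N D).count true = D.card := by
  have key : ∀ (N o : ℕ) (D : Finset ℕ), D ⊆ Icc (o + 1) (o + N) →
      ((List.range N).map fun i => decide (i + 1 + o ∈ D)).count true = D.card := by
    intro N
    induction N with
    | zero =>
      intro o D hD
      have : D = ∅ := by
        rw [← subset_empty]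
        refine hD.trans ?_
        simp
      simp [this]
    | succ N ih =>
      intro o D hD
      have hr : ((List.range (N + 1)).map fun i => decide (i + 1 + o ∈ D)) =
          decide (o + 1 ∈ D) :: (List.range N).map fun i => decide (i + 1 + (o + 1) ∈ D.erase (o + 1)) := by
        rw [List.range_succ_eq_map, List.map_cons, List.map_map]
        congr 1
        · simp only [zero_add, Nat.add_comm 1 o]
        · apply List.map_congr_left
          intro i _
          simp only [Function.comp_apply, mem_erase]
          have h1 : i + 1 + (o + 1) ≠ o + 1 := by omega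
          rw [show i.succ + 1 + o = i + 1 + (o + 1) by omega]
          simp [h1]
      rw [hr, List.count_cons, ih (o + 1) (D.erase (o + 1))]
      · by_cases h : o + 1 ∈ D
        · rw [card_erase_of_mem h]
          have : 0 < D.card := card_pos.2 ⟨_, h⟩
          simp only [h, decide_true, BEq.rfl, if_true]
          omega
        · rw [erase_eq_of_notMem h]
          simp [h]
      · intro x hx
        rw [mem_erase] at hx
        have := hD hx.2
        rw [mem_Icc] at this ⊢
        omega
  have := key N 0 D (by simpa using hD)
  simpa [lst] using this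

lemma sumC_card (N j : ℕ) (f : List Bool → ℂ) (hf : ∀ x, x.length = N → x.count true ≠ j → f x = 0) :
    sumC N f = ∑ D ∈ powersetCard j (Icc 1 N), f (lst N D) := by
  rw [sumC_eq]
  symm
  apply sum_subset
  · intro D hD
    rw [mem_powersetCard] at hD
    exact mem_powerset.2 hD.1
  · intro D hD hD'
    rw [mem_powerset] at hD
    rw [mem_powersetCard, not_and] at hD'
    refine hf _ (lst_length N D) ?_
    rw [count_lst N D hD]
    exact hD' hD

lemma sumC_congr (N : ℕ) (f g : List Bool → ℂ) (h : ∀ x, x.length = N → f x = g x) :
    sumC N f = sumC N g := by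
  rw [sumC_eq, sumC_eq]
  exact sum_congr rfl fun D _ => h _ (lst_length N D)

lemma sumC_zero' (f : List Bool → ℂ) : sumC 0 f = f [] := rfl

lemma sumC_one (f : List Bool → ℂ) : sumC 1 f = f [false] + f [true] := rfl

lemma sumC_add (k l : ℕ) (f : List Bool → ℂ) :
    sumC (k + l) f = sumC k fun s => sumC l fun t => f (s ++ t) := by
  induction k generalizing f with
  | zero => rw [Nat.zero_add]; simp [sumC]
  | succ k ih =>
    rw [show k + 1 + l = (k + l) + 1 by omega, sumC, ih, ih, sumC]
    simp only [List.cons_append]

lemma sumC_mul (k : ℕ) (c : ℂ) (f : List Bool → ℂ) : sumC k (fun s => c * f s) = c * sumC k f := by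
  rw [sumC_eq, sumC_eq, mul_sum]

lemma sumC_addf (k : ℕ) (f g : List Bool → ℂ) :
    sumC k (fun s => f s + g s) = sumC k f + sumC k g := by
  rw [sumC_eq, sumC_eq, sumC_eq, sum_add_distrib]

/-- weight of a product of adjacent arcs -/
noncomputable def arcsL (a : ℂ) : List Bool → ℂ
  | [] => 1
  | [_] => 0
  | x :: y :: u => A a x y * arcsL a u

lemma capR_eq (a : ℂ) (r : ℕ) (V : List Bool → ℂ) (s t : List Bool) :
    capR a r V s t = sumC (2 * r) fun u => arcsL a u * V (s ++ u ++ t) := by
  induction r generalizing s with
  | zero => simp [capR, sumC, arcsL]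
  | succ r ih =>
    rw [show 2 * (r + 1) = 2 * r + 1 + 1 by ring, sumC, sumC, sumC, capR, ih, ih]
    simp only [arcsL, A, zero_mul]
    have h0 : ∀ k, sumC k (fun _ => 0) = 0 := fun k => by rw [sumC_eq]; simp
    rw [h0, zero_add, add_zero, add_comm, ← sumC_mul, ← sumC_mul]
    congr 1
    · apply sumC_congr
      intro x _
      simp only [List.append_assoc, List.cons_append, List.nil_append]
      ring
    · apply sumC_congr
      intro x _
      simp only [List.append_assoc, List.cons_append, List.nil_append]
      ring

end Pool.Agent.H72.CardyP
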