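import Pool.Agent.H72.Cardy.Defs

/-!
Job H of the Cardy project (MP_fe58d8_pr): the homogeneous point of a solution is an eigenvector
of the sum of the Temperley-Lieb generators.
-/

set_option autoImplicit false
open Polynomial Filter Topology

namespace Pool.Agent.H72.Cardy

namespace HeigAux

variable {q a : ℂ} {Φ : List ℂ → List Bool → ℂ}

/-- one parameter `t` at position `j`, all others are `1` -/
def lst (n j : ℕ) (t : ℂ) : List ℂ := List.replicate j 1 ++ t :: List.replicate (2 * n - j) 1

/-- a component of the action of a generator -/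
noncomputable def EE (a : ℂ) (j : ℕ) (V : List Bool → ℂ) (s : List Bool) : ℂ :=
  A a (s.getD j false) (s.getD (j + 1) false) * cap a V (s.take j) (s.drop (j + 2))

lemma lst_one {n j : ℕ} (hj : j ≤ 2 * n) : lst n j 1 = List.replicate (2 * n + 1) 1 := by
  unfold lst
  rw [← List.replicate_succ, List.replicate_append_replicate]
  congr 1
  omega

lemma lst_left {n j : ℕ} (hj : j < 2 * n) (t : ℂ) :
    lst n j t = List.replicate j 1 ++ t :: 1 :: List.replicate (2 * n - 1 - j) 1 := by
  unfold lst
  rw [← List.replicate_succ]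
  congr 3
  omega

lemma lst_right {n j : ℕ} (hj : j < 2 * n) (t : ℂ) :
    lst n (j + 1) t = List.replicate j 1 ++ 1 :: t :: List.replicate (2 * n - 1 - j) 1 := by
  unfold lst
  rw [List.replicate_succ', List.append_assoc]
  have : 2 * n - (j + 1) = 2 * n - 1 - j := by omega
  rw [this]
  rfl

lemma split_s {n j : ℕ} (hj : j < 2 * n) {s : List Bool} (hs : s.length = 2 * n + 1) :
    s = s.take j ++ s.getD j false :: s.getD (j + 1) false :: s.drop (j + 2) := by
  have h1 : j < s.length := by omega
  have h2 : j + 1 < s.length := by omega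
  rw [List.getD_eq_getElem _ _ h1, List.getD_eq_getElem _ _ h2,
    ← List.drop_eq_getElem_cons h2, ← List.drop_eq_getElem_cons h1, List.take_append_drop]

/-- the exchange relation with the parameter moving to the right -/
lemma step {n j : ℕ} (hΦ : Sol q a Φ) (hj : j < 2 * n) {s : List Bool}
    (hs : s.length = 2 * n + 1) {t : ℂ} (ht : t ≠ 0) :
    (q - q⁻¹ * t) * Φ (lst n (j + 1) t) s =
      (q * t - q⁻¹) * Φ (lst n j t) s + (t - 1) * EE a j (Φ (lst n j t)) s := by
  have h1 := hΦ.exch (List.replicate j 1) t 1 (List.replicate (2 * n - 1 - j) 1) (s.take j)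
    (s.getD j false) (s.getD (j + 1) false) (s.drop (j + 2))
    (by rw [List.length_take, List.length_replicate]; omega)
    (by rw [List.length_drop, List.length_replicate]; omega)
    (by
      intro z hz
      simp only [List.mem_append, List.mem_cons, List.mem_replicate] at hz
      rcases hz with hz | hz | hz | hz
      · rw [hz.2]; exact one_ne_zero
      · rw [hz]; exact ht
      · rw [hz]; exact one_ne_zero
      · rw [hz.2]; exact one_ne_zero)
  rw [← split_s hj hs, ← lst_left hj, ← lst_right hj, mul_one, mul_one] at h1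
  exact h1

/-- the exchange relation with the parameter moving to the left -/
lemma step' {n j : ℕ} (hΦ : Sol q a Φ) (hj : j < 2 * n) {s : List Bool}
    (hs : s.length = 2 * n + 1) {t : ℂ} (ht : t ≠ 0) :
    (q * t - q⁻¹) * Φ (lst n j t) s =
      (q - q⁻¹ * t) * Φ (lst n (j + 1) t) s + (1 - t) * EE a j (Φ (lst n (j + 1) t)) s := by
  have h1 := hΦ.exch (List.replicate j 1) 1 t (List.replicate (2 * n - 1 - j) 1) (s.take j)
    (s.getD j false) (s.getD (j + 1) false) (s.drop (j + 2))
    (by rw [List.length_take, List.length_replicate]; omega)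
    (by rw [List.length_drop, List.length_replicate]; omega)
    (by
      intro z hz
      simp only [List.mem_append, List.mem_cons, List.mem_replicate] at hz
      rcases hz with hz | hz | hz | hz
      · rw [hz.2]; exact one_ne_zero
      · rw [hz]; exact one_ne_zero
      · rw [hz]; exact ht
      · rw [hz.2]; exact one_ne_zero)
  rw [← split_s hj hs, ← lst_left hj, ← lst_right hj, mul_one, mul_one] at h1
  exact h1

lemma lst_ofFn {n j : ℕ} (hj : j ≤ 2 * n) (t : ℂ) :
    lst n j t = List.ofFn fun i : Fin (2 * n + 1) => if (i : ℕ) = j then t else 1 := by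
  apply List.ext_getElem
  · unfold lst
    simp only [List.length_append, List.length_replicate, List.length_cons, List.length_ofFn]
    omega
  · intro i h1 h2
    rw [List.getElem_ofFn]
    unfold lst
    rw [List.getElem_append]
    split_ifs with h3 h4 h4
    · rw [List.length_replicate] at h3; simp at h4; omega
    · rw [List.getElem_replicate]
    · simp at h4
      subst h4
      simp
    · rw [List.length_replicate] at h3
      simp at h4
      rw [List.getElem_cons]
      split_ifs with h5
      · rw [List.length_replicate] at h5; omega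
      · rw [List.getElem_replicate]

/-- continuity in the moving parameter -/
lemma cont {n j : ℕ} (hΦ : Sol q a Φ) (hj : j ≤ 2 * n) (s : List Bool) :
    ContinuousAt (fun t : ℂ => Φ (lst n j t) s) 1 := by
  obtain ⟨P, -, hP⟩ := hΦ.poly n s
  set z : ℂ → Fin (2 * n + 1) → ℂ := fun t i => if (i : ℕ) = j then t else 1 with hz
  have hprod : ∀ t : ℂ, ∏ i, z t i = t := by
    intro t
    rw [hz, Finset.prod_eq_single (⟨j, by omega⟩ : Fin (2 * n + 1))]
    · simp
    · intro b _ hb
      have : (b : ℕ) ≠ j := fun h => hb (Fin.ext h)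
      simp [this]
    · intro h
      exact absurd (Finset.mem_univ _) h
  have hcont : Continuous fun t : ℂ => MvPolynomial.eval (z t) P := by
    apply MvPolynomial.continuous_eval P |>.comp
    apply continuous_pi
    intro i
    by_cases h : (i : ℕ) = j
    · simp only [hz, h, if_true]; exact continuous_id
    · simp only [hz, h, if_false]; exact continuous_const
  have h1 : ContinuousAt (fun t : ℂ => MvPolynomial.eval (z t) P / t ^ n) 1 := by
    apply ContinuousAt.div hcont.continuousAt (continuous_pow n).continuousAt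
    simp
  refine h1.congr ?_
  have hne : ∀ᶠ t : ℂ in 𝓝 1, t ≠ 0 := isOpen_ne.mem_nhds one_ne_zero
  filter_upwards [hne] with t ht
  have h2 := hP (z t) (by
    intro i
    by_cases h : (i : ℕ) = j
    · simp only [hz, h, if_true]; exact ht
    · simp only [hz, h, if_false]; exact one_ne_zero)
  rw [hprod] at h2
  rw [← h2, lst_ofFn hj, mul_div_cancel_left₀ _ (pow_ne_zero n ht)]

lemma contEE {n j i : ℕ} (hΦ : Sol q a Φ) (hj : j ≤ 2 * n) (s : List Bool) :
    ContinuousAt (fun t : ℂ => EE a i (Φ (lst n j t)) s) 1 := by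
  unfold EE cap
  exact continuousAt_const.mul ((continuousAt_const.mul (cont hΦ hj _)).add
    (continuousAt_const.mul (cont hΦ hj _)))

end HeigAux

open HeigAux in
theorem heig_one {q a : ℂ} {Φ : List ℂ → List Bool → ℂ} (hq : q ^ 2 + q + 1 = 0)
    (ha : a ^ 2 = - q ^ 2) (hΦ : Sol q a Φ) (n : ℕ)
    (s : List Bool) (hs : s.length = 2 * n + 1) :
    ∑ i ∈ Finset.range (2 * n), A a (s.getD i false) (s.getD (i + 1) false) *
        cap a (Φ (List.replicate (2 * n + 1) 1)) (s.take i) (s.drop (i + 2)) =
      2 * n * Φ (List.replicate (2 * n + 1) 1) s := by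
  have hq0 : q ≠ 0 := by
    rintro rfl
    norm_num at hq
  have hqi : q + q⁻¹ = -1 := by
    have : q * (q + q⁻¹) = q * (-1) := by
      rw [mul_add, mul_inv_cancel₀ hq0]
      linear_combination hq
    exact mul_left_cancel₀ hq0 this
  -- the function which vanishes for `t ≠ 1`
  set F : ℂ → ℂ := fun t => ∑ j ∈ Finset.range (2 * n),
    ((EE a j (Φ (lst n j t)) s - Φ (lst n j t) s) +
      (EE a j (Φ (lst n (j + 1) t⁻¹)) s - Φ (lst n (j + 1) t⁻¹) s)) with hF
  have hinv : ContinuousAt (fun t : ℂ => t⁻¹) 1 := continuousAt_inv₀ one_ne_zero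
  have hcF : ContinuousAt F 1 := by
    rw [hF]
    apply tendsto_finsetSum
    intro j hj
    rw [Finset.mem_range] at hj
    have c1 := cont hΦ hj.le s
    have c2 := contEE (i := j) hΦ hj.le s
    have c3 : ContinuousAt (fun t : ℂ => Φ (lst n (j + 1) t⁻¹) s) 1 := by
      have := cont (j := j + 1) hΦ hj s
      exact ContinuousAt.comp (f := fun t : ℂ => t⁻¹) (g := fun t => Φ (lst n (j + 1) t) s)
        (by rw [inv_one]; exact this) hinv
    have c4 : ContinuousAt (fun t : ℂ => EE a j (Φ (lst n (j + 1) t⁻¹)) s) 1 := by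
      have := contEE (i := j) (j := j + 1) hΦ hj s
      exact ContinuousAt.comp (f := fun t : ℂ => t⁻¹)
        (g := fun t => EE a j (Φ (lst n (j + 1) t)) s) (by rw [inv_one]; exact this) hinv
    exact (c2.sub c1).add (c4.sub c3)
  have hzero : ∀ᶠ t : ℂ in 𝓝[≠] 1, F t = 0 := by
    have h0 : ∀ᶠ t : ℂ in 𝓝[≠] 1, t ≠ 0 :=
      eventually_nhdsWithin_of_eventually_nhds (isOpen_ne.mem_nhds one_ne_zero)
    have h2 : ∀ᶠ t : ℂ in 𝓝[≠] 1, q - q⁻¹ * t ≠ 0 := by
      apply eventually_nhdsWithin_of_eventually_nhds
      have hc : ContinuousAt (fun t : ℂ => q - q⁻¹ * t) 1 := by fun_prop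
      apply hc.eventually_ne
      intro h
      have h3 : q ^ 2 = 1 := by
        have h4 : q * (q - q⁻¹ * 1) = q * 0 := by rw [h]
        rw [mul_one, mul_sub, mul_inv_cancel₀ hq0, mul_zero] at h4
        linear_combination h4
      have h5 : q = -2 := by linear_combination hq - h3
      rw [h5] at h3
      norm_num at h3
    filter_upwards [h0, h2, self_mem_nhdsWithin] with t ht hden ht1
    have ht1' : t - 1 ≠ 0 := sub_ne_zero.2 ht1
    have hti : t⁻¹ ≠ 0 := inv_ne_zero ht
    -- forward steps
    have f1 : ∀ j ∈ Finset.range (2 * n),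
        (t - 1) * (EE a j (Φ (lst n j t)) s - Φ (lst n j t) s)
          = (q - q⁻¹ * t) * (Φ (lst n (j + 1) t) s - Φ (lst n j t) s) := by
      intro j hj
      rw [Finset.mem_range] at hj
      have h := step hΦ hj hs ht
      linear_combination -h - (t - 1) * Φ (lst n j t) s * hqi
    -- backward steps
    have f2 : ∀ j ∈ Finset.range (2 * n),
        (t - 1) * (EE a j (Φ (lst n (j + 1) t⁻¹)) s - Φ (lst n (j + 1) t⁻¹) s)
          = (q - q⁻¹ * t) * (Φ (lst n j t⁻¹) s - Φ (lst n (j + 1) t⁻¹) s) := by
      intro j hj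
      rw [Finset.mem_range] at hj
      have h := step' hΦ hj hs hti
      have h3 : t * t⁻¹ = 1 := mul_inv_cancel₀ ht
      have h4 : (q - q⁻¹ * t) * Φ (lst n j t⁻¹) s =
          (q * t - q⁻¹) * Φ (lst n (j + 1) t⁻¹) s
            + (t - 1) * EE a j (Φ (lst n (j + 1) t⁻¹)) s := by
        linear_combination t * h + (-q * Φ (lst n j t⁻¹) s - q⁻¹ * Φ (lst n (j + 1) t⁻¹) s
          - EE a j (Φ (lst n (j + 1) t⁻¹)) s) * h3
      linear_combination -h4 - (t - 1) * Φ (lst n (j + 1) t⁻¹) s * hqi
    have hsum : (t - 1) * F t = 0 := by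
      rw [hF]
      simp only
      rw [Finset.mul_sum]
      have e : ∀ j ∈ Finset.range (2 * n), (t - 1) *
          ((EE a j (Φ (lst n j t)) s - Φ (lst n j t) s) +
            (EE a j (Φ (lst n (j + 1) t⁻¹)) s - Φ (lst n (j + 1) t⁻¹) s))
          = (q - q⁻¹ * t) * (Φ (lst n (j + 1) t) s - Φ (lst n j t) s)
            - (q - q⁻¹ * t) * (Φ (lst n (j + 1) t⁻¹) s - Φ (lst n j t⁻¹) s) := by
        intro j hj
        rw [mul_add, f1 j hj, f2 j hj]
        ring
      rw [Finset.sum_congr rfl e, Finset.sum_sub_distrib, ← Finset.mul_sum, ← Finset.mul_sum,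
        Finset.sum_range_sub (fun j => Φ (lst n j t) s),
        Finset.sum_range_sub (fun j => Φ (lst n j t⁻¹) s)]
      have g1 : Φ (lst n 0 t⁻¹) s = Φ (lst n 0 t) s := by
        unfold lst
        simp only [List.replicate_zero, List.nil_append]
        exact hΦ.even_first t _ s ht (fun z hz => by
          rw [List.mem_replicate] at hz; rw [hz.2]; exact one_ne_zero)
      have g2 : Φ (lst n (2 * n) t⁻¹) s = Φ (lst n (2 * n) t) s := by
        unfold lst
        simp only [Nat.sub_self, List.replicate_zero]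
        exact hΦ.even_last _ t s ht (fun z hz => by
          rw [List.mem_replicate] at hz; rw [hz.2]; exact one_ne_zero)
      rw [g1, g2]
      ring
    exact (mul_eq_zero.1 hsum).resolve_left ht1'
  have hF1 : F 1 = 0 := by
    have h1 : Tendsto F (𝓝[≠] 1) (𝓝 (F 1)) := hcF.tendsto.mono_left nhdsWithin_le_nhds
    have h2 : Tendsto F (𝓝[≠] 1) (𝓝 0) :=
      (tendsto_congr' hzero).2 tendsto_const_nhds
    exact tendsto_nhds_unique h1 h2
  rw [hF] at hF1
  simp only [inv_one] at hF1
  have e : ∀ j ∈ Finset.range (2 * n),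
      ((EE a j (Φ (lst n j 1)) s - Φ (lst n j 1) s) +
        (EE a j (Φ (lst n (j + 1) 1)) s - Φ (lst n (j + 1) 1) s))
      = 2 * (EE a j (Φ (List.replicate (2 * n + 1) 1)) s
        - Φ (List.replicate (2 * n + 1) 1) s) := by
    intro j hj
    rw [Finset.mem_range] at hj
    rw [lst_one hj.le, lst_one hj]
    ring
  rw [Finset.sum_congr rfl e, ← Finset.mul_sum, Finset.sum_sub_distrib, Finset.sum_const,
    Finset.card_range, nsmul_eq_mul] at hF1
  have h3 : ∑ j ∈ Finset.range (2 * n), EE a j (Φ (List.replicate (2 * n + 1) 1)) s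
      = 2 * n * Φ (List.replicate (2 * n + 1) 1) s := by
    have h4 := (mul_eq_zero.1 hF1).resolve_left two_ne_zero
    have h5 := sub_eq_zero.1 h4
    rw [h5]
    push_cast
    ring
  exact h3

end Pool.Agent.H72.Cardy
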