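import Pool.Agent.H72.Cardy.AsmA
import Pool.Agent.H72.Cardy.HeigOne

set_option autoImplicit false
open Finset

/-! Assembly, part B: the eigenvector property in the two sectors. -/

namespace Pool.Agent.H72.CardyP

open Pool.Agent.H75.Exact Pool.Agent.H75.Exact.Lk
open Pool.Agent.H72.Cardy (sumC cap capR A Sol)

lemma list_split {α : Type*} (l : List α) (j : ℕ) (h : j + 1 < l.length) :
    l = l.take j ++ l[j] :: l[j + 1] :: l.drop (j + 2) := by
  conv_lhs => rw [← List.take_append_drop j l]
  rw [List.drop_eq_getElem_cons (by omega), List.drop_eq_getElem_cons (by omega)]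

lemma take_lst (N j : ℕ) (D D' : Finset ℕ) (h : ∀ l, l ≤ j → (l ∈ D ↔ l ∈ D')) :
    (lst N D).take j = (lst N D').take j := by
  apply List.ext_getElem
  · simp
  · intro l h1 h2
    rw [List.getElem_take, List.getElem_take, lst_get, lst_get]
    rw [List.length_take] at h1
    have := h (l + 1) (by omega)
    simp [this]

lemma drop_lst (N j : ℕ) (D D' : Finset ℕ) (h : ∀ l, j < l → (l ∈ D ↔ l ∈ D')) :
    (lst N D).drop j = (lst N D').drop j := by
  apply List.ext_getElem
  · simp
  · intro l h1 h2
    rw [List.getElem_drop, List.getElem_drop, lst_get, lst_get]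
    have := h (j + l + 1) (by omega)
    simp [this]

lemma splice (N i : ℕ) (D D' : Finset ℕ) (h : ∀ l, l ≠ i → l ≠ i + 1 → (l ∈ D ↔ l ∈ D'))
    (hi : 1 ≤ i) (hiN : i + 1 ≤ N) :
    (lst N D).take (i - 1) ++ decide (i ∈ D') :: decide (i + 1 ∈ D') :: (lst N D).drop (i + 1) =
      lst N D' := by
  have hs := list_split (lst N D') (i - 1) (by rw [lst_length]; omega)
  rw [hs, lst_get, lst_get, take_lst N (i - 1) D D' (fun l hl => h l (by omega) (by omega)),
    drop_lst N (i + 1) D D' (fun l hl => h l (by omega) (by omega))]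
  have e1 : i - 1 + 1 = i := by omega
  have e2 : i - 1 + 2 = i + 1 := by omega
  simp only [e1, e2]

lemma E_list (q a : ℂ) (h1 : a⁻¹ * a⁻¹ = -q) (h2 : a * a = -q⁻¹) (ha : a ≠ 0) (N i : ℕ)
    (hi : 1 ≤ i) (hiN : i + 1 ≤ N) (D : Finset ℕ) (V : List Bool → ℂ) :
    E q i (fun D => V (lst N D)) D =
      A a ((lst N D).getD (i - 1) false) ((lst N D).getD i false) *
        cap a V ((lst N D).take (i - 1)) ((lst N D).drop (i + 1)) := by
  rw [lst_getD N D _ (by omega), lst_getD N D _ (by omega), show i - 1 + 1 = i by omega]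
  have hin : ∀ D' : Finset ℕ, (∀ l, l ≠ i → l ≠ i + 1 → (l ∈ D ↔ l ∈ D')) → ∀ x y,
      (i ∈ D' ↔ x = true) → (i + 1 ∈ D' ↔ y = true) →
      (lst N D).take (i - 1) ++ x :: y :: (lst N D).drop (i + 1) = lst N D' := by
    intro D' h x y hx hy
    rw [← splice N i D D' h hi hiN]
    congr 3
    · cases x <;> simp_all
    · cases y <;> simp_all
  unfold E cap
  by_cases g1 : i ∈ D
  · by_cases g2 : i + 1 ∈ D
    · simp [g1, g2, A]
    · rw [hin D (fun _ _ _ => Iff.rfl) true false (by simp [g1]) (by simp [g2]),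
        hin (insert (i + 1) (D.erase i)) (by
          intro l l1 l2; simp [mem_insert, mem_erase, l1, l2]) false true (by simp) (by simp)]
      simp only [g1, g2, if_true, if_false, decide_true, decide_false, A]
      rw [← h1]
      field_simp
  · by_cases g2 : i + 1 ∈ D
    · rw [hin D (fun _ _ _ => Iff.rfl) false true (by simp [g1]) (by simp [g2]),
        hin (insert i (D.erase (i + 1))) (by
          intro l l1 l2; simp [mem_insert, mem_erase, l1, l2]) true false (by simp) (by simp)]
      simp only [g1, g2, if_true, if_false, decide_true, decide_false, A]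
      rw [sub_eq_add_neg, ← neg_mul, ← h2]
      field_simp
    · simp [g1, g2, A]

/-- eigenvector property of a function on lists -/
def HL (a : ℂ) (n : ℕ) (V : List Bool → ℂ) : Prop :=
  ∀ s : List Bool, s.length = 2 * n + 1 →
    ∑ i ∈ Finset.range (2 * n), A a (s.getD i false) (s.getD (i + 1) false) *
        cap a V (s.take i) (s.drop (i + 2)) = 2 * n * V s

lemma HL.heig {q a : ℂ} (h1 : a⁻¹ * a⁻¹ = -q) (h2 : a * a = -q⁻¹) (ha : a ≠ 0) {n : ℕ}
    {V : List Bool → ℂ} (hV : HL a n V) (D : Finset ℕ) :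
    ∑ i ∈ Icc 1 (2 * n), E q i (fun D => V (lst (2 * n + 1) D)) D =
      2 * n * V (lst (2 * n + 1) D) := by
  rw [← hV _ (lst_length _ _)]
  have : ∑ i ∈ Icc 1 (2 * n), E q i (fun D => V (lst (2 * n + 1) D)) D =
      ∑ i ∈ range (2 * n), E q (i + 1) (fun D => V (lst (2 * n + 1) D)) D := by
    rw [range_eq_Ico, sum_Ico_add' (fun i => E q i (fun D => V (lst (2 * n + 1) D)) D) 0 (2 * n) 1]
    rfl
  rw [this]
  refine sum_congr rfl fun i hi => ?_
  rw [mem_range] at hi
  rw [E_list q a h1 h2 ha (2 * n + 1) (i + 1) (by omega) (by omega) D V]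
  rfl

/-- reflection and spin flip -/
def flipL (s : List Bool) : List Bool := (s.map not).reverse

@[simp] lemma flipL_length (s : List Bool) : (flipL s).length = s.length := by simp [flipL]

lemma flipL_append (s t : List Bool) : flipL (s ++ t) = flipL t ++ flipL s := by
  simp [flipL]

lemma flipL_cons (x : Bool) (s : List Bool) : flipL (x :: s) = flipL s ++ [!x] := by
  simp [flipL]

lemma flipL_flipL (s : List Bool) : flipL (flipL s) = s := by
  unfold flipL
  rw [List.map_reverse, List.reverse_reverse, List.map_map]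
  have : (not ∘ not) = id := by funext b; simp
  rw [this, List.map_id]

lemma A_not (a : ℂ) (x y : Bool) : A a (!y) (!x) = A a x y := by
  cases x <;> cases y <;> rfl

lemma cap_flip (a : ℂ) (V : List Bool → ℂ) (s t : List Bool) :
    cap a (fun s => V (flipL s)) s t = cap a V (flipL t) (flipL s) := by
  unfold cap
  simp only [flipL_append, flipL_cons, List.append_assoc, List.cons_append, List.nil_append,
    Bool.not_false, Bool.not_true]

lemma HL.flip {a : ℂ} {n : ℕ} {V : List Bool → ℂ} (hV : HL a n V) :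
    HL a n (fun s => V (flipL s)) := by
  intro s hs
  rw [← hV (flipL s) (by rw [flipL_length, hs])]
  rw [← Finset.sum_range_reflect]
  refine sum_congr rfl fun i hi => ?_
  rw [mem_range] at hi
  rw [cap_flip]
  have hj : 2 * n - 1 - i + 1 < s.length := by omega
  have e1 : (flipL s).getD i false = !(s.getD (2 * n - 1 - i + 1) false) := by
    rw [List.getD_eq_getElem _ _ (by rw [flipL_length]; omega),
      List.getD_eq_getElem _ _ (by omega)]
    unfold flipL
    rw [List.getElem_reverse, List.getElem_map]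
    congr 2
    simp only [List.length_map]
    omega
  have e2 : (flipL s).getD (i + 1) false = !(s.getD (2 * n - 1 - i) false) := by
    rw [List.getD_eq_getElem _ _ (by rw [flipL_length]; omega),
      List.getD_eq_getElem _ _ (by omega)]
    unfold flipL
    rw [List.getElem_reverse, List.getElem_map]
    congr 2
    simp only [List.length_map]
    omega
  rw [e1, e2, A_not]
  have e3 : flipL (s.drop (2 * n - 1 - i + 2)) = (flipL s).take i := by
    unfold flipL
    rw [List.take_reverse, List.map_drop, List.length_map]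
    congr 2
    omega
  have e4 : flipL (s.take (2 * n - 1 - i)) = (flipL s).drop (i + 2) := by
    unfold flipL
    rw [List.drop_reverse, List.map_take, List.length_map]
    congr 2
    omega
  rw [e3, e4]

theorem HL_one {q a : ℂ} {Φ : List ℂ → List Bool → ℂ} (hq : q ^ 2 + q + 1 = 0)
    (ha : a ^ 2 = - q ^ 2) (hΦ : Sol q a Φ) (n : ℕ) :
    HL a n (Φ (List.replicate (2 * n + 1) 1)) :=
  fun s hs => Pool.Agent.H72.Cardy.heig_one hq ha hΦ n s hs

/-- scalars -/
lemma a_facts {q a : ℂ} (hq : q ^ 2 + q + 1 = 0) (ha : a ^ 2 = - q ^ 2) :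
    a ≠ 0 ∧ q ≠ 0 ∧ a⁻¹ * a⁻¹ = -q ∧ a * a = -q⁻¹ ∧ a⁻¹ * a⁻¹ + a * a = 1 := by
  have hq0 : q ≠ 0 := by
    rintro rfl
    norm_num at hq
  have ha0 : a ≠ 0 := by
    rintro rfl
    apply hq0
    have : q ^ 2 = 0 := by linear_combination ha
    exact pow_eq_zero_iff (two_ne_zero) |>.1 this
  have hq3 : q ^ 3 = 1 := by linear_combination (q - 1) * hq
  have hqi : q⁻¹ = q ^ 2 := by
    field_simp
    linear_combination -hq3
  have h2 : a * a = -q⁻¹ := by rw [hqi]; linear_combination ha
  have h1 : a⁻¹ * a⁻¹ = -q := by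
    rw [← mul_inv, h2, inv_neg, inv_inv]
  refine ⟨ha0, hq0, h1, h2, ?_⟩
  rw [h1, h2, hqi]; linear_combination -hq

end Pool.Agent.H72.CardyP
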