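import Pool.Agent.H72.Cardy.AsmB

set_option autoImplicit false
open Finset

/-! Assembly, part C: link covectors in list form, Gram form of one-defect link states. -/

namespace Pool.Agent.H72.CardyP

open Pool.Agent.H75.Exact Pool.Agent.H75.Exact.Lk
open Pool.Agent.H72.Cardy (sumC cap capR A Sol)

lemma fn_zero (x : List Bool) : fn x 0 = false := rfl

lemma fn_succ (x : List Bool) (i : ℕ) : fn x (i + 1) = x.getD i false := by
  unfold fn
  rw [if_neg (by omega), Nat.add_sub_cancel]

lemma fn_pos (x : List Bool) (i : ℕ) (hi : 1 ≤ i) : fn x i = x.getD (i - 1) false := by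
  unfold fn
  rw [if_neg (by omega)]

lemma getD_app_left (s t : List Bool) (i : ℕ) (h : i < s.length) :
    (s ++ t).getD i false = s.getD i false := by
  rw [List.getD_append _ _ _ _ h]

lemma getD_app_right (s t : List Bool) (i : ℕ) (h : s.length ≤ i) :
    (s ++ t).getD i false = t.getD (i - s.length) false := by
  rw [List.getD_append_right _ _ _ _ h]

lemma fn_at (s t : List Bool) (c d : Bool) : fn (s ++ c :: d :: t) (s.length + 1) = c := by
  rw [fn_succ, getD_app_right _ _ _ le_rfl]
  simp

lemma fn_at' (s t : List Bool) (c d : Bool) : fn (s ++ c :: d :: t) (s.length + 1 + 1) = d := by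
  rw [fn_succ, getD_app_right _ _ _ (by omega)]
  simp

lemma skip_fn (s t : List Bool) (c d : Bool) :
    skip (s.length + 1) (fn (s ++ c :: d :: t)) = fn (s ++ t) := by
  funext l
  unfold skip
  rcases Nat.eq_zero_or_pos l with h0 | h0
  · subst h0
    rw [if_pos (by omega), fn_zero, fn_zero]
  · split_ifs with h
    · rw [fn_pos _ _ h0, fn_pos _ _ h0, getD_app_left _ _ _ (by omega),
        getD_app_left _ _ _ (by omega)]
    · rw [fn_pos _ _ (by omega), fn_pos _ _ h0, getD_app_right _ _ _ (by omega),
        getD_app_right _ _ _ (by omega), show l + 2 - 1 - s.length = (l - 1 - s.length) + 2 by omega]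
      rfl

lemma put_fn (s t : List Bool) (c d x : Bool) :
    put (s.length + 1) x (fn (s ++ c :: d :: t)) = fn (s ++ x :: (!x) :: t) := by
  funext l
  unfold put
  split_ifs with h1 h2
  · subst h1; rw [fn_at]
  · subst h2; rw [fn_at']
  · rcases Nat.eq_zero_or_pos l with h0 | h0
    · subst h0; rfl
    · rw [fn_pos _ _ h0, fn_pos _ _ h0]
      rcases Nat.lt_or_ge (l - 1) s.length with h3 | h3
      · rw [getD_app_left _ _ _ h3, getD_app_left _ _ _ h3]
      · rw [getD_app_right _ _ _ h3, getD_app_right _ _ _ h3,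
          show l - 1 - s.length = (l - 3 - s.length) + 2 by omega]
        rfl

lemma A_eq (a : ℂ) (c d : Bool) : A a c d = if d = !c then wt a c else 0 := by
  cases c <;> cases d <;> simp [A, wt]

lemma cup_fn (a : ℂ) (B : Cov) (s t : List Bool) (c d : Bool) :
    Lk.cup a (s.length + 1) B (fn (s ++ c :: d :: t)) = A a c d * B (fn (s ++ t)) := by
  unfold Lk.cup
  rw [fn_at, fn_at', skip_fn, A_eq]
  split_ifs <;> simp

lemma EE_fn (a : ℂ) (B : Cov) (s t : List Bool) (c d : Bool) :
    EE a (s.length + 1) B (fn (s ++ c :: d :: t)) =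
      A a c d * cap a (fun x => B (fn x)) s t := by
  unfold EE cap
  rw [fn_at, fn_at', put_fn, put_fn, A_eq]
  split_ifs <;> simp

/-- contraction of two functions at the position after `s` -/
lemma sumC_split (k l : ℕ) (f : List Bool → ℂ) :
    sumC (k + 2 + l) f = sumC k fun s => sumC l fun t =>
      f (s ++ true :: false :: t) + f (s ++ false :: true :: t) +
        (f (s ++ true :: true :: t) + f (s ++ false :: false :: t)) := by
  rw [show k + 2 + l = k + (2 + l) by omega, sumC_add]
  apply sumC_congr
  intro s _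
  rw [show 2 + l = l + 1 + 1 by omega, sumC, sumC, sumC, ← sumC_addf, ← sumC_addf, ← sumC_addf]
  apply sumC_congr
  intro t _
  ring

/-- pairing of a function on lists with a covector -/
noncomputable def PL (N : ℕ) (V : List Bool → ℂ) (B : Cov) : ℂ := sumC N fun x => V x * B (fn x)

lemma PL_cup (a : ℂ) (k l : ℕ) (V : List Bool → ℂ) (B : Cov) :
    PL (k + 2 + l) V (Lk.cup a (k + 1) B) =
      sumC k fun s => sumC l fun t => cap a V s t * B (fn (s ++ t)) := by
  unfold PL
  rw [sumC_split]
  apply sumC_congr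
  intro s hs
  apply sumC_congr
  intro t _
  rw [← hs, cup_fn, cup_fn, cup_fn, cup_fn]
  simp only [A, cap]
  ring

lemma RepP.step' {a : ℂ} {σ : Bool} {n : ℕ} {B : Cov} {c : Setoid ℕ} (h : RepP a σ n B c) :
    ∀ x : List Bool, x.length = 2 * n + 1 → x.count true ≠ (if σ then n + 1 else n) →
      B (fn x) = 0 := by
  induction h with
  | base =>
    intro x hx hc
    rw [show 2 * 0 + 1 = 1 by rfl, List.length_eq_one_iff] at hx
    obtain ⟨y, rfl⟩ := hx
    have : fn [y] 1 = y := rfl
    simp only [this]
    cases y <;> cases σ <;> simp_all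
  | @cup n B c j h1 h2 h ih =>
    intro x hx hc
    obtain ⟨k, rfl⟩ : ∃ k, j = k + 1 := ⟨j - 1, by omega⟩
    have hs := list_split x k (by omega)
    have hl : (x.take k).length = k := by rw [List.length_take]; omega
    have hl2 : (x.drop (k + 2)).length + k = 2 * n + 1 := by rw [List.length_drop]; omega
    generalize x.take k = s at hs hl
    generalize x.drop (k + 2) = t at hs hl2
    generalize x[k] = c1 at hs
    generalize x[k + 1] = c2 at hs
    subst hs
    rw [← hl, cup_fn]
    by_cases hA : A a c1 c2 = 0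
    · rw [hA, zero_mul]
    · rw [ih (s ++ t) (by rw [List.length_append]; omega), mul_zero]
      intro h3
      apply hc
      rw [List.count_append, List.count_cons, List.count_cons]
      rw [List.count_append] at h3
      cases c1 <;> cases c2 <;> simp [A] at hA ⊢ <;> split_ifs at h3 ⊢ <;> omega

/-- Gram form of one-defect link states -/
theorem gram {a : ℂ} (ha0 : a ≠ 0) (σ : Bool)
    (hstep : ∀ (n : ℕ) (B : Cov) (c : Setoid ℕ), RepP a σ n B c → ∀ i, 1 ≤ i → i ≤ 2 * n →
      ∃ B₀ c₀, EE a i B = Lk.cup a i B₀ ∧ RepP a σ (n - 1) B₀ c₀)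
    {n : ℕ} {B B' : Cov} {c c' : Setoid ℕ} (h : RepP a σ n B c) (h' : RepP a σ n B' c') :
    PL (2 * n + 1) (fun x => B (fn x)) B' = 1 := by
  induction h' generalizing B c with
  | base =>
    cases h
    unfold PL
    rw [show 2 * 0 + 1 = 1 by rfl, sumC_one]
    have h1 : ∀ y, fn [y] 1 = y := fun y => rfl
    simp only [h1]
    cases σ <;> simp
  | @cup n B' c' j h1 h2 h' ih =>
    obtain ⟨k, rfl⟩ : ∃ k, j = k + 1 := ⟨j - 1, by omega⟩
    obtain ⟨l, hl⟩ : ∃ l, 2 * (n + 1) + 1 = k + 2 + l := ⟨2 * n + 1 - k, by omega⟩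
    rw [hl, PL_cup]
    obtain ⟨B₀, c₀, e1, e2⟩ := hstep (n + 1) B c h (k + 1) (by omega) (by omega)
    rw [Nat.add_sub_cancel] at e2
    have hcap : ∀ s t : List Bool, s.length = k → cap a (fun x => B (fn x)) s t = B₀ (fn (s ++ t)) := by
      intro s t hs
      have := congrFun e1 (fn (s ++ true :: false :: t))
      rw [← hs, EE_fn, cup_fn] at this
      simpa [A, ha0] using this
    have := ih e2
    unfold PL at this
    rw [show 2 * n + 1 = k + l by omega, sumC_add] at this
    rw [← this]
    apply sumC_congr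
    intro s hs
    apply sumC_congr
    intro t _
    rw [hcap s t hs]

end Pool.Agent.H72.CardyP
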