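import Pool.Agent.H72.Cardy.PDefs

/-! Uniqueness of the eigenvector of `∑ e_i` in the spin sectors `± 1/2`: link states with `d` defects
of arbitrary spins, maximum principle, induction on `d`. -/

set_option autoImplicit false
open Finset

namespace Pool.Agent.H72.CardyP

open Pool.Agent.H75.Exact Pool.Agent.H75.Exact.Lk

open Classical in
/-- `d` defects with spins `f 1, …, f d`, no arcs -/
noncomputable def bsD (d : ℕ) (f : ℕ → Bool) : Cov := fun s =>
  if ∀ k ∈ Icc 1 d, s k = f k then 1 else 0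

/-- link covectors with `d` defects of spins `f 1, …, f d` and `m` arcs -/
inductive RepD (a : ℂ) (d : ℕ) (f : ℕ → Bool) : ℕ → Cov → Prop
  | base : RepD a d f 0 (bsD d f)
  | cup {m : ℕ} {B : Cov} (j : ℕ) (h1 : 1 ≤ j) (h2 : j ≤ d + 2 * m + 1)
      (h : RepD a d f m B) : RepD a d f (m + 1) (Lk.cup a j B)

lemma bsD_put (d : ℕ) (f : ℕ → Bool) (i : ℕ) (h1 : 1 ≤ i) (h2 : i ≤ d + 1) (x : Bool) (s : ℕ → Bool) :
    bsD (d + 2) f (put i x s) =
      if x = f i ∧ f (i + 1) = !(f i) then bsD d (skip i f) (skip i s) else 0 := by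
  have key : (∀ k ∈ Icc 1 (d + 2), put i x s k = f k) ↔
      (x = f i ∧ f (i + 1) = !(f i)) ∧ ∀ k ∈ Icc 1 d, skip i s k = skip i f k := by
    constructor
    · intro h
      have e1 := h i (by rw [Finset.mem_Icc]; omega)
      have e2 := h (i + 1) (by rw [Finset.mem_Icc]; omega)
      rw [put_at] at e1
      rw [put_succ] at e2
      refine ⟨⟨e1, by rw [← e2, e1]⟩, ?_⟩
      intro k hk
      rw [Finset.mem_Icc] at hk
      unfold skip
      split_ifs with hki
      · have := h k (by rw [Finset.mem_Icc]; omega)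
        rwa [put_of_ne _ _ _ _ (by omega) (by omega)] at this
      · have := h (k + 2) (by rw [Finset.mem_Icc]; omega)
        rwa [put_of_ne _ _ _ _ (by omega) (by omega)] at this
    · rintro ⟨⟨e1, e2⟩, h⟩ k hk
      rw [Finset.mem_Icc] at hk
      by_cases hk1 : k = i
      · subst hk1; rw [put_at, e1]
      by_cases hk2 : k = i + 1
      · subst hk2; rw [put_succ, e2, e1]
      rw [put_of_ne _ _ _ _ hk1 hk2]
      by_cases hk3 : k < i
      · have := h k (by rw [Finset.mem_Icc]; omega)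
        unfold skip at this
        rwa [if_pos hk3, if_pos hk3] at this
      · obtain ⟨k', rfl⟩ : ∃ k', k = k' + 2 := ⟨k - 2, by omega⟩
        have := h k' (by rw [Finset.mem_Icc]; omega)
        unfold skip at this
        rwa [if_neg (by omega), if_neg (by omega)] at this
  unfold bsD
  by_cases hA : x = f i ∧ f (i + 1) = !(f i)
  · by_cases hB : ∀ k ∈ Icc 1 d, skip i s k = skip i f k
    · rw [if_pos (key.2 ⟨hA, hB⟩), if_pos hA, if_pos hB]
    · rw [if_neg (fun h => hB (key.1 h).2), if_pos hA, if_neg hB]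
  · rw [if_neg (fun h => hA (key.1 h).1), if_neg hA]

lemma EE_bsD (a : ℂ) (d : ℕ) (f : ℕ → Bool) (i : ℕ) (h1 : 1 ≤ i) (h2 : i ≤ d + 1) :
    EE a i (bsD (d + 2) f) =
      (if f (i + 1) = !(f i) then wt a (f i) else 0) • Lk.cup a i (bsD d (skip i f)) := by
  funext s
  simp only [EE, Pi.smul_apply, smul_eq_mul, Lk.cup]
  rw [bsD_put d f i h1 h2, bsD_put d f i h1 h2]
  by_cases h : s (i + 1) = !(s i)
  · rw [if_pos h, if_pos h]
    by_cases hf : f (i + 1) = !(f i)
    · rw [if_pos hf]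
      cases hi : f i
      · simp [hi, hf, wt]
        split_ifs <;> ring
      · simp [hi, hf, wt]
        split_ifs <;> ring
    · simp [hf]
  · rw [if_neg h, if_neg h, mul_zero]

lemma RepD.cupOf {a : ℂ} (ha0 : a ≠ 0) (ha : a⁻¹ * a⁻¹ + a * a = 1) {d : ℕ} {f : ℕ → Bool} {m : ℕ}
    {B : Cov} (h : RepD a d f m B) : ∀ i, 1 ≤ i → i + 1 ≤ d + 2 * m →
      (∃ m₀ B₀, m = m₀ + 1 ∧ RepD a d f m₀ B₀ ∧ EE a i B = Lk.cup a i B₀) ∨
      ∃ (d' : ℕ) (f' : ℕ → Bool) (t : ℂ) (B₀ : Cov), d = d' + 2 ∧ RepD a d' f' m B₀ ∧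
        EE a i B = t • Lk.cup a i B₀ := by
  induction h with
  | base =>
    intro i h1 h2
    right
    obtain ⟨d', rfl⟩ : ∃ d', d = d' + 2 := ⟨d - 2, by omega⟩
    exact ⟨d', skip i f, _, _, rfl, RepD.base, EE_bsD a d' f i h1 (by omega)⟩
  | @cup m B j hj1 hj2 hB ih =>
    intro i h1 h2
    rcases five i j with h | h | h | h | ⟨i', h, h'⟩
    · obtain ⟨j', rfl⟩ : ∃ j', j = j' + 2 := ⟨j - 2, by omega⟩
      rcases ih i h1 (by omega) with ⟨m₀, B₀, e, g1, g2⟩ | ⟨d', f', t, B₀, e, g1, g2⟩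
      · left
        refine ⟨m, Lk.cup a j' B₀, rfl, ?_, ?_⟩
        · subst e
          exact RepD.cup j' (by omega) (by omega) g1
        · rw [EE_cup_lt a i _ h, g2, cup_cup a i j' (by omega)]
      · right
        refine ⟨d', f', t, Lk.cup a j' B₀, e, RepD.cup j' (by omega) (by omega) g1, ?_⟩
        rw [EE_cup_lt a i _ h, g2, cup_smul, cup_cup a i j' (by omega)]
    · subst h
      exact Or.inl ⟨m, B, rfl, hB, EE_cup_pred a ha0 _ _⟩
    · subst h
      exact Or.inl ⟨m, B, rfl, hB, EE_cup_self a ha _ _⟩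
    · subst h
      exact Or.inl ⟨m, B, rfl, hB, EE_cup_succ a ha0 _ _⟩
    · subst h
      rcases ih i' (by omega) (by omega) with ⟨m₀, B₀, e, g1, g2⟩ | ⟨d', f', t, B₀, e, g1, g2⟩
      · left
        refine ⟨m, Lk.cup a j B₀, rfl, ?_, ?_⟩
        · subst e
          exact RepD.cup j (by omega) (by omega) g1
        · rw [EE_cup_gt a i' j h', g2, cup_cup a j i' h']
      · right
        refine ⟨d', f', t, Lk.cup a j B₀, e, RepD.cup j (by omega) (by omega) g1, ?_⟩
        rw [EE_cup_gt a i' j h', g2, cup_smul, cup_cup a j i' h']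

lemma RepD.step {a : ℂ} (ha0 : a ≠ 0) (ha : a⁻¹ * a⁻¹ + a * a = 1) {d : ℕ} {f : ℕ → Bool} {m : ℕ}
    {B : Cov} (h : RepD a d f m B) (i : ℕ) (h1 : 1 ≤ i) (h2 : i + 1 ≤ d + 2 * m) :
    RepD a d f m (EE a i B) ∨
      ∃ (d' : ℕ) (f' : ℕ → Bool) (t : ℂ) (B' : Cov), d = d' + 2 ∧ RepD a d' f' (m + 1) B' ∧
        EE a i B = t • B' := by
  rcases h.cupOf ha0 ha i h1 h2 with ⟨m₀, B₀, e, g1, g2⟩ | ⟨d', f', t, B₀, e, g1, g2⟩
  · left
    subst e
    rw [g2]
    exact RepD.cup i h1 (by omega) g1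
  · right
    exact ⟨d', f', t, _, e, RepD.cup i h1 (by omega) g1, g2⟩

lemma RepD.fin (a : ℂ) (d : ℕ) (f : ℕ → Bool) (m : ℕ) : {B : Cov | RepD a d f m B}.Finite := by
  induction m with
  | zero =>
    apply (Set.finite_singleton (bsD d f)).subset
    intro B hB
    cases hB
    rfl
  | succ m ih =>
    apply ((Finset.Icc 1 (d + 2 * m + 1)).finite_toSet.biUnion
      (fun j _ => ih.image (Lk.cup a j))).subset
    intro B hB
    cases hB with
    | @cup _ B' j h1 h2 h =>
      simp only [Set.mem_iUnion]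
      exact ⟨j, by simp [h1, h2], B', h, rfl⟩

/-- the word `1, 3, …, 2n-1` -/
def wO : ℕ → List ℕ
  | 0 => []
  | n + 1 => 1 :: (wO n).map (· + 2)

lemma wO_mem (n : ℕ) : ∀ i ∈ wO n, 1 ≤ i ∧ i + 1 ≤ 2 * n := by
  induction n with
  | zero => intro i hi; simp [wO] at hi
  | succ n ih =>
    intro i hi
    simp only [wO, List.mem_cons, List.mem_map] at hi
    rcases hi with rfl | ⟨k, hk, rfl⟩
    · omega
    · have := ih k hk; omega

lemma foldl_cupO (a : ℂ) (w : List ℕ) (hw : ∀ i ∈ w, 1 ≤ i) (B : Cov) :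
    (w.map (· + 2)).foldl (fun y i => EE a i y) (Lk.cup a 1 B) =
      Lk.cup a 1 (w.foldl (fun y i => EE a i y) B) := by
  induction w generalizing B with
  | nil => rfl
  | cons i w ih =>
    rw [List.map_cons, List.foldl_cons, List.foldl_cons, EE_cup_gt a i 1 (hw i (by simp)),
      ih (fun k hk => hw k (by simp [hk]))]

lemma foldl_smulO (a : ℂ) (w : List ℕ) (t : ℂ) (B : Cov) :
    w.foldl (fun y i => EE a i y) (t • B) = t • w.foldl (fun y i => EE a i y) B := by
  induction w generalizing B with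
  | nil => rfl
  | cons i w ih => rw [List.foldl_cons, List.foldl_cons, EE_smul, ih]

noncomputable def cO (a : ℂ) (B : Cov) : ℕ → Cov
  | 0 => B
  | n + 1 => Lk.cup a 1 (cO a B n)

lemma cO_rep {a : ℂ} (f : ℕ → Bool) (n : ℕ) : RepD a 1 f n (cO a (bsD 1 f) n) := by
  induction n with
  | zero => exact RepD.base
  | succ n ih => exact RepD.cup 1 (by omega) (by omega) ih

/-- one defect: the word leads to a fixed state -/
lemma RepD.word1 {a : ℂ} (ha0 : a ≠ 0) (ha : a⁻¹ * a⁻¹ + a * a = 1) (f : ℕ → Bool) (n : ℕ) :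
    ∀ B : Cov, RepD a 1 f n B →
      (wO n).foldl (fun y i => EE a i y) B = cO a (bsD 1 f) n := by
  induction n with
  | zero => intro B hB; cases hB; rfl
  | succ n ih =>
    intro B hB
    rcases hB.cupOf ha0 ha 1 le_rfl (by omega) with ⟨m₀, B₀, e, g1, g2⟩ | ⟨d', f', t, B₀, e, g1, g2⟩
    · obtain rfl : n = m₀ := by omega
      simp only [wO, List.foldl_cons]
      rw [g2, foldl_cupO a _ (fun i hi => (wO_mem n i hi).1), ih B₀ g1]
      rfl
    · omega

/-- in general the word leads to a multiple of a one-defect state -/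
lemma RepD.wordN {a : ℂ} (ha0 : a ≠ 0) (ha : a⁻¹ * a⁻¹ + a * a = 1) (n : ℕ) :
    ∀ (d : ℕ) (f : ℕ → Bool) (m : ℕ) (B : Cov), d + 2 * m = 2 * n + 1 → RepD a d f m B →
      ∃ (t : ℂ) (f' : ℕ → Bool) (B' : Cov), RepD a 1 f' n B' ∧
        (wO n).foldl (fun y i => EE a i y) B = t • B' := by
  induction n with
  | zero =>
    intro d f m B hd hB
    obtain rfl : m = 0 := by omega
    obtain rfl : d = 1 := by omega
    exact ⟨1, f, B, hB, by simp [wO]⟩
  | succ n ih =>
    intro d f m B hd hB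
    have key : ∃ (d' : ℕ) (f' : ℕ → Bool) (m' : ℕ) (t : ℂ) (B₀ : Cov), d' + 2 * m' = 2 * n + 1 ∧
        RepD a d' f' m' B₀ ∧ EE a 1 B = t • Lk.cup a 1 B₀ := by
      rcases hB.cupOf ha0 ha 1 le_rfl (by omega) with ⟨m₀, B₀, e, g1, g2⟩ | ⟨d', f', t, B₀, e, g1, g2⟩
      · exact ⟨d, f, m₀, 1, B₀, by omega, g1, by rw [g2, one_smul]⟩
      · exact ⟨d', f', m, t, B₀, by omega, g1, g2⟩
    obtain ⟨d', f', m', t, B₀, e, g1, g2⟩ := key
    obtain ⟨t', f'', B', g3, g4⟩ := ih d' f' m' B₀ e g1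
    refine ⟨t * t', f'', Lk.cup a 1 B', RepD.cup 1 le_rfl (by omega) g3, ?_⟩
    simp only [wO, List.foldl_cons]
    rw [g2, foldl_smulO, foldl_cupO a _ (fun i hi => (wO_mem n i hi).1), g4, cup_smul, smul_smul]

/-! ### counting -/

def dn (s : ℕ → Bool) : ℕ → ℕ
  | 0 => 0
  | N + 1 => dn s N + (if s (N + 1) = true then 1 else 0)

lemma dn_congr (s s' : ℕ → Bool) (N : ℕ) (h : ∀ k, 1 ≤ k → k ≤ N → s k = s' k) :
    dn s N = dn s' N := by
  induction N with
  | zero => rfl
  | succ N ih =>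
    unfold dn
    rw [ih (fun k h1 h2 => h k h1 (by omega)), h (N + 1) (by omega) le_rfl]

lemma dn_skip (s : ℕ → Bool) (j r : ℕ) (h : s (j + 1 + 1) = !(s (j + 1))) :
    dn s (j + r + 2) = dn (skip (j + 1) s) (j + r) + 1 := by
  induction r with
  | zero =>
    have e : dn (skip (j + 1) s) (j + 0) = dn s j := by
      apply dn_congr
      intro k h1 h2
      unfold skip
      rw [if_pos (by omega)]
    rw [e]
    change dn s j + (if s (j + 1) = true then 1 else 0) + (if s (j + 1 + 1) = true then 1 else 0) = _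
    rw [h]
    cases s (j + 1) <;> simp
  | succ r ih =>
    have e : skip (j + 1) s (j + r + 1) = s (j + r + 2 + 1) := by
      unfold skip
      rw [if_neg (by omega)]
    change dn s (j + r + 2) + (if s (j + r + 2 + 1) = true then 1 else 0) =
      dn (skip (j + 1) s) (j + r) + (if skip (j + 1) s (j + r + 1) = true then 1 else 0) + 1
    rw [ih, e]
    omega

lemma dn_card (s : ℕ → Bool) (N : ℕ) : dn s N = ((Icc 1 N).filter fun k => s k = true).card := by
  induction N with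
  | zero => rfl
  | succ N ih =>
    unfold dn
    rw [ih, ← Finset.insert_Icc_right_eq_Icc_add_one (by omega : 1 ≤ N + 1), Finset.filter_insert]
    split_ifs with h
    · rw [Finset.card_insert_of_notMem (by simp)]
    · rfl

lemma dn_ind (D : Finset ℕ) (N : ℕ) (hD : D ⊆ Icc 1 N) : dn (ind D) N = D.card := by
  rw [dn_card]
  congr 1
  ext k
  rw [Finset.mem_filter]
  constructor
  · rintro ⟨_, h⟩
    simpa [ind] using h
  · intro h
    exact ⟨hD h, by simpa [ind] using h⟩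

lemma RepD.count {a : ℂ} {d : ℕ} {f : ℕ → Bool} {m : ℕ} {B : Cov} (h : RepD a d f m B) :
    ∀ s, B s ≠ 0 → dn s (d + 2 * m) = m + dn f d := by
  induction h with
  | base =>
    intro s hs
    unfold bsD at hs
    have h : ∀ k ∈ Icc 1 d, s k = f k := by
      by_contra hc
      exact hs (if_neg hc)
    rw [mul_zero, add_zero, zero_add]
    exact dn_congr s f d (fun k h1 h2 => h k (by rw [Finset.mem_Icc]; exact ⟨h1, h2⟩))
  | @cup m B j hj1 hj2 hB ih =>
    intro s hs
    unfold Lk.cup at hs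
    obtain ⟨j', rfl⟩ : ∃ j', j = j' + 1 := ⟨j - 1, by omega⟩
    have h : s (j' + 1 + 1) = !(s (j' + 1)) := by
      by_contra hc
      exact hs (if_neg hc)
    rw [if_pos h] at hs
    have h2 := ih _ (right_ne_zero_of_mul hs)
    obtain ⟨r, hr⟩ : ∃ r, d + 2 * m = j' + r := ⟨d + 2 * m - j', by omega⟩
    have e := dn_skip s j' r h
    rw [show d + 2 * (m + 1) = j' + r + 2 by omega, e, ← hr, h2]
    omega

/-! ### pairing -/

lemma GG_smul (n j : ℕ) (Ψ : Finset ℕ → ℂ) (t : ℂ) (B : Cov) :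
    GG n j Ψ (t • B) = t * GG n j Ψ B := by
  unfold GG
  rw [Finset.mul_sum]
  refine Finset.sum_congr rfl fun D _ => ?_
  simp only [Pi.smul_apply, smul_eq_mul]
  ring

lemma sw_mem_secj (n j i : ℕ) (h1 : 1 ≤ i) (h2 : i ≤ 2 * n) (D : Finset ℕ)
    (hD : D ∈ powersetCard j (Icc 1 (2 * n + 1))) : Lk.sw i D ∈ powersetCard j (Icc 1 (2 * n + 1)) := by
  rw [Finset.mem_powersetCard] at hD ⊢
  refine ⟨?_, by rw [Lk.sw, Finset.card_map]; exact hD.2⟩
  intro l hl
  rw [mem_sw, Equiv.swap_apply_def] at hl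
  rw [Finset.mem_Icc]
  split_ifs at hl with h3 h4
  · omega
  · omega
  · have := hD.1 hl
    rw [Finset.mem_Icc] at this
    exact this

lemma E_symmj (q : ℂ) (n j i : ℕ) (h1 : 1 ≤ i) (h2 : i ≤ 2 * n) (f g : Finset ℕ → ℂ) :
    ∑ D ∈ powersetCard j (Icc 1 (2 * n + 1)), E q i f D * g D =
      ∑ D ∈ powersetCard j (Icc 1 (2 * n + 1)), f D * E q i g D := by
  have e : ∑ D ∈ powersetCard j (Icc 1 (2 * n + 1)), od i D * f (Lk.sw i D) * g D =
      ∑ D ∈ powersetCard j (Icc 1 (2 * n + 1)), od i D * f D * g (Lk.sw i D) := by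
    refine Finset.sum_nbij' (Lk.sw i) (Lk.sw i) (fun D hD => sw_mem_secj n j i h1 h2 D hD)
      (fun D hD => sw_mem_secj n j i h1 h2 D hD) (fun D _ => sw_sw i D) (fun D _ => sw_sw i D) ?_
    intro D _
    rw [od_sw, sw_sw]
  calc ∑ D ∈ powersetCard j (Icc 1 (2 * n + 1)), E q i f D * g D
      = ∑ D ∈ powersetCard j (Icc 1 (2 * n + 1)), dg q i D * f D * g D +
        ∑ D ∈ powersetCard j (Icc 1 (2 * n + 1)), od i D * f (Lk.sw i D) * g D := by
        rw [← Finset.sum_add_distrib]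
        refine Finset.sum_congr rfl fun D _ => ?_
        rw [E_eq]; ring
    _ = ∑ D ∈ powersetCard j (Icc 1 (2 * n + 1)), dg q i D * f D * g D +
        ∑ D ∈ powersetCard j (Icc 1 (2 * n + 1)), od i D * f D * g (Lk.sw i D) := by rw [e]
    _ = _ := by
        rw [← Finset.sum_add_distrib]
        refine Finset.sum_congr rfl fun D _ => ?_
        rw [E_eq]; ring

lemma harmonicj (q a : ℂ) (h1 : a⁻¹ * a⁻¹ = -q) (h2 : a * a = -q⁻¹) (ha : a ≠ 0) (n j : ℕ)
    (Ψ : Finset ℕ → ℂ) (hΨ : ∀ D ⊆ Icc 1 (2 * n + 1), D.card = j →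
      ∑ i ∈ Icc 1 (2 * n), E q i Ψ D = 2 * n * Ψ D) (B : Cov) :
    ∑ i ∈ Icc 1 (2 * n), GG n j Ψ (EE a i B) = 2 * n * GG n j Ψ B := by
  have e : ∀ i ∈ Icc 1 (2 * n), GG n j Ψ (EE a i B) =
      ∑ D ∈ powersetCard j (Icc 1 (2 * n + 1)), B (ind D) * E q i Ψ D := by
    intro i hi
    rw [Finset.mem_Icc] at hi
    unfold GG
    rw [← E_symmj q n j i hi.1 hi.2 (fun D => B (ind D)) Ψ]
    refine Finset.sum_congr rfl fun D _ => ?_
    rw [EE_ind q a h1 h2 ha]
    ring
  rw [Finset.sum_congr rfl e, Finset.sum_comm]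
  unfold GG
  rw [Finset.mul_sum]
  refine Finset.sum_congr rfl fun D hD => ?_
  rw [Finset.mem_powersetCard] at hD
  rw [← Finset.mul_sum, hΨ D hD.1 hD.2]
  ring

lemma aq (q a : ℂ) (hq : q ^ 2 + q + 1 = 0) (ha : a ^ 2 = -q ^ 2) :
    a ≠ 0 ∧ a⁻¹ * a⁻¹ = -q ∧ a * a = -q⁻¹ ∧ a⁻¹ * a⁻¹ + a * a = 1 := by
  have hq0 : q ≠ 0 := by
    rintro rfl
    norm_num at hq
  have ha0 : a ≠ 0 := by
    rintro rfl
    apply hq0
    have : q ^ 2 = 0 := by linear_combination ha
    exact pow_eq_zero_iff (two_ne_zero) |>.1 this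
  have hq3 : q ^ 3 = 1 := by linear_combination (q - 1) * hq
  have hqi : q⁻¹ = q ^ 2 := by
    field_simp
    linear_combination -hq3
  have h2 : a * a = -q⁻¹ := by rw [hqi]; linear_combination ha
  have h1 : a⁻¹ * a⁻¹ = -q := by
    rw [← mul_inv, h2, inv_neg, inv_inv]
  have hl : a⁻¹ * a⁻¹ + a * a = 1 := by
    rw [h1, h2, hqi]; linear_combination -hq
  exact ⟨ha0, h1, h2, hl⟩

lemma RepP.toD {a : ℂ} {σ : Bool} {n : ℕ} {B : Cov} {c : Setoid ℕ} (h : RepP a σ n B c) :
    RepD a 1 (fun _ => σ) n B := by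
  induction h with
  | base =>
    have : (fun s : ℕ → Bool => if s 1 = σ then (1 : ℂ) else 0) = bsD 1 (fun _ => σ) := by
      funext s
      simp [bsD]
    rw [this]
    exact RepD.base
  | @cup n B c j h1 h2 h ih => exact RepD.cup j h1 (by omega) ih

/-- all one-defect states pair to the same value -/
lemma RepD.const (q a : ℂ) (hq : q ^ 2 + q + 1 = 0) (ha : a ^ 2 = -q ^ 2) (n j : ℕ)
    (f : ℕ → Bool) (Ψ : Finset ℕ → ℂ)
    (hΨ : ∀ D ⊆ Icc 1 (2 * n + 1), D.card = j →
      ∑ i ∈ Icc 1 (2 * n), E q i Ψ D = 2 * n * Ψ D)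
    (B : Cov) (hB : RepD a 1 f n B) :
    GG n j Ψ B = GG n j Ψ (cO a (bsD 1 f) n) := by
  obtain ⟨ha0, h1, h2, hl⟩ := aq q a hq ha
  set V := GG n j Ψ (cO a (bsD 1 f) n) with hV
  have hharm := harmonicj q a h1 h2 ha0 n j Ψ hΨ
  have := maxprin {B : Cov | RepD a 1 f n B} (RepD.fin a 1 f n) (2 * n) (EE a)
    (fun B => GG n j Ψ B - V) ?_ ?_ (wO n) ?_ ?_ B hB
  · exact sub_eq_zero.1 this
  · intro B _
    rw [Finset.sum_sub_distrib, hharm B, Finset.sum_const, Nat.card_Icc, nsmul_eq_mul]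
    push_cast
    ring
  · intro B hB i hi
    rw [Finset.mem_Icc] at hi
    rcases RepD.step ha0 hl hB i hi.1 (by omega) with h | ⟨d', f', t, B', e, _⟩
    · exact Or.inl h
    · omega
  · intro i hi
    rw [Finset.mem_Icc]
    have := wO_mem n i hi
    omega
  · intro B hB _
    rw [RepD.word1 ha0 hl f n B hB, hV, sub_self]

/-- all closures are equal -/
theorem closure_const (q a : ℂ) (hq : q ^ 2 + q + 1 = 0) (ha : a ^ 2 = -q ^ 2) (n : ℕ) (σ : Bool)
    (Ψ : Finset ℕ → ℂ)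
    (hΨ : ∀ D ⊆ Icc 1 (2 * n + 1), D.card = (if σ then n + 1 else n) →
      ∑ i ∈ Icc 1 (2 * n), E q i Ψ D = 2 * n * Ψ D)
    (B B' : Cov) (c c' : Setoid ℕ) (hB : RepP a σ n B c) (hB' : RepP a σ n B' c') :
    GG n (if σ then n + 1 else n) Ψ B = GG n (if σ then n + 1 else n) Ψ B' := by
  rw [RepD.const q a hq ha n _ _ Ψ hΨ B hB.toD, RepD.const q a hq ha n _ _ Ψ hΨ B' hB'.toD]

lemma bsD_congr (d : ℕ) (f g : ℕ → Bool) (h : ∀ k ∈ Icc 1 d, f k = g k) : bsD d f = bsD d g := by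
  funext s
  have key : (∀ k ∈ Icc 1 d, s k = f k) ↔ ∀ k ∈ Icc 1 d, s k = g k := by
    constructor
    · intro h' k hk; rw [h' k hk, h k hk]
    · intro h' k hk; rw [h' k hk, h k hk]
  unfold bsD
  by_cases hA : ∀ k ∈ Icc 1 d, s k = f k
  · rw [if_pos hA, if_pos (key.1 hA)]
  · rw [if_neg hA, if_neg (fun h' => hA (key.2 h'))]

lemma RepD.congr {a : ℂ} {d : ℕ} {f g : ℕ → Bool} (hfg : ∀ k ∈ Icc 1 d, f k = g k) {m : ℕ} {B : Cov}
    (h : RepD a d f m B) : RepD a d g m B := by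
  induction h with
  | base => rw [bsD_congr d f g hfg]; exact RepD.base
  | @cup m B j h1 h2 h ih => exact RepD.cup j h1 h2 ih

theorem heig_unique (q a : ℂ) (hq : q ^ 2 + q + 1 = 0) (ha : a ^ 2 = -q ^ 2) (n : ℕ) (σ : Bool)
    (Ψ : Finset ℕ → ℂ)
    (hΨ : ∀ D ⊆ Icc 1 (2 * n + 1), D.card = (if σ then n + 1 else n) →
      ∑ i ∈ Icc 1 (2 * n), E q i Ψ D = 2 * n * Ψ D)
    (B : Cov) (c : Setoid ℕ) (hB : RepP a σ n B c) (h0 : GG n (if σ then n + 1 else n) Ψ B = 0) :
    ∀ D ⊆ Icc 1 (2 * n + 1), D.card = (if σ then n + 1 else n) → Ψ D = 0 := by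
  obtain ⟨ha0, h1, h2, hl⟩ := aq q a hq ha
  have hharm := harmonicj q a h1 h2 ha0 n _ Ψ hΨ
  have hc0 : GG n (if σ then n + 1 else n) Ψ (cO a (bsD 1 (fun _ => σ)) n) = 0 := by
    rw [← RepD.const q a hq ha n _ _ Ψ hΨ B hB.toD, h0]
  -- one defect
  have H1 : ∀ f B, RepD a 1 f n B → GG n (if σ then n + 1 else n) Ψ B = 0 := by
    intro f B hB
    by_cases hf : f 1 = σ
    · have h' : RepD a 1 (fun _ => σ) n B := hB.congr (by
        intro k hk
        rw [Finset.mem_Icc] at hk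
        obtain rfl : k = 1 := by omega
        exact hf)
      rw [RepD.const q a hq ha n _ _ Ψ hΨ B h', hc0]
    · unfold GG
      apply Finset.sum_eq_zero
      intro D hD
      rw [Finset.mem_powersetCard] at hD
      by_contra hne
      have h3 := hB.count (ind D) (right_ne_zero_of_mul hne)
      rw [dn_ind D _ (by rw [show 1 + 2 * n = 2 * n + 1 by ring]; exact hD.1), hD.2] at h3
      have h4 : dn f 1 = if f 1 = true then 1 else 0 := by
        change 0 + (if f (0 + 1) = true then 1 else 0) = _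
        rw [zero_add, zero_add]
      rw [h4] at h3
      revert h3 hf
      cases f 1 <;> cases σ <;> simp
  -- all states
  have HD : ∀ r : ℕ, ∀ d f m B, d = 2 * r + 1 → d + 2 * m = 2 * n + 1 → RepD a d f m B →
      GG n (if σ then n + 1 else n) Ψ B = 0 := by
    intro r
    induction r with
    | zero =>
      intro d f m B hd hm hB
      obtain rfl : d = 1 := by omega
      have e : m = n := by omega
      rw [e] at hB
      exact H1 f B hB
    | succ r ih =>
      intro d f m B hd hm hB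
      refine maxprin {B : Cov | RepD a d f m B} (RepD.fin a d f m) (2 * n) (EE a)
        (fun B => GG n (if σ then n + 1 else n) Ψ B) ?_ ?_ (wO n) ?_ ?_ B hB
      · intro B _
        rw [hharm B]
        push_cast
        ring
      · intro B hB i hi
        rw [Finset.mem_Icc] at hi
        rcases RepD.step ha0 hl hB i hi.1 (by omega) with h | ⟨d', f', t, B', e, g1, g2⟩
        · exact Or.inl h
        · right
          rw [g2, GG_smul, ih d' f' (m + 1) B' (by omega) (by omega) g1, mul_zero]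
      · intro i hi
        rw [Finset.mem_Icc]
        have := wO_mem n i hi
        omega
      · intro B hB _
        obtain ⟨t, f', B', g1, g2⟩ := RepD.wordN ha0 hl n d f m B hm hB
        rw [g2, GG_smul, H1 f' B' g1, mul_zero]
  intro D hD hc
  have h3 := HD n (2 * n + 1) (ind D) 0 _ rfl (by omega) (RepD.base (a := a))
  unfold GG at h3
  rw [Finset.sum_eq_single D] at h3
  · have : bsD (2 * n + 1) (ind D) (ind D) = 1 := by
      unfold bsD
      exact if_pos (fun k _ => rfl)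
    rw [this, mul_one] at h3
    exact h3
  · intro D' hD' hne
    have : bsD (2 * n + 1) (ind D) (ind D') = 0 := by
      unfold bsD
      apply if_neg
      intro h
      apply hne
      rw [Finset.mem_powersetCard] at hD'
      ext k
      by_cases hk : k ∈ Icc 1 (2 * n + 1)
      · have := h k hk
        simpa [ind] using this
      · exact ⟨fun h => absurd (hD'.1 h) hk, fun h => absurd (hD h) hk⟩
    rw [this, mul_zero]
  · intro h
    exact absurd (Finset.mem_powersetCard.2 ⟨hD, hc⟩) h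

end Pool.Agent.H72.CardyP
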