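import Pool.Agent.H72.Cardy.PDefs
import Pool.Agent.H75.Exact.Link

/-! Cardy's formula in the L-shaped strip, job CAR-L1: pairs (covector, partition) of one-defect
link states. -/

set_option autoImplicit false
open Finset

namespace Pool.Agent.H72.CardyP

open Pool.Agent.H75.Exact Pool.Agent.H75.Exact.Lk

/-! ### partitions -/

/-- skips the point `p + 1` -/
def skp (p x : ℕ) : ℕ := if x ≤ p then x else x + 1

lemma skp_le {p x : ℕ} (h : x ≤ p) : skp p x = x := if_pos h
lemma skp_gt {p x : ℕ} (h : p < x) : skp p x = x + 1 := if_neg (by omega)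

lemma skp_ne (p x : ℕ) : skp p x ≠ p + 1 := by
  unfold skp; split_ifs <;> omega

lemma mrg_skp (p x : ℕ) : mrg p (skp p x) = x := by
  unfold mrg skp; split_ifs <;> omega

lemma mrg_skp' (p x : ℕ) : mrg (p + 1) (skp p x) = x := by
  unfold mrg skp; split_ifs <;> omega

lemma cupP_even_apply (p : ℕ) (c : Setoid ℕ) (u v : ℕ) :
    cupP (2 * p) c u v ↔ c (mrg p u) (mrg p v) := by
  rw [cupP_even]; rfl

lemma cupP_odd_apply (p : ℕ) (c : Setoid ℕ) (u v : ℕ) :
    cupP (2 * p + 1) c u v ↔ u = v ∨ (u ≠ p + 1 ∧ v ≠ p + 1 ∧ c (mrg (p + 1) u) (mrg (p + 1) v)) := by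
  rw [cupP_odd]; rfl

/-- the inverse of `cupP` -/
lemma cupP_skp (j : ℕ) (c : Setoid ℕ) (u v : ℕ) :
    cupP j c (skp (j / 2) u) (skp (j / 2) v) ↔ c u v := by
  obtain ⟨p, rfl | rfl⟩ := Nat.even_or_odd' j
  · rw [cupP_even_apply, show (2 * p) / 2 = p by omega, mrg_skp, mrg_skp]
  · rw [cupP_odd_apply, show (2 * p + 1) / 2 = p by omega, mrg_skp', mrg_skp']
    constructor
    · rintro (h | ⟨_, _, h⟩)
      · have := congrArg (mrg p) h
        rw [mrg_skp, mrg_skp] at this
        rw [this]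
      · exact h
    · intro h
      exact Or.inr ⟨skp_ne _ _, skp_ne _ _, h⟩

lemma cupP_comap_skp (j : ℕ) (c : Setoid ℕ) : (cupP j c).comap (skp (j / 2)) = c := by
  apply Setoid.ext
  intro u v
  exact cupP_skp j c u v

lemma cupP_inj {j : ℕ} {c c' : Setoid ℕ} (h : cupP j c = cupP j c') : c = c' := by
  rw [← cupP_comap_skp j c, h, cupP_comap_skp]

lemma cupP_cupP (i j : ℕ) (hij : i ≤ j) (c : Setoid ℕ) :
    cupP (j + 2) (cupP i c) = cupP i (cupP j c) := by
  apply Setoid.ext
  intro u v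
  obtain ⟨p, rfl | rfl⟩ := Nat.even_or_odd' j
  · obtain ⟨r, rfl | rfl⟩ := Nat.even_or_odd' i
    · rw [show 2 * p + 2 = 2 * (p + 1) by ring, cupP_even_apply, cupP_even_apply, cupP_even_apply,
        cupP_even_apply]
      have key : ∀ w, mrg r (mrg (p + 1) w) = mrg p (mrg r w) := by
        intro w; unfold mrg; split_ifs <;> omega
      rw [key, key]
    · rw [show 2 * p + 2 = 2 * (p + 1) by ring, cupP_even_apply, cupP_odd_apply, cupP_odd_apply,
        cupP_even_apply]
      have key : ∀ w, mrg (r + 1) (mrg (p + 1) w) = mrg p (mrg (r + 1) w) := by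
        intro w; unfold mrg; split_ifs <;> omega
      have key2 : ∀ w, mrg (p + 1) w = r + 1 ↔ w = r + 1 := by
        intro w; unfold mrg; split_ifs <;> omega
      rw [key, key, ne_eq, ne_eq, key2, key2]
      constructor
      · rintro (h | h)
        · by_cases hu : u = v
          · exact Or.inl hu
          · right
            refine ⟨?_, ?_, ?_⟩
            · intro h1
              rw [← key2, h, key2] at h1
              apply hu
              have h2 := (key2 v).2 h1
              rw [← h, key2] at h2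
              omega
            · intro h1
              have h2 := (key2 v).2 h1
              rw [← h, key2] at h2
              apply hu
              omega
            · rw [← key, ← key, h]
        · exact Or.inr h
      · rintro (h | h)
        · exact Or.inl (by rw [h])
        · exact Or.inr h
  · obtain ⟨r, rfl | rfl⟩ := Nat.even_or_odd' i
    · rw [show 2 * p + 1 + 2 = 2 * (p + 1) + 1 by ring, cupP_even_apply, cupP_odd_apply,
        cupP_odd_apply, cupP_even_apply]
      have key : ∀ w, mrg r (mrg (p + 1 + 1) w) = mrg (p + 1) (mrg r w) := by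
        intro w; unfold mrg; split_ifs <;> omega
      have key2 : ∀ w, mrg r w = p + 1 ↔ w = p + 1 + 1 := by
        intro w; unfold mrg; split_ifs <;> omega
      rw [key, key, ne_eq, ne_eq, ne_eq, ne_eq, key2, key2]
      constructor
      · rintro (h | h)
        · exact Or.inl (by rw [h])
        · exact Or.inr h
      · rintro (h | h)
        · by_cases hu : u = v
          · exact Or.inl hu
          · right
            refine ⟨?_, ?_, ?_⟩
            · intro h1
              have h2 := (key2 u).2 h1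
              rw [h, key2] at h2
              omega
            · intro h1
              have h2 := (key2 v).2 h1
              rw [← h, key2] at h2
              omega
            · rw [h]
        · exact Or.inr h
    · rw [show 2 * p + 1 + 2 = 2 * (p + 1) + 1 by ring, cupP_odd_apply, cupP_odd_apply,
        cupP_odd_apply, cupP_odd_apply]
      have key : ∀ w, mrg (r + 1) (mrg (p + 1 + 1) w) = mrg (p + 1) (mrg (r + 1) w) := by
        intro w; unfold mrg; split_ifs <;> omega
      have key2 : ∀ w, mrg (p + 1 + 1) w = r + 1 ↔ w = r + 1 := by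
        intro w; unfold mrg; split_ifs <;> omega
      have key3 : ∀ w, w ≠ r + 1 → (mrg (r + 1) w = p + 1 ↔ w = p + 1 + 1) := by
        intro w hw; unfold mrg; split_ifs <;> omega
      have key4 : ∀ w w', w ≠ p + 1 + 1 → w' ≠ p + 1 + 1 →
          mrg (p + 1 + 1) w = mrg (p + 1 + 1) w' → w = w' := by
        intro w w' h1 h2; unfold mrg; split_ifs <;> omega
      have key5 : ∀ w w', w ≠ r + 1 → w' ≠ r + 1 →
          mrg (r + 1) w = mrg (r + 1) w' → w = w' := by
        intro w w' h1 h2; unfold mrg; split_ifs <;> omega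
      constructor
      · rintro (h | ⟨h1, h2, h | ⟨h3, h4, h5⟩⟩)
        · exact Or.inl h
        · exact Or.inl (key4 u v h1 h2 h)
        · rw [ne_eq, key2] at h3 h4
          refine Or.inr ⟨h3, h4, Or.inr ⟨?_, ?_, ?_⟩⟩
          · rw [ne_eq, key3 u h3]; exact h1
          · rw [ne_eq, key3 v h4]; exact h2
          · rw [← key, ← key]; exact h5
      · rintro (h | ⟨h1, h2, h | ⟨h3, h4, h5⟩⟩)
        · exact Or.inl h
        · exact Or.inl (key5 u v h1 h2 h)
        · rw [ne_eq, key3 u h1] at h3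
          rw [ne_eq, key3 v h2] at h4
          refine Or.inr ⟨h3, h4, Or.inr ⟨?_, ?_, ?_⟩⟩
          · rw [ne_eq, key2]; exact h1
          · rw [ne_eq, key2]; exact h2
          · rw [key, key]; exact h5

/-- neighbouring cups are incompatible -/
lemma cupP_ne_succ (j : ℕ) (hj : 1 ≤ j) (c c' : Setoid ℕ) : cupP j c ≠ cupP (j + 1) c' := by
  intro h
  obtain ⟨p, rfl | rfl⟩ := Nat.even_or_odd' j
  · have h1 : cupP (2 * p) c p (p + 1) := by
      rw [cupP_even_apply, mrg_le le_rfl, mrg_gt (Nat.lt_succ_self p)]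
      exact c.refl _
    rw [h, cupP_odd_apply] at h1
    rcases h1 with h1 | ⟨_, h1, _⟩
    · omega
    · exact h1 rfl
  · have h1 : cupP (2 * p + 1 + 1) c' (p + 1) (p + 1 + 1) := by
      rw [show 2 * p + 1 + 1 = 2 * (p + 1) by ring, cupP_even_apply, mrg_le le_rfl,
        mrg_gt (Nat.lt_succ_self (p + 1))]
      exact c'.refl _
    rw [← h, cupP_odd_apply] at h1
    rcases h1 with h1 | ⟨h1, _⟩
    · omega
    · exact h1 rfl

/-- the image of `cupP` -/
lemma cupP_of (j : ℕ) (c : Setoid ℕ)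
    (h : (∃ p, j = 2 * p ∧ c p (p + 1)) ∨ (∃ p, j = 2 * p + 1 ∧ ∀ u, c (p + 1) u → u = p + 1)) :
    cupP j (c.comap (skp (j / 2))) = c := by
  apply Setoid.ext
  intro u v
  rcases h with ⟨p, rfl, hp⟩ | ⟨p, rfl, hp⟩
  · rw [cupP_even_apply, show (2 * p) / 2 = p by omega]
    have key : ∀ w, c (skp p (mrg p w)) w := by
      intro w
      by_cases hw : w = p + 1
      · rw [hw, mrg_gt (by omega), skp_le (by omega)]
        exact hp
      · have : skp p (mrg p w) = w := by
          unfold skp mrg; split_ifs <;> omega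
        rw [this]
    exact ⟨fun h => c.trans (c.symm (key u)) (c.trans h (key v)),
      fun h => c.trans (key u) (c.trans h (c.symm (key v)))⟩
  · rw [cupP_odd_apply, show (2 * p + 1) / 2 = p by omega]
    have key : ∀ w, w ≠ p + 1 → skp p (mrg (p + 1) w) = w := by
      intro w hw
      unfold skp mrg; split_ifs <;> omega
    constructor
    · rintro (h | ⟨h1, h2, h3⟩)
      · rw [h]
      · have h4 : c (skp p (mrg (p + 1) u)) (skp p (mrg (p + 1) v)) := h3
        rwa [key u h1, key v h2] at h4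
    · intro h
      by_cases hu : u = p + 1
      · left
        rw [hu] at h
        rw [hu, hp v h]
      · by_cases hv : v = p + 1
        · left
          rw [hv] at h
          rw [hv, hp u (c.symm h)]
        · right
          refine ⟨hu, hv, ?_⟩
          change c (skp p (mrg (p + 1) u)) (skp p (mrg (p + 1) v))
          rwa [key u hu, key v hv]

/-- two distant cups commute -/
lemma cupP_far (i j : ℕ) (hij : i ≤ j) (c₁ c' : Setoid ℕ)
    (h : cupP i c₁ = cupP (j + 2) c') : ∃ c'', c₁ = cupP j c'' ∧ c' = cupP i c'' := by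
  have h1 : cupP j (c₁.comap (skp (j / 2))) = c₁ := by
    apply cupP_of
    obtain ⟨p, rfl | rfl⟩ := Nat.even_or_odd' j
    · left
      refine ⟨p, rfl, ?_⟩
      rw [← cupP_skp i, h, show 2 * p + 2 = 2 * (p + 1) by ring, cupP_even_apply]
      by_cases hi : i / 2 < p
      · rw [skp_gt hi, skp_gt (by omega), mrg_le le_rfl, mrg_gt (Nat.lt_succ_self (p + 1))]
        exact c'.refl _
      · rw [← cupP_even_apply, show 2 * (p + 1) = 2 * p + 2 by ring, ← h]
        have hi2 : i = 2 * p := by omega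
        subst hi2
        rw [show (2 * p) / 2 = p by omega, skp_le le_rfl, skp_gt (Nat.lt_succ_self p)]
        have e1 : cupP (2 * p) c₁ p (p + 1) := by
          rw [cupP_even_apply, mrg_le le_rfl, mrg_gt (Nat.lt_succ_self p)]
          exact c₁.refl _
        have e2 : cupP (2 * p) c₁ (p + 1) (p + 1 + 1) := by
          rw [h, show 2 * p + 2 = 2 * (p + 1) by ring, cupP_even_apply, mrg_le le_rfl,
            mrg_gt (Nat.lt_succ_self (p + 1))]
          exact c'.refl _
        exact (cupP (2 * p) c₁).trans e1 e2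
    · right
      refine ⟨p, rfl, ?_⟩
      intro u hu
      rw [← cupP_skp i, h, show 2 * p + 1 + 2 = 2 * (p + 1) + 1 by ring, cupP_odd_apply,
        skp_gt (show i / 2 < p + 1 by omega)] at hu
      rcases hu with hu | ⟨hu, _⟩
      · unfold skp at hu
        split_ifs at hu <;> omega
      · exact absurd rfl hu
  refine ⟨c₁.comap (skp (j / 2)), h1.symm, ?_⟩
  apply cupP_inj (j := j + 2)
  rw [cupP_cupP i j hij, h1, h]

/-! ### link states -/

theorem RepP.step {a : ℂ} {σ : Bool} (ha0 : a ≠ 0) (ha : a⁻¹ * a⁻¹ + a * a = 1) {n : ℕ} {B : Cov}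
    {c : Setoid ℕ} (h : RepP a σ n B c) (i : ℕ) (h1 : 1 ≤ i) (h2 : i ≤ 2 * n) :
    RepP a σ n (EE a i B) (eeP i c) := by
  induction h generalizing i with
  | base => omega
  | @cup n B c j hj1 hj2 hB ih =>
    rcases five i j with h | h | h | h | ⟨i', h, h'⟩
    · rw [EE_cup_lt a i j h, eeP_cupP_lt i j h1 h]
      exact RepP.cup j hj1 hj2 (ih i h1 (by omega))
    · subst h
      rw [EE_cup_pred a ha0, eeP_cupP_pred _ h1]
      exact RepP.cup i h1 (by omega) hB
    · subst h
      rw [EE_cup_self a ha, eeP_cupP_self _ h1]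
      exact RepP.cup i h1 (by omega) hB
    · subst h
      rw [EE_cup_succ a ha0, eeP_cupP_succ _ hj1]
      exact RepP.cup (j + 1) (by omega) (by omega) hB
    · subst h
      rw [EE_cup_gt a i' j h', eeP_cupP_gt i' j hj1 h']
      exact RepP.cup j hj1 hj2 (ih i' (by omega) (by omega))

/-- the partition part of `RepP.step`, without conditions on `a` -/
theorem RepP.stepP {a : ℂ} {σ : Bool} {n : ℕ} {B : Cov}
    {c : Setoid ℕ} (h : RepP a σ n B c) (i : ℕ) (h1 : 1 ≤ i) (h2 : i ≤ 2 * n) :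
    ∃ B', RepP a σ n B' (eeP i c) := by
  induction h generalizing i with
  | base => omega
  | @cup n B c j hj1 hj2 hB ih =>
    rcases five i j with h | h | h | h | ⟨i', h, h'⟩
    · rw [eeP_cupP_lt i j h1 h]
      obtain ⟨B', hB'⟩ := ih i h1 (by omega)
      exact ⟨_, RepP.cup j hj1 hj2 hB'⟩
    · subst h
      rw [eeP_cupP_pred _ h1]
      exact ⟨_, RepP.cup i h1 (by omega) hB⟩
    · subst h
      rw [eeP_cupP_self _ h1]
      exact ⟨_, RepP.cup i h1 (by omega) hB⟩
    · subst h
      rw [eeP_cupP_succ _ hj1]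
      exact ⟨_, RepP.cup (j + 1) (by omega) (by omega) hB⟩
    · subst h
      rw [eeP_cupP_gt i' j hj1 h']
      obtain ⟨B', hB'⟩ := ih i' (by omega) (by omega)
      exact ⟨_, RepP.cup j hj1 hj2 hB'⟩

/-- the key structure lemma -/
theorem RepP.struct {a : ℂ} {σ : Bool} {n : ℕ} {B : Cov} {c c' : Setoid ℕ} (j : ℕ) (h1 : 1 ≤ j)
    (h2 : j ≤ 2 * n + 2) (h : RepP a σ (n + 1) B c) (hc : c = cupP j c') :
    ∃ B', B = Lk.cup a j B' ∧ RepP a σ n B' c' := by
  induction n generalizing B c c' j with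
  | zero =>
    cases h with
    | @cup _ B₁ c₁ i hi1 hi2 hB =>
      rcases Nat.lt_trichotomy i j with hij | hij | hij
      · exfalso
        have : j = i + 1 := by omega
        subst this
        exact cupP_ne_succ i hi1 _ _ hc
      · subst hij
        exact ⟨B₁, rfl, by rw [← cupP_inj hc]; exact hB⟩
      · exfalso
        have : i = j + 1 := by omega
        subst this
        exact cupP_ne_succ j h1 _ _ hc.symm
  | succ n ih =>
    cases h with
    | @cup _ B₁ c₁ i hi1 hi2 hB =>
      rcases five i j with hij | hij | hij | hij | ⟨i', hij, hij'⟩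
      · obtain ⟨j', rfl⟩ : ∃ j', j = j' + 2 := ⟨j - 2, by omega⟩
        obtain ⟨c'', e1, e2⟩ := cupP_far i j' (by omega) c₁ c' hc
        obtain ⟨B'', e3, e4⟩ := ih j' (by omega) (by omega) hB e1
        refine ⟨Lk.cup a i B'', ?_, ?_⟩
        · rw [e3, cup_cup a i j' (by omega)]
        · rw [e2]
          exact RepP.cup i hi1 (by omega) e4
      · exfalso
        subst hij
        exact cupP_ne_succ i hi1 _ _ hc
      · subst hij
        exact ⟨B₁, rfl, by rw [← cupP_inj hc]; exact hB⟩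
      · exfalso
        subst hij
        exact cupP_ne_succ j h1 _ _ hc.symm
      · subst hij
        obtain ⟨c'', e1, e2⟩ := cupP_far j i' hij' c' c₁ hc.symm
        obtain ⟨B'', e3, e4⟩ := ih j h1 (by omega) hB e2
        refine ⟨Lk.cup a i' B'', ?_, ?_⟩
        · rw [e3, cup_cup a j i' hij']
        · rw [e1]
          exact RepP.cup i' (by omega) (by omega) e4

theorem RepP.inj {a : ℂ} {σ : Bool} {n : ℕ} {B B' : Cov} {c : Setoid ℕ} (h : RepP a σ n B c)
    (h' : RepP a σ n B' c) : B = B' := by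
  induction h generalizing B' with
  | base => cases h'; rfl
  | @cup n B c j hj1 hj2 hB ih =>
    obtain ⟨B'', e1, e2⟩ := RepP.struct j hj1 hj2 h' rfl
    rw [e1, ih e2]

theorem RepP.cupOfP {a : ℂ} {σ : Bool} {n : ℕ} {B : Cov} {c : Setoid ℕ}
    (h : RepP a σ (n + 1) B c) (i : ℕ) (hi1 : 1 ≤ i) (hi2 : i ≤ 2 * n + 2) :
      ∃ B₀ c₀, RepP a σ n B₀ c₀ ∧ eeP i c = cupP i c₀ := by
  induction n generalizing B c i with
  | zero =>
    cases h with
    | @cup _ B' c' j hj1 hj2 hB' =>
      refine ⟨B', c', hB', ?_⟩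
      rcases five i j with h | h | h | h | ⟨i', h, h'⟩
      · omega
      · subst h; exact eeP_cupP_pred _ hi1 _
      · subst h; exact eeP_cupP_self _ hi1 _
      · subst h; exact eeP_cupP_succ _ hj1 _
      · omega
  | succ n ih =>
    cases h with
    | @cup _ B' c' j hj1 hj2 hB' =>
      rcases five i j with h | h | h | h | ⟨i', h, h'⟩
      · obtain ⟨j', rfl⟩ : ∃ j', j = j' + 2 := ⟨j - 2, by omega⟩
        obtain ⟨B₀, c₀, h1, h2⟩ := ih hB' i hi1 (by omega)
        refine ⟨Lk.cup a j' B₀, cupP j' c₀, RepP.cup j' (by omega) (by omega) h1, ?_⟩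
        rw [eeP_cupP_lt i _ hi1 h, h2, cupP_cupP i j' (by omega)]
      · subst h; exact ⟨B', c', hB', eeP_cupP_pred _ hi1 _⟩
      · subst h; exact ⟨B', c', hB', eeP_cupP_self _ hi1 _⟩
      · subst h; exact ⟨B', c', hB', eeP_cupP_succ _ hj1 _⟩
      · subst h
        obtain ⟨B₀, c₀, h1, h2⟩ := ih hB' i' (by omega) (by omega)
        refine ⟨Lk.cup a j B₀, cupP j c₀, RepP.cup j (by omega) (by omega) h1, ?_⟩
        rw [eeP_cupP_gt i' j hj1 h', h2, cupP_cupP j i' h']

theorem RepP.cap1' {a : ℂ} {σ : Bool} {n : ℕ} {B : Cov}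
    {c : Setoid ℕ} (h : RepP a σ (n + 1) B c) :
    ∃ B', RepP a σ n B' (c.comap fun x => if x < 1 then x else x + 1) := by
  obtain ⟨B₀, c₀, h1, h2⟩ := RepP.cupOfP h 1 le_rfl (by omega)
  refine ⟨B₀, ?_⟩
  have : (c.comap fun x => if x < 1 then x else x + 1) = c₀ := by
    rw [← cupP_comap_skp 1 c₀, ← h2, show (1 : ℕ) = 2 * 0 + 1 from rfl, eeP_odd]
    apply Setoid.ext
    intro u v
    have e : ∀ w, (if w < 2 * 0 + 1 then w else w + (2 * 0 + 1)) = skp ((2 * 0 + 1) / 2) w := by
      intro w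
      unfold skp
      split_ifs <;> omega
    have e2 : ∀ w, skp ((2 * 0 + 1) / 2) w ≠ 0 + 1 := fun w => skp_ne 0 w
    constructor
    · intro h3
      right
      refine ⟨e2 u, e2 v, ?_⟩
      rw [← e, ← e]
      exact h3
    · rintro (h3 | ⟨_, _, h3⟩)
      · change c (if u < 2 * 0 + 1 then u else u + (2 * 0 + 1)) (if v < 2 * 0 + 1 then v else v + (2 * 0 + 1))
        rw [e, e, h3]
      · rw [← e, ← e] at h3
        exact h3
  rw [this]
  exact h1

theorem RepP.cap1 {a : ℂ} {σ : Bool} (ha0 : a ≠ 0) (ha : a⁻¹ * a⁻¹ + a * a = 1) {n : ℕ} {B : Cov}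
    {c : Setoid ℕ} (h : RepP a σ (n + 1) B c) :
    ∃ B', RepP a σ n B' (c.comap fun x => if x < 1 then x else x + 1) :=
  RepP.cap1' h

theorem RepP.bot (a : ℂ) (σ : Bool) (n : ℕ) : ∃ B, RepP a σ n B ⊥ := by
  induction n with
  | zero => exact ⟨_, RepP.base⟩
  | succ n ih =>
    obtain ⟨B, hB⟩ := ih
    refine ⟨Lk.cup a 1 B, ?_⟩
    have : (⊥ : Setoid ℕ) = cupP 1 ⊥ := by
      apply Setoid.ext
      intro u v
      rw [show (1 : ℕ) = 2 * 0 + 1 from rfl, cupP_odd_apply]
      change u = v ↔ (u = v ∨ (u ≠ 0 + 1 ∧ v ≠ 0 + 1 ∧ mrg (0 + 1) u = mrg (0 + 1) v))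
      unfold mrg
      split_ifs <;> omega
    rw [this]
    exact RepP.cup 1 le_rfl (by omega) hB

theorem RepP.fin (a : ℂ) (σ : Bool) (n : ℕ) :
    {x : Cov × Setoid ℕ | RepP a σ n x.1 x.2}.Finite := by
  induction n with
  | zero =>
    apply (Set.finite_singleton ((fun s => if s 1 = σ then 1 else 0 : Cov), (⊥ : Setoid ℕ))).subset
    rintro ⟨B, c⟩ hB
    change RepP a σ 0 B c at hB
    cases hB
    rfl
  | succ n ih =>
    apply (((Finset.Icc 1 (2 * n + 2)).finite_toSet.biUnion
      (fun j _ => ih.image (fun x => (Lk.cup a j x.1, cupP j x.2))))).subset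
    rintro ⟨B, c⟩ hB
    change RepP a σ (n + 1) B c at hB
    cases hB with
    | @cup _ B' c' j h1 h2 h =>
      simp only [Set.mem_iUnion]
      exact ⟨j, by simp [h1, h2], (B', c'), h, rfl⟩

theorem RepP.supp {a : ℂ} {σ : Bool} {n : ℕ} {B : Cov} {c : Setoid ℕ} (h : RepP a σ n B c)
    (u v : ℕ) (huv : u ≠ v) (hc : c u v) : 1 ≤ u ∧ u ≤ n + 1 ∧ 1 ≤ v ∧ v ≤ n + 1 := by
  induction h generalizing u v with
  | base => exact absurd hc huv
  | @cup n B c j hj1 hj2 hB ih =>
    obtain ⟨p, rfl | rfl⟩ := Nat.even_or_odd' j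
    · rw [cupP_even_apply] at hc
      by_cases h : mrg p u = mrg p v
      · unfold mrg at h
        split_ifs at h <;> omega
      · have := ih _ _ h hc
        unfold mrg at this
        split_ifs at this <;> omega
    · rw [cupP_odd_apply] at hc
      rcases hc with hc | ⟨h1, h2, hc⟩
      · exact absurd hc huv
      · by_cases h : mrg (p + 1) u = mrg (p + 1) v
        · unfold mrg at h
          split_ifs at h <;> omega
        · have := ih _ _ h hc
          unfold mrg at this
          split_ifs at this <;> omega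

theorem RepP.change {a : ℂ} {σ : Bool} {n : ℕ} {B : Cov} {c : Setoid ℕ} (h : RepP a σ n B c)
    (a' : ℂ) (σ' : Bool) : ∃ B', RepP a' σ' n B' c := by
  induction h with
  | base => exact ⟨_, RepP.base⟩
  | @cup n B c j hj1 hj2 hB ih =>
    obtain ⟨B', hB'⟩ := ih
    exact ⟨_, RepP.cup j hj1 hj2 hB'⟩

/-- `NC` does not depend on `a`, `σ` -/
theorem NC_iff (a : ℂ) (σ : Bool) (n : ℕ) (c : Setoid (Pt n)) :
    NC n c ↔ ∃ B c', RepP a σ n B c' ∧ c = c'.comap io := by
  constructor
  · rintro ⟨B, c', h1, h2⟩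
    obtain ⟨B', h3⟩ := h1.change a σ
    exact ⟨B', c', h3, h2⟩
  · rintro ⟨B, c', h1, h2⟩
    obtain ⟨B', h3⟩ := h1.change 1 true
    exact ⟨B', c', h3, h2⟩

theorem NC_bot (n : ℕ) : NC n ⊥ := by
  obtain ⟨B, hB⟩ := RepP.bot 1 true n
  refine ⟨B, ⊥, hB, ?_⟩
  apply Setoid.ext
  intro u v
  exact (io_inj n).eq_iff.symm

theorem NC_ee (n i : ℕ) (c : Setoid (Pt n)) (h : NC n c) : NC n (ee n i c) := by
  by_cases hi : 1 ≤ i ∧ i ≤ 2 * n
  · obtain ⟨B, c', h1, h2⟩ := h
    obtain ⟨B', h3⟩ := h1.stepP i hi.1 hi.2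
    exact ⟨B', eeP i c', h3, by rw [h2, ee_comap n i hi.1 hi.2]⟩
  · have : ee n i c = c := by
      unfold ee
      rw [dif_neg (by omega)]
    rw [this]
    exact h

lemma io_emb {n : ℕ} (u : Pt n) : io (emb u) = if io u < 1 then io u else io u + 1 := by
  rcases u with _ | _ | k
  · rfl
  · simp [emb, io]
  · simp [emb, io]

lemma io_one {n : ℕ} (u : Pt (n + 1)) (h : io u ≠ 1) : ∃ u', emb u' = u := by
  rcases u with _ | _ | k
  · exact ⟨none, rfl⟩
  · exact ⟨some none, rfl⟩
  · have hk : k ≠ 0 := by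
      rintro rfl
      simp [io] at h
    obtain ⟨l, hl⟩ := Fin.exists_succ_eq.2 hk
    exact ⟨some (some l), by rw [← hl]; rfl⟩

lemma mrg_io_emb {n : ℕ} (u : Pt n) : mrg 1 (io (emb u)) = io u := by
  rw [io_emb]
  unfold mrg
  split_ifs <;> omega

lemma io_emb_ne {n : ℕ} (u : Pt n) : io (emb u) ≠ 1 := by
  rw [io_emb]
  split_ifs <;> omega

theorem NC_up (n : ℕ) (c : Setoid (Pt n)) (h : NC n c) : NC (n + 1) (up c) := by
  obtain ⟨B, c', h1, h2⟩ := h
  refine ⟨_, cupP 1 c', RepP.cup 1 le_rfl (by omega) h1, ?_⟩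
  apply Setoid.ext
  intro u v
  have g1 : up c u v ↔ (u = v ∨ ∃ u' v', emb u' = u ∧ emb v' = v ∧ c u' v') := Iff.rfl
  have g2 : (cupP 1 c').comap io u v ↔
      (io u = io v ∨ (io u ≠ 1 ∧ io v ≠ 1 ∧ c' (mrg 1 (io u)) (mrg 1 (io v)))) :=
    cupP_odd_apply 0 c' (io u) (io v)
  rw [g1, g2, (io_inj (n + 1)).eq_iff]
  constructor
  · rintro (h | ⟨u', v', rfl, rfl, h⟩)
    · exact Or.inl h
    · right
      refine ⟨io_emb_ne _, io_emb_ne _, ?_⟩
      rw [mrg_io_emb, mrg_io_emb]
      rw [h2] at h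
      exact h
  · rintro (h | ⟨h3, h4, h5⟩)
    · exact Or.inl h
    · right
      obtain ⟨u', rfl⟩ := io_one u h3
      obtain ⟨v', rfl⟩ := io_one v h4
      refine ⟨u', v', rfl, rfl, ?_⟩
      rw [mrg_io_emb, mrg_io_emb] at h5
      rw [h2]
      exact h5

theorem NC_down (n : ℕ) (c : Setoid (Pt (n + 1))) (h : NC (n + 1) c) : NC n (down c) := by
  obtain ⟨B, c', h1, h2⟩ := h
  obtain ⟨B', h3⟩ := h1.cap1'
  refine ⟨B', _, h3, ?_⟩
  apply Setoid.ext
  intro u v
  have g1 : down c u v ↔ c (emb u) (emb v) := Iff.rfl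
  rw [g1, h2]
  change c' (io (emb u)) (io (emb v)) ↔ c' (if io u < 1 then io u else io u + 1)
    (if io v < 1 then io v else io v + 1)
  rw [io_emb, io_emb]

end Pool.Agent.H72.CardyP
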