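import Pool.Agent.H72.Cardy.AsmC
import Pool.Agent.H72.Cardy.PLink1
import Pool.Agent.H72.Cardy.Link2

set_option autoImplicit false
open Finset

/-! Assembly, part D: closures, and the spin vector of the stationary law. -/

namespace Pool.Agent.H72.CardyP

open Pool.Agent.H75.Exact Pool.Agent.H75.Exact.Lk
open Pool.Agent.H72.Cardy (sumC cap capR A Sol)

/-- arcs `(1,2),(3,4),…` and a defect at the end -/
noncomputable def Cc (a : ℂ) (σ : Bool) : ℕ → Cov
  | 0 => fun s => if s 1 = σ then 1 else 0
  | n + 1 => Lk.cup a 1 (Cc a σ n)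

lemma Cc_rep (a : ℂ) (σ : Bool) (n : ℕ) : ∃ c, RepP a σ n (Cc a σ n) c := by
  induction n with
  | zero => exact ⟨⊥, RepP.base⟩
  | succ n ih =>
    obtain ⟨c, hc⟩ := ih
    exact ⟨_, RepP.cup 1 le_rfl (by omega) hc⟩

lemma PL_Cc (a : ℂ) (σ : Bool) (n : ℕ) (V : List Bool → ℂ) :
    PL (2 * n + 1) V (Cc a σ n) = capR a n V [] [σ] := by
  induction n generalizing V with
  | zero =>
    unfold PL
    rw [show 2 * 0 + 1 = 1 by rfl, sumC_one]
    have h1 : ∀ y, fn [y] 1 = y := fun y => rfl
    simp only [h1, Cc, capR]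
    cases σ <;> simp
  | succ n ih =>
    rw [show 2 * (n + 1) + 1 = 0 + 2 + (2 * n + 1) by ring, Cc, PL_cup, sumC_zero']
    have := ih (fun t => cap a V [] t)
    unfold PL at this
    simp only [List.nil_append] at this ⊢
    rw [this, capR, capR_eq, capR_eq, capR_eq, ← sumC_mul, ← sumC_mul, ← sumC_addf]
    apply sumC_congr
    intro u _
    unfold cap
    simp only [List.nil_append, List.cons_append]
    ring

/-- a defect at the beginning and arcs `(2,3),(4,5),…` -/
noncomputable def Cd (a : ℂ) (σ : Bool) : ℕ → Cov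
  | 0 => fun s => if s 1 = σ then 1 else 0
  | n + 1 => Lk.cup a 2 (Cd a σ n)

lemma Cd_rep (a : ℂ) (σ : Bool) (n : ℕ) : ∃ c, RepP a σ n (Cd a σ n) c := by
  induction n with
  | zero => exact ⟨⊥, RepP.base⟩
  | succ n ih =>
    obtain ⟨c, hc⟩ := ih
    exact ⟨_, RepP.cup 2 (by omega) (by omega) hc⟩

lemma Cd_fn (a : ℂ) (σ : Bool) (n : ℕ) (x : Bool) (u : List Bool) (hu : u.length = 2 * n) :
    Cd a σ n (fn (x :: u)) = (if x = σ then 1 else 0) * arcsL a u := by
  induction n generalizing u with
  | zero =>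
    have : u = [] := List.length_eq_zero_iff.1 (by omega)
    subst this
    have h1 : fn [x] 1 = x := rfl
    simp [Cd, arcsL, h1]
  | succ n ih =>
    match u, hu with
    | c :: d :: u, hu =>
      have := cup_fn a (Cd a σ n) [x] u c d
      simp only [List.length_cons, List.length_nil, List.cons_append, List.nil_append] at this
      rw [Cd, this, ih u (by simp only [List.length_cons] at hu; omega), arcsL]
      ring

lemma PL_Cd (a : ℂ) (σ : Bool) (n : ℕ) (V : List Bool → ℂ) :
    PL (2 * n + 1) V (Cd a σ n) = capR a n V [σ] [] := by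
  unfold PL
  rw [show 2 * n + 1 = 1 + 2 * n by ring, sumC_add, sumC_one, capR_eq, ← sumC_addf]
  apply sumC_congr
  intro u hu
  simp only [List.cons_append, List.nil_append]
  rw [Cd_fn a σ n _ u hu, Cd_fn a σ n _ u hu]
  cases σ <;> simp <;> ring

lemma arcsL_append (a : ℂ) (r : ℕ) (u v : List Bool) (hu : u.length = 2 * r) :
    arcsL a (u ++ v) = arcsL a u * arcsL a v := by
  induction r generalizing u with
  | zero =>
    have : u = [] := List.length_eq_zero_iff.1 (by omega)
    subst this
    simp [arcsL]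
  | succ r ih =>
    match u, hu with
    | c :: d :: u, hu =>
      simp only [List.cons_append, arcsL]
      rw [ih u (by simp only [List.length_cons] at hu; omega)]
      ring

lemma arcsL_flip (a : ℂ) (r : ℕ) (u : List Bool) (hu : u.length = 2 * r) :
    arcsL a (flipL u) = arcsL a u := by
  induction r generalizing u with
  | zero =>
    have : u = [] := List.length_eq_zero_iff.1 (by omega)
    subst this
    rfl
  | succ r ih =>
    match u, hu with
    | c :: d :: u, hu =>
      have hu' : u.length = 2 * r := by simp only [List.length_cons] at hu; omega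
      rw [flipL_cons, flipL_cons, List.append_assoc,
        arcsL_append a r _ _ (by rw [flipL_length, hu']), ih u hu']
      simp only [List.cons_append, List.nil_append, arcsL, A_not]
      ring

lemma sumC_flip (N : ℕ) (f : List Bool → ℂ) : sumC N (fun s => f (flipL s)) = sumC N f := by
  induction N generalizing f with
  | zero => rfl
  | succ N ih =>
    have h1 : sumC (N + 1) f = sumC N fun s => sumC 1 fun t => f (s ++ t) := sumC_add N 1 f
    rw [h1, sumC]
    simp only [flipL_cons, sumC_one]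
    rw [ih (fun s => f (s ++ [!false])), ih (fun s => f (s ++ [!true])), sumC_addf, add_comm]
    rfl

lemma capR_flip (a : ℂ) (r : ℕ) (V : List Bool → ℂ) (σ : Bool) :
    capR a r (fun s => V (flipL s)) [] [σ] = capR a r V [!σ] [] := by
  rw [capR_eq, capR_eq]
  simp only [List.nil_append, List.append_nil, flipL_append]
  rw [← sumC_flip]
  apply sumC_congr
  intro u hu
  rw [flipL_flipL, arcsL_flip a r u hu]
  rfl

/-! ### pairings as sums over sets -/

lemma GG_eq (n j : ℕ) (V : List Bool → ℂ) (B : Cov)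
    (h : ∀ x : List Bool, x.length = 2 * n + 1 → x.count true ≠ j → V x * B (fn x) = 0) :
    GG n j (fun D => V (lst (2 * n + 1) D)) B = PL (2 * n + 1) V B := by
  unfold GG PL
  rw [sumC_card (2 * n + 1) j _ h]
  refine sum_congr rfl fun D hD => ?_
  rw [mem_powersetCard] at hD
  rw [fn_lst _ _ hD.1]

variable {q a : ℂ} {Φ : List ℂ → List Bool → ℂ}

/-- the homogeneous vector -/
def V1 (Φ : List ℂ → List Bool → ℂ) (n : ℕ) : List Bool → ℂ := Φ (List.replicate (2 * n + 1) 1)

lemma V1_supp (hΦ : Sol q a Φ) (n : ℕ) (x : List Bool) (hx : x.length = 2 * n + 1)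
    (hc : x.count true ≠ n) : V1 Φ n x = 0 := by
  by_contra h
  have := hΦ.supp _ _ h
  rw [List.length_replicate] at this
  omega

lemma count_flipL (x : List Bool) : (flipL x).count true = x.length - x.count true := by
  unfold flipL
  rw [List.count_reverse]
  have h1 : (x.map not).count true = x.count false := by
    induction x with
    | nil => rfl
    | cons y x ih => cases y <;> simp [ih]
  rw [h1]
  have := List.count_not_add_count x true
  simp only [Bool.not_true] at this
  omega

lemma V2_supp (hΦ : Sol q a Φ) (n : ℕ) (x : List Bool) (hx : x.length = 2 * n + 1)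
    (hc : x.count true ≠ n + 1) : V1 Φ n (flipL x) = 0 := by
  apply V1_supp hΦ n _ (by rw [flipL_length, hx])
  rw [count_flipL]
  have := List.count_le_length (a := true) (l := x)
  omega

lemma heig_sec (hq : q ^ 2 + q + 1 = 0) (ha : a ^ 2 = - q ^ 2) (hΦ : Sol q a Φ) (n : ℕ) (σ : Bool) :
    ∀ D ⊆ Icc 1 (2 * n + 1), D.card = (if σ then n + 1 else n) →
      ∑ i ∈ Icc 1 (2 * n), E q i
        (fun D => (if σ then V1 Φ n (flipL (lst (2 * n + 1) D)) else V1 Φ n (lst (2 * n + 1) D))) D =
        2 * n * (if σ then V1 Φ n (flipL (lst (2 * n + 1) D)) else V1 Φ n (lst (2 * n + 1) D)) := by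
  intro D _ _
  obtain ⟨ha0, _, h1, h2, _⟩ := a_facts hq ha
  have hV := HL_one hq ha hΦ n
  cases σ
  · exact HL.heig h1 h2 ha0 hV D
  · exact HL.heig (V := fun s => V1 Φ n (flipL s)) h1 h2 ha0 hV.flip D

/-- the value of a closure -/
noncomputable def cl (a : ℂ) (Φ : List ℂ → List Bool → ℂ) (n : ℕ) : ℂ := capR a n (V1 Φ n) [] [false]

lemma closure_up (hq : q ^ 2 + q + 1 = 0) (ha : a ^ 2 = - q ^ 2) (hΦ : Sol q a Φ) (n : ℕ)
    {B : Cov} {c : Setoid ℕ} (hB : RepP a false n B c) :
    GG n n (fun D => V1 Φ n (lst (2 * n + 1) D)) B = cl a Φ n := by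
  obtain ⟨c', hc'⟩ := Cc_rep a false n
  have := closure_const q a hq ha n false (fun D => V1 Φ n (lst (2 * n + 1) D))
    (by simpa using heig_sec hq ha hΦ n false) B (Cc a false n) c c' hB hc'
  simp only [Bool.false_eq_true, if_false] at this
  rw [this, GG_eq, PL_Cc]
  · rfl
  · intro x hx hc
    rw [V1_supp hΦ n x hx hc, zero_mul]

lemma fA_cl (hq : q ^ 2 + q + 1 = 0) (ha : a ^ 2 = - q ^ 2) (hΦ : Sol q a Φ) (n : ℕ) :
    fA a n (fun D => V1 Φ n (lst (2 * n + 1) D)) = cl a Φ n := by
  have hr : ∀ (n : ℕ) (B : Cov), Rep1 a n B → ∃ c, RepP a false n B c := by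
    intro n B h
    induction h with
    | base => exact ⟨⊥, RepP.base⟩
    | cup j h1 h2 _ ih =>
      obtain ⟨c, hc⟩ := ih
      exact ⟨_, RepP.cup j h1 h2 hc⟩
  obtain ⟨c, hc⟩ := hr n _ (B1_rep a n)
  rw [← closure_up hq ha hΦ n hc, ← L1_eq, ← G_L1]
  unfold G GG
  exact sum_congr rfl fun D _ => mul_comm _ _

lemma closure_down (hq : q ^ 2 + q + 1 = 0) (ha : a ^ 2 = - q ^ 2) (hΦ : Sol q a Φ) (n : ℕ) :
    PL (2 * n + 1) (fun s => V1 Φ n (flipL s)) (Cc a true n) = cl a Φ n := by
  rw [PL_Cc, capR_flip]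
  obtain ⟨c, hc⟩ := Cd_rep a false n
  rw [← closure_up hq ha hΦ n hc, GG_eq, PL_Cd]
  · rfl
  · intro x hx hc
    rw [V1_supp hΦ n x hx hc, zero_mul]

lemma prs_replicate (n : ℕ) :
    Pool.Agent.H72.Cardy.prs (List.replicate n (1 : ℂ)) = List.replicate (2 * n) 1 := by
  induction n with
  | zero => rfl
  | succ n ih =>
    rw [List.replicate_succ, Pool.Agent.H72.Cardy.prs, ih, inv_one, show 2 * (n + 1) = 2 * n + 1 + 1 by ring,
      List.replicate_succ, List.replicate_succ]

lemma Neven_cl (hΦ : Sol q a Φ) (n : ℕ) :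
    Pool.Agent.H72.Cardy.Neven a Φ [] 1 (List.replicate n 1) 1 = cl a Φ n := by
  unfold Pool.Agent.H72.Cardy.Neven cl V1
  rw [List.length_nil, sumC_zero', prs_replicate, List.length_replicate]
  simp only [List.reverse_nil, List.map_nil, List.nil_append]
  rw [hΦ.one 1 one_ne_zero, one_mul, ← List.replicate_succ']

end Pool.Agent.H72.CardyP
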