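import Pool.Agent.H72.Cardy.AsmD

set_option autoImplicit false
open Finset

/-! Assembly, part E: the stationary law of the narrow strip is the spin vector. -/

namespace Pool.Agent.H72.CardyP

open Pool.Agent.H75.Exact Pool.Agent.H75.Exact.Lk
open Pool.Agent.H72.Cardy (sumC cap capR A Sol)

/-! ### link states and their covectors -/

lemma comap_io_inj {a a' : ℂ} {σ σ' : Bool} {m : ℕ} {B B' : Cov} {c c' : Setoid ℕ}
    (h : RepP a σ m B c) (h' : RepP a' σ' m B' c')
    (e : (c.comap (io (n := m))) = c'.comap io) : c = c' := by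
  have key : ∀ {a : ℂ} {σ : Bool} {a' : ℂ} {σ' : Bool} {B B' : Cov} {c c' : Setoid ℕ},
      RepP a σ m B c → RepP a' σ' m B' c' → (c.comap (io (n := m))) = c'.comap io →
      ∀ u v, c u v → c' u v := by
    intro a σ a' σ' B B' c c' h h' e u v huv
    by_cases hne : u = v
    · subst hne; exact c'.refl u
    · obtain ⟨h1, h2, h3, h4⟩ := h.supp u v hne huv
      have hio : ∀ x, 1 ≤ x → x ≤ m + 1 → ∃ p : Pt m, io p = x := by
        intro x hx hx'
        rcases Nat.lt_or_ge (x - 1) m with h5 | h5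
        · exact ⟨col ⟨x - 1, h5⟩, by simp only [col, io]; omega⟩
        · exact ⟨W, by simp only [W, io]; omega⟩
      obtain ⟨p, rfl⟩ := hio u h1 h2
      obtain ⟨p', rfl⟩ := hio v h3 h4
      have : (c.comap (io (n := m))) p p' := huv
      rw [e] at this
      exact this
  apply Setoid.ext
  intro u v
  exact ⟨key h h' e u v, key h' h e.symm u v⟩

open Classical in
/-- the covector of a link state -/
noncomputable def Bof (a : ℂ) (m : ℕ) (c : Setoid (Pt m)) : Cov :=
  if h : ∃ B c', RepP a true m B c' ∧ c = c'.comap io then h.choose else 0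

lemma Bof_eq {a : ℂ} {m : ℕ} {B : Cov} {c' : Setoid ℕ} (h : RepP a true m B c') :
    Bof a m (c'.comap io) = B := by
  have hex : ∃ B c'', RepP a true m B c'' ∧ c'.comap (io (n := m)) = c''.comap io := ⟨B, c', h, rfl⟩
  unfold Bof
  rw [dif_pos hex]
  obtain ⟨c'', h1, h2⟩ := hex.choose_spec
  have := comap_io_inj h h1 h2
  subst this
  exact h1.inj h

lemma Bof_ee {a : ℂ} (ha0 : a ≠ 0) (ha : a⁻¹ * a⁻¹ + a * a = 1) {m : ℕ} {c : Setoid (Pt m)}
    (hc : NC m c) (i : ℕ) (h1 : 1 ≤ i) (h2 : i ≤ 2 * m) :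
    Bof a m (ee m i c) = EE a i (Bof a m c) := by
  obtain ⟨B, c', h, rfl⟩ := (NC_iff a true m c).1 hc
  rw [ee_comap m i h1 h2, Bof_eq (h.step ha0 ha i h1 h2), Bof_eq h]

/-- a contracted link state -/
lemma hstep {a : ℂ} (ha0 : a ≠ 0) (ha : a⁻¹ * a⁻¹ + a * a = 1) (σ : Bool)
    (n : ℕ) (B : Cov) (c : Setoid ℕ) (h : RepP a σ n B c) (i : ℕ) (h1 : 1 ≤ i) (h2 : i ≤ 2 * n) :
    ∃ B₀ c₀, EE a i B = Lk.cup a i B₀ ∧ RepP a σ (n - 1) B₀ c₀ := by
  obtain ⟨n, rfl⟩ : ∃ n', n = n' + 1 := ⟨n - 1, by omega⟩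
  obtain ⟨B₁, c₁, h3, h4⟩ := h.cupOfP i h1 (by omega)
  obtain ⟨B₀, h5, h6⟩ := RepP.struct i h1 (by omega) (h.step ha0 ha i h1 h2) h4
  exact ⟨B₀, c₁, h5, h6⟩

/-! ### the functional -/

variable {q a : ℂ} {Φ : List ℂ → List Bool → ℂ} {m : ℕ}

/-- properties of the complexified stationary functional -/
structure Stat (m : ℕ) (L : (Setoid (Pt m) → ℂ) →ₗ[ℂ] ℂ) : Prop where
  one : L (fun _ => 1) = 1
  eig : ∀ g, L (fun c => ∑ i ∈ Icc 1 (2 * m), g (ee m i c)) = 2 * m * L g
  nc : ∀ g g', (∀ c, NC m c → g c = g' c) → L g = L g'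

/-- complexification -/
noncomputable def cplx (L : (Setoid (Pt m) → ℝ) →ₗ[ℝ] ℝ) : (Setoid (Pt m) → ℂ) →ₗ[ℂ] ℂ where
  toFun g := (L (fun c => (g c).re) : ℂ) + (L (fun c => (g c).im) : ℂ) * Complex.I
  map_add' g g' := by
    have h1 : (fun c => ((g + g') c).re) = (fun c => (g c).re) + fun c => (g' c).re := by
      funext c; simp
    have h2 : (fun c => ((g + g') c).im) = (fun c => (g c).im) + fun c => (g' c).im := by
      funext c; simp
    rw [h1, h2, map_add, map_add]
    push_cast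
    ring
  map_smul' z g := by
    have h1 : (fun c => ((z • g) c).re) = z.re • (fun c => (g c).re) - z.im • fun c => (g c).im := by
      funext c; simp
    have h2 : (fun c => ((z • g) c).im) = z.re • (fun c => (g c).im) + z.im • fun c => (g c).re := by
      funext c; simp
    rw [h1, h2, map_add, map_sub, map_smul, map_smul, map_smul, map_smul]
    simp only [smul_eq_mul, RingHom.id_apply]
    conv_rhs => rw [← Complex.re_add_im z]
    push_cast
    linear_combination (-(z.im : ℂ) * (L (fun c => (g c).im) : ℂ)) * Complex.I_mul_I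

lemma cplx_real (L : (Setoid (Pt m) → ℝ) →ₗ[ℝ] ℝ) (g : Setoid (Pt m) → ℝ) :
    cplx L (fun c => (g c : ℂ)) = (L g : ℂ) := by
  change (L (fun c => ((g c : ℂ)).re) : ℂ) + (L (fun c => ((g c : ℂ)).im) : ℂ) * Complex.I = _
  simp only [Complex.ofReal_re, Complex.ofReal_im]
  have : L (fun _ => (0 : ℝ)) = 0 := map_zero L
  rw [this]
  simp

lemma cplx_stat (L : (Setoid (Pt m) → ℝ) →ₗ[ℝ] ℝ) (h1 : L (fun _ => 1) = 1)
    (h2 : ∀ g, L (fun c => ∑ i ∈ Icc 1 (2 * m), g (ee m i c)) = 2 * m * L g)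
    (h3 : ∀ g g', (∀ c, NC m c → g c = g' c) → L g = L g') : Stat m (cplx L) where
  one := by
    have := cplx_real L (fun _ => 1)
    simp only [Complex.ofReal_one] at this
    rw [this, h1]
    simp
  eig g := by
    change (L (fun c => (∑ i ∈ Icc 1 (2 * m), g (ee m i c)).re) : ℂ) +
      (L (fun c => (∑ i ∈ Icc 1 (2 * m), g (ee m i c)).im) : ℂ) * Complex.I =
      2 * m * ((L (fun c => (g c).re) : ℂ) + (L (fun c => (g c).im) : ℂ) * Complex.I)
    simp only [Complex.re_sum, Complex.im_sum]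
    rw [h2 (fun c => (g c).re), h2 (fun c => (g c).im)]
    push_cast
    ring
  nc g g' h := by
    change (L (fun c => (g c).re) : ℂ) + (L (fun c => (g c).im) : ℂ) * Complex.I =
      (L (fun c => (g' c).re) : ℂ) + (L (fun c => (g' c).im) : ℂ) * Complex.I
    rw [h3 (fun c => (g c).re) (fun c => (g' c).re) fun c hc => by rw [h c hc],
      h3 (fun c => (g c).im) (fun c => (g' c).im) fun c hc => by rw [h c hc]]

lemma lin_mul (L : (Setoid (Pt m) → ℂ) →ₗ[ℂ] ℂ) (z : ℂ) (g : Setoid (Pt m) → ℂ) :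
    L (fun c => z * g c) = z * L g := L.map_smul z g

lemma lin_add (L : (Setoid (Pt m) → ℂ) →ₗ[ℂ] ℂ) (g g' : Setoid (Pt m) → ℂ) :
    L (fun c => g c + g' c) = L g + L g' := L.map_add g g'

lemma lin_sumC (L : (Setoid (Pt m) → ℂ) →ₗ[ℂ] ℂ) (N : ℕ) (g : Setoid (Pt m) → List Bool → ℂ) :
    L (fun c => sumC N (g c)) = sumC N fun x => L fun c => g c x := by
  rw [sumC_eq]
  have : (fun c => sumC N (g c)) = ∑ D ∈ (Icc 1 N).powerset, fun c => g c (lst N D) := by
    funext c
    rw [sumC_eq, Finset.sum_apply]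
  rw [this, map_sum]

/-- the spin vector of the stationary law -/
noncomputable def vL (a : ℂ) (L : (Setoid (Pt m) → ℂ) →ₗ[ℂ] ℂ) (x : List Bool) : ℂ :=
  L fun c => Bof a m c (fn x)

lemma cap_vL (a : ℂ) (L : (Setoid (Pt m) → ℂ) →ₗ[ℂ] ℂ) (s t : List Bool) :
    cap a (vL a L) s t = L fun c => cap a (fun x => Bof a m c (fn x)) s t := by
  unfold cap vL
  rw [lin_add, lin_mul, lin_mul]

lemma vL_HL (ha0 : a ≠ 0) (ha : a⁻¹ * a⁻¹ + a * a = 1) {L : (Setoid (Pt m) → ℂ) →ₗ[ℂ] ℂ}
    (hL : Stat m L) : HL a m (vL a L) := by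
  intro s hs
  have h1 : ∀ i ∈ range (2 * m), A a (s.getD i false) (s.getD (i + 1) false) *
      cap a (vL a L) (s.take i) (s.drop (i + 2)) = L fun c => EE a (i + 1) (Bof a m c) (fn s) := by
    intro i hi
    rw [mem_range] at hi
    rw [cap_vL, ← lin_mul]
    congr 1
    funext c
    have hsp := list_split s i (by omega)
    have e1 : s.getD i false = s[i] := List.getD_eq_getElem _ _ _
    have e2 : s.getD (i + 1) false = s[i + 1] := List.getD_eq_getElem _ _ _
    have hl : (s.take i).length = i := by rw [List.length_take]; omega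
    rw [e1, e2]
    conv_rhs => rw [hsp]
    have := EE_fn a (Bof a m c) (s.take i) (s.drop (i + 2)) s[i] s[i + 1]
    rw [hl] at this
    rw [this]
  rw [sum_congr rfl h1, ← map_sum]
  have h2 : L (∑ i ∈ range (2 * m), fun c => EE a (i + 1) (Bof a m c) (fn s)) =
      L (fun c => ∑ i ∈ Icc 1 (2 * m), Bof a m (ee m i c) (fn s)) := by
    apply hL.nc
    intro c hc
    rw [Finset.sum_apply, range_eq_Ico,
      sum_Ico_add' (fun i => EE a i (Bof a m c) (fn s)) 0 (2 * m) 1]
    refine sum_congr rfl fun i hi => ?_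
    have hi' : 1 ≤ i ∧ i ≤ 2 * m := by
      rw [mem_Icc] at hi
      exact hi
    rw [Bof_ee ha0 ha hc i hi'.1 hi'.2]
  rw [h2, hL.eig (fun c => Bof a m c (fn s))]
  rfl

lemma vL_supp {L : (Setoid (Pt m) → ℂ) →ₗ[ℂ] ℂ} (hL : Stat m L) (x : List Bool)
    (hx : x.length = 2 * m + 1) (hc : x.count true ≠ m + 1) : vL a L x = 0 := by
  unfold vL
  rw [hL.nc _ (fun _ => 0), ← Pi.zero_def, map_zero]
  intro c hc'
  obtain ⟨B, c', h, rfl⟩ := (NC_iff a true m c).1 hc'
  rw [Bof_eq h]
  exact h.step' x hx (by simpa using hc)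

lemma vL_Cc (ha0 : a ≠ 0) (ha : a⁻¹ * a⁻¹ + a * a = 1) {L : (Setoid (Pt m) → ℂ) →ₗ[ℂ] ℂ}
    (hL : Stat m L) : PL (2 * m + 1) (vL a L) (Cc a true m) = 1 := by
  unfold PL
  have : (fun x => vL a L x * Cc a true m (fn x)) =
      fun x => L fun c => Bof a m c (fn x) * Cc a true m (fn x) := by
    funext x
    unfold vL
    rw [mul_comm, ← lin_mul]
    congr 1
    funext c
    ring
  rw [this, ← lin_sumC, hL.nc _ (fun _ => 1) ?_, hL.one]
  intro c hc
  obtain ⟨B, c', h, rfl⟩ := (NC_iff a true m c).1 hc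
  rw [Bof_eq h]
  obtain ⟨c'', h''⟩ := Cc_rep a true m
  exact gram ha0 true (hstep ha0 ha true) h h''

/-- the stationary law of the narrow strip -/
theorem V_eq_vL (hq : q ^ 2 + q + 1 = 0) (ha : a ^ 2 = - q ^ 2) (hΦ : Sol q a Φ)
    {L : (Setoid (Pt m) → ℂ) →ₗ[ℂ] ℂ} (hL : Stat m L) (x : List Bool)
    (hx : x.length = 2 * m + 1) : V1 Φ m (flipL x) = cl a Φ m * vL a L x := by
  obtain ⟨ha0, _, h1, h2, h3⟩ := a_facts hq ha
  by_cases hcx : x.count true = m + 1
  · set V : List Bool → ℂ := fun x => V1 Φ m (flipL x) - cl a Φ m * vL a L x with hV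
    have hHL : HL a m V := by
      intro s hs
      have e1 := (HL_one hq ha hΦ m).flip s hs
      have e2 := vL_HL ha0 h3 hL s hs
      have : ∀ i, cap a V (s.take i) (s.drop (i + 2)) =
          cap a (fun x => V1 Φ m (flipL x)) (s.take i) (s.drop (i + 2)) -
          cl a Φ m * cap a (vL a L) (s.take i) (s.drop (i + 2)) := by
        intro i
        unfold cap
        rw [hV]
        ring
      simp only [this, mul_sub]
      rw [sum_sub_distrib]
      have e3 : ∑ i ∈ range (2 * m), A a (s.getD i false) (s.getD (i + 1) false) *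
          (cl a Φ m * cap a (vL a L) (s.take i) (s.drop (i + 2))) =
          cl a Φ m * (2 * m * vL a L s) := by
        rw [← e2, mul_sum]
        exact sum_congr rfl fun i _ => by ring
      rw [e3]
      have e4 : ∑ i ∈ range (2 * m), A a (s.getD i false) (s.getD (i + 1) false) *
          cap a (fun x => V1 Φ m (flipL x)) (s.take i) (s.drop (i + 2)) =
          2 * m * V1 Φ m (flipL s) := e1
      rw [e4, hV]
      ring
    obtain ⟨c, hc⟩ := Cc_rep a true m
    have hsupp : ∀ x : List Bool, x.length = 2 * m + 1 → x.count true ≠ m + 1 → V x = 0 := by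
      intro x hx hc
      rw [hV]
      simp only
      rw [V2_supp hΦ m x hx hc, vL_supp hL x hx hc]
      ring
    have hGG : GG m (m + 1) (fun D => V (lst (2 * m + 1) D)) (Cc a true m) = 0 := by
      rw [GG_eq _ _ _ _ fun x hx hc => by rw [hsupp x hx hc, zero_mul]]
      have : PL (2 * m + 1) V (Cc a true m) =
          PL (2 * m + 1) (fun x => V1 Φ m (flipL x)) (Cc a true m) -
          cl a Φ m * PL (2 * m + 1) (vL a L) (Cc a true m) := by
        unfold PL
        rw [sumC_eq, sumC_eq, sumC_eq, mul_sum, ← sum_sub_distrib]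
        refine sum_congr rfl fun D _ => ?_
        rw [hV]
        ring
      rw [this, closure_down hq ha hΦ, vL_Cc ha0 h3 hL]
      ring
    have := heig_unique q a hq ha m true (fun D => V (lst (2 * m + 1) D))
      (fun D _ _ => HL.heig h1 h2 ha0 hHL D) (Cc a true m) c hc (by simpa using hGG)
      (stl x) (by rw [← hx]; exact stl_sub x) (by
        have hh := count_lst x.length (stl x) (stl_sub x)
        rw [lst_stl] at hh
        rw [← hh, hcx]
        rfl)
    rw [← hx, lst_stl, hV] at this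
    simp only at this
    linear_combination this
  · rw [V2_supp hΦ m x hx hcx, vL_supp hL x hx hcx]
    ring

end Pool.Agent.H72.CardyP
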