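import Pool.Agent.H72.Cardy.PreSol
import Pool.Agent.H1.LStrip.Cont

/-! Cardy L-strip: from generic parameters to all parameters. -/

set_option autoImplicit false
open Filter Topology

namespace Pool.Agent.H72.Cardy

open ContAux

variable {q a : ℂ} {Φ : List ℂ → List Bool → ℂ}

lemma cont_Phi' (hΦ : PolyData Φ) (n : ℕ) (l : List (ℝ → ℂ)) (hl : l.length = 2 * n + 1)
    (hc : CL l) (hn : NL l) (s : List Bool) : Continuous fun t => Φ (ev l t) s := by
  obtain ⟨P, -, hP⟩ := hΦ n s
  set w : ℝ → Fin (2 * n + 1) → ℂ := fun t i => (l.get (Fin.cast hl.symm i)) t with hw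
  have hofFn : ∀ t, List.ofFn (w t) = ev l t := by
    intro t
    apply List.ext_getElem
    · rw [List.length_ofFn, ev_length, hl]
    · intro i h1 h2
      rw [List.getElem_ofFn]
      simp [hw, ev]
  have hw0 : ∀ t i, w t i ≠ 0 := fun t i => hn _ (List.get_mem _ _) t
  have hwc : ∀ i, Continuous fun t => w t i := fun i => hc _ (List.get_mem _ _)
  have hprod : ∀ t, (∏ i, w t i) ^ n ≠ 0 := fun t => pow_ne_zero _ (Finset.prod_ne_zero_iff.2
    fun i _ => hw0 t i)
  have h1 : (fun t => Φ (ev l t) s) = fun t => MvPolynomial.eval (w t) P / (∏ i, w t i) ^ n := by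
    funext t
    have := hP (w t) (hw0 t)
    rw [hofFn t] at this
    rw [← this, mul_div_cancel_left₀ _ (hprod t)]
  rw [h1]
  apply Continuous.div
  · exact (MvPolynomial.continuous_eval P).comp (continuous_pi hwc)
  · exact (continuous_finsetProd _ fun i _ => hwc i).pow n
  · exact hprod

/-- perturbation of a list -/
noncomputable def pert : ℕ → List ℂ → List (ℝ → ℂ)
  | _, [] => []
  | k, z :: l => (fun t => z * gc k t) :: pert (k + 1) l

lemma pert_length (k : ℕ) (l : List ℂ) : (pert k l).length = l.length := by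
  induction l generalizing k with
  | nil => rfl
  | cons z l ih => simp [pert, ih]

lemma ev_pert_zero (k : ℕ) (l : List ℂ) : ev (pert k l) 0 = l := by
  induction l generalizing k with
  | nil => rfl
  | cons z l ih => simp [pert, ev_cons, gc_zero, ih]

lemma CL_pert (k : ℕ) (l : List ℂ) : CL (pert k l) := by
  induction l generalizing k with
  | nil => exact CL.nil
  | cons z l ih => exact CL.cons (continuous_const.mul (gc_cont k)) (ih _)

lemma NL_pert (k : ℕ) (l : List ℂ) (h : NZ l) : NL (pert k l) := by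
  induction l generalizing k with
  | nil => exact NL.nil
  | cons z l ih =>
    exact NL.cons (fun t => mul_ne_zero (h z (by simp)) (gc_ne k t))
      (ih _ fun t ht => h t (by simp [ht]))

lemma pert_append (k : ℕ) (l l' : List ℂ) : pert k (l ++ l') = pert k l ++ pert (k + l.length) l' := by
  induction l generalizing k with
  | nil => simp [pert]
  | cons z l ih =>
    simp only [List.cons_append, pert, ih, List.length_cons]
    rw [show k + 1 + l.length = k + (l.length + 1) by ring]

lemma gc_cube (i j : ℕ) (hij : i ≠ j) (t : ℝ) (ht : 0 < t) : gc i t ^ 3 ≠ gc j t ^ 3 := by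
  unfold gc
  intro h
  have h1 : Real.exp ((i + 1) * t) ^ 3 = Real.exp ((j + 1) * t) ^ 3 := by exact_mod_cast h
  rw [← Real.exp_nat_mul, ← Real.exp_nat_mul] at h1
  have h2 := Real.exp_injective h1
  have h3 : ((i : ℝ) - j) * t = 0 := by push_cast at h2; linarith
  rcases mul_eq_zero.1 h3 with h4 | h4
  · apply hij
    exact_mod_cast sub_eq_zero.1 h4
  · exact ht.ne' h4

lemma gc_cube' (i : ℕ) (t : ℝ) (ht : 0 < t) : gc i t ^ 3 ≠ 1 := by
  unfold gc
  intro h
  have h1 : Real.exp ((i + 1) * t) ^ 3 = 1 := by exact_mod_cast h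
  rw [← Real.exp_nat_mul, Real.exp_eq_one_iff] at h1
  have : (0 : ℝ) < (3 : ℕ) * ((i + 1) * t) := by positivity
  exact this.ne' h1

lemma ev_ne (z w : ℂ) (f g : ℝ → ℂ) (hf : Continuous f) (hg : Continuous g) (hz : z ≠ 0)
    (hf0 : f 0 = 1) (hg0 : g 0 = 1) (h : ∀ t, 0 < t → f t ^ 3 ≠ g t ^ 3) :
    ∀ᶠ t in 𝓝[>] (0 : ℝ), (z * f t) ^ 3 ≠ (w * g t) ^ 3 := by
  by_cases hzw : z ^ 3 = w ^ 3
  · filter_upwards [self_mem_nhdsWithin] with t ht
    rw [mul_pow, mul_pow, ← hzw]
    intro h1
    exact h t ht (mul_left_cancel₀ (pow_ne_zero 3 hz) h1)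
  · have h1 : Tendsto (fun t => (z * f t) ^ 3 - (w * g t) ^ 3) (𝓝[>] 0) (𝓝 (z ^ 3 - w ^ 3)) := by
      have : Continuous fun t => (z * f t) ^ 3 - (w * g t) ^ 3 := by fun_prop
      have h2 := this.tendsto 0
      rw [hf0, hg0, mul_one, mul_one] at h2
      exact h2.mono_left nhdsWithin_le_nhds
    have h2 := h1.eventually_ne (sub_ne_zero.2 hzw)
    filter_upwards [h2] with t ht
    exact sub_ne_zero.1 ht

lemma pert_gen (l : List ℂ) (h : NZ l) (x : ℂ) : ∀ k, ∀ᶠ t in 𝓝[>] (0 : ℝ),
    ((ev (pert k l) t).Pairwise fun u v => u ^ 3 ≠ v ^ 3) ∧ ∀ u ∈ ev (pert k l) t, u ^ 3 ≠ x ^ 3 := by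
  induction l with
  | nil =>
    intro k
    filter_upwards with t
    simp [pert, ev]
  | cons z l ih =>
    intro k
    have hz : z ≠ 0 := h z (by simp)
    have hpair : ∀ (l : List ℂ) (k' : ℕ), k < k' →
        ∀ᶠ t in 𝓝[>] (0 : ℝ), ∀ u ∈ ev (pert k' l) t, (z * gc k t) ^ 3 ≠ u ^ 3 := by
      intro l
      induction l with
      | nil => intro k' _; filter_upwards with t; simp [pert, ev]
      | cons w l ih' =>
        intro k' hk
        filter_upwards [ih' (k' + 1) (by omega), ev_ne z w (gc k) (gc k') (gc_cont k) (gc_cont k') hz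
          (gc_zero k) (gc_zero k') (gc_cube k k' (by omega))] with t h1 h2
        intro u hu
        simp only [pert, ev_cons, List.mem_cons] at hu
        rcases hu with rfl | hu
        · exact h2
        · exact h1 u hu
    filter_upwards [ih (fun t ht => h t (by simp [ht])) (k + 1), hpair l (k + 1) (by omega),
      ev_ne z x (gc k) (fun _ => 1) (gc_cont k) continuous_const hz (gc_zero k) rfl
        (fun t ht => by rw [one_pow]; exact gc_cube' k t ht)] with t h1 h2 h3
    refine ⟨?_, ?_⟩
    · simp only [pert, ev_cons, List.pairwise_cons]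
      exact ⟨h2, h1.1⟩
    · intro u hu
      simp only [pert, ev_cons, List.mem_cons] at hu
      rcases hu with rfl | hu
      · simpa using h3
      · exact h1.2 u hu

lemma eq_zero_of_ev {f g : ℝ → ℂ} (hf : Continuous f) (hg : Continuous g)
    (h : ∀ᶠ t in 𝓝[>] (0 : ℝ), f t = g t) : f 0 = g 0 := by
  have h1 : Tendsto f (𝓝[>] 0) (𝓝 (f 0)) := (hf.tendsto 0).mono_left nhdsWithin_le_nhds
  have h2 : Tendsto g (𝓝[>] 0) (𝓝 (g 0)) := (hg.tendsto 0).mono_left nhdsWithin_le_nhds
  exact tendsto_nhds_unique (h1.congr' h) h2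

lemma NZ_ev (l : List (ℝ → ℂ)) (h : NL l) (t : ℝ) : NZ (ev l t) := by
  intro x hx
  unfold ev at hx
  rw [List.mem_map] at hx
  obtain ⟨f, hf, rfl⟩ := hx
  exact h f hf t

lemma cont_listprod (l : List (ℝ → ℂ)) (hc : CL l) (F : ℂ → ℂ)
    (hF : ∀ f ∈ l, Continuous fun t => F (f t)) :
    Continuous fun t => ((ev l t).map F).prod := by
  induction l with
  | nil => simpa [ev] using continuous_const
  | cons f l ih =>
    have : (fun t => ((ev (f :: l) t).map F).prod) = fun t => F (f t) * ((ev l t).map F).prod := by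
      funext t
      simp [ev_cons]
    rw [this]
    exact (hF f (by simp)).mul (ih (fun g hg => hc g (by simp [hg])) fun g hg => hF g (by simp [hg]))

theorem sol_of_preSol (hq : q ^ 2 + q + 1 = 0) (h : PreSol q a Φ)
    (he1 : ∀ x l s, x ≠ 0 → (∀ z ∈ l, z ≠ 0) → Φ (x⁻¹ :: l) s = Φ (x :: l) s)
    (he2 : ∀ l x s, x ≠ 0 → (∀ z ∈ l, z ≠ 0) → Φ (l ++ [x⁻¹]) s = Φ (l ++ [x]) s)
    (hpoly : PolyData Φ)
    (hfuse : ∀ (l₁ : List ℂ) (x : ℂ) (l₂ : List ℂ) (s : List Bool) (c d : Bool) (t : List Bool),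
      s.length = l₁.length → t.length = l₂.length → x ≠ 0 → NZ (l₁ ++ l₂) →
      ((l₁ ++ l₂).Pairwise fun u v => u ^ 3 ≠ v ^ 3) → (∀ u ∈ l₁ ++ l₂, u ^ 3 ≠ x ^ 3) →
      Φ (l₁ ++ x :: (q * x) :: l₂) (s ++ c :: d :: t) =
        A a c d * ((l₁ ++ l₂).map fun y => X' y - X' (q⁻¹ * x)).prod * Φ (l₁ ++ l₂) (s ++ t))
    (hone : ∀ z, z ≠ 0 → Φ [z] [false] = 1)
    (hthree : ∀ x y z : ℂ, x ≠ 0 → y ≠ 0 → z ≠ 0 → x ≠ y → x ≠ z → y ≠ z →
      Φ [x, y, z] [true, false, false] = a⁻¹ * (X' z - X' (q * y))) : Sol q a Φ where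
  one := hone
  supp := h.supp
  exch := h.exch
  even_first := he1
  even_last := he2
  poly := hpoly
  three := by
    intro x y z hx hy hz
    have hq0 : q ≠ 0 := by rintro rfl; norm_num at hq
    have hnz : NZ [x, y, z] := by
      intro t ht
      simp only [List.mem_cons, List.not_mem_nil, or_false] at ht
      rcases ht with rfl | rfl | rfl <;> assumption
    have h1 := eq_zero_of_ev (f := fun t => Φ (ev (pert 0 [x, y, z]) t) [true, false, false])
      (g := fun t => a⁻¹ * (X' (z * gc 2 t) - X' (q * (y * gc 1 t))))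
      (cont_Phi' hpoly 1 _ rfl (CL_pert _ _) (NL_pert _ _ hnz) _)
      (continuous_const.mul ((cont_X' (continuous_const.mul (gc_cont 2))
        fun t => mul_ne_zero hz (gc_ne _ _)).sub
        (cont_X' (continuous_const.mul (continuous_const.mul (gc_cont 1)))
          fun t => mul_ne_zero hq0 (mul_ne_zero hy (gc_ne _ _))))) (by
        filter_upwards [pert_gen [x, y, z] hnz 0 0] with t ht
        have h2 := ht.1
        simp only [pert, ev_cons, ev_nil, List.pairwise_cons, List.mem_cons, List.not_mem_nil,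
          or_false] at h2
        have h3 := hthree (x * gc 0 t) (y * gc (0 + 1) t) (z * gc (0 + 1 + 1) t)
          (mul_ne_zero hx (gc_ne _ _)) (mul_ne_zero hy (gc_ne _ _)) (mul_ne_zero hz (gc_ne _ _))
          (fun e => h2.1 _ (Or.inl rfl) (by rw [e])) (fun e => h2.1 _ (Or.inr rfl) (by rw [e]))
          (fun e => h2.2.1 _ rfl (by rw [e]))
        exact h3)
    simp only [ev_pert_zero, gc_zero, mul_one] at h1
    exact h1
  fuse := by
    intro l₁ x l₂ s c d t hs ht hx h0
    have hq0 : q ≠ 0 := by rintro rfl; norm_num at hq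
    obtain ⟨n, hn | hn⟩ := Nat.even_or_odd' (l₁ ++ l₂).length
    · have e1 : Φ (l₁ ++ x :: (q * x) :: l₂) (s ++ c :: d :: t) = 0 := by
        by_contra hne
        have := (h.supp _ _ hne).2
        simp only [List.length_append, List.length_cons] at this hn
        omega
      have e2 : Φ (l₁ ++ l₂) (s ++ t) = 0 := by
        by_contra hne
        have := (h.supp _ _ hne).2
        simp only [List.length_append] at this hn
        omega
      rw [e1, e2, mul_zero]
    · have h01 : NZ l₁ := fun z hz => h0 z (by simp [hz])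
      have h02 : NZ l₂ := fun z hz => h0 z (by simp [hz])
      set p₁ := pert 0 l₁
      set p₂ := pert (0 + l₁.length) l₂
      have hp : pert 0 (l₁ ++ l₂) = p₁ ++ p₂ := pert_append 0 l₁ l₂
      have hC : CL (p₁ ++ p₂) := CL.append (CL_pert _ _) (CL_pert _ _)
      have hN : NL (p₁ ++ p₂) := NL.append (NL_pert _ _ h01) (NL_pert _ _ h02)
      have hC' : CL (p₁ ++ (fun _ => x) :: (fun _ => q * x) :: p₂) :=
        CL.append (CL_pert _ _) (CL.cons continuous_const (CL.cons continuous_const (CL_pert _ _)))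
      have hN' : NL (p₁ ++ (fun _ => x) :: (fun _ => q * x) :: p₂) :=
        NL.append (NL_pert _ _ h01) (NL.cons (fun _ => hx)
          (NL.cons (fun _ => mul_ne_zero hq0 hx) (NL_pert _ _ h02)))
      have hlen : (p₁ ++ p₂).length = 2 * n + 1 := by
        rw [List.length_append, pert_length, pert_length, ← List.length_append, hn]
      have hlen' : (p₁ ++ (fun _ => x) :: (fun _ => q * x) :: p₂).length = 2 * (n + 1) + 1 := by
        rw [List.length_append] at hlen ⊢
        simp only [List.length_cons]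
        omega
      have h1 := eq_zero_of_ev
        (f := fun r => Φ (ev (p₁ ++ (fun _ => x) :: (fun _ => q * x) :: p₂) r) (s ++ c :: d :: t))
        (g := fun r => A a c d * ((ev (p₁ ++ p₂) r).map fun y => X' y - X' (q⁻¹ * x)).prod *
          Φ (ev (p₁ ++ p₂) r) (s ++ t))
        (cont_Phi' hpoly _ _ hlen' hC' hN' _)
        ((continuous_const.mul (cont_listprod _ hC _ fun f hf =>
          (cont_X' (hC f hf) (hN f hf)).sub continuous_const)).mul
          (cont_Phi' hpoly _ _ hlen hC hN _)) (by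
          filter_upwards [pert_gen (l₁ ++ l₂) h0 x 0] with r hr
          rw [hp] at hr
          have e1 : ev (p₁ ++ (fun _ => x) :: (fun _ => q * x) :: p₂) r =
              ev p₁ r ++ x :: (q * x) :: ev p₂ r := by
            rw [ev_append, ev_cons, ev_cons]
          rw [ev_append] at hr
          rw [e1, ev_append]
          have e2 : NZ (ev p₁ r ++ ev p₂ r) := by
            rw [← ev_append]
            exact NZ_ev _ hN r
          refine hfuse (ev p₁ r) x (ev p₂ r) s c d t ?_ ?_ hx e2 hr.1 hr.2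
          · rw [ev_length, pert_length, hs]
          · rw [ev_length, pert_length, ht])
      simp only [ev_append, ev_cons] at h1
      have e3 : ev p₁ 0 = l₁ := ev_pert_zero _ _
      have e4 : ev p₂ 0 = l₂ := ev_pert_zero _ _
      rw [e3, e4] at h1
      exact h1

end Pool.Agent.H72.Cardy
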