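import Pool.Agent.H72.Cardy.PDefs

/-! CAR-P2 (helper28): the percolation side of Cardy's formula in the L-shaped strip; the law of the
partition process with integer times, and the limit of the crossing probability. -/

set_option autoImplicit false
open Finset MeasureTheory Filter Topology

namespace Pool.Agent.H72.CardyP

open Pool.Agent.H75.Exact Pool.Agent.H75.Exact.Lk
open Pool.Agent.H65.Perc (PConf planeMeasure)

/-! ### The edges of the layers -/

theorem eAZ_sum (t : ℤ) (i : ℕ) (hi : 2 ≤ i) : (eAZ t i).1.1 + (eAZ t i).1.2 = (i : ℤ) - 3 := by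
  unfold eAZ
  split <;> simp only <;> omega

theorem eBZ_sum (t : ℤ) (i : ℕ) (hi : 2 ≤ i) : (eBZ t i).1.1 + (eBZ t i).1.2 = (i : ℤ) - 3 := by
  unfold eBZ
  split <;> simp only <;> omega

theorem eAZ_inj {t t' : ℤ} {i i' : ℕ} (hi : 2 ≤ i) (hi' : 2 ≤ i') (h : eAZ t i = eAZ t' i') :
    t = t' ∧ i = i' := by
  have h1 := eAZ_sum t i hi
  have h2 := eAZ_sum t' i' hi'
  rw [h] at h1
  have h3 : i = i' := by omega
  subst h3
  refine ⟨?_, rfl⟩
  unfold eAZ at h
  split at h <;> simp only [Prod.mk.injEq] at h <;> omega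

theorem eBZ_inj {t t' : ℤ} {i i' : ℕ} (hi : 2 ≤ i) (hi' : 2 ≤ i') (h : eBZ t i = eBZ t' i') :
    t = t' ∧ i = i' := by
  have h1 := eBZ_sum t i hi
  have h2 := eBZ_sum t' i' hi'
  rw [h] at h1
  have h3 : i = i' := by omega
  subst h3
  refine ⟨?_, rfl⟩
  unfold eBZ at h
  split at h <;> simp only [Prod.mk.injEq] at h <;> omega

theorem eAZ_ne_eBZ {t t' : ℤ} {i i' : ℕ} (hi : 2 ≤ i) (hi' : 2 ≤ i') : eAZ t i ≠ eBZ t' i' := by
  intro h
  have h1 := eAZ_sum t i hi
  have h2 := eBZ_sum t' i' hi'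
  rw [h] at h1
  have h3 : i = i' := by omega
  subst h3
  unfold eAZ eBZ at h
  split at h <;> simp at h

theorem layZ_fst (n : ℕ) (t : ℤ) : (layZ n t).map Prod.fst = layer n := by
  unfold layZ layer
  rw [List.map_append, List.map_reverse, List.map_map, List.map_map]
  rfl

/-- the edges of time `t` -/
def TimeE (t : ℤ) (e : (ℤ × ℤ) × Bool) : Prop := ∃ i : ℕ, 2 ≤ i ∧ (e = eAZ t i ∨ e = eBZ t i)

theorem TimeE.unique {s t : ℤ} {e : (ℤ × ℤ) × Bool} (hs : TimeE s e) (ht : TimeE t e) : s = t := by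
  obtain ⟨i, hi, h1⟩ := hs
  obtain ⟨j, hj, h2⟩ := ht
  rcases h1 with h1 | h1 <;> rcases h2 with h2 | h2
  · exact (eAZ_inj hi hj (h1.symm.trans h2)).1
  · exact absurd (h1.symm.trans h2) (eAZ_ne_eBZ hi hj)
  · exact absurd (h2.symm.trans h1) (eAZ_ne_eBZ hj hi)
  · exact (eBZ_inj hi hj (h1.symm.trans h2)).1

theorem mem_layZ {n : ℕ} {t : ℤ} {p : ℕ × ((ℤ × ℤ) × Bool)} (hp : p ∈ layZ n t) :
    TimeE t p.2 := by
  unfold layZ at hp
  rw [List.mem_append, List.mem_reverse, List.mem_map, List.mem_map] at hp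
  rcases hp with ⟨j, -, rfl⟩ | ⟨j, -, rfl⟩
  · exact ⟨j + 2, by omega, Or.inl rfl⟩
  · exact ⟨j + 2, by omega, Or.inr rfl⟩

theorem layZ_nodup (n : ℕ) (t : ℤ) : ((layZ n t).map Prod.snd).Nodup := by
  unfold layZ
  rw [List.map_append, List.map_reverse, List.map_map, List.map_map, List.nodup_append,
    List.nodup_reverse]
  refine ⟨?_, ?_, ?_⟩
  · refine List.Nodup.map ?_ List.nodup_range
    intro a b h
    have := (eAZ_inj (by omega) (by omega) (show eAZ t (a + 2) = eAZ t (b + 2) from h)).2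
    omega
  · refine List.Nodup.map ?_ List.nodup_range
    intro a b h
    have := (eBZ_inj (by omega) (by omega) (show eBZ t (a + 2) = eBZ t (b + 2) from h)).2
    omega
  · intro a ha b hb
    rw [List.mem_map] at ha
    rw [List.mem_reverse, List.mem_map] at hb
    obtain ⟨j, -, rfl⟩ := ha
    obtain ⟨j', -, rfl⟩ := hb
    exact eAZ_ne_eBZ (by omega) (by omega)

/-- the edges of the `T` layers of width `n` starting at time `t₀` -/
def FZ (n : ℕ) (t₀ : ℤ) (T : ℕ) : Finset ((ℤ × ℤ) × Bool) :=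
  (range T).biUnion fun s => ((layZ n (t₀ + s)).map Prod.snd).toFinset

theorem FZ_succ (n : ℕ) (t₀ : ℤ) (T : ℕ) :
    FZ n t₀ (T + 1) = FZ n t₀ T ∪ ((layZ n (t₀ + T)).map Prod.snd).toFinset := by
  unfold FZ
  rw [range_add_one, biUnion_insert, union_comm]

theorem mem_FZ {n : ℕ} {t₀ : ℤ} {T : ℕ} {e : (ℤ × ℤ) × Bool} (h : e ∈ FZ n t₀ T) :
    ∃ s : ℕ, s < T ∧ TimeE (t₀ + s) e := by
  unfold FZ at h
  rw [mem_biUnion] at h
  obtain ⟨s, hs, h⟩ := h
  rw [mem_range] at hs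
  rw [List.mem_toFinset, List.mem_map] at h
  obtain ⟨q, hq, rfl⟩ := h
  exact ⟨s, hs, mem_layZ hq⟩

/-- all the edges of `F` have times different from `t₀, t₀ + 1, …` -/
def Before (t₀ : ℤ) (F : Finset ((ℤ × ℤ) × Bool)) : Prop :=
  ∀ e ∈ F, ∀ s : ℕ, ¬ TimeE (t₀ + s) e

theorem Before.layZ {t₀ : ℤ} {F : Finset ((ℤ × ℤ) × Bool)} (hF : Before t₀ F) (n T : ℕ)
    {p : ℕ × ((ℤ × ℤ) × Bool)} (hp : p ∈ layZ n (t₀ + T)) : p.2 ∉ F ∪ FZ n t₀ T := by
  rw [mem_union]
  rintro (h | h)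
  · exact hF _ h T (mem_layZ hp)
  · obtain ⟨s, hs, h1⟩ := mem_FZ h
    have := h1.unique (mem_layZ hp)
    omega

/-! ### The law of the process -/

theorem runZ_dep (n : ℕ) (t₀ : ℤ) (F : Finset ((ℤ × ℤ) × Bool)) (c : PConf → Setoid (Pt n))
    (hc : DepOn F c) (T : ℕ) : DepOn (F ∪ FZ n t₀ T) (fun ω => runZ n t₀ (c ω) ω T) := by
  induction T with
  | zero => exact hc.mono subset_union_left
  | succ T ih =>
    rw [FZ_succ, ← union_assoc]
    exact (foldl_dep n (layZ n (t₀ + T)) (F ∪ FZ n t₀ T) _ (ih.comp up)).comp down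

theorem runZ_step (n : ℕ) (t₀ : ℤ) (F : Finset ((ℤ × ℤ) × Bool)) (c : PConf → Setoid (Pt n))
    (hc : DepOn F c) (hF : Before t₀ F) (T : ℕ) (h : Setoid (Pt n) → ℝ) :
    ∫ ω, h (runZ n t₀ (c ω) ω (T + 1)) ∂planeMeasure =
      ∫ ω, TT n h (runZ n t₀ (c ω) ω T) ∂planeMeasure := by
  have h1 := fold_int n (fun d => h (down d)) (layZ n (t₀ + T)) (F ∪ FZ n t₀ T)
    (fun ω => up (runZ n t₀ (c ω) ω T)) ((runZ_dep n t₀ F c hc T).comp up) (layZ_nodup n _)
    (fun p hp => hF.layZ n T hp)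
  rw [layZ_fst] at h1
  exact h1

theorem runZ_iter (n : ℕ) (t₀ : ℤ) (F : Finset ((ℤ × ℤ) × Bool)) (c : PConf → Setoid (Pt n))
    (hc : DepOn F c) (hF : Before t₀ F) (T : ℕ) : ∀ h : Setoid (Pt n) → ℝ,
    ∫ ω, h (runZ n t₀ (c ω) ω T) ∂planeMeasure =
      ∫ ω, ((TT n)^[T] h) (c ω) ∂planeMeasure := by
  induction T with
  | zero => intro h; rfl
  | succ T ih =>
    intro h
    rw [runZ_step n t₀ F c hc hF T h, ih (TT n h), Function.iterate_succ_apply]

theorem runZ_int (m M : ℕ) (g : Setoid (Pt m) → ℝ) :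
    ∫ ω, g (runZ m (-M) ⊥ ω M) ∂planeMeasure = ((TT m)^[M] g) ⊥ := by
  have h := runZ_iter m (-M) ∅ (fun _ => ⊥) (fun _ _ _ => rfl)
    (fun e he => absurd he (notMem_empty _)) M g
  rw [h]
  simp

/-! ### Absorption -/

theorem runZ_NN (n : ℕ) (t₀ : ℤ) (F : Finset ((ℤ × ℤ) × Bool)) (c : PConf → Setoid (Pt n))
    (hc : DepOn F c) (hF : Before t₀ F) (T : ℕ) :
    ∫ ω, NN (runZ n t₀ (c ω) ω T) ∂planeMeasure ≤ (1 - (1 / 2) ^ (4 * n + 2)) ^ T := by
  have h0 : (0 : ℝ) ≤ 1 - (1 / 2) ^ (4 * n + 2) := by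
    have : (1 / 2 : ℝ) ^ (4 * n + 2) ≤ 1 := pow_le_one₀ (by norm_num) (by norm_num)
    linarith
  induction T with
  | zero =>
    rw [pow_zero]
    calc ∫ ω, NN (runZ n t₀ (c ω) ω 0) ∂planeMeasure ≤ ∫ _, (1 : ℝ) ∂planeMeasure :=
          integral_mono (((runZ_dep n t₀ F c hc 0).comp NN).int _) (integrable_const _)
            fun ω => NN_le_one _
      _ = 1 := by simp
  | succ T ih =>
    rw [runZ_step n t₀ F c hc hF T, pow_succ']
    calc ∫ ω, TT n NN (runZ n t₀ (c ω) ω T) ∂planeMeasure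
        ≤ ∫ ω, (1 - (1 / 2) ^ (4 * n + 2)) * NN (runZ n t₀ (c ω) ω T) ∂planeMeasure :=
          integral_mono (((runZ_dep n t₀ F c hc T).comp (TT n NN)).int _)
            ((((runZ_dep n t₀ F c hc T).comp NN).int _).const_mul _) fun ω => TT_NN n _
      _ = (1 - (1 / 2) ^ (4 * n + 2)) * ∫ ω, NN (runZ n t₀ (c ω) ω T) ∂planeMeasure :=
          integral_const_mul _ _
      _ ≤ _ := mul_le_mul_of_nonneg_left ih h0

theorem runZ_harm (n : ℕ) (hn : 1 ≤ n) (t₀ : ℤ) (F : Finset ((ℤ × ℤ) × Bool))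
    (c : PConf → Setoid (Pt n)) (hc : DepOn F c) (hF : Before t₀ F) (h : Setoid (Pt n) → ℝ)
    (hh : Harm n h) (T : ℕ) :
    ∫ ω, h (runZ n t₀ (c ω) ω T) ∂planeMeasure = ∫ ω, h (c ω) ∂planeMeasure := by
  induction T with
  | zero => rfl
  | succ T ih =>
    rw [runZ_step n t₀ F c hc hF T, ← ih]
    exact integral_congr_ae (Eventually.of_forall fun ω => TT_harm n hn h hh _)

theorem runZ_SW_mono (n : ℕ) (t₀ : ℤ) (c : Setoid (Pt n)) (ω : PConf) (T : ℕ)
    (h : runZ n t₀ c ω T S W) : runZ n t₀ c ω (T + 1) S W := by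
  have key : ∀ (L : List (ℕ × ((ℤ × ℤ) × Bool))) (c : Setoid (Pt (n + 1))), c S W →
      (L.foldl (stepE n ω) c) S W := by
    intro L
    induction L with
    | nil => intro c hc; exact hc
    | cons p L ih =>
      intro c hc
      rw [List.foldl_cons]
      refine ih _ ?_
      by_cases hq : ω p.2 = decide (p.1 % 2 = 0)
      · have e1 : stepE n ω c p = ee (n + 1) p.1 c := if_pos hq
        rw [e1]
        exact ee_SW _ _ hc
      · have e1 : stepE n ω c p = c := if_neg hq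
        rw [e1]
        exact hc
  exact key (layZ n (t₀ + T)) _ ((up_emb _ S W).mpr h)

/-- the probability that the process started from a random partition (depending on finitely many
edges of earlier times) ever joins the source and the wall, and measurability of this event -/
theorem runZ_abs (n : ℕ) (hn : 1 ≤ n) (t₀ : ℤ) (F : Finset ((ℤ × ℤ) × Bool))
    (c : PConf → Setoid (Pt n)) (hc : DepOn F c) (hF : Before t₀ F) (h : Setoid (Pt n) → ℝ)
    (hh : Harm n h) :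
    MeasurableSet {ω | ∃ T, runZ n t₀ (c ω) ω T S W} ∧
    (planeMeasure {ω | ∃ T, runZ n t₀ (c ω) ω T S W}).toReal = ∫ ω, h (c ω) ∂planeMeasure := by
  set A : ℕ → Set PConf := fun T => {ω | runZ n t₀ (c ω) ω T S W} with hA
  have hmono : Monotone A := monotone_nat_of_le_succ fun T ω hω => runZ_SW_mono n t₀ (c ω) ω T hω
  have hunion : {ω | ∃ T, runZ n t₀ (c ω) ω T S W} = ⋃ T, A T := by
    ext ω
    rw [Set.mem_iUnion]
    exact Iff.rfl
  have hdepA : ∀ T, DepOn (F ∪ FZ n t₀ T) (fun ω => AA (runZ n t₀ (c ω) ω T)) :=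
    fun T => (runZ_dep n t₀ F c hc T).comp AA
  have hmeas : ∀ T, MeasurableSet (A T) := by
    intro T
    have : A T = (fun ω => AA (runZ n t₀ (c ω) ω T)) ⁻¹' {1} := by
      ext ω
      rw [Set.mem_preimage, Set.mem_singleton_iff]
      by_cases hω : (runZ n t₀ (c ω) ω T) S W
      · have h2 : ω ∈ A T := hω
        simp [AA, hω, h2]
      · have h2 : ω ∉ A T := hω
        simp [AA, hω, h2]
    rw [this]
    exact (hdepA T).meas (measurableSet_singleton _)
  refine ⟨by rw [hunion]; exact MeasurableSet.iUnion hmeas, ?_⟩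
  have hAint : ∀ T, ∫ ω, AA (runZ n t₀ (c ω) ω T) ∂planeMeasure = (planeMeasure (A T)).toReal := by
    intro T
    have : (fun ω => AA (runZ n t₀ (c ω) ω T)) = (A T).indicator (fun _ => (1 : ℝ)) := by
      funext ω
      by_cases hω : (runZ n t₀ (c ω) ω T) S W
      · have h2 : ω ∈ A T := hω
        simp [AA, hω, h2]
      · have h2 : ω ∉ A T := hω
        simp [AA, hω, h2]
    rw [this, integral_indicator (hmeas T)]
    simp [Measure.real]
  obtain ⟨C, hC0, hC⟩ := h_sub_AA h hh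
  have hbound : ∀ T, |(planeMeasure (A T)).toReal - ∫ ω, h (c ω) ∂planeMeasure| ≤
      C * (1 - (1 / 2) ^ (4 * n + 2)) ^ T := by
    intro T
    rw [← hAint, ← runZ_harm n hn t₀ F c hc hF h hh T,
      ← integral_sub ((hdepA T).int _) (((runZ_dep n t₀ F c hc T).comp h).int _)]
    calc |∫ ω, (AA (runZ n t₀ (c ω) ω T) - h (runZ n t₀ (c ω) ω T)) ∂planeMeasure|
        ≤ ∫ ω, |AA (runZ n t₀ (c ω) ω T) - h (runZ n t₀ (c ω) ω T)| ∂planeMeasure :=
          abs_integral_le_integral_abs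
      _ ≤ ∫ ω, C * NN (runZ n t₀ (c ω) ω T) ∂planeMeasure :=
          integral_mono (((runZ_dep n t₀ F c hc T).comp (fun c => |AA c - h c|)).int _)
            ((((runZ_dep n t₀ F c hc T).comp NN).int _).const_mul _) fun ω => hC _
      _ = C * ∫ ω, NN (runZ n t₀ (c ω) ω T) ∂planeMeasure := integral_const_mul _ _
      _ ≤ _ := mul_le_mul_of_nonneg_left (runZ_NN n t₀ F c hc hF T) hC0
  have hlim1 : Tendsto (fun T => (planeMeasure (A T)).toReal) atTop
      (𝓝 (planeMeasure {ω | ∃ T, runZ n t₀ (c ω) ω T S W}).toReal) := by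
    rw [hunion]
    exact (ENNReal.tendsto_toReal (measure_ne_top _ _)).comp
      (tendsto_measure_iUnion_atTop hmono)
  have hlim2 : Tendsto (fun T => (planeMeasure (A T)).toReal) atTop
      (𝓝 (∫ ω, h (c ω) ∂planeMeasure)) := by
    rw [tendsto_iff_dist_tendsto_zero]
    have hq : (1 / 2 : ℝ) ^ (4 * n + 2) ≤ 1 := pow_le_one₀ (by norm_num) (by norm_num)
    have hq' : (0 : ℝ) < (1 / 2) ^ (4 * n + 2) := by positivity
    have h1 : Tendsto (fun T : ℕ => C * (1 - (1 / 2 : ℝ) ^ (4 * n + 2)) ^ T) atTop (𝓝 0) := by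
      have := (tendsto_pow_atTop_nhds_zero_of_lt_one (r := 1 - (1 / 2 : ℝ) ^ (4 * n + 2))
        (by linarith) (by linarith)).const_mul C
      rwa [mul_zero] at this
    exact squeeze_zero (fun T => dist_nonneg) (fun T => by rw [Real.dist_eq]; exact hbound T) h1
  exact tendsto_nhds_unique hlim1 hlim2

/-! ### The limit -/

/-- events `A M` contained in `B` and such that each point of `B` is in all but finitely many of
them -/
theorem tendsto_measure_of_eventually {Ω : Type*} [MeasurableSpace Ω] (μ : Measure Ω)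
    [IsFiniteMeasure μ] (A : ℕ → Set Ω) (B : Set Ω) (h1 : ∀ M, A M ⊆ B)
    (h2 : ∀ ω ∈ B, ∃ M₀, ∀ M, M₀ ≤ M → ω ∈ A M) :
    Tendsto (fun M => (μ (A M)).toReal) atTop (𝓝 (μ B).toReal) := by
  set D : ℕ → Set Ω := fun M₀ => ⋂ M ≥ M₀, A M with hD
  have hmono : Monotone D := by
    intro a b hab ω hω
    simp only [hD, Set.mem_iInter] at hω ⊢
    exact fun M hM => hω M (hab.trans hM)
  have hB : B = ⋃ M, D M := by
    ext ω
    rw [Set.mem_iUnion]
    constructor
    · intro hω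
      obtain ⟨M₀, hM₀⟩ := h2 ω hω
      exact ⟨M₀, by simp only [hD, Set.mem_iInter]; exact hM₀⟩
    · rintro ⟨M, hM⟩
      simp only [hD, Set.mem_iInter] at hM
      exact h1 M (hM M le_rfl)
  have hlim : Tendsto (fun M => (μ (D M)).toReal) atTop (𝓝 (μ B).toReal) := by
    rw [hB]
    exact (ENNReal.tendsto_toReal (measure_ne_top _ _)).comp (tendsto_measure_iUnion_atTop hmono)
  refine tendsto_of_tendsto_of_tendsto_of_le_of_le hlim tendsto_const_nhds ?_ ?_
  · intro M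
    refine ENNReal.toReal_mono (measure_ne_top _ _) (measure_mono ?_)
    intro ω hω
    simp only [hD, Set.mem_iInter] at hω
    exact hω M le_rfl
  · intro M
    exact ENNReal.toReal_mono (measure_ne_top _ _) (measure_mono (h1 M))

theorem perc_lim (m n : ℕ) (hmn : m < n) (h : Setoid (Pt n) → ℝ) (hh : Harm n h)
    (hsound : ∀ (ω : PConf) (M T' : ℕ), runZ n 0 (ext m n (runZ m (-M) ⊥ ω M)) ω T' S W → LCross m n ω)
    (hcomp : ∀ ω, LCross m n ω →
      ∃ M₀, ∀ M : ℕ, M₀ ≤ M → ∃ T', runZ n 0 (ext m n (runZ m (-M) ⊥ ω M)) ω T' S W) :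
    Tendsto (fun M : ℕ => ((TT m)^[M] fun c => h (ext m n c)) ⊥) atTop
      (𝓝 (planeMeasure {ω | LCross m n ω}).toReal) := by
  have h1 : ∀ M : ℕ, ((TT m)^[M] fun c => h (ext m n c)) ⊥ =
      (planeMeasure {ω | ∃ T', runZ n 0 (ext m n (runZ m (-M) ⊥ ω M)) ω T' S W}).toReal := by
    intro M
    have hd : DepOn (FZ m (-M) M) (fun ω => ext m n (runZ m (-M) ⊥ ω M)) := by
      have := runZ_dep m (-M) ∅ (fun _ => ⊥) (fun _ _ _ => rfl) M
      rw [empty_union] at this
      exact this.comp (ext m n)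
    have hB : Before 0 (FZ m (-M) M) := by
      intro e he s hs
      obtain ⟨r, hr, h2⟩ := mem_FZ he
      have := h2.unique hs
      omega
    rw [(runZ_abs n (by omega) 0 _ _ hd hB h hh).2]
    exact (runZ_int m M (fun c => h (ext m n c))).symm
  simp only [h1]
  exact tendsto_measure_of_eventually planeMeasure _ _ (fun M ω hω => by
    obtain ⟨T', hT'⟩ := hω
    exact hsound ω M T' hT') (fun ω hω => hcomp ω hω)

end Pool.Agent.H72.CardyP
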