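import Pool.Agent.H72.Cardy.AsmG
import Pool.Agent.H72.Cardy.Stat
import Pool.Agent.H30.Glue.LProb
import Pool.Agent.H35.Cardy.Hom
import Pool.Agent.H23.Cardy.Limit

/-! The exact value of the crossing probability of the L-shaped strip and its limit. -/

set_option autoImplicit false
open Finset MeasureTheory Filter Topology

namespace Pool.Agent.H72.CardyP

open Pool.Agent.H75.Exact Pool.Agent.H75.Exact.Lk
open Pool.Agent.H65.Perc (PConf planeMeasure)
open Pool.Agent.H72.Cardy (Sol)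

variable {q a : ℂ} {Φ : List ℂ → List Bool → ℂ}

theorem NC_hTT (m : ℕ) (l : List ℕ) (c : Setoid (Pt m)) (h : NC m c) :
    NC m (down (l.foldl (fun d i => ee (m + 1) i d) (up c))) := by
  apply NC_down
  have : ∀ (l : List ℕ) (d : Setoid (Pt (m + 1))), NC (m + 1) d →
      NC (m + 1) (l.foldl (fun d i => ee (m + 1) i d) d) := by
    intro l
    induction l with
    | nil => intro d hd; exact hd
    | cons i l ih => intro d hd; exact ih _ (NC_ee _ _ _ hd)
  exact this l _ (NC_up _ _ h)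

theorem value_of (hq : q ^ 2 + q + 1 = 0) (ha : a ^ 2 = - q ^ 2) (hΦ : Sol q a Φ) (m r : ℕ) :
    (planeMeasure {ω | LCross m (m + 1 + r) ω}).toReal =
      1 - Pool.Agent.H23.Cardy.S (2 * m + 1) (2 * (m + 1 + r) + 1) := by
  obtain ⟨h, hh, _⟩ := exists_harm (m + 1 + r) (by omega)
  obtain ⟨L, hL0, hL1, hL2, hL3⟩ := exists_stat m (NC_bot m) (fun i c hc => NC_ee m i c hc)
    (NC_hTT m)
  have hP := Pool.Agent.H30.Glue.perc_lim' m (m + 1 + r) (by omega) h hh
  have hLP := tendsto_nhds_unique (hL0 fun c => h (ext m (m + 1 + r) c)) hP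
  have h1 := Nodd_value hq ha hΦ m r h hh L hL1 hL2 hL3
  have h2 := Pool.Agent.H72.Cardy.Nodd_one hq ha hΦ m r
  have h3 := Pool.Agent.H35.Cardy.hom_formula m r
  have h4 := Pool.Agent.H72.Cardy.Neven_one hq ha hΦ m
  have h5 := Pool.Agent.H72.Cardy.Neven_one hq ha hΦ (m + 1 + r)
  rw [Neven_cl hΦ] at h4 h5
  have e : 2 * (m + 1 + r) + 1 = 2 * m + 2 * r + 3 := by ring
  have s1 := Pool.Agent.H35.Cardy.S_ne m
  have s2 := Pool.Agent.H35.Cardy.S_ne (m + 1 + r)
  rw [h2, h3, h4, h5, hLP] at h1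
  rw [e] at h1 s2 ⊢
  have h6 : ((Pool.Agent.H23.Cardy.S (2 * m + 1) (2 * m + 2 * r + 3) : ℝ) : ℂ) =
      1 - ((planeMeasure {ω | LCross m (m + 1 + r) ω}).toReal : ℂ) := by
    apply mul_left_cancel₀ s2
    apply mul_left_cancel₀ s1
    linear_combination h1
  have h7 : Pool.Agent.H23.Cardy.S (2 * m + 1) (2 * m + 2 * r + 3) =
      1 - (planeMeasure {ω | LCross m (m + 1 + r) ω}).toReal := by exact_mod_cast h6
  rw [h7]
  ring

end Pool.Agent.H72.CardyP
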